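import Mathlib

set_option autoImplicit false

/-!
# Block sequences of Schauder bases, and the sequence spaces `S p E`

`S 𝕜 p E` is the space of all sequences in `E` which are in `ℓ_p(E)` and tend to zero; so it is
`ℓ_p(E)` for `p < ∞` and `c_0(E)` for `p = ∞`.
-/

noncomputable section

namespace Pool.Agent.Lib.MP_a0554b_an

open Filter Topology
open scoped ENNReal

universe u v w

section block

variable {𝕜 : Type v} [RCLike 𝕜] {X : Type u} [NormedAddCommGroup X] [NormedSpace 𝕜 X]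

/-- An infinite block sequence of the Schauder basis `b`: nonzero vectors of finite support with
`max supp (y k) < min supp (y (k + 1))`. -/
structure IsBlock (b : SchauderBasis 𝕜 X) (y : ℕ → X) : Prop where
  ne_zero : ∀ k, y k ≠ 0
  finite : ∀ k, {n | b.coord n (y k) ≠ 0}.Finite
  lt : ∀ k m n, b.coord m (y k) ≠ 0 → b.coord n (y (k + 1)) ≠ 0 → m < n

/-- The closed linear span of a sequence. -/
def closedSpan (𝕜 : Type v) [RCLike 𝕜] {X : Type u} [NormedAddCommGroup X] [NormedSpace 𝕜 X]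
    (y : ℕ → X) : Submodule 𝕜 X :=
  (Submodule.span 𝕜 (Set.range y)).topologicalClosure

/-- `Y` and `Z` are `C`-isomorphic. -/
def IsoC (𝕜 : Type v) [RCLike 𝕜] (C : ℝ) (Y : Type u) (Z : Type w)
    [NormedAddCommGroup Y] [NormedSpace 𝕜 Y] [NormedAddCommGroup Z] [NormedSpace 𝕜 Z] : Prop :=
  ∃ T : Y ≃L[𝕜] Z, ‖(T : Y →L[𝕜] Z)‖ * ‖(T.symm : Z →L[𝕜] Y)‖ ≤ C

/-- Isomorphic with explicit bounds. -/
def IsoB (𝕜 : Type v) [RCLike 𝕜] (K : ℝ) (Y : Type u) (Z : Type w)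
    [NormedAddCommGroup Y] [NormedSpace 𝕜 Y] [NormedAddCommGroup Z] [NormedSpace 𝕜 Z] : Prop :=
  ∃ T : Y ≃L[𝕜] Z, (∀ y, ‖T y‖ ≤ K * ‖y‖) ∧ ∀ z, ‖T.symm z‖ ≤ K * ‖z‖

/-- Every block subspace is isomorphic to the whole space. -/
def BlockHomogeneous (b : SchauderBasis 𝕜 X) : Prop :=
  ∀ y : ℕ → X, IsBlock b y → Nonempty (closedSpan 𝕜 y ≃L[𝕜] X)

/-- Every block subspace is `C`-isomorphic to the whole space. -/
def BlockHomogeneousWith (b : SchauderBasis 𝕜 X) (C : ℝ) : Prop :=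
  ∀ y : ℕ → X, IsBlock b y → IsoC 𝕜 C (closedSpan 𝕜 y) X

/-- `X` contains a subspace isomorphic to `E`. -/
def Contains (𝕜 : Type v) [RCLike 𝕜] (E : Type w) (X : Type u)
    [NormedAddCommGroup E] [NormedSpace 𝕜 E] [NormedAddCommGroup X] [NormedSpace 𝕜 X] : Prop :=
  ∃ (T : E →L[𝕜] X) (c : ℝ), 0 < c ∧ ∀ x, c * ‖x‖ ≤ ‖T x‖

/-- The finite dimensional space `G` is `C`-isomorphic to a `C`-complemented subspace of `X`. -/
def Nice (C : ℝ) (G : Submodule 𝕜 X) : Prop :=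
  ∃ (a : G →L[𝕜] X) (g : X →L[𝕜] G), g ∘L a = ContinuousLinearMap.id 𝕜 G ∧ ‖a‖ ≤ 1 ∧ ‖g‖ ≤ C

end block

section S

variable (𝕜 : Type v) [RCLike 𝕜] (p : ℝ≥0∞) [Fact (1 ≤ p)] (E : Type u)
  [NormedAddCommGroup E] [NormedSpace 𝕜 E]

/-- The sequences in `ℓ_p(E)` which tend to zero. -/
def Ssub : Submodule 𝕜 (lp (fun _ : ℕ => E) p) where
  carrier := {x | Tendsto (fun k => x k) atTop (𝓝 0)}
  add_mem' := by
    intro x y hx hy
    have h := Tendsto.add hx hy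
    rw [add_zero] at h
    exact h
  zero_mem' := tendsto_const_nhds
  smul_mem' := by
    intro c x hx
    have h := Tendsto.const_smul hx c
    rw [smul_zero] at h
    exact h

/-- `S 𝕜 p E` is `ℓ_p(E)` for `p < ∞` and `c_0(E)` for `p = ∞`. -/
abbrev S : Type u := Ssub 𝕜 p E

variable {𝕜 p E}

/-- the `k`-th coordinate -/
def ev (k : ℕ) : S 𝕜 p E →L[𝕜] E :=
  LinearMap.mkContinuous
    { toFun := fun x => x.1 k
      map_add' := fun _ _ => rfl
      map_smul' := fun _ _ => rfl } 1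
    (fun x => by
      rw [one_mul]
      exact lp.norm_apply_le_norm (by
        have := (Fact.out : 1 ≤ p)
        intro h
        rw [h] at this
        simp at this) x.1 k)

theorem ev_apply (k : ℕ) (x : S 𝕜 p E) : ev k x = x.1 k := rfl

/-- a sequence in `ℓ_p(E)` which tends to zero, as an element of `S 𝕜 p E` -/
def ofSeq (f : ℕ → E) (hf : Memℓp f p) (h0 : Tendsto f atTop (𝓝 0)) : S 𝕜 p E :=
  ⟨⟨f, hf⟩, h0⟩

@[simp] theorem ev_ofSeq (f : ℕ → E) (hf : Memℓp f p) (h0 : Tendsto f atTop (𝓝 0)) (k : ℕ) :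
    ev (𝕜 := 𝕜) k (ofSeq f hf h0) = f k := rfl

theorem S_ext {x y : S 𝕜 p E} (h : ∀ k, ev k x = ev k y) : x = y :=
  Subtype.ext (lp.ext (funext h))

theorem memℓp_ev (x : S 𝕜 p E) : Memℓp (fun k => ev k x) p := lp.memℓp x.1

theorem tendsto_ev (x : S 𝕜 p E) : Tendsto (fun k => ev k x) atTop (𝓝 0) := x.2

theorem p_ne_zero (p : ℝ≥0∞) [Fact (1 ≤ p)] : p ≠ 0 := by
  have := (Fact.out : 1 ≤ p)
  intro h
  rw [h] at this
  simp at this

theorem norm_ev_le (k : ℕ) (x : S 𝕜 p E) : ‖ev k x‖ ≤ ‖x‖ :=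
  lp.norm_apply_le_norm (p_ne_zero p) x.1 k

/-- comparison: if `‖f k‖ ≤ ‖x k‖` for all `k` then `f` is in `S` too, with smaller norm -/
theorem exists_of_le {𝕜' : Type*} [RCLike 𝕜'] {F : Type w} [NormedAddCommGroup F]
    [NormedSpace 𝕜' F] (x : S 𝕜 p E) (f : ℕ → F) (h : ∀ k, ‖f k‖ ≤ ‖ev k x‖) :
    ∃ y : S 𝕜' p F, (∀ k, ev k y = f k) ∧ ‖y‖ ≤ ‖x‖ := by
  have h1 : Memℓp f p := (memℓp_ev x).mono' h
  have h2 : Tendsto f atTop (𝓝 0) := by
    rw [tendsto_zero_iff_norm_tendsto_zero]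
    exact squeeze_zero (fun _ => norm_nonneg _) h
      (tendsto_zero_iff_norm_tendsto_zero.1 (tendsto_ev x))
  refine ⟨ofSeq f h1 h2, fun k => rfl, ?_⟩
  exact lp.norm_mono (p_ne_zero p) (x := (ofSeq (𝕜 := 𝕜') f h1 h2).1) (y := x.1) h

/-- an operator into `S 𝕜 p E` given by its coordinates -/
theorem exists_op {Y : Type w} [NormedAddCommGroup Y] [NormedSpace 𝕜 Y] (T : ℕ → Y →ₗ[𝕜] E)
    (M : ℝ) (h : ∀ y, ∃ x : S 𝕜 p E, (∀ k, ev k x = T k y) ∧ ‖x‖ ≤ M * ‖y‖) :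
    ∃ A : Y →L[𝕜] S 𝕜 p E, (∀ y k, ev k (A y) = T k y) ∧ ∀ y, ‖A y‖ ≤ M * ‖y‖ := by
  choose f h1 h2 using h
  refine ⟨LinearMap.mkContinuous
    { toFun := f
      map_add' := fun x y => S_ext fun k => by rw [map_add, h1, h1, h1, map_add]
      map_smul' := fun c x => S_ext fun k => by rw [map_smul, h1, h1, map_smul]; rfl } M h2,
    fun y k => h1 y k, fun y => h2 y⟩

open Classical in
theorem exists_tr (s : Set ℕ) : ∃ A : S 𝕜 p E →L[𝕜] S 𝕜 p E,
    (∀ x k, ev k (A x) = if k ∈ s then ev k x else 0) ∧ ∀ x, ‖A x‖ ≤ 1 * ‖x‖ := by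
  have h := exists_op (𝕜 := 𝕜) (p := p) (E := E) (Y := S 𝕜 p E)
    (fun k => if k ∈ s then ((ev k : S 𝕜 p E →L[𝕜] E) : S 𝕜 p E →ₗ[𝕜] E) else 0) 1
    (fun x => by
      obtain ⟨y, h1, h2⟩ := exists_of_le (𝕜' := 𝕜) x (fun k => if k ∈ s then ev k x else 0)
        (fun k => by
        split_ifs
        · exact le_rfl
        · rw [norm_zero]; exact norm_nonneg _)
      refine ⟨y, fun k => ?_, by rw [one_mul]; exact h2⟩
      rw [h1 k]
      split_ifs <;> rfl)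
  obtain ⟨A, h1, h2⟩ := h
  refine ⟨A, fun x k => ?_, h2⟩
  rw [h1 x k]
  split_ifs <;> rfl

/-- `tr s x` is the restriction of the sequence `x` to `s ⊆ ℕ` (zero outside `s`) -/
def tr (s : Set ℕ) : S 𝕜 p E →L[𝕜] S 𝕜 p E := (exists_tr s).choose

open Classical in
theorem ev_tr (s : Set ℕ) (k : ℕ) (x : S 𝕜 p E) :
    ev k (tr s x) = if k ∈ s then ev k x else 0 :=
  (exists_tr s).choose_spec.1 x k

theorem norm_tr_le (s : Set ℕ) (x : S 𝕜 p E) : ‖tr s x‖ ≤ ‖x‖ := by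
  have h := (exists_tr (𝕜 := 𝕜) (p := p) (E := E) s).choose_spec.2 x
  rwa [one_mul] at h

theorem norm_tr_op_le (s : Set ℕ) : ‖(tr s : S 𝕜 p E →L[𝕜] S 𝕜 p E)‖ ≤ 1 :=
  ContinuousLinearMap.opNorm_le_bound _ zero_le_one (fun x => by
    rw [one_mul]; exact norm_tr_le s x)

theorem tr_tr (s t : Set ℕ) (x : S 𝕜 p E) : tr s (tr t x) = tr (s ∩ t) x := by
  apply S_ext
  intro k
  simp only [ev_tr, Set.mem_inter_iff]
  by_cases h1 : k ∈ s <;> by_cases h2 : k ∈ t <;> simp [h1, h2]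

/-- the sequence with `a` at place `k` and zeros elsewhere -/
def sgl (k : ℕ) : E →L[𝕜] S 𝕜 p E :=
  ContinuousLinearMap.codRestrict (lp.singleContinuousLinearMap 𝕜 (fun _ : ℕ => E) p k)
    (Ssub 𝕜 p E) (fun a => by
      refine tendsto_const_nhds.congr' ?_
      filter_upwards [eventually_gt_atTop k] with j hj
      exact (lp.single_apply_ne (E := fun _ : ℕ => E) p k a hj.ne').symm)

theorem ev_sgl (k j : ℕ) (a : E) :
    ev j (sgl k a : S 𝕜 p E) = if j = k then a else 0 := by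
  split_ifs with h
  · subst h
    exact lp.single_apply_self (E := fun _ : ℕ => E) p j a
  · exact lp.single_apply_ne (E := fun _ : ℕ => E) p k a h

theorem norm_sgl (k : ℕ) (a : E) : ‖(sgl k a : S 𝕜 p E)‖ = ‖a‖ :=
  lp.norm_single (E := fun _ : ℕ => E) (lt_of_lt_of_le one_pos Fact.out) k a

theorem tr_Iio_eq_sum (m : ℕ) (x : S 𝕜 p E) :
    tr (Set.Iio m) x = ∑ k ∈ Finset.range m, sgl k (ev k x) := by
  apply S_ext
  intro j
  rw [ev_tr, map_sum]
  simp only [ev_sgl, Finset.sum_ite_eq, Finset.mem_range, Set.mem_Iio]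

end S

end Pool.Agent.Lib.MP_a0554b_an
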