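import Mathlib
import Pool.Agent.Lib.MP_a0554b_an.Defs

set_option autoImplicit false

/-!
# Basic facts about `S 𝕜 p E`
-/

noncomputable section

namespace Pool.Agent.Lib.MP_a0554b_an

open Filter Topology
open scoped ENNReal

universe u v w

variable {𝕜 : Type v} [RCLike 𝕜] {p : ℝ≥0∞} [Fact (1 ≤ p)] {E : Type u}
  [NormedAddCommGroup E] [NormedSpace 𝕜 E]

/-- `S 𝕜 p E` is a closed subspace of `ℓ_p(E)`, hence complete.
PROOF: `Ssub` is closed: if `x` is in the closure and `ε > 0`, choose `y ∈ Ssub` with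
`‖x - y‖ < ε / 2`; `‖x k‖ ≤ ‖y k‖ + ‖x - y‖` for all `k`. Then `IsClosed.completeSpace_coe`
(`lp` has a `CompleteSpace` instance: `import Mathlib`). -/
instance A1_complete [CompleteSpace E] : CompleteSpace (S 𝕜 p E) := by
  have hc : IsClosed (Ssub 𝕜 p E : Set (lp (fun _ : ℕ => E) p)) := by
    refine isClosed_of_closure_subset ?_
    intro x hx
    rw [Metric.mem_closure_iff] at hx
    change Tendsto (fun k => x k) atTop (𝓝 0)
    rw [Metric.tendsto_atTop]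
    intro ε hε
    obtain ⟨y, hy, hxy⟩ := hx (ε / 2) (half_pos hε)
    have hy' : Tendsto (fun k => y k) atTop (𝓝 0) := hy
    rw [Metric.tendsto_atTop] at hy'
    obtain ⟨N, hN⟩ := hy' (ε / 2) (half_pos hε)
    refine ⟨N, fun n hn => ?_⟩
    have h1 := hN n hn
    rw [dist_zero_right] at h1 ⊢
    have h2 : ‖x n - y n‖ ≤ ‖x - y‖ := lp.norm_apply_le_norm (p_ne_zero p) (x - y) n
    rw [dist_eq_norm] at hxy
    have h3 : ‖x n‖ ≤ ‖x n - y n‖ + ‖y n‖ := by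
      calc ‖x n‖ = ‖(x n - y n) + y n‖ := by rw [sub_add_cancel]
        _ ≤ ‖x n - y n‖ + ‖y n‖ := norm_add_le _ _
    linarith
  exact hc.completeSpace_coe

theorem ev_tr_mem {s : Set ℕ} {k : ℕ} (h : k ∈ s) (x : S 𝕜 p E) : ev k (tr s x) = ev k x := by
  classical
  rw [ev_tr, if_pos h]

theorem ev_tr_notMem {s : Set ℕ} {k : ℕ} (h : k ∉ s) (x : S 𝕜 p E) : ev k (tr s x) = 0 := by
  classical
  rw [ev_tr, if_neg h]

theorem sub_tr (s : Set ℕ) (x : S 𝕜 p E) : x - tr s x = tr sᶜ x := by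
  classical
  apply S_ext
  intro k
  rw [map_sub, ev_tr, ev_tr]
  by_cases h : k ∈ s <;> simp [h]

theorem norm_sub_tr_le (s : Set ℕ) (x : S 𝕜 p E) : ‖x - tr s x‖ ≤ ‖x‖ := by
  rw [sub_tr]; exact norm_tr_le _ _

theorem norm_tr_mono {s t : Set ℕ} (h : s ⊆ t) (x : S 𝕜 p E) : ‖tr s x‖ ≤ ‖tr t x‖ := by
  have h1 : tr s x = tr s (tr t x) := by rw [tr_tr, Set.inter_eq_left.2 h]
  rw [h1]; exact norm_tr_le _ _

/-- PROOF: `p = ∞`: `‖x - tr (Iio m) x‖ = sup_{k ≥ m} ‖x k‖ → 0` since `x k → 0`.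
`p < ∞`: `‖x - tr (Iio m) x‖ ^ p = ∑_{k ≥ m} ‖x k‖ ^ p → 0`
(`tendsto_sum_nat_add` or `tendsto_tsum_compl_atTop_zero`); or use `lp.hasSum_single` and
`tr_Iio_eq_sum`. -/
theorem tendsto_tr (x : S 𝕜 p E) : Tendsto (fun m => tr (Set.Iio m) x) atTop (𝓝 x) := by
  by_cases hp : p = ⊤
  · subst hp
    rw [Metric.tendsto_atTop]
    intro ε hε
    have hx := tendsto_ev x
    rw [Metric.tendsto_atTop] at hx
    obtain ⟨N, hN⟩ := hx (ε / 2) (half_pos hε)
    refine ⟨N, fun m hm => ?_⟩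
    rw [dist_eq_norm, ← norm_neg, neg_sub, sub_tr]
    have h1 : ‖tr (Set.Iio m)ᶜ x‖ ≤ ε / 2 := by
      refine lp.norm_le_of_forall_le (half_pos hε).le (f := (tr (Set.Iio m)ᶜ x).1) ?_
      intro k
      have h2 : ((tr (Set.Iio m)ᶜ x).1 k : E) = ev k (tr (Set.Iio m)ᶜ x) := rfl
      rw [h2]
      by_cases hk : k ∈ (Set.Iio m)ᶜ
      · rw [ev_tr_mem hk]
        have h3 : N ≤ k := by
          rw [Set.mem_compl_iff, Set.mem_Iio, not_lt] at hk
          exact hm.trans hk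
        have h4 := hN k h3
        rw [dist_zero_right] at h4
        exact h4.le
      · rw [ev_tr_notMem hk, norm_zero]
        exact (half_pos hε).le
    linarith
  · rw [tendsto_subtype_rng]
    have h1 := (lp.hasSum_single hp x.1).tendsto_sum_nat
    refine h1.congr fun m => ?_
    rw [tr_Iio_eq_sum, AddSubmonoidClass.coe_finsetSum]
    rfl

/-- PROOF: finite sum of `sgl k` of `ev k x`, from `tr_Iio_eq_sum`: `tr (Iio m)` is of finite rank if
`E = 𝕜`. For a family of operators `A i : S 𝕜 p 𝕜 →L[𝕜] F` with `A i (sgl k 1) → 0` for each `k`,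
`‖A i ∘L tr (Iio m)‖ → 0`, since `A i (tr (Iio m) x) = ∑_{k < m} ev k x • A i (sgl k 1)`. -/
theorem norm_comp_tr_le {F : Type w} [NormedAddCommGroup F] [NormedSpace 𝕜 F]
    (A : S 𝕜 p 𝕜 →L[𝕜] F) (m : ℕ) :
    ‖A ∘L tr (Set.Iio m)‖ ≤ ∑ k ∈ Finset.range m, ‖A (sgl k 1)‖ := by
  refine ContinuousLinearMap.opNorm_le_bound _ (Finset.sum_nonneg fun _ _ => norm_nonneg _) ?_
  intro x
  rw [ContinuousLinearMap.comp_apply, tr_Iio_eq_sum, map_sum, Finset.sum_mul]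
  refine (norm_sum_le _ _).trans (Finset.sum_le_sum fun k _ => ?_)
  have h1 : (sgl k (ev k x) : S 𝕜 p 𝕜) = ev k x • sgl k 1 := by
    rw [← map_smul, smul_eq_mul, mul_one]
  rw [h1, map_smul, norm_smul, mul_comm]
  exact mul_le_mul_of_nonneg_left (norm_ev_le k x) (norm_nonneg _)

/-- PROOF: `tr (Iio m) (A y) = ∑_{k < m} sgl k (ev k (A y))` -/
theorem norm_tr_comp_le {F : Type w} [NormedAddCommGroup F] [NormedSpace 𝕜 F]
    (A : F →L[𝕜] S 𝕜 p 𝕜) (m : ℕ) :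
    ‖tr (Set.Iio m) ∘L A‖ ≤ ∑ k ∈ Finset.range m, ‖ev k ∘L A‖ := by
  refine ContinuousLinearMap.opNorm_le_bound _ (Finset.sum_nonneg fun _ _ => norm_nonneg _) ?_
  intro y
  rw [ContinuousLinearMap.comp_apply, tr_Iio_eq_sum, Finset.sum_mul]
  refine (norm_sum_le _ _).trans (Finset.sum_le_sum fun k _ => ?_)
  rw [norm_sgl]
  exact (ev k ∘L A).le_opNorm y

/-- absolutely convergent series: a summable nonnegative real sequence is in `S ℝ p ℝ` with norm
at most its sum.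
PROOF: `u = ∑' j, sgl j (ε j)` converges absolutely (`norm_sgl`), `ev` is continuous
(`ContinuousLinearMap.map_tsum`), `norm_tsum_le_tsum_norm`. -/
theorem exists_of_summable (ε : ℕ → ℝ) (h0 : ∀ j, 0 ≤ ε j) (h : Summable ε) :
    ∃ u : S ℝ p ℝ, (∀ j, ev j u = ε j) ∧ ‖u‖ ≤ ∑' j, ε j := by
  have h1 : ∀ j, ‖(sgl j (ε j) : S ℝ p ℝ)‖ = ε j := fun j => by
    rw [norm_sgl, Real.norm_eq_abs, abs_of_nonneg (h0 j)]
  have h2 : Summable fun j => ‖(sgl j (ε j) : S ℝ p ℝ)‖ := by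
    simp only [h1]
    exact h
  have h3 : Summable fun j => (sgl j (ε j) : S ℝ p ℝ) := h2.of_norm
  refine ⟨∑' j, sgl j (ε j), fun j => ?_, ?_⟩
  · rw [ContinuousLinearMap.map_tsum _ h3, tsum_eq_single j]
    · rw [ev_sgl, if_pos rfl]
    · intro k hk
      rw [ev_sgl, if_neg (Ne.symm hk)]
  · refine (norm_tsum_le_tsum_norm h2).trans (le_of_eq ?_)
    simp only [h1]

end Pool.Agent.Lib.MP_a0554b_an
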