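import Mathlib
import Pool.Agent.Lib.MP_a0554b_an.A1

set_option autoImplicit false

/-!
# Windows: pieces of a vector of `S 𝕜 p E` on sets `U j` with bounded overlap
-/

noncomputable section

namespace Pool.Agent.Lib.MP_a0554b_an

open Filter Topology
open scoped ENNReal

universe u v w

variable {𝕜 : Type v} [RCLike 𝕜] {p : ℝ≥0∞} [Fact (1 ≤ p)] {E : Type u}
  [NormedAddCommGroup E] [NormedSpace 𝕜 E]

/-- Sets `U j` such that `U i` and `U j` are disjoint if `i ≠ j` are congruent modulo `r`. -/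
structure Overlap (r : ℕ) (U : ℕ → Set ℕ) : Prop where
  pos : 0 < r
  disj : ∀ i j, i ≠ j → i % r = j % r → Disjoint (U i) (U j)

theorem A2_toReal_pos (hp : p ≠ ∞) : 0 < p.toReal :=
  ENNReal.toReal_pos (p_ne_zero p) hp

/-- `p < ∞`: the `p`-th powers of the norms of the pieces -/
theorem A2_sum_le (hp : p ≠ ∞) (U : ℕ → Set ℕ) (hU : ∀ i j, i ≠ j → Disjoint (U i) (U j))
    (x : S 𝕜 p E) (s : Finset ℕ) :
    ∑ j ∈ s, ‖tr (U j) x‖ ^ p.toReal ≤ ‖x‖ ^ p.toReal := by
  classical
  have hq : 0 < p.toReal := A2_toReal_pos hp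
  have hN : ∀ y : S 𝕜 p E, ‖y‖ ^ p.toReal = ∑' k, ‖ev k y‖ ^ p.toReal := fun y =>
    lp.norm_rpow_eq_tsum hq y.1
  have hS : ∀ y : S 𝕜 p E, Summable (fun k => ‖ev k y‖ ^ p.toReal) := fun y =>
    (memℓp_gen_iff hq).1 (memℓp_ev y)
  have h1 : ∑ j ∈ s, ‖tr (U j) x‖ ^ p.toReal
      = ∑' k, ∑ j ∈ s, ‖ev k (tr (U j) x)‖ ^ p.toReal := by
    rw [Summable.tsum_finsetSum (fun j _ => hS (tr (U j) x))]
    exact Finset.sum_congr rfl (fun j _ => hN _)
  rw [h1, hN x]
  refine Summable.tsum_le_tsum (fun k => ?_) (summable_sum (fun j _ => hS (tr (U j) x))) (hS x)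
  by_cases hk : ∃ j ∈ s, k ∈ U j
  · obtain ⟨j, hj, hkj⟩ := hk
    rw [Finset.sum_eq_single_of_mem j hj]
    · rw [ev_tr, if_pos hkj]
    · intro i _ hij
      have hki : k ∉ U i := fun h => Set.disjoint_left.1 (hU i j hij) h hkj
      rw [ev_tr, if_neg hki, norm_zero, Real.zero_rpow hq.ne']
  · push Not at hk
    rw [Finset.sum_eq_zero]
    · exact Real.rpow_nonneg (norm_nonneg _) _
    · intro j hj
      rw [ev_tr, if_neg (hk j hj), norm_zero, Real.zero_rpow hq.ne']

/-- PROOF of the case of pairwise disjoint sets. `t j = ‖tr (U j) x‖`.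
`p < ∞`: for a finite set `s`, `∑_{j ∈ s} ‖tr (U j) x‖ ^ p = ‖tr (⋃_{j ∈ s} U j) x‖ ^ p ≤ ‖x‖ ^ p`
by induction on `s`, where `‖tr (A ∪ B) x‖ ^ p = ‖tr A x‖ ^ p + ‖tr B x‖ ^ p` for disjoint `A`, `B`
(`lp.norm_rpow_eq_tsum`, `tsum_add`, and `‖ev k (tr (A ∪ B) x)‖ ^ p =
‖ev k (tr A x)‖ ^ p + ‖ev k (tr B x)‖ ^ p`). So `t` is in `ℓ_p` (`memℓp_gen'`), hence tends to `0`
(its `p`-th powers are summable), and its norm is at most `‖x‖` (`lp.norm_le_of_forall_sum_le`).
`p = ∞`: `t j ≤ ‖x‖`. `t j → 0`: for `ε > 0` the set of `k` with `‖ev k x‖ ≥ ε` is finite, so only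
finitely many of the disjoint `U j` meet it, for the others `‖tr (U j) x‖ ≤ ε`
(`lp.norm_le_of_forall_le`). -/
theorem window_one (U : ℕ → Set ℕ) (hU : ∀ i j, i ≠ j → Disjoint (U i) (U j)) (x : S 𝕜 p E) :
    ∃ t : S ℝ p ℝ, (∀ j, ev j t = ‖tr (U j) x‖) ∧ ‖t‖ ≤ ‖x‖ := by
  classical
  by_cases hp : p = ∞
  · subst hp
    have hmem : Memℓp (fun j => ‖tr (U j) x‖) ∞ := by
      apply memℓp_infty
      refine ⟨‖x‖, ?_⟩
      rintro _ ⟨j, rfl⟩
      simp only [norm_norm]
      exact norm_tr_le _ _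
    have h0 : Tendsto (fun j => ‖tr (U j) x‖) atTop (𝓝 0) := by
      rw [Metric.tendsto_atTop]
      intro ε hε
      obtain ⟨N, hN⟩ := (Metric.tendsto_atTop.1 (tendsto_ev x)) (ε / 2) (half_pos hε)
      -- the sets meeting `[0, N)`
      have hfin : {j | (U j ∩ Set.Iio N).Nonempty}.Finite := by
        have hinj : Set.InjOn
            (fun j => if h : (U j ∩ Set.Iio N).Nonempty then h.some else 0)
            {j | (U j ∩ Set.Iio N).Nonempty} := by
          intro i hi j hj hij
          by_contra hne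
          simp only [Set.mem_setOf_eq] at hi hj
          simp only [dif_pos hi, dif_pos hj] at hij
          have h1 := hi.some_mem.1
          have h2 := hj.some_mem.1
          rw [hij] at h1
          exact Set.disjoint_left.1 (hU i j hne) h1 h2
        refine Set.Finite.of_finite_image ((Set.finite_Iio N).subset ?_) hinj
        rintro _ ⟨j, hj, rfl⟩
        simp only [Set.mem_setOf_eq] at hj
        simp only [dif_pos hj]
        exact hj.some_mem.2
      obtain ⟨M, hM⟩ := hfin.bddAbove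
      refine ⟨M + 1, fun j hj => ?_⟩
      have hj' : ¬ (U j ∩ Set.Iio N).Nonempty := fun h => by
        have := hM h
        omega
      rw [Real.dist_eq, sub_zero, abs_of_nonneg (norm_nonneg _)]
      refine lt_of_le_of_lt ?_ (half_lt_self hε)
      refine lp.norm_le_of_forall_le (f := (tr (U j) x).1) (half_pos hε).le (fun k => ?_)
      change ‖ev k (tr (U j) x)‖ ≤ ε / 2
      rw [ev_tr]
      split_ifs with hk
      · have hkN : N ≤ k := by
          by_contra hlt
          exact hj' ⟨k, hk, by simpa using hlt⟩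
        have := hN k hkN
        rw [dist_zero_right] at this
        exact this.le
      · rw [norm_zero]; exact (half_pos hε).le
    refine ⟨ofSeq _ hmem h0, fun j => rfl, ?_⟩
    refine lp.norm_le_of_forall_le (f := (ofSeq (𝕜 := ℝ) _ hmem h0).1) (norm_nonneg x)
      (fun j => ?_)
    change ‖‖tr (U j) x‖‖ ≤ ‖x‖
    rw [norm_norm]
    exact norm_tr_le _ _
  · have hq : 0 < p.toReal := A2_toReal_pos hp
    have hsum := A2_sum_le hp U hU x
    have hmem : Memℓp (fun j => ‖tr (U j) x‖) p := by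
      refine memℓp_gen' (C := ‖x‖ ^ p.toReal) (fun s => ?_)
      simp only [norm_norm]
      exact hsum s
    have h0 : Tendsto (fun j => ‖tr (U j) x‖) atTop (𝓝 0) := by
      have h1 := ((memℓp_gen_iff hq).1 hmem).tendsto_atTop_zero
      have h2 := h1.rpow_const (p := 1 / p.toReal) (Or.inr (by positivity))
      rw [Real.zero_rpow (by positivity)] at h2
      refine h2.congr (fun j => ?_)
      rw [norm_norm, ← Real.rpow_mul (norm_nonneg _), mul_one_div_cancel hq.ne', Real.rpow_one]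
    refine ⟨ofSeq _ hmem h0, fun j => rfl, ?_⟩
    refine lp.norm_le_of_forall_sum_le hq (f := (ofSeq (𝕜 := ℝ) _ hmem h0).1) (norm_nonneg x)
      (fun s => ?_)
    change ∑ j ∈ s, ‖‖tr (U j) x‖‖ ^ p.toReal ≤ ‖x‖ ^ p.toReal
    simp only [norm_norm]
    exact hsum s

/-- PROOF: for `i < r` apply `window_one` to `U' j = U j` if `j % r = i`, `∅` otherwise
(`tr ∅ x = 0`), and add the `r` sequences. -/
theorem window {r : ℕ} {U : ℕ → Set ℕ} (hU : Overlap r U) (x : S 𝕜 p E) :
    ∃ t : S ℝ p ℝ, (∀ j, ev j t = ‖tr (U j) x‖) ∧ ‖t‖ ≤ r * ‖x‖ := by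
  classical
  have hdisj : ∀ i : ℕ, ∀ a b, a ≠ b → Disjoint ((fun j => if j % r = i then U j else ∅) a)
      ((fun j => if j % r = i then U j else (∅ : Set ℕ)) b) := by
    intro i a b hab
    simp only
    split_ifs with h1 h2
    · exact hU.disj a b hab (h1.trans h2.symm)
    · exact Set.disjoint_empty _
    · exact Set.empty_disjoint _
    · exact Set.empty_disjoint _
  have hw := fun i : ℕ => window_one (fun j => if j % r = i then U j else ∅) (hdisj i) x
  choose t ht1 ht2 using hw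
  refine ⟨∑ i ∈ Finset.range r, t i, fun j => ?_, ?_⟩
  · rw [map_sum]
    rw [Finset.sum_eq_single_of_mem (j % r) (Finset.mem_range.2 (Nat.mod_lt _ hU.pos))]
    · rw [ht1, if_pos rfl]
    · intro i _ hij
      rw [ht1, if_neg (fun h => hij h.symm)]
      have : tr ∅ x = 0 := by
        apply S_ext
        intro k
        rw [ev_tr, if_neg (Set.notMem_empty k), map_zero]
      rw [this, norm_zero]
  · refine (norm_sum_le _ _).trans ?_
    refine (Finset.sum_le_sum (fun i _ => ht2 i)).trans ?_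
    rw [Finset.sum_const, Finset.card_range, nsmul_eq_mul]

end Pool.Agent.Lib.MP_a0554b_an
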