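import Mathlib
import Pool.Agent.Lib.MP_a0554b_an.A2

set_option autoImplicit false

/-!
# Sums of vectors supported on sets `U j` with bounded overlap
-/

noncomputable section

namespace Pool.Agent.Lib.MP_a0554b_an

open Filter Topology
open scoped ENNReal

universe u v w

variable {𝕜 : Type v} [RCLike 𝕜] {p : ℝ≥0∞} [Fact (1 ≤ p)] {E : Type u}
  [NormedAddCommGroup E] [NormedSpace 𝕜 E] {𝕜' : Type*} [RCLike 𝕜'] {F : Type w}
  [NormedAddCommGroup F] [NormedSpace 𝕜' F]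

open Classical in
/-- outside `U j` the vector `v j` vanishes -/
theorem A3_ev_zero {U : ℕ → Set ℕ} (v : ℕ → S 𝕜' p F) (hv : ∀ j, tr (U j) (v j) = v j)
    {k j : ℕ} (hk : k ∉ U j) : ev k (v j) = 0 := by
  rw [← hv j, ev_tr, if_neg hk]

/-- PROOF: the case of pairwise disjoint sets (`r = 1`). `p < ∞`: by induction on `s`,
`‖∑_{j ∈ s} v j‖ ^ p = ∑_{j ∈ s} ‖v j‖ ^ p`, since for `a` supported on `A`, `b` supported on `B`,
`A`, `B` disjoint, `‖a + b‖ ^ p = ‖a‖ ^ p + ‖b‖ ^ p` (`lp.norm_rpow_eq_tsum`). And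
`∑_{j ∈ s} ‖v j‖ ^ p ≤ c ^ p * ∑_{j ∈ s} ‖ev j x‖ ^ p = c ^ p * ‖tr s x‖ ^ p`.
`p = ∞`: every coordinate of `∑_{j ∈ s} v j` is a coordinate of one `v j` (or zero), so
`‖∑_{j ∈ s} v j‖ ≤ c * sup_{j ∈ s} ‖ev j x‖ ≤ c * ‖tr s x‖`. -/
theorem disj_sum_one {U : ℕ → Set ℕ} (hU : ∀ i j, i ≠ j → Disjoint (U i) (U j))
    (v : ℕ → S 𝕜' p F) (hv : ∀ j, tr (U j) (v j) = v j) (x : S 𝕜 p E) {c : ℝ} (hc : 0 ≤ c)
    (h : ∀ j, ‖v j‖ ≤ c * ‖ev j x‖) (s : Finset ℕ) :
    ‖∑ j ∈ s, v j‖ ≤ c * ‖tr (s : Set ℕ) x‖ := by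
  classical
  have hR : 0 ≤ c * ‖tr (s : Set ℕ) x‖ := mul_nonneg hc (norm_nonneg _)
  by_cases hp : p = ∞
  · subst hp
    refine lp.norm_le_of_forall_le (f := (∑ j ∈ s, v j).1) hR (fun k => ?_)
    change ‖ev k (∑ j ∈ s, v j)‖ ≤ c * ‖tr (s : Set ℕ) x‖
    rw [map_sum]
    by_cases hk : ∃ j ∈ s, k ∈ U j
    · obtain ⟨j, hj, hkj⟩ := hk
      rw [Finset.sum_eq_single_of_mem j hj]
      · refine (norm_ev_le k (v j)).trans ((h j).trans ?_)
        refine mul_le_mul_of_nonneg_left ?_ hc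
        have h1 : ev j (tr (s : Set ℕ) x) = ev j x := by
          rw [ev_tr, if_pos (Finset.mem_coe.2 hj)]
        rw [← h1]
        exact norm_ev_le j _
      · intro i _ hij
        exact A3_ev_zero v hv (fun hki => Set.disjoint_left.1 (hU i j hij) hki hkj)
    · push Not at hk
      rw [Finset.sum_eq_zero (fun j hj => A3_ev_zero v hv (hk j hj)), norm_zero]
      exact hR
  · have hq : 0 < p.toReal := A2_toReal_pos hp
    have hN : ∀ y : S 𝕜' p F, ‖y‖ ^ p.toReal = ∑' k, ‖ev k y‖ ^ p.toReal := fun y =>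
      lp.norm_rpow_eq_tsum hq y.1
    have hS : ∀ y : S 𝕜' p F, Summable (fun k => ‖ev k y‖ ^ p.toReal) := fun y =>
      (memℓp_gen_iff hq).1 (memℓp_ev y)
    have hN' : ∀ y : S 𝕜 p E, ‖y‖ ^ p.toReal = ∑' k, ‖ev k y‖ ^ p.toReal := fun y =>
      lp.norm_rpow_eq_tsum hq y.1
    have hS' : ∀ y : S 𝕜 p E, Summable (fun k => ‖ev k y‖ ^ p.toReal) := fun y =>
      (memℓp_gen_iff hq).1 (memℓp_ev y)
    have h1 : ‖∑ j ∈ s, v j‖ ^ p.toReal = ∑ j ∈ s, ‖v j‖ ^ p.toReal := by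
      have h2 : ∑ j ∈ s, ‖v j‖ ^ p.toReal = ∑' k, ∑ j ∈ s, ‖ev k (v j)‖ ^ p.toReal := by
        rw [Summable.tsum_finsetSum (fun j _ => hS (v j))]
        exact Finset.sum_congr rfl (fun j _ => hN _)
      rw [h2, hN]
      refine tsum_congr (fun k => ?_)
      rw [map_sum]
      by_cases hk : ∃ j ∈ s, k ∈ U j
      · obtain ⟨j, hj, hkj⟩ := hk
        have h3 : ∀ i, i ≠ j → ev k (v i) = 0 := fun i hij =>
          A3_ev_zero v hv (fun hki => Set.disjoint_left.1 (hU i j hij) hki hkj)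
        rw [Finset.sum_eq_single_of_mem j hj (fun i _ hij => h3 i hij),
          Finset.sum_eq_single_of_mem j hj (fun i _ hij => by
            rw [h3 i hij, norm_zero, Real.zero_rpow hq.ne'])]
      · push Not at hk
        rw [Finset.sum_eq_zero (fun j hj => A3_ev_zero v hv (hk j hj)), norm_zero,
          Real.zero_rpow hq.ne', Finset.sum_eq_zero]
        intro j hj
        rw [A3_ev_zero v hv (hk j hj), norm_zero, Real.zero_rpow hq.ne']
    have h4 : ∑ j ∈ s, ‖ev j x‖ ^ p.toReal ≤ ‖tr (s : Set ℕ) x‖ ^ p.toReal := by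
      rw [hN']
      have h5 : ∑ j ∈ s, ‖ev j x‖ ^ p.toReal
          = ∑ j ∈ s, ‖ev j (tr (s : Set ℕ) x)‖ ^ p.toReal := by
        refine Finset.sum_congr rfl (fun j hj => ?_)
        rw [ev_tr, if_pos (Finset.mem_coe.2 hj)]
      rw [h5]
      exact (hS' (tr (s : Set ℕ) x)).sum_le_tsum s
        (fun j _ => Real.rpow_nonneg (norm_nonneg _) _)
    have h6 : ‖∑ j ∈ s, v j‖ ^ p.toReal ≤ (c * ‖tr (s : Set ℕ) x‖) ^ p.toReal := by
      rw [h1, Real.mul_rpow hc (norm_nonneg _)]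
      calc ∑ j ∈ s, ‖v j‖ ^ p.toReal ≤ ∑ j ∈ s, c ^ p.toReal * ‖ev j x‖ ^ p.toReal := by
            refine Finset.sum_le_sum (fun j _ => ?_)
            rw [← Real.mul_rpow hc (norm_nonneg _)]
            exact Real.rpow_le_rpow (norm_nonneg _) (h j) hq.le
        _ = c ^ p.toReal * ∑ j ∈ s, ‖ev j x‖ ^ p.toReal := by rw [Finset.mul_sum]
        _ ≤ c ^ p.toReal * ‖tr (s : Set ℕ) x‖ ^ p.toReal :=
            mul_le_mul_of_nonneg_left h4 (Real.rpow_nonneg hc _)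
    exact (Real.rpow_le_rpow_iff (norm_nonneg _) hR hq).1 h6

/-- PROOF: split `s` into the `r` residue classes, apply `disj_sum_one` to
`U' j = U j` if `j % r = i`, `∅` otherwise, `v' j = v j` if `j % r = i`, `0` otherwise;
`tr (s : Set ℕ)`. -/
theorem disj_sum {r : ℕ} {U : ℕ → Set ℕ} (hU : Overlap r U)
    (v : ℕ → S 𝕜' p F) (hv : ∀ j, tr (U j) (v j) = v j) (x : S 𝕜 p E) {c : ℝ} (hc : 0 ≤ c)
    (h : ∀ j, ‖v j‖ ≤ c * ‖ev j x‖) (s : Finset ℕ) :
    ‖∑ j ∈ s, v j‖ ≤ r * c * ‖tr (s : Set ℕ) x‖ := by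
  classical
  have h1 : ∑ j ∈ s, v j
      = ∑ i ∈ Finset.range r, ∑ j ∈ s, (if j % r = i then v j else 0) := by
    rw [Finset.sum_comm]
    refine Finset.sum_congr rfl (fun j _ => ?_)
    rw [Finset.sum_ite_eq, if_pos (Finset.mem_range.2 (Nat.mod_lt _ hU.pos))]
  rw [h1]
  refine (norm_sum_le _ _).trans ?_
  have h2 : ∀ i ∈ Finset.range r, ‖∑ j ∈ s, (if j % r = i then v j else 0)‖
      ≤ c * ‖tr (s : Set ℕ) x‖ := by
    intro i _
    refine disj_sum_one (U := fun j => if j % r = i then U j else ∅) ?_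
      (fun j => if j % r = i then v j else 0) ?_ x hc ?_ s
    · intro a b hab
      split_ifs with h1 h2
      · exact hU.disj a b hab (h1.trans h2.symm)
      · exact Set.disjoint_empty _
      · exact Set.empty_disjoint _
      · exact Set.empty_disjoint _
    · intro j
      split_ifs with h1
      · exact hv j
      · rw [map_zero]
    · intro j
      split_ifs with h1
      · exact h j
      · rw [norm_zero]
        exact mul_nonneg hc (norm_nonneg _)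
  refine (Finset.sum_le_sum h2).trans ?_
  rw [Finset.sum_const, Finset.card_range, nsmul_eq_mul, mul_assoc]

end Pool.Agent.Lib.MP_a0554b_an
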