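import Mathlib
import Pool.Agent.Lib.MP_a0554b_an.A3

set_option autoImplicit false

/-!
# Operators from `S 𝕜 p E` given by a sequence of operators with nearly disjoint ranges
-/

noncomputable section

namespace Pool.Agent.Lib.MP_a0554b_an

open Filter Topology
open scoped ENNReal

universe u v w

variable {𝕜 : Type v} [RCLike 𝕜] {p : ℝ≥0∞} [Fact (1 ≤ p)] {E : Type u}
  [NormedAddCommGroup E] [NormedSpace 𝕜 E] {F : Type w} [NormedAddCommGroup F] [NormedSpace 𝕜 F]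

/-- PROOF. Put `v j = tr (U j) (T j (ev j x))`, `w j = T j (ev j x) - v j`. By `disj_sum` (with
`tr_tr`), `‖∑_{j ∈ s} v j‖ ≤ r * c * ‖tr s x‖`; and `‖∑_{j ∈ s} w j‖ ≤ ∑_{j ∈ s} ε j * ‖x‖`
(`norm_ev_le`). So the partial sums `∑_{j < n} T j (ev j x)` are Cauchy: for `m ≤ n`, with
`s = Ico m n`, `‖tr s x‖ ≤ ‖x - tr (Iio m) x‖ → 0` (`tendsto_tr`, `sub_tr`, `norm_tr_mono`), and the
tails of `∑ ε j` tend to zero. Let `β x` be the limit, linear in `x`
(uniqueness of limits), `‖β x‖ ≤ (r * c + e) * ‖x‖` (take `s = range n`, `norm_tr_le`,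
`le_of_tendsto`); `LinearMap.mkContinuous`. -/
theorem cosum [CompleteSpace F] {r : ℕ} {U : ℕ → Set ℕ} (hU : Overlap r U)
    (T : ℕ → E →L[𝕜] S 𝕜 p F) {c e : ℝ} (hc : 0 ≤ c) {ε : ℕ → ℝ} (hε0 : ∀ j, 0 ≤ ε j)
    (hε : Summable ε) (he : ∑' j, ε j ≤ e)
    (h1 : ∀ j x, ‖tr (U j) (T j x)‖ ≤ c * ‖x‖)
    (h2 : ∀ j x, ‖T j x - tr (U j) (T j x)‖ ≤ ε j * ‖x‖) :
    ∃ β : S 𝕜 p E →L[𝕜] S 𝕜 p F,
      (∀ x, Tendsto (fun n => ∑ j ∈ Finset.range n, T j (ev j x)) atTop (𝓝 (β x))) ∧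
      ∀ x, ‖β x‖ ≤ (r * c + e) * ‖x‖ := by
  have key : ∀ (x : S 𝕜 p E) (s : Finset ℕ),
      ‖∑ j ∈ s, T j (ev j x)‖ ≤ r * c * ‖tr (s : Set ℕ) x‖ + (∑ j ∈ s, ε j) * ‖x‖ := by
    intro x s
    have e1 : ∑ j ∈ s, T j (ev j x) = ∑ j ∈ s, tr (U j) (T j (ev j x))
        + ∑ j ∈ s, (T j (ev j x) - tr (U j) (T j (ev j x))) := by
      rw [← Finset.sum_add_distrib]
      exact Finset.sum_congr rfl fun j _ => (add_sub_cancel _ _).symm
    have e2 : ‖∑ j ∈ s, tr (U j) (T j (ev j x))‖ ≤ r * c * ‖tr (s : Set ℕ) x‖ :=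
      disj_sum hU (fun j => tr (U j) (T j (ev j x))) (fun j => by rw [tr_tr, Set.inter_self]) x hc
        (fun j => h1 j _) s
    have e3 : ‖∑ j ∈ s, (T j (ev j x) - tr (U j) (T j (ev j x)))‖ ≤ (∑ j ∈ s, ε j) * ‖x‖ := by
      rw [Finset.sum_mul]
      refine (norm_sum_le _ _).trans (Finset.sum_le_sum fun j _ => ?_)
      exact (h2 j _).trans (mul_le_mul_of_nonneg_left (norm_ev_le j x) (hε0 j))
    rw [e1]
    exact (norm_add_le _ _).trans (add_le_add e2 e3)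
  have hrc : 0 ≤ (r : ℝ) * c := mul_nonneg (Nat.cast_nonneg r) hc
  have cau : ∀ x : S 𝕜 p E, CauchySeq (fun n => ∑ j ∈ Finset.range n, T j (ev j x)) := by
    intro x
    refine cauchySeq_of_le_tendsto_0'
      (fun m => r * c * ‖tr (Set.Iio m) x - x‖
        + (∑' j, ε j - ∑ j ∈ Finset.range m, ε j) * ‖x‖) ?_ ?_
    · intro m n hmn
      have e1 : ∑ j ∈ Finset.range n, T j (ev j x) - ∑ j ∈ Finset.range m, T j (ev j x)
          = ∑ j ∈ Finset.Ico m n, T j (ev j x) :=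
        (Finset.sum_Ico_eq_sub (fun j => T j (ev j x)) hmn).symm
      have e2 : ∑ j ∈ Finset.Ico m n, ε j ≤ ∑' j, ε j - ∑ j ∈ Finset.range m, ε j := by
        rw [Finset.sum_Ico_eq_sub ε hmn]
        exact sub_le_sub_right (hε.sum_le_tsum _ fun j _ => hε0 j) _
      have e3 : ‖tr ((Finset.Ico m n : Finset ℕ) : Set ℕ) x‖ ≤ ‖tr (Set.Iio m) x - x‖ := by
        rw [← norm_neg (tr (Set.Iio m) x - x), neg_sub, sub_tr]
        refine norm_tr_mono ?_ x
        intro k hk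
        rw [Finset.coe_Ico, Set.mem_Ico] at hk
        rw [Set.mem_compl_iff, Set.mem_Iio, not_lt]
        exact hk.1
      rw [dist_eq_norm, ← norm_neg, neg_sub, e1]
      exact (key x _).trans (add_le_add (mul_le_mul_of_nonneg_left e3 hrc)
        (mul_le_mul_of_nonneg_right e2 (norm_nonneg x)))
    · have t1 : Tendsto (fun m => ‖tr (Set.Iio m) x - x‖) atTop (𝓝 0) :=
        tendsto_iff_norm_sub_tendsto_zero.1 (tendsto_tr x)
      have t2 : Tendsto (fun m => ∑' j, ε j - ∑ j ∈ Finset.range m, ε j) atTop (𝓝 0) := by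
        have := hε.hasSum.tendsto_sum_nat.const_sub (∑' j, ε j)
        rwa [sub_self] at this
      have t3 := (t1.const_mul ((r : ℝ) * c)).add (t2.mul_const ‖x‖)
      rw [mul_zero, zero_mul, add_zero] at t3
      exact t3
  have lim : ∀ x : S 𝕜 p E, ∃ y : S 𝕜 p F,
      Tendsto (fun n => ∑ j ∈ Finset.range n, T j (ev j x)) atTop (𝓝 y) := fun x =>
    cauchySeq_tendsto_of_complete (cau x)
  choose f hf using lim
  have bd : ∀ x, ‖f x‖ ≤ (r * c + e) * ‖x‖ := by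
    intro x
    refine le_of_tendsto (hf x).norm (Eventually.of_forall fun n => ?_)
    refine (key x _).trans ?_
    rw [add_mul]
    refine add_le_add (mul_le_mul_of_nonneg_left (norm_tr_le _ _) hrc) ?_
    exact mul_le_mul_of_nonneg_right ((hε.sum_le_tsum _ fun j _ => hε0 j).trans he) (norm_nonneg x)
  refine ⟨LinearMap.mkContinuous
    { toFun := f
      map_add' := fun x y => ?_
      map_smul' := fun a x => ?_ } _ bd, fun x => hf x, fun x => bd x⟩
  · refine tendsto_nhds_unique (hf (x + y)) ?_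
    refine ((hf x).add (hf y)).congr fun n => ?_
    rw [← Finset.sum_add_distrib]
    exact Finset.sum_congr rfl fun j _ => by rw [map_add, map_add]
  · refine tendsto_nhds_unique (hf (a • x)) ?_
    refine ((hf x).const_smul a).congr fun n => ?_
    rw [Finset.smul_sum]
    exact Finset.sum_congr rfl fun j _ => by rw [map_smul, map_smul]

end Pool.Agent.Lib.MP_a0554b_an
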