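import Mathlib
import Pool.Agent.Lib.MP_a0554b_an.A2

set_option autoImplicit false

/-!
# Operators into `S 𝕜 p E` given by a sequence of operators living on windows
-/

noncomputable section

namespace Pool.Agent.Lib.MP_a0554b_an

open Filter Topology
open scoped ENNReal

universe u v w

variable {𝕜 : Type v} [RCLike 𝕜] {p : ℝ≥0∞} [Fact (1 ≤ p)] {E : Type u}
  [NormedAddCommGroup E] [NormedSpace 𝕜 E] {F : Type w} [NormedAddCommGroup F] [NormedSpace 𝕜 F]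

/-- PROOF: `exists_op`. For `y`, let `t` be as in `window` for `x = ι y` and `u` as in
`exists_of_summable`; `g = c • t + ‖y‖ • u ∈ S ℝ p ℝ` has norm at most
`c * r * ‖ι y‖ + ‖y‖ * e ≤ (r * c + e) * ‖y‖` and `‖T j y‖ ≤ ev j g = ‖ev j g‖`; so
`exists_of_le` applies (with `E` there equal to `ℝ`). -/
theorem assemble {Y : Type*} [NormedAddCommGroup Y] [NormedSpace 𝕜 Y] {r : ℕ} {U : ℕ → Set ℕ}
    (hU : Overlap r U) (ι : Y →L[𝕜] S 𝕜 p F) (hι : ∀ y, ‖ι y‖ ≤ ‖y‖) (T : ℕ → Y →L[𝕜] E)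
    {c e : ℝ} (hc : 0 ≤ c) {ε : ℕ → ℝ} (hε0 : ∀ j, 0 ≤ ε j) (hε : Summable ε)
    (he : ∑' j, ε j ≤ e) (h : ∀ j y, ‖T j y‖ ≤ c * ‖tr (U j) (ι y)‖ + ε j * ‖y‖) :
    ∃ α : Y →L[𝕜] S 𝕜 p E, (∀ y j, ev j (α y) = T j y) ∧ ∀ y, ‖α y‖ ≤ (r * c + e) * ‖y‖ := by
  have key : ∀ y : Y, ∃ x : S 𝕜 p E, (∀ k, ev k x = (T k : Y →ₗ[𝕜] E) y) ∧
      ‖x‖ ≤ (r * c + e) * ‖y‖ := by
    intro y
    obtain ⟨t, ht1, ht2⟩ := window hU (ι y)
    obtain ⟨u, hu1, hu2⟩ := exists_of_summable (p := p) ε hε0 hε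
    have hg : ∀ j, ev j (c • t + ‖y‖ • u) = c * ‖tr (U j) (ι y)‖ + ‖y‖ * ε j := fun j => by
      rw [map_add, map_smul, map_smul, ht1, hu1, smul_eq_mul, smul_eq_mul]
    obtain ⟨x, hx1, hx2⟩ := exists_of_le (𝕜' := 𝕜) (c • t + ‖y‖ • u) (fun j => T j y) (fun j => by
      rw [hg j, Real.norm_eq_abs, abs_of_nonneg (add_nonneg (mul_nonneg hc (norm_nonneg _))
        (mul_nonneg (norm_nonneg _) (hε0 j))), mul_comm ‖y‖]
      exact h j y)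
    refine ⟨x, hx1, hx2.trans ?_⟩
    refine (norm_add_le _ _).trans ?_
    rw [norm_smul, norm_smul, Real.norm_eq_abs, abs_of_nonneg hc, norm_norm]
    have b1 : c * ‖t‖ ≤ c * (r * ‖y‖) :=
      mul_le_mul_of_nonneg_left (ht2.trans (mul_le_mul_of_nonneg_left (hι y) (Nat.cast_nonneg r))) hc
    have b2 : ‖y‖ * ‖u‖ ≤ ‖y‖ * e := mul_le_mul_of_nonneg_left (hu2.trans he) (norm_nonneg y)
    calc c * ‖t‖ + ‖y‖ * ‖u‖ ≤ c * (r * ‖y‖) + ‖y‖ * e := add_le_add b1 b2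
      _ = (r * c + e) * ‖y‖ := by ring
  obtain ⟨A, hA1, hA2⟩ := exists_op (fun j => (T j : Y →ₗ[𝕜] E)) _ key
  exact ⟨A, fun y j => hA1 y j, hA2⟩

end Pool.Agent.Lib.MP_a0554b_an
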