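import Mathlib
import Pool.Agent.Lib.MP_a0554b_an.A3

set_option autoImplicit false

/-!
# Functionals on `ℓ_p`, `1 < p`, and on `c_0` are small on tails
-/

noncomputable section

namespace Pool.Agent.Lib.MP_a0554b_an

open Filter Topology
open scoped ENNReal

universe u v w

variable {𝕜 : Type v} [RCLike 𝕜] {p : ℝ≥0∞} [Fact (1 ≤ p)]

theorem A6_ev (n k : ℕ) :
    ev k (∑ j ∈ Finset.range n, (sgl j 1 : S ℝ p ℝ)) = if k < n then 1 else 0 := by
  rw [map_sum]
  simp only [ev_sgl, Finset.sum_ite_eq, Finset.mem_range]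

/-- PROOF: `p = ∞`: the norm is at most `1`. `p < ∞`: the norm is `n ^ (1 / p)` and
`n ^ (1 / p) / n → 0` because `1 / p < 1`. -/
theorem norm_ones (hp : 1 < p) :
    Tendsto (fun n : ℕ => ‖∑ j ∈ Finset.range n, (sgl j 1 : S ℝ p ℝ)‖ / n) atTop (𝓝 0) := by
  rcases eq_or_ne p ⊤ with rfl | hpt
  · have h1 : ∀ n : ℕ, ‖∑ j ∈ Finset.range n, (sgl j 1 : S ℝ ⊤ ℝ)‖ ≤ 1 := by
      intro n
      refine lp.norm_le_of_forall_le (f := (∑ j ∈ Finset.range n, (sgl j 1 : S ℝ ⊤ ℝ)).1)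
        zero_le_one fun k => ?_
      have h2 := A6_ev (p := ⊤) n k
      rw [ev_apply] at h2
      rw [h2]
      split_ifs <;> simp
    have h2 : Tendsto (fun n : ℕ => 1 / (n : ℝ)) atTop (𝓝 0) := tendsto_one_div_atTop_nhds_zero_nat
    refine squeeze_zero (fun n => by positivity) (fun n => ?_) h2
    exact div_le_div_of_nonneg_right (h1 n) (Nat.cast_nonneg _)
  · have hq : 1 < p.toReal := by
      have := (ENNReal.toReal_lt_toReal ENNReal.one_ne_top hpt).2 hp
      simpa using this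
    have h1 : ∀ n : ℕ, ‖∑ j ∈ Finset.range n, (sgl j 1 : S ℝ p ℝ)‖ = (n : ℝ) ^ (1 / p.toReal) := by
      intro n
      have h2 := lp.norm_sum_single (E := fun _ : ℕ => ℝ) (p := p) (by linarith)
        (fun _ => (1 : ℝ)) (Finset.range n)
      have h3 : ‖∑ j ∈ Finset.range n, (sgl j 1 : S ℝ p ℝ)‖ =
          ‖∑ j ∈ Finset.range n, lp.single (E := fun _ : ℕ => ℝ) p j (1 : ℝ)‖ := by
        have h4 : (∑ j ∈ Finset.range n, (sgl j 1 : S ℝ p ℝ)).1 =
            ∑ j ∈ Finset.range n, lp.single (E := fun _ : ℕ => ℝ) p j (1 : ℝ) := by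
          rw [Submodule.coe_sum]
          rfl
        show ‖(∑ j ∈ Finset.range n, (sgl j 1 : S ℝ p ℝ)).1‖ = _
        rw [h4]
      rw [h3]
      simp only [norm_one, Real.one_rpow, Finset.sum_const, Finset.card_range, nsmul_eq_mul,
        mul_one] at h2
      rw [← h2, ← Real.rpow_mul (norm_nonneg _), mul_one_div_cancel (by linarith), Real.rpow_one]
    have h2 : 0 < 1 - 1 / p.toReal := by
      have : 1 / p.toReal < 1 := by rw [div_lt_one (by linarith)]; exact hq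
      linarith
    have h3 := (tendsto_rpow_neg_atTop h2).comp tendsto_natCast_atTop_atTop
    refine h3.congr' ?_
    filter_upwards [eventually_gt_atTop 0] with n hn
    have hn' : (0 : ℝ) < n := by exact_mod_cast hn
    rw [h1 n, Function.comp_apply, neg_sub, Real.rpow_sub hn', Real.rpow_one]

/-- PROOF. If `v j` (`j ∈ ℕ`) are vectors of norm at most `1` with `tr (U j) (v j) = v j`, `U j`
pairwise disjoint, and `f` is a continuous functional with `‖f (v j)‖ ≥ δ > 0` for all `j`, choose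
scalars `θ j` of modulus `1` with `θ j * f (v j) = ‖f (v j)‖`; then
`n * δ ≤ ‖f (∑_{j < n} θ j • v j)‖ ≤ ‖f‖ * ‖∑_{j < n} (sgl j 1)‖` by `disj_sum_one` (with
`x = ∑_{j < n} sgl j 1` in `S ℝ p ℝ`; take `v' j = θ j • v j` for `j < n`, `0` otherwise, so that
`‖v' j‖ ≤ ‖ev j x‖`), contradiction to `norm_ones` for large `n`. -/
theorem functional_disj (hp : 1 < p) (f : S 𝕜 p 𝕜 →L[𝕜] 𝕜) (U : ℕ → Set ℕ)
    (hU : ∀ i j, i ≠ j → Disjoint (U i) (U j)) (v : ℕ → S 𝕜 p 𝕜)
    (hv : ∀ j, tr (U j) (v j) = v j) (h1 : ∀ j, ‖v j‖ ≤ 1) {δ : ℝ} (hδ : 0 < δ) :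
    ∃ j, ‖f (v j)‖ < δ := by
  classical
  by_contra hcon
  push Not at hcon
  have hf0 : ∀ j, f (v j) ≠ 0 := fun j h => by
    have := hcon j
    rw [h, norm_zero] at this
    linarith
  set θ : ℕ → 𝕜 := fun j => (‖f (v j)‖ : 𝕜) * (f (v j))⁻¹ with hθ
  have hθ1 : ∀ j, ‖θ j‖ = 1 := by
    intro j
    have h2 : ‖f (v j)‖ ≠ 0 := norm_ne_zero_iff.2 (hf0 j)
    simp only [hθ, norm_mul, norm_inv, RCLike.norm_ofReal, abs_norm]
    exact mul_inv_cancel₀ h2
  have hθ2 : ∀ j, θ j * f (v j) = (‖f (v j)‖ : 𝕜) := by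
    intro j
    simp only [hθ]
    rw [mul_assoc, inv_mul_cancel₀ (hf0 j), mul_one]
  have key : ∀ n : ℕ, n * δ ≤ ‖f‖ * ‖∑ j ∈ Finset.range n, (sgl j 1 : S ℝ p ℝ)‖ := by
    intro n
    have h2 := disj_sum_one (𝕜 := ℝ) (E := ℝ) (p := p) hU
      (fun j => if j < n then θ j • v j else 0)
      (fun j => by
        split_ifs
        · rw [map_smul, hv]
        · rw [map_zero])
      (∑ j ∈ Finset.range n, (sgl j 1 : S ℝ p ℝ)) zero_le_one
      (fun j => by
        rw [A6_ev, one_mul]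
        split_ifs
        · rw [norm_smul, hθ1, one_mul, norm_one]; exact h1 j
        · simp) (Finset.range n)
    rw [one_mul] at h2
    have h3 := h2.trans (norm_tr_le _ _)
    have h4 : f (∑ j ∈ Finset.range n, if j < n then θ j • v j else 0) =
        ((∑ j ∈ Finset.range n, ‖f (v j)‖ : ℝ) : 𝕜) := by
      rw [map_sum, RCLike.ofReal_sum]
      refine Finset.sum_congr rfl fun j hj => ?_
      rw [if_pos (Finset.mem_range.1 hj), map_smul, smul_eq_mul, hθ2]
    have h5 : (n : ℝ) * δ ≤ ‖f (∑ j ∈ Finset.range n, if j < n then θ j • v j else 0)‖ := by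
      rw [h4, RCLike.norm_ofReal, abs_of_nonneg (Finset.sum_nonneg fun j _ => norm_nonneg _)]
      calc (n : ℝ) * δ = ∑ j ∈ Finset.range n, δ := by simp
        _ ≤ _ := Finset.sum_le_sum fun j _ => hcon j
    refine h5.trans ((f.le_opNorm _).trans ?_)
    exact mul_le_mul_of_nonneg_left h3 f.opNorm_nonneg
  have h2 := (norm_ones (p := p) hp).const_mul ‖f‖
  rw [mul_zero] at h2
  have h3 : ∀ᶠ n : ℕ in atTop, δ ≤ ‖f‖ * (‖∑ j ∈ Finset.range n, (sgl j 1 : S ℝ p ℝ)‖ / n) := by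
    filter_upwards [eventually_gt_atTop 0] with n hn
    have hn' : (0 : ℝ) < n := by exact_mod_cast hn
    rw [← mul_div_assoc, le_div_iff₀ hn', mul_comm]
    exact key n
  have h4 := ge_of_tendsto h2 h3
  linarith

/-- PROOF: the sequence `m ↦ ‖f ∘L (id - tr (Iio m))‖` is antitone (`norm_tr_mono`-like:
`f ∘ (id - tr (Iio n)) = f ∘ (id - tr (Iio m)) ∘ (id - tr (Iio n))` for `m ≤ n`, and the norm of
`id - tr s` is at most `1`). If it does not tend to `0` it is `≥ δ > 0` for all `m`. Construct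
`m 0 < m 1 < ...` and `v j = tr (Ico (m j) (m (j + 1))) (x j)` with `‖x j‖ ≤ 1`,
`‖f (x j - tr (Iio (m j)) (x j))‖ > δ / 2` and then `m (j + 1)` so large that still
`‖f (v j)‖ ≥ δ / 4` (`tendsto_tr`): contradiction to `functional_disj`. -/
theorem functional_tail (hp : 1 < p) (f : S 𝕜 p 𝕜 →L[𝕜] 𝕜) :
    Tendsto (fun m : ℕ => ‖f ∘L (ContinuousLinearMap.id 𝕜 (S 𝕜 p 𝕜) - tr (Set.Iio m))‖) atTop
      (𝓝 0) := by
  set g : ℕ → (S 𝕜 p 𝕜 →L[𝕜] 𝕜) :=
    fun m => f ∘L (ContinuousLinearMap.id 𝕜 (S 𝕜 p 𝕜) - tr (Set.Iio m)) with hg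
  have hga : ∀ m x, g m x = f (x - tr (Set.Iio m) x) := fun m x => rfl
  have hanti : ∀ m n, m ≤ n → ‖g n‖ ≤ ‖g m‖ := by
    intro m n hmn
    refine ContinuousLinearMap.opNorm_le_bound _ (g m).opNorm_nonneg fun x => ?_
    have h1 : g n x = g m (x - tr (Set.Iio n) x) := by
      have h2 : tr (Set.Iio m) (x - tr (Set.Iio n) x) = 0 := by
        rw [map_sub, tr_tr, Set.inter_eq_left.2 (Set.Iio_subset_Iio hmn), sub_self]
      rw [hga, hga, h2, sub_zero]
    rw [h1]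
    exact ((g m).le_opNorm _).trans
      (mul_le_mul_of_nonneg_left (norm_sub_tr_le _ _) (g m).opNorm_nonneg)
  rw [Metric.tendsto_atTop]
  by_contra hcon
  push Not at hcon
  obtain ⟨δ, hδ, hδ2⟩ := hcon
  have hδ3 : ∀ m, δ ≤ ‖g m‖ := by
    intro m
    obtain ⟨n, hn, h1⟩ := hδ2 m
    rw [Real.dist_eq, sub_zero, abs_of_nonneg (ContinuousLinearMap.opNorm_nonneg _)] at h1
    exact h1.trans (hanti m n hn)
  have step : ∀ m, ∃ m' : ℕ, ∃ v : S 𝕜 p 𝕜, m < m' ∧ tr (Set.Ico m m') v = v ∧ ‖v‖ ≤ 1 ∧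
      δ / 4 ≤ ‖f v‖ := by
    intro m
    obtain ⟨x, hx1, hx2⟩ := (g m).exists_lt_apply_of_lt_opNorm
      (show δ / 2 < ‖g m‖ by linarith [hδ3 m])
    rw [hga] at hx2
    set y := x - tr (Set.Iio m) x with hy
    have h1 : Tendsto (fun m' => ‖f (tr (Set.Iio m') y)‖) atTop (𝓝 ‖f y‖) :=
      ((f.continuous.tendsto _).comp (tendsto_tr y)).norm
    have h2 : ∀ᶠ m' in atTop, δ / 4 < ‖f (tr (Set.Iio m') y)‖ :=
      h1.eventually_const_lt (by linarith)
    obtain ⟨m', hm', hm2⟩ := (h2.and (eventually_gt_atTop m)).exists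
    have h3 : tr (Set.Iio m') y = tr (Set.Ico m m') x := by
      rw [hy, sub_tr, tr_tr]
      have h4 : Set.Iio m' ∩ (Set.Iio m)ᶜ = Set.Ico m m' := by
        ext k
        rw [Set.mem_inter_iff, Set.mem_Iio, Set.mem_compl_iff, Set.mem_Iio, Set.mem_Ico, not_lt]
        exact and_comm
      rw [h4]
    rw [h3] at hm'
    refine ⟨m', tr (Set.Ico m m') x, hm2, ?_, (norm_tr_le _ _).trans hx1.le, hm'.le⟩
    rw [tr_tr, Set.inter_self]
  choose nx v hnx hv1 hv2 hv3 using step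
  set M : ℕ → ℕ := fun j => Nat.rec 0 (fun _ a => nx a) j with hM
  have hMs : ∀ j, M (j + 1) = nx (M j) := fun j => rfl
  have hMlt : StrictMono M := strictMono_nat_of_lt_succ fun j => by rw [hMs]; exact hnx _
  obtain ⟨j, hj⟩ := functional_disj hp f (fun j => Set.Ico (M j) (M (j + 1)))
    (fun i j hij => by
      rw [Set.disjoint_left]
      intro k hk1 hk2
      rw [Set.mem_Ico] at hk1 hk2
      rcases Nat.lt_or_gt_of_ne hij with h | h
      · have := hMlt.monotone (show i + 1 ≤ j by omega)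
        omega
      · have := hMlt.monotone (show j + 1 ≤ i by omega)
        omega)
    (fun j => v (M j)) (fun j => hv1 (M j)) (fun j => hv2 (M j)) (δ := δ / 4) (by linarith)
  have := hv3 (M j)
  linarith

end Pool.Agent.Lib.MP_a0554b_an
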