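import Mathlib
import Pool.Agent.Lib.MP_a0554b_an.A1

set_option autoImplicit false

/-!
# Moving coordinates along an injection
-/

noncomputable section

namespace Pool.Agent.Lib.MP_a0554b_an

open Filter Topology
open scoped ENNReal

universe u v w

variable {𝕜 : Type v} [RCLike 𝕜] {p : ℝ≥0∞} [Fact (1 ≤ p)] {E : Type u}
  [NormedAddCommGroup E] [NormedSpace 𝕜 E]

open Classical in
/-- finite sums of a rearranged sequence -/
theorem A7_sum_le (x : S 𝕜 p E) (f : ℕ → E) (τ : ℕ → ℕ) (A : Set ℕ) (hτ : Set.InjOn τ A)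
    (h1 : ∀ n ∈ A, ‖f n‖ ≤ ‖ev (τ n) x‖) (h0 : ∀ n, n ∉ A → f n = 0) (hp : 0 < p.toReal)
    (s : Finset ℕ) : ∑ i ∈ s, ‖f i‖ ^ p.toReal ≤ ‖x.1‖ ^ p.toReal := by
  have h2 : ∑ i ∈ s, ‖f i‖ ^ p.toReal = ∑ i ∈ s.filter (fun i => i ∈ A), ‖f i‖ ^ p.toReal := by
    rw [Finset.sum_filter]
    apply Finset.sum_congr rfl
    intro i _
    split_ifs with h
    · rfl
    · rw [h0 i h, norm_zero, Real.zero_rpow hp.ne']
  rw [h2]
  have h3 : ∑ i ∈ s.filter (fun i => i ∈ A), ‖f i‖ ^ p.toReal ≤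
      ∑ i ∈ s.filter (fun i => i ∈ A), ‖x.1 (τ i)‖ ^ p.toReal := by
    apply Finset.sum_le_sum
    intro i hi
    exact Real.rpow_le_rpow (norm_nonneg _) (h1 i (Finset.mem_filter.1 hi).2) hp.le
  refine h3.trans ?_
  have h4 : Set.InjOn τ (s.filter fun i => i ∈ A) := by
    intro i hi j hj hij
    rw [Finset.mem_coe, Finset.mem_filter] at hi hj
    exact hτ hi.2 hj.2 hij
  rw [← Finset.sum_image (f := fun j => ‖x.1 j‖ ^ p.toReal) h4]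
  exact lp.sum_rpow_le_norm_rpow hp x.1 _

/-- a rearrangement of a part of the coordinates -/
theorem A7_exists (x : S 𝕜 p E) (f : ℕ → E) (τ : ℕ → ℕ) (A : Set ℕ) (hτ : Set.InjOn τ A)
    (h1 : ∀ n ∈ A, ‖f n‖ ≤ ‖ev (τ n) x‖) (h0 : ∀ n, n ∉ A → f n = 0) :
    ∃ y : S 𝕜 p E, (∀ k, ev k y = f k) ∧ ‖y‖ ≤ ‖x‖ := by
  have ht : Tendsto f atTop (𝓝 0) := by
    have hx := tendsto_ev x
    rw [← Nat.cofinite_eq_atTop] at hx ⊢
    rw [Metric.tendsto_nhds] at hx ⊢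
    intro ε hε
    have h2 := hx ε hε
    rw [Filter.eventually_cofinite] at h2 ⊢
    have hA : ∀ n ∈ {n | ¬ dist (f n) 0 < ε}, n ∈ A := by
      intro n hn
      by_contra hcon
      apply hn
      rw [h0 n hcon, dist_self]
      exact hε
    apply Set.Finite.of_finite_image (f := τ) (h2.subset ?_) (hτ.mono hA)
    rintro k ⟨n, hn, rfl⟩
    have h3 := h1 n (hA n hn)
    simp only [Set.mem_setOf_eq, dist_zero_right, not_lt] at hn ⊢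
    exact hn.trans h3
  rcases eq_or_ne p ∞ with rfl | hp
  · have h2 : ∀ k, ‖f k‖ ≤ ‖x‖ := by
      intro k
      by_cases hk : k ∈ A
      · exact (h1 k hk).trans (norm_ev_le _ _)
      · rw [h0 k hk, norm_zero]
        exact norm_nonneg _
    have hm : Memℓp f ∞ := memℓp_infty ⟨‖x‖, by rintro _ ⟨k, rfl⟩; exact h2 k⟩
    refine ⟨ofSeq f hm ht, fun k => rfl, ?_⟩
    exact lp.norm_le_of_forall_le (norm_nonneg _) h2
  · have hp' : 0 < p.toReal := ENNReal.toReal_pos (p_ne_zero p) hp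
    have h2 := A7_sum_le x f τ A hτ h1 h0 hp'
    have hm : Memℓp f p := memℓp_gen' h2
    refine ⟨ofSeq f hm ht, fun k => rfl, ?_⟩
    exact lp.norm_le_of_forall_sum_le hp' (norm_nonneg _) h2

/-- `x ↦ x ∘ σ`. PROOF: `exists_op` (with `M = 1`). `p < ∞`:
`∑ k, ‖x (σ k)‖ ^ p ≤ ∑ k, ‖x k‖ ^ p` (`Summable.comp_injective`, `tsum_comp_le_tsum_of_inj`-like,
or finite sums: `Finset.sum_map`/`sum_image` and `lp.sum_rpow_le_norm_rpow`). `p = ∞`: clear.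
`x (σ k) → 0` by `Function.Injective.tendsto_cofinite` and `Nat.cofinite_eq_atTop`. -/
theorem exists_pull (σ : ℕ → ℕ) (hσ : Function.Injective σ) :
    ∃ A : S 𝕜 p E →L[𝕜] S 𝕜 p E, (∀ x k, ev k (A x) = ev (σ k) x) ∧ ∀ x, ‖A x‖ ≤ ‖x‖ := by
  obtain ⟨A, h1, h2⟩ := exists_op (𝕜 := 𝕜) (p := p) (E := E) (Y := S 𝕜 p E)
    (fun k => ((ev (σ k) : S 𝕜 p E →L[𝕜] E) : S 𝕜 p E →ₗ[𝕜] E)) 1 (fun x => by
      obtain ⟨y, h1, h2⟩ := A7_exists x (fun k => ev (σ k) x) σ Set.univ hσ.injOn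
        (fun n _ => le_rfl) (fun n hn => absurd (Set.mem_univ n) hn)
      exact ⟨y, h1, by rw [one_mul]; exact h2⟩)
  exact ⟨A, h1, fun x => by simpa using h2 x⟩

/-- `x ↦` the sequence with `x k` at place `σ k`, zero outside the range of `σ`.
PROOF: `exists_op` (with `M = 1`), `f n = x k` if `n = σ k`, `0` otherwise
(`Function.extend σ (fun k => ev k x) 0`). `p < ∞`: every finite sum `∑_{n ∈ s} ‖f n‖ ^ p` is
`∑_{k ∈ σ ⁻¹ s} ‖x k‖ ^ p ≤ ‖x‖ ^ p`. Tends to zero: for `ε > 0` only finitely many `k` have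
`‖x k‖ ≥ ε`. -/
theorem exists_push (σ : ℕ → ℕ) (hσ : Function.Injective σ) :
    ∃ A : S 𝕜 p E →L[𝕜] S 𝕜 p E, (∀ x k, ev (σ k) (A x) = ev k x) ∧
      (∀ x n, n ∉ Set.range σ → ev n (A x) = 0) ∧ ∀ x, ‖A x‖ ≤ ‖x‖ := by
  classical
  obtain ⟨τ, hτ⟩ : ∃ τ : ℕ → ℕ, ∀ k, τ (σ k) = k := ⟨Function.invFun σ,
    Function.leftInverse_invFun hσ⟩
  obtain ⟨A, h1, h2⟩ := exists_op (𝕜 := 𝕜) (p := p) (E := E) (Y := S 𝕜 p E)
    (fun n => if n ∈ Set.range σ then ((ev (τ n) : S 𝕜 p E →L[𝕜] E) : S 𝕜 p E →ₗ[𝕜] E) else 0) 1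
    (fun x => by
      obtain ⟨y, h1, h2⟩ := A7_exists x (fun n => if n ∈ Set.range σ then ev (τ n) x else 0) τ
        (Set.range σ)
        (by
          rintro _ ⟨a, rfl⟩ _ ⟨b, rfl⟩ hab
          rw [hτ, hτ] at hab
          rw [hab])
        (fun n hn => by rw [if_pos hn]) (fun n hn => by rw [if_neg hn])
      refine ⟨y, fun k => ?_, by rw [one_mul]; exact h2⟩
      rw [h1 k]
      split_ifs <;> rfl)
  refine ⟨A, fun x k => ?_, fun x n hn => ?_, fun x => by simpa using h2 x⟩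
  · rw [h1, if_pos ⟨k, rfl⟩, hτ]
    rfl
  · rw [h1, if_neg hn]
    rfl

/-- the shift to the right and the shift to the left -/
theorem exists_shift : ∃ R L : S 𝕜 p E →L[𝕜] S 𝕜 p E, (∀ x k, ev (k + 1) (R x) = ev k x) ∧
    (∀ x, ev 0 (R x) = 0) ∧ (∀ x k, ev k (L x) = ev (k + 1) x) ∧ (∀ x, ‖R x‖ ≤ ‖x‖) ∧
      ∀ x, ‖L x‖ ≤ ‖x‖ := by
  obtain ⟨R, h1, h2, h3⟩ := exists_push (𝕜 := 𝕜) (p := p) (E := E) Nat.succ Nat.succ_injective
  obtain ⟨L, h4, h5⟩ := exists_pull (𝕜 := 𝕜) (p := p) (E := E) Nat.succ Nat.succ_injective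
  exact ⟨R, L, h1, fun x => h2 x 0 (by simp), h4, h3, h5⟩

/-- applying an operator to all coordinates. PROOF: `exists_op`, comparison of `T (ev k x)` with
`M • x` (`exists_of_le`). -/
theorem exists_diag {F : Type w} [NormedAddCommGroup F] [NormedSpace 𝕜 F] (T : E →L[𝕜] F) :
    ∃ D : S 𝕜 p E →L[𝕜] S 𝕜 p F, (∀ x k, ev k (D x) = T (ev k x)) ∧
      ∀ x, ‖D x‖ ≤ ‖T‖ * ‖x‖ := by
  have hn : ‖((‖T‖ : ℝ) : 𝕜)‖ = ‖T‖ := by rw [RCLike.norm_ofReal, abs_norm]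
  obtain ⟨D, h1, h2⟩ := exists_op (𝕜 := 𝕜) (p := p) (E := F) (Y := S 𝕜 p E)
    (fun k => ((T ∘L (ev k : S 𝕜 p E →L[𝕜] E) : S 𝕜 p E →L[𝕜] F) : S 𝕜 p E →ₗ[𝕜] F)) ‖T‖
    (fun x => by
      obtain ⟨y, h1, h2⟩ := exists_of_le (𝕜' := 𝕜) (((‖T‖ : ℝ) : 𝕜) • x) (fun k => T (ev k x))
        (fun k => by
          rw [map_smul, norm_smul, hn]
          exact T.le_opNorm _)
      refine ⟨y, h1, ?_⟩
      rw [norm_smul, hn] at h2
      exact h2)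
  exact ⟨D, h1, h2⟩

end Pool.Agent.Lib.MP_a0554b_an
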