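import Mathlib
import Pool.Agent.Lib.MP_a0554b_an.A4
import Pool.Agent.Lib.MP_a0554b_an.A5
import Pool.Agent.Lib.MP_a0554b_an.A7

set_option autoImplicit false

/-!
# `ℓ_p(ℓ_p) = ℓ_p` and `ℓ_p × ℓ_p = ℓ_p` (also for `c_0`)
-/

noncomputable section

namespace Pool.Agent.Lib.MP_a0554b_an

open Filter Topology
open scoped ENNReal

universe u v w

variable {𝕜 : Type v} [RCLike 𝕜] {p : ℝ≥0∞} [Fact (1 ≤ p)]

/-- PROOF. Let `σ k l = Nat.pair k l`, `U k = range (σ k)`: pairwise disjoint, so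
`Overlap 1 U`. `J x = ∑_k push (σ k) (ev k x)`: `cosum` with `r = 1`, `c = 1`, `ε = 0`, `e = 0`.
The inverse is `assemble` applied to `T k = pull (σ k)`, `ι = id`: note
`pull (σ k) x = pull (σ k) (tr (U k) x)`, so `‖T k x‖ ≤ ‖tr (U k) x‖`, `r = 1`, `c = 1`, `ε = 0`.
The coordinates: `ev (pair k l) (J x) = ev l (ev k x)` (the limit of the partial sums, which are
eventually constant at each coordinate: `ev (pair k l) (push (σ k') z) = 0` for `k' ≠ k`), and
`ev l (ev k (J' y)) = ev (pair k l) y`; every `n` is `Nat.pair k l` with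
`k = (Nat.unpair n).1` and so on. `ContinuousLinearEquiv.equivOfInverse`. -/
theorem exists_iso : IsoB 𝕜 1 (S 𝕜 p (S 𝕜 p 𝕜)) (S 𝕜 p 𝕜) := by
  have hσ : ∀ k, Function.Injective (fun l => Nat.pair k l) := fun k a b h =>
    (Nat.pair_eq_pair.1 h).2
  choose P hP1 hP2 hP3 using fun k => exists_push (𝕜 := 𝕜) (p := p) (E := 𝕜)
    (fun l => Nat.pair k l) (hσ k)
  choose Q hQ1 hQ2 using fun k => exists_pull (𝕜 := 𝕜) (p := p) (E := 𝕜)
    (fun l => Nat.pair k l) (hσ k)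
  have hU : Overlap 1 (fun k => Set.range (fun l => Nat.pair k l)) := by
    refine ⟨one_pos, fun i j hij _ => ?_⟩
    rw [Set.disjoint_left]
    rintro _ ⟨a, rfl⟩ ⟨b, hb⟩
    exact hij (Nat.pair_eq_pair.1 hb).1.symm
  obtain ⟨J, hJ1, hJ2⟩ := cosum (𝕜 := 𝕜) (p := p) (E := S 𝕜 p 𝕜) (F := 𝕜) hU P (c := 1) (e := 0)
    zero_le_one (ε := fun _ => 0) (fun _ => le_rfl) summable_zero (by rw [tsum_zero])
    (fun j x => by
      rw [one_mul]
      exact (norm_tr_le _ _).trans (hP3 j x))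
    (fun j x => by
      have h0 : P j x - tr (Set.range (fun l => Nat.pair j l)) (P j x) = 0 := by
        rw [sub_tr]
        apply S_ext
        intro k
        rw [map_zero]
        by_cases hk : k ∈ (Set.range (fun l => Nat.pair j l))ᶜ
        · rw [ev_tr_mem hk]
          exact hP2 j x k hk
        · rw [ev_tr_notMem hk]
      rw [h0, norm_zero, zero_mul])
  obtain ⟨K, hK1, hK2⟩ := assemble (𝕜 := 𝕜) (p := p) (E := S 𝕜 p 𝕜) (F := 𝕜) (Y := S 𝕜 p 𝕜) hU
    (ContinuousLinearMap.id 𝕜 (S 𝕜 p 𝕜)) (fun y => le_rfl) Q (c := 1) (e := 0)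
    zero_le_one (ε := fun _ => 0) (fun _ => le_rfl) summable_zero (by rw [tsum_zero])
    (fun j y => by
      have h0 : Q j y = Q j (tr (Set.range (fun l => Nat.pair j l)) y) := by
        apply S_ext
        intro k
        rw [hQ1, hQ1, ev_tr_mem (Set.mem_range_self k)]
      rw [zero_mul, add_zero, one_mul, ContinuousLinearMap.id_apply, h0]
      exact hQ2 j _)
  have hev : ∀ x k l, ev (Nat.pair k l) (J x) = ev l (ev k x) := by
    intro x k l
    have t1 := ((ev (Nat.pair k l) : S 𝕜 p 𝕜 →L[𝕜] 𝕜).continuous.tendsto (J x)).comp (hJ1 x)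
    refine tendsto_nhds_unique t1 ?_
    refine tendsto_const_nhds.congr' ?_
    filter_upwards [eventually_gt_atTop k] with n hn
    rw [Function.comp_apply, map_sum, Finset.sum_eq_single k]
    · exact (hP1 k (ev k x) l).symm
    · intro j _ hj
      refine hP2 j (ev j x) _ ?_
      rintro ⟨a, ha⟩
      exact hj (Nat.pair_eq_pair.1 ha).1
    · intro h
      exact absurd (Finset.mem_range.2 hn) h
  refine ⟨ContinuousLinearEquiv.equivOfInverse J K ?_ ?_, ?_, ?_⟩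
  · intro x
    apply S_ext
    intro k
    apply S_ext
    intro l
    rw [hK1, hQ1, hev]
  · intro y
    apply S_ext
    intro n
    rw [← Nat.pair_unpair n, hev, hK1, hQ1]
  · intro x
    have := hJ2 x
    rw [Nat.cast_one, one_mul, add_zero] at this
    exact this
  · intro x
    have := hK2 x
    rw [Nat.cast_one, one_mul, add_zero] at this
    exact this

/-- PROOF. `σ 0 k = 2 * k`, `σ 1 k = 2 * k + 1`; `T (x, y) = push (σ 0) x + push (σ 1) y`,
`T⁻¹ z = (pull (σ 0) z, pull (σ 1) z)`. -/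
theorem exists_iso_prod : IsoB 𝕜 2 (S 𝕜 p 𝕜 × S 𝕜 p 𝕜) (S 𝕜 p 𝕜) := by
  obtain ⟨P, hP1, hP2, hP3⟩ := exists_push (𝕜 := 𝕜) (p := p) (E := 𝕜) (fun k => 2 * k)
    (fun a b h => by simpa using h)
  obtain ⟨P', hP1', hP2', hP3'⟩ := exists_push (𝕜 := 𝕜) (p := p) (E := 𝕜) (fun k => 2 * k + 1)
    (fun a b h => by simpa using h)
  obtain ⟨Q, hQ1, hQ2⟩ := exists_pull (𝕜 := 𝕜) (p := p) (E := 𝕜) (fun k => 2 * k)
    (fun a b h => by simpa using h)
  obtain ⟨Q', hQ1', hQ2'⟩ := exists_pull (𝕜 := 𝕜) (p := p) (E := 𝕜) (fun k => 2 * k + 1)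
    (fun a b h => by simpa using h)
  have o1 : ∀ x k, ev (2 * k) (P' x) = 0 := fun x k => hP2' x _ (by rintro ⟨a, ha⟩; simp only at ha; omega)
  have o2 : ∀ x k, ev (2 * k + 1) (P x) = 0 := fun x k => hP2 x _ (by rintro ⟨a, ha⟩; simp only at ha; omega)
  refine ⟨ContinuousLinearEquiv.equivOfInverse (P.coprod P') (Q.prod Q') ?_ ?_, ?_, ?_⟩
  · rintro ⟨x, y⟩
    rw [ContinuousLinearMap.coprod_apply, ContinuousLinearMap.prod_apply]
    refine Prod.ext (S_ext fun k => ?_) (S_ext fun k => ?_)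
    · change ev k (Q (P x + P' y)) = ev k x
      rw [hQ1, map_add, o1, add_zero]
      exact hP1 x k
    · change ev k (Q' (P x + P' y)) = ev k y
      rw [hQ1', map_add, o2, zero_add]
      exact hP1' y k
  · intro z
    rw [ContinuousLinearMap.prod_apply, ContinuousLinearMap.coprod_apply]
    apply S_ext
    intro n
    rw [map_add]
    rcases Nat.even_or_odd' n with ⟨k, rfl | rfl⟩
    · rw [o1, add_zero]
      exact (hP1 (Q z) k).trans (hQ1 z k)
    · rw [o2, zero_add]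
      exact (hP1' (Q' z) k).trans (hQ1' z k)
  · rintro ⟨x, y⟩
    change ‖P x + P' y‖ ≤ 2 * ‖(x, y)‖
    rw [two_mul]
    exact (norm_add_le _ _).trans (add_le_add ((hP3 x).trans (norm_fst_le (x, y)))
      ((hP3' y).trans (norm_snd_le (x, y))))
  · intro z
    change ‖(Q z, Q' z)‖ ≤ 2 * ‖z‖
    rw [Prod.norm_mk]
    have h1 := hQ2 z
    have h2 := hQ2' z
    have h3 := norm_nonneg z
    exact max_le (by linarith) (by linarith)

/-- PROOF. `T (a, x) = sgl 0 a + R x`, `T⁻¹ z = (ev 0 z, L z)` with the shifts `R`, `L` of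
`exists_shift`. -/
theorem exists_iso_line : IsoB 𝕜 2 (𝕜 × S 𝕜 p 𝕜) (S 𝕜 p 𝕜) := by
  obtain ⟨R, L, hR1, hR0, hL1, hR2, hL2⟩ := exists_shift (𝕜 := 𝕜) (p := p) (E := 𝕜)
  have hs0 : ∀ a : 𝕜, ev 0 (sgl 0 a : S 𝕜 p 𝕜) = a := fun a => by rw [ev_sgl, if_pos rfl]
  have hs1 : ∀ (a : 𝕜) k, ev (k + 1) (sgl 0 a : S 𝕜 p 𝕜) = 0 := fun a k => by
    rw [ev_sgl, if_neg (Nat.succ_ne_zero k)]
  refine ⟨ContinuousLinearEquiv.equivOfInverse ((sgl 0).coprod R) ((ev 0).prod L) ?_ ?_, ?_, ?_⟩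
  · rintro ⟨a, x⟩
    rw [ContinuousLinearMap.coprod_apply, ContinuousLinearMap.prod_apply]
    refine Prod.ext ?_ (S_ext fun k => ?_)
    · change ev 0 ((sgl 0 a : S 𝕜 p 𝕜) + R x) = a
      rw [map_add, hR0, add_zero, hs0]
    · change ev k (L ((sgl 0 a : S 𝕜 p 𝕜) + R x)) = ev k x
      rw [hL1, map_add, hR1, hs1, zero_add]
  · intro z
    rw [ContinuousLinearMap.prod_apply, ContinuousLinearMap.coprod_apply]
    apply S_ext
    intro n
    rw [map_add]
    rcases n with _ | k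
    · change ev 0 (sgl 0 (ev 0 z) : S 𝕜 p 𝕜) + ev 0 (R (L z)) = ev 0 z
      rw [hR0, add_zero, hs0]
    · change ev (k + 1) (sgl 0 (ev 0 z) : S 𝕜 p 𝕜) + ev (k + 1) (R (L z)) = ev (k + 1) z
      rw [hR1, hs1, zero_add, hL1]
  · rintro ⟨a, x⟩
    change ‖(sgl 0 a : S 𝕜 p 𝕜) + R x‖ ≤ 2 * ‖(a, x)‖
    rw [two_mul]
    refine (norm_add_le _ _).trans (add_le_add ?_ ((hR2 x).trans (norm_snd_le (a, x))))
    rw [norm_sgl]
    exact norm_fst_le (a, x)
  · intro z
    change ‖(ev 0 z, L z)‖ ≤ 2 * ‖z‖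
    rw [Prod.norm_mk]
    have h1 := norm_ev_le 0 z
    have h2 := hL2 z
    have h3 := norm_nonneg z
    exact max_le (by linarith) (by linarith)

end Pool.Agent.Lib.MP_a0554b_an
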