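import Mathlib
import Pool.Agent.Lib.MP_a0554b_an.Defs

set_option autoImplicit false

/-!
# Isomorphisms with constants; perturbation of the identity
-/

noncomputable section

namespace Pool.Agent.Lib.MP_a0554b_an

open Filter Topology
open scoped ENNReal

universe u v w

variable {𝕜 : Type v} [RCLike 𝕜] {Y Z W Y' Z' : Type*}
  [NormedAddCommGroup Y] [NormedSpace 𝕜 Y] [NormedAddCommGroup Z] [NormedSpace 𝕜 Z]
  [NormedAddCommGroup W] [NormedSpace 𝕜 W] [NormedAddCommGroup Y'] [NormedSpace 𝕜 Y']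
  [NormedAddCommGroup Z'] [NormedSpace 𝕜 Z']

theorem IsoB.symm {K : ℝ} (h : IsoB 𝕜 K Y Z) : IsoB 𝕜 K Z Y := by
  obtain ⟨T, h1, h2⟩ := h
  exact ⟨T.symm, h2, fun y => by simpa using h1 y⟩

theorem IsoB.mono {K K' : ℝ} (h : IsoB 𝕜 K Y Z) (hK : K ≤ K') : IsoB 𝕜 K' Y Z := by
  obtain ⟨T, h1, h2⟩ := h
  exact ⟨T, fun y => (h1 y).trans (by gcongr), fun y => (h2 y).trans (by gcongr)⟩

theorem IsoB.trans {K K' : ℝ} (hK : 0 ≤ K) (hK' : 0 ≤ K') (h : IsoB 𝕜 K Y Z)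
    (h' : IsoB 𝕜 K' Z W) : IsoB 𝕜 (K * K') Y W := by
  obtain ⟨T, h1, h2⟩ := h
  obtain ⟨T', h1', h2'⟩ := h'
  refine ⟨T.trans T', fun y => ?_, fun y => ?_⟩
  · calc ‖T' (T y)‖ ≤ K' * ‖T y‖ := h1' _
      _ ≤ K' * (K * ‖y‖) := by gcongr; exact h1 y
      _ = K * K' * ‖y‖ := by ring
  · calc ‖T.symm (T'.symm y)‖ ≤ K * ‖T'.symm y‖ := h2 _
      _ ≤ K * (K' * ‖y‖) := by gcongr; exact h2' y
      _ = K * K' * ‖y‖ := by ring

/-- PROOF: `T × T'` (`ContinuousLinearEquiv.prodCongr`), norms of pairs are maxima. -/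
theorem IsoB.prod {K : ℝ} (h : IsoB 𝕜 K Y Z) (h' : IsoB 𝕜 K Y' Z') :
    IsoB 𝕜 K (Y × Y') (Z × Z') := by
  obtain ⟨T, h1, h2⟩ := h
  obtain ⟨T', h1', h2'⟩ := h'
  have key : ∀ a b c d : ℝ, 0 ≤ a → 0 ≤ b → 0 ≤ c → 0 ≤ d → a ≤ K * c → b ≤ K * d →
      max a b ≤ K * max c d := by
    intro a b c d ha hb hc hd hac hbd
    by_cases hK : 0 ≤ K
    · refine max_le ?_ ?_
      · exact hac.trans (mul_le_mul_of_nonneg_left (le_max_left _ _) hK)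
      · exact hbd.trans (mul_le_mul_of_nonneg_left (le_max_right _ _) hK)
    · push Not at hK
      have hc0 : c = 0 := by nlinarith
      have hd0 : d = 0 := by nlinarith
      subst hc0 hd0
      rw [mul_zero] at hac hbd
      rw [max_self, mul_zero]
      exact max_le hac hbd
  refine ⟨T.prodCongr T', fun y => ?_, fun z => ?_⟩
  · rw [Prod.norm_def, Prod.norm_def]
    exact key _ _ _ _ (norm_nonneg _) (norm_nonneg _) (norm_nonneg _) (norm_nonneg _)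
      (h1 y.1) (h1' y.2)
  · rw [Prod.norm_def, Prod.norm_def]
    exact key _ _ _ _ (norm_nonneg _) (norm_nonneg _) (norm_nonneg _) (norm_nonneg _)
      (h2 z.1) (h2' z.2)

/-- PROOF: `ContinuousLinearMap.opNorm_le_bound`. -/
theorem IsoB.toIsoC {Y : Type u} {Z : Type w} [NormedAddCommGroup Y] [NormedSpace 𝕜 Y]
    [NormedAddCommGroup Z] [NormedSpace 𝕜 Z] {K : ℝ} (hK : 0 ≤ K) (h : IsoB 𝕜 K Y Z) :
    IsoC 𝕜 (K * K) Y Z := by
  obtain ⟨T, h1, h2⟩ := h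
  refine ⟨T, mul_le_mul ?_ ?_ (norm_nonneg _) hK⟩
  · exact ContinuousLinearMap.opNorm_le_bound _ hK fun y => h1 y
  · exact ContinuousLinearMap.opNorm_le_bound _ hK fun z => h2 z

/-- PROOF: given `T` with `‖T‖ * ‖T⁻¹‖ ≤ C`: if `Y` is the zero space take `T` itself
(`T`, `T⁻¹` are zero). Otherwise `‖T‖ > 0`; scale: `T' = ‖T‖⁻¹ • T` has norm `1` and inverse
`‖T‖ • T⁻¹`, norm `≤ C ≤ max C 1`. -/
theorem IsoC.toIsoB {Y : Type u} {Z : Type w} [NormedAddCommGroup Y] [NormedSpace 𝕜 Y]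
    [NormedAddCommGroup Z] [NormedSpace 𝕜 Z] {C : ℝ} (h : IsoC 𝕜 C Y Z) :
    IsoB 𝕜 (max C 1) Y Z := by
  obtain ⟨T, hT⟩ := h
  by_cases h0 : ‖(T : Y →L[𝕜] Z)‖ = 0
  · have hY : ∀ y : Y, y = 0 := fun y => by
      have h3 : T y = 0 := by
        have h4 := (T : Y →L[𝕜] Z).le_opNorm y
        rw [h0, zero_mul] at h4
        exact norm_le_zero_iff.1 h4
      have h5 := congrArg T.symm h3
      rwa [ContinuousLinearEquiv.symm_apply_apply, map_zero] at h5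
    refine ⟨T, fun y => ?_, fun z => ?_⟩
    · rw [hY y, map_zero, norm_zero, norm_zero, mul_zero]
    · have h6 : T.symm z = 0 := hY _
      have h7 := congrArg T h6
      rw [ContinuousLinearEquiv.apply_symm_apply, map_zero] at h7
      rw [h6, h7, norm_zero, norm_zero, mul_zero]
  · have hpos : 0 < ‖(T : Y →L[𝕜] Z)‖ := lt_of_le_of_ne (norm_nonneg _) (Ne.symm h0)
    set a : ℝ := ‖(T : Y →L[𝕜] Z)‖ with ha
    have hane : (a : 𝕜) ≠ 0 := by exact_mod_cast hpos.ne'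
    let U : 𝕜ˣ := Units.mk0 ((a : 𝕜)⁻¹) (inv_ne_zero hane)
    refine ⟨T.trans (ContinuousLinearEquiv.smulLeft U), fun y => ?_, fun z => ?_⟩
    · have h8 : (T.trans (ContinuousLinearEquiv.smulLeft U)) y = (a : 𝕜)⁻¹ • T y := rfl
      rw [h8, norm_smul, norm_inv, RCLike.norm_ofReal, abs_of_pos hpos]
      calc a⁻¹ * ‖T y‖ ≤ a⁻¹ * (a * ‖y‖) := by
            gcongr
            exact (T : Y →L[𝕜] Z).le_opNorm y
        _ = 1 * ‖y‖ := by field_simp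
        _ ≤ max C 1 * ‖y‖ := by gcongr; exact le_max_right _ _
    · have h9 : (T.trans (ContinuousLinearEquiv.smulLeft U)).symm z = T.symm ((a : 𝕜) • z) := by
        apply (T.trans (ContinuousLinearEquiv.smulLeft U)).injective
        rw [ContinuousLinearEquiv.apply_symm_apply]
        have h10 : (T.trans (ContinuousLinearEquiv.smulLeft U)) (T.symm ((a : 𝕜) • z)) =
            (a : 𝕜)⁻¹ • T (T.symm ((a : 𝕜) • z)) := rfl
        rw [h10, ContinuousLinearEquiv.apply_symm_apply, inv_smul_smul₀ hane]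
      rw [h9]
      calc ‖T.symm ((a : 𝕜) • z)‖ ≤ ‖(T.symm : Z →L[𝕜] Y)‖ * ‖(a : 𝕜) • z‖ :=
            (T.symm : Z →L[𝕜] Y).le_opNorm _
        _ = (a * ‖(T.symm : Z →L[𝕜] Y)‖) * ‖z‖ := by
            rw [norm_smul, RCLike.norm_ofReal, abs_of_pos hpos]; ring
        _ ≤ max C 1 * ‖z‖ := by gcongr; exact hT.trans (le_max_left _ _)

/-- Neumann series. PROOF: `E := id - T` has norm `≤ 1 / 2 < 1`; `T = 1 - E` is a unit of the complete
normed ring `Y →L[𝕜] Y` (`Units.oneSub`, `NormedRing.inverse_one_sub`); the inverse `V` satisfies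
`‖V y‖ ≤ ‖T (V y)‖ + ‖(id - T) (V y)‖ ≤ ‖y‖ + ‖V y‖ / 2`. -/
theorem exists_inverse [CompleteSpace Y] (T : Y →L[𝕜] Y) (h : ∀ y, ‖T y - y‖ ≤ 1 / 2 * ‖y‖) :
    ∃ V : Y →L[𝕜] Y, (∀ y, V (T y) = y) ∧ (∀ y, T (V y) = y) ∧ ∀ y, ‖V y‖ ≤ 2 * ‖y‖ := by
  have h1 : ‖(1 : Y →L[𝕜] Y) - T‖ < 1 := by
    refine lt_of_le_of_lt (ContinuousLinearMap.opNorm_le_bound _ (by norm_num : (0 : ℝ) ≤ 1 / 2)
      fun y => ?_) (by norm_num)
    have h2 : ((1 : Y →L[𝕜] Y) - T) y = y - T y := rfl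
    rw [h2, norm_sub_rev]
    exact h y
  let u : (Y →L[𝕜] Y)ˣ := Units.oneSub ((1 : Y →L[𝕜] Y) - T) h1
  have hu : (u : Y →L[𝕜] Y) = T := by
    rw [Units.val_oneSub, sub_sub_cancel]
  have h3 : ∀ y, (↑(u⁻¹) : Y →L[𝕜] Y) (T y) = y := fun y => by
    have h4 := congrArg (fun A : Y →L[𝕜] Y => A y) u.inv_mul
    rw [hu] at h4
    exact h4
  have h5 : ∀ y, T ((↑(u⁻¹) : Y →L[𝕜] Y) y) = y := fun y => by
    have h6 := congrArg (fun A : Y →L[𝕜] Y => A y) u.mul_inv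
    rw [hu] at h6
    exact h6
  refine ⟨(↑(u⁻¹) : Y →L[𝕜] Y), h3, h5, fun y => ?_⟩
  set v := (↑(u⁻¹) : Y →L[𝕜] Y) y with hv
  have h7 : ‖v‖ ≤ ‖T v‖ + ‖T v - v‖ := by
    calc ‖v‖ = ‖T v - (T v - v)‖ := by rw [sub_sub_cancel]
      _ ≤ ‖T v‖ + ‖T v - v‖ := norm_sub_le _ _
  have h8 := h v
  have h9 : ‖T v‖ = ‖y‖ := by rw [hv, h5 y]
  linarith

end Pool.Agent.Lib.MP_a0554b_an
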