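import Mathlib
import Pool.Agent.Lib.MP_a0554b_an.B1
import Pool.Agent.Lib.MP_a0554b_an.A7

set_option autoImplicit false

/-!
# Pelczynski's decomposition method with explicit isomorphisms
-/

noncomputable section

namespace Pool.Agent.Lib.MP_a0554b_an

open Filter Topology
open scoped ENNReal

universe u v w

variable {𝕜 : Type v} [RCLike 𝕜] {p : ℝ≥0∞} [Fact (1 ≤ p)]

/-- PROOF (swindle). Let `e = α ∘ β`, a projection of `E` (`β ∘ α = id`). Let `D(T)` be `T` applied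
to all coordinates (`exists_diag`), `R`, `L` the shifts (`exists_shift`).
`Φ (y, x) = sgl 0 (α y) + D(1 - e) x + R (D(e) x)`, that is
`Φ (y, x) 0 = α y + (1 - e) x 0`, `Φ (y, x) (k + 1) = (1 - e) x (k + 1) + e (x k)`;
`Ψ x' = (β (ev 0 x'), D(1 - e) x' + L (D(e) x'))`, that is
`(Ψ x').2 k = (1 - e) x' k + e (x' (k + 1))`.
These are inverse to each other (check coordinates with `S_ext`, `e (e x) = e x`, `e (α y) = α y`,
`β (e x) = β x`). Bounds: `‖D(1 - e)‖ ≤ 1 + K ^ 2`, `‖D(e)‖ ≤ K ^ 2`: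
`‖Φ (y, x)‖ ≤ (K + 1 + 2 * K ^ 2) * ‖(y, x)‖`, the same for `Ψ`. -/
theorem swindle {E Y : Type*} [NormedAddCommGroup E] [NormedSpace 𝕜 E] [NormedAddCommGroup Y]
    [NormedSpace 𝕜 Y] {K : ℝ} (hK : 0 ≤ K) (α : Y →L[𝕜] E) (β : E →L[𝕜] Y)
    (h : ∀ y, β (α y) = y) (hα : ∀ y, ‖α y‖ ≤ K * ‖y‖) (hβ : ∀ x, ‖β x‖ ≤ K * ‖x‖) :
    IsoB 𝕜 (1 + K + 2 * K ^ 2) (Y × S 𝕜 p E) (S 𝕜 p E) := by
  obtain ⟨D2, hD2, hD2n⟩ := exists_diag (p := p) (α ∘L β)
  obtain ⟨D1, hD1, hD1n⟩ := exists_diag (p := p) (ContinuousLinearMap.id 𝕜 E - α ∘L β)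
  obtain ⟨R, L, hR, hR0, hL, hRn, hLn⟩ := exists_shift (𝕜 := 𝕜) (p := p) (E := E)
  have he : ‖α ∘L β‖ ≤ K ^ 2 := by
    refine ContinuousLinearMap.opNorm_le_bound _ (by positivity) fun x => ?_
    calc ‖(α ∘L β) x‖ ≤ K * ‖β x‖ := hα _
      _ ≤ K * (K * ‖x‖) := mul_le_mul_of_nonneg_left (hβ x) hK
      _ = K ^ 2 * ‖x‖ := by ring
  have he1 : ‖ContinuousLinearMap.id 𝕜 E - α ∘L β‖ ≤ 1 + K ^ 2 := by
    refine (norm_sub_le _ _).trans (add_le_add ContinuousLinearMap.norm_id_le he)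
  have hD2' : ∀ x, ‖D2 x‖ ≤ K ^ 2 * ‖x‖ := fun x =>
    (hD2n x).trans (mul_le_mul_of_nonneg_right he (norm_nonneg _))
  have hD1' : ∀ x, ‖D1 x‖ ≤ (1 + K ^ 2) * ‖x‖ := fun x =>
    (hD1n x).trans (mul_le_mul_of_nonneg_right he1 (norm_nonneg _))
  set Φ : (Y × S 𝕜 p E) →L[𝕜] S 𝕜 p E :=
    ((sgl 0 : E →L[𝕜] S 𝕜 p E) ∘L α) ∘L ContinuousLinearMap.fst 𝕜 Y (S 𝕜 p E) +
      (D1 + R ∘L D2) ∘L ContinuousLinearMap.snd 𝕜 Y (S 𝕜 p E) with hΦ
  set Ψ : S 𝕜 p E →L[𝕜] (Y × S 𝕜 p E) :=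
    (β ∘L (ev 0 : S 𝕜 p E →L[𝕜] E)).prod (D1 + L ∘L D2) with hΨ
  have f0 : ∀ q : Y × S 𝕜 p E, ev 0 (Φ q) = α q.1 + (ev 0 q.2 - α (β (ev 0 q.2))) := by
    intro q
    simp only [hΦ, ContinuousLinearMap.add_apply, ContinuousLinearMap.comp_apply, map_add,
      ContinuousLinearMap.coe_fst', ContinuousLinearMap.coe_snd', ev_sgl, if_true, hD1, hR0,
      ContinuousLinearMap.sub_apply, ContinuousLinearMap.id_apply, add_zero]
  have f1 : ∀ (q : Y × S 𝕜 p E) (k : ℕ), ev (k + 1) (Φ q) =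
      (ev (k + 1) q.2 - α (β (ev (k + 1) q.2))) + α (β (ev k q.2)) := by
    intro q k
    simp only [hΦ, ContinuousLinearMap.add_apply, ContinuousLinearMap.comp_apply, map_add,
      ContinuousLinearMap.coe_fst', ContinuousLinearMap.coe_snd', ev_sgl, hD1, hR, hD2,
      ContinuousLinearMap.sub_apply, ContinuousLinearMap.id_apply, Nat.add_eq_zero_iff,
      one_ne_zero, and_false, if_false, zero_add]
  have g1 : ∀ x : S 𝕜 p E, (Ψ x).1 = β (ev 0 x) := fun x => rfl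
  have g2 : ∀ (x : S 𝕜 p E) (k : ℕ), ev k (Ψ x).2 =
      (ev k x - α (β (ev k x))) + α (β (ev (k + 1) x)) := by
    intro x k
    simp only [hΨ, ContinuousLinearMap.prod_apply, ContinuousLinearMap.add_apply,
      ContinuousLinearMap.comp_apply, map_add, hD1, hL, hD2,
      ContinuousLinearMap.sub_apply, ContinuousLinearMap.id_apply]
  have hΨΦ : Function.LeftInverse Ψ Φ := by
    intro q
    refine Prod.ext ?_ (S_ext fun k => ?_)
    · rw [g1, f0, map_add, map_sub, h, h]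
      abel
    · rw [g2]
      cases k with
      | zero =>
        rw [f0, f1]
        simp only [map_add, map_sub, h]
        abel
      | succ k =>
        rw [f1, f1]
        simp only [map_add, map_sub, h]
        abel
  have hΦΨ : Function.RightInverse Ψ Φ := by
    intro x
    refine S_ext fun k => ?_
    cases k with
    | zero =>
      rw [f0, g1, g2]
      simp only [map_add, map_sub, h]
      abel
    | succ k =>
      rw [f1, g2, g2]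
      simp only [map_add, map_sub, h]
      abel
  refine ⟨ContinuousLinearEquiv.equivOfInverse Φ Ψ hΨΦ hΦΨ, ?_, ?_⟩
  · intro q
    show ‖Φ q‖ ≤ _
    have h1 : ‖q.1‖ ≤ ‖q‖ := norm_fst_le q
    have h2 : ‖q.2‖ ≤ ‖q‖ := norm_snd_le q
    have h3 : ‖Φ q‖ ≤ ‖(sgl 0 (α q.1) : S 𝕜 p E)‖ + (‖D1 q.2‖ + ‖R (D2 q.2)‖) := by
      refine (norm_add_le _ _).trans (add_le_add le_rfl (norm_add_le _ _))
    rw [norm_sgl] at h3
    have h4 := hα q.1
    have h5 := hD1' q.2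
    have h6 := (hRn (D2 q.2)).trans (hD2' q.2)
    have h7 := mul_le_mul_of_nonneg_left h1 hK
    have h8 : (1 + K ^ 2) * ‖q.2‖ ≤ (1 + K ^ 2) * ‖q‖ :=
      mul_le_mul_of_nonneg_left h2 (by positivity)
    have h9 : K ^ 2 * ‖q.2‖ ≤ K ^ 2 * ‖q‖ := mul_le_mul_of_nonneg_left h2 (by positivity)
    linarith
  · intro x
    show ‖Ψ x‖ ≤ _
    rw [Prod.norm_def]
    have h1 : ‖(Ψ x).1‖ ≤ K * ‖x‖ := by
      rw [g1]
      exact (hβ _).trans (mul_le_mul_of_nonneg_left (norm_ev_le 0 x) hK)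
    have h2 : ‖(Ψ x).2‖ ≤ (1 + K ^ 2) * ‖x‖ + K ^ 2 * ‖x‖ := by
      refine (norm_add_le (D1 x) (L (D2 x))).trans ?_
      exact add_le_add (hD1' x) ((hLn _).trans (hD2' x))
    have h3 := norm_nonneg x
    have h4 : 0 ≤ K * ‖x‖ := by positivity
    have h5 : 0 ≤ K ^ 2 * ‖x‖ := by positivity
    apply max_le
    · linarith
    · linarith

end Pool.Agent.Lib.MP_a0554b_an
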