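import Mathlib
import Pool.Agent.Lib.MP_a0554b_an.B1
import Pool.Agent.Lib.MP_a0554b_an.A8

set_option autoImplicit false

/-!
# Pelczynski's decomposition method with explicit isomorphisms
-/

noncomputable section

namespace Pool.Agent.Lib.MP_a0554b_an

open Filter Topology
open scoped ENNReal

universe u v w

variable {𝕜 : Type v} [RCLike 𝕜] {p : ℝ≥0∞} [Fact (1 ≤ p)]

/-- PROOF. Let `f = γ ∘ δ`, a projection of `Y`, `τ : L × L ≃ L` (`exists_iso_prod`),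
`L = S 𝕜 p 𝕜`. `Θ (y, x) = γ (τ (δ y, x)) + (1 - f) y`; the inverse maps `y'` to
`(γ u + (1 - f) y', v)` where `(u, v) = τ⁻¹ (δ y')`. Use `δ ((1 - f) y) = 0`, `(1 - f) (γ x) = 0`,
`(1 - f) ((1 - f) y) = (1 - f) y`, `γ (δ y) + (1 - f) y = y`. Bounds: `2 K ^ 2 + 2 K + 1 + K ^ 2`
and so on. -/
theorem absorb {Y : Type*} [NormedAddCommGroup Y]
    [NormedSpace 𝕜 Y] {K : ℝ} (hK : 0 ≤ K) (γ : S 𝕜 p 𝕜 →L[𝕜] Y) (δ : Y →L[𝕜] S 𝕜 p 𝕜)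
    (h : ∀ x, δ (γ x) = x) (hγ : ∀ x, ‖γ x‖ ≤ K * ‖x‖) (hδ : ∀ y, ‖δ y‖ ≤ K * ‖y‖) :
    IsoB 𝕜 (2 + 4 * K + 4 * K ^ 2) (Y × S 𝕜 p 𝕜) Y := by
  obtain ⟨τ, hτ1, hτ2⟩ := exists_iso_prod (𝕜 := 𝕜) (p := p)
  set A : (Y × S 𝕜 p 𝕜) →L[𝕜] Y :=
    (γ ∘L (τ : (S 𝕜 p 𝕜 × S 𝕜 p 𝕜) →L[𝕜] S 𝕜 p 𝕜)) ∘L
      ((δ ∘L ContinuousLinearMap.fst 𝕜 Y (S 𝕜 p 𝕜)).prod
        (ContinuousLinearMap.snd 𝕜 Y (S 𝕜 p 𝕜))) +
      ((ContinuousLinearMap.id 𝕜 Y - γ ∘L δ) ∘L ContinuousLinearMap.fst 𝕜 Y (S 𝕜 p 𝕜)) with hA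
  set σ : Y →L[𝕜] (S 𝕜 p 𝕜 × S 𝕜 p 𝕜) :=
    (τ.symm : S 𝕜 p 𝕜 →L[𝕜] (S 𝕜 p 𝕜 × S 𝕜 p 𝕜)) ∘L δ with hσ
  set B : Y →L[𝕜] (Y × S 𝕜 p 𝕜) :=
    (γ ∘L ContinuousLinearMap.fst 𝕜 (S 𝕜 p 𝕜) (S 𝕜 p 𝕜) ∘L σ +
      (ContinuousLinearMap.id 𝕜 Y - γ ∘L δ)).prod
      (ContinuousLinearMap.snd 𝕜 (S 𝕜 p 𝕜) (S 𝕜 p 𝕜) ∘L σ) with hB
  have eA : ∀ q : Y × S 𝕜 p 𝕜, A q = γ (τ (δ q.1, q.2)) + (q.1 - γ (δ q.1)) := fun q => rfl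
  have eB : ∀ y : Y, B y = (γ (τ.symm (δ y)).1 + (y - γ (δ y)), (τ.symm (δ y)).2) := fun y => rfl
  have h1 : ∀ q, B (A q) = q := by
    rintro ⟨y, x⟩
    have e1 : δ (A (y, x)) = τ (δ y, x) := by
      rw [eA]
      simp only [map_add, map_sub, h, sub_self, add_zero]
    rw [eB, e1, τ.symm_apply_apply, eA]
    simp
  have h2 : ∀ y, A (B y) = y := by
    intro y
    have e1 : δ (B y).1 = (τ.symm (δ y)).1 := by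
      rw [eB]
      simp only [map_add, map_sub, h, sub_self, add_zero]
    rw [eA, e1, eB]
    simp only [Prod.mk.eta, τ.apply_symm_apply]
    abel
  have hK2 : 0 ≤ K ^ 2 := sq_nonneg K
  refine ⟨ContinuousLinearEquiv.equivOfInverse A B h1 h2, fun q => ?_, fun y => ?_⟩
  · change ‖A q‖ ≤ _
    rw [eA]
    have n0 := norm_nonneg q
    have n1 : ‖q.1‖ ≤ ‖q‖ := norm_fst_le q
    have n2 : ‖q.2‖ ≤ ‖q‖ := norm_snd_le q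
    have n3 : ‖δ q.1‖ ≤ K * ‖q‖ := (hδ _).trans (by gcongr)
    have n4 : ‖(δ q.1, q.2)‖ ≤ (K + 1) * ‖q‖ := by
      rw [Prod.norm_def]
      refine max_le ?_ ?_
      · nlinarith
      · simp only
        nlinarith [mul_nonneg hK n0]
    have n5 : ‖γ (τ (δ q.1, q.2))‖ ≤ K * (2 * ((K + 1) * ‖q‖)) :=
      (hγ _).trans (by gcongr; exact (hτ1 _).trans (by gcongr))
    have n6 : ‖γ (δ q.1)‖ ≤ K * (K * ‖q‖) := (hγ _).trans (by gcongr)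
    have n7 : ‖γ (τ (δ q.1, q.2)) + (q.1 - γ (δ q.1))‖ ≤
        ‖γ (τ (δ q.1, q.2))‖ + (‖q.1‖ + ‖γ (δ q.1)‖) :=
      (norm_add_le _ _).trans (by gcongr; exact norm_sub_le _ _)
    nlinarith [mul_nonneg hK n0, mul_nonneg hK2 n0]
  · change ‖B y‖ ≤ _
    rw [eB]
    have n0 := norm_nonneg y
    have n1 : ‖τ.symm (δ y)‖ ≤ 2 * (K * ‖y‖) := (hτ2 _).trans (by gcongr; exact hδ y)
    have n2 : ‖(τ.symm (δ y)).1‖ ≤ 2 * (K * ‖y‖) := (norm_fst_le _).trans n1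
    have n3 : ‖(τ.symm (δ y)).2‖ ≤ 2 * (K * ‖y‖) := (norm_snd_le _).trans n1
    have n4 : ‖γ (τ.symm (δ y)).1‖ ≤ K * (2 * (K * ‖y‖)) := (hγ _).trans (by gcongr)
    have n5 : ‖γ (δ y)‖ ≤ K * (K * ‖y‖) := (hγ _).trans (by gcongr; exact hδ y)
    rw [Prod.norm_def]
    refine max_le ?_ ?_
    · have n6 : ‖γ (τ.symm (δ y)).1 + (y - γ (δ y))‖ ≤
          ‖γ (τ.symm (δ y)).1‖ + (‖y‖ + ‖γ (δ y)‖) :=
        (norm_add_le _ _).trans (by gcongr; exact norm_sub_le _ _)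
      simp only
      nlinarith [mul_nonneg hK n0, mul_nonneg hK2 n0]
    · simp only
      nlinarith [mul_nonneg hK n0, mul_nonneg hK2 n0]

end Pool.Agent.Lib.MP_a0554b_an
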