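import Mathlib
import Pool.Agent.Lib.MP_a0554b_an.B2a
import Pool.Agent.Lib.MP_a0554b_an.B2b

set_option autoImplicit false

/-!
# Pelczynski's decomposition method with explicit isomorphisms
-/

noncomputable section

namespace Pool.Agent.Lib.MP_a0554b_an

open Filter Topology
open scoped ENNReal

universe u v w

variable {𝕜 : Type v} [RCLike 𝕜] {p : ℝ≥0∞} [Fact (1 ≤ p)]

theorem isoB_refl (Y : Type*) [NormedAddCommGroup Y] [NormedSpace 𝕜 Y] : IsoB 𝕜 1 Y Y :=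
  ⟨ContinuousLinearEquiv.refl 𝕜 Y, fun y => by simp, fun y => by simp⟩

/-- `Y ≃ Y × L ≃ Y × S 𝕜 p L ≃ S 𝕜 p L ≃ L` with `L = S 𝕜 p 𝕜`. -/
theorem pelczynski (K : ℝ) (hK : 0 ≤ K) : ∃ C : ℝ, 0 ≤ C ∧
    ∀ (Y : Type u) [NormedAddCommGroup Y] [NormedSpace 𝕜 Y] (α : Y →L[𝕜] S 𝕜 p (S 𝕜 p 𝕜))
      (β : S 𝕜 p (S 𝕜 p 𝕜) →L[𝕜] Y) (γ : S 𝕜 p 𝕜 →L[𝕜] Y) (δ : Y →L[𝕜] S 𝕜 p 𝕜),
      (∀ y, β (α y) = y) → (∀ x, δ (γ x) = x) → (∀ y, ‖α y‖ ≤ K * ‖y‖) →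
      (∀ x, ‖β x‖ ≤ K * ‖x‖) → (∀ x, ‖γ x‖ ≤ K * ‖x‖) → (∀ y, ‖δ y‖ ≤ K * ‖y‖) →
      IsoB 𝕜 C Y (S 𝕜 p 𝕜) := by
  refine ⟨(2 + 4 * K + 4 * K ^ 2) * (1 * ((1 + K + 2 * K ^ 2) * 1)), by positivity, ?_⟩
  intro Y _ _ α β γ δ hβα hδγ hα hβ hγ hδ
  obtain ⟨J, hJ1, hJ2⟩ := exists_iso (𝕜 := 𝕜) (p := p)
  simp only [one_mul] at hJ1 hJ2
  have s1 : IsoB 𝕜 (2 + 4 * K + 4 * K ^ 2) Y (Y × S 𝕜 p 𝕜) :=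
    (absorb hK γ δ hδγ hγ hδ).symm
  have s2 : IsoB 𝕜 1 (Y × S 𝕜 p 𝕜) (Y × S 𝕜 p (S 𝕜 p 𝕜)) :=
    (isoB_refl Y).prod (exists_iso (𝕜 := 𝕜) (p := p)).symm
  have s3 : IsoB 𝕜 (1 + K + 2 * K ^ 2) (Y × S 𝕜 p (S 𝕜 p 𝕜)) (S 𝕜 p (S 𝕜 p 𝕜)) := by
    refine swindle hK ((J : S 𝕜 p (S 𝕜 p 𝕜) →L[𝕜] S 𝕜 p 𝕜) ∘L α)
      (β ∘L (J.symm : S 𝕜 p 𝕜 →L[𝕜] S 𝕜 p (S 𝕜 p 𝕜))) (fun y => ?_) (fun y => ?_) (fun x => ?_)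
    · simp [hβα]
    · exact (hJ1 (α y)).trans (hα y)
    · exact (hβ (J.symm x)).trans (by gcongr; exact hJ2 x)
  have s4 : IsoB 𝕜 1 (S 𝕜 p (S 𝕜 p 𝕜)) (S 𝕜 p 𝕜) := exists_iso
  exact s1.trans (by positivity) (by positivity)
    (s2.trans (by positivity) (by positivity) (s3.trans (by positivity) (by positivity) s4))

end Pool.Agent.Lib.MP_a0554b_an
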