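import Mathlib
import Pool.Agent.Lib.MP_a0554b_an.A4
import Pool.Agent.Lib.MP_a0554b_an.A5
import Pool.Agent.Lib.MP_a0554b_an.B1

set_option autoImplicit false

/-!
# A nearly disjoint normalized sequence in `ℓ_p` (or `c_0`) spans a complemented copy of the space
-/

noncomputable section

namespace Pool.Agent.Lib.MP_a0554b_an

open Filter Topology
open scoped ENNReal

universe u v w

variable {𝕜 : Type v} [RCLike 𝕜] {p : ℝ≥0∞} [Fact (1 ≤ p)]

/-- PROOF. `U j = Ico (m j) (m (j + 1))` are pairwise disjoint: `Overlap 1 U`. Put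
`w j = tr (Iio (m (j + 1))) (g j) = tr (U j) (g j)` (by `h2`), `z j = g j - w j`,
`‖z j‖ ≤ (1/2)^(j+5)`, so `‖w j‖ ≥ 1 - 1/32`.
`γ` := `cosum` for `T j : 𝕜 → S 𝕜 p 𝕜`, `a ↦ a • g j` (`r = 1`, `c = 1`, `ε j = (1/2)^(j+5)`,
`e = 1/16`): `‖γ x‖ ≤ (1 + 1/16) ‖x‖`.
`φ j`: norming functional of `w j` (`exists_dual_vector`), `ψ j = ‖w j‖⁻¹ • φ j ∘ tr (U j)`;
`‖ψ j x‖ ≤ (32/31) ‖tr (U j) x‖`. `δ₀` := `assemble` for `T j = ψ j`, `ι = id`, `ε = 0`,
`c = 32/31`, `e = 0`: `ev j (δ₀ x) = ψ j x`, `‖δ₀ x‖ ≤ (32/31) ‖x‖`.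
`δ₀ (g j) = sgl j 1 + δ₀ (z j)`: coordinate `i`: `ψ i (w j) = 0` for `i ≠ j` (disjoint
supports), `ψ j (w j) = 1`.
So `‖δ₀ (γ x) - x‖ = lim ‖∑_{j < n} ev j x • δ₀ (z j)‖ ≤ ‖x‖ * (32/31) * (1/16) ≤ ‖x‖ / 2`
(here `∑_{j < n} ev j x • sgl j 1 = tr (Iio n) x → x`: `tr_Iio_eq_sum`, `tendsto_tr`).
With `V` from `exists_inverse` for `T = δ₀ ∘ γ` put `δ = V ∘ δ₀`. -/
theorem spread (g : ℕ → S 𝕜 p 𝕜) (m : ℕ → ℕ) (hm : StrictMono m) (h1 : ∀ j, ‖g j‖ = 1)
    (h2 : ∀ j, tr (Set.Iio (m j)) (g j) = 0)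
    (h3 : ∀ j, ‖g j - tr (Set.Iio (m (j + 1))) (g j)‖ ≤ (1 / 2) ^ (j + 5)) :
    ∃ γ δ : S 𝕜 p 𝕜 →L[𝕜] S 𝕜 p 𝕜,
      (∀ x, Tendsto (fun n => ∑ j ∈ Finset.range n, ev j x • g j) atTop (𝓝 (γ x))) ∧
      (∀ x, δ (γ x) = x) ∧ (∀ x, ‖γ x‖ ≤ 2 * ‖x‖) ∧ ∀ x, ‖δ x‖ ≤ 4 * ‖x‖ := by
  classical
  set U : ℕ → Set ℕ := fun j => Set.Ico (m j) (m (j + 1)) with hU
  have hlt : ∀ i j, i < j → Disjoint (U i) (U j) := by
    intro i j hij
    rw [Set.disjoint_left]
    intro x hx hx'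
    have h4 : m (i + 1) ≤ m j := hm.monotone hij
    have h5 := hx.2
    have h6 := hx'.1
    omega
  have hdis : ∀ i j, i ≠ j → Disjoint (U i) (U j) := by
    intro i j hij
    rcases lt_or_gt_of_ne hij with h | h
    · exact hlt i j h
    · exact (hlt j i h).symm
  have hov : Overlap 1 U := ⟨one_pos, fun i j hij _ => hdis i j hij⟩
  -- the window part of `g j`
  have hw : ∀ j, tr (U j) (g j) = tr (Set.Iio (m (j + 1))) (g j) := by
    intro j
    apply S_ext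
    intro k
    rw [ev_tr, ev_tr]
    by_cases hk : k < m j
    · have h4 : ev k (g j) = 0 := by
        rw [← ev_tr_mem (Set.mem_Iio.2 hk) (g j), h2, map_zero]
      rw [h4, ite_self, ite_self]
    · have h4 : (k ∈ U j) ↔ (k ∈ Set.Iio (m (j + 1))) := by
        rw [hU]
        simp only [Set.mem_Ico, Set.mem_Iio]
        omega
      by_cases hk2 : k ∈ Set.Iio (m (j + 1))
      · rw [if_pos hk2, if_pos (h4.2 hk2)]
      · rw [if_neg hk2, if_neg (fun h => hk2 (h4.1 h))]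
  have hz : ∀ j, ‖g j - tr (U j) (g j)‖ ≤ (1 / 2) ^ (j + 5) := fun j => by
    rw [hw]; exact h3 j
  have hpow : ∀ j : ℕ, ((1 / 2 : ℝ)) ^ (j + 5) ≤ 1 / 32 := by
    intro j
    have : ((1 / 2 : ℝ)) ^ (j + 5) ≤ (1 / 2) ^ 5 :=
      pow_le_pow_of_le_one (by norm_num) (by norm_num) (by omega)
    norm_num at this ⊢
    exact this
  have hwn : ∀ j, (31 / 32 : ℝ) ≤ ‖tr (U j) (g j)‖ := by
    intro j
    have h4 : ‖g j‖ ≤ ‖g j - tr (U j) (g j)‖ + ‖tr (U j) (g j)‖ := by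
      have := norm_add_le (g j - tr (U j) (g j)) (tr (U j) (g j))
      rwa [sub_add_cancel] at this
    have h5 := hz j
    have h6 := hpow j
    rw [h1] at h4
    linarith
  have hε : Summable (fun j : ℕ => ((1 / 2 : ℝ)) ^ (j + 5)) := by
    simp_rw [pow_add]
    exact (summable_geometric_of_lt_one (by norm_num) (by norm_num)).mul_right _
  have hεs : ∑' j : ℕ, ((1 / 2 : ℝ)) ^ (j + 5) = 1 / 16 := by
    simp_rw [pow_add]
    rw [tsum_mul_right, tsum_geometric_of_lt_one (by norm_num) (by norm_num)]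
    norm_num
  -- the operator `γ`
  obtain ⟨γ, hγ1, hγ2⟩ := cosum (p := p) hov
    (fun j => ContinuousLinearMap.toSpanSingleton 𝕜 (g j)) (c := 1) (e := 1 / 16)
    zero_le_one (ε := fun j => (1 / 2) ^ (j + 5)) (fun j => by positivity) hε hεs.le
    (fun j x => by
      rw [ContinuousLinearMap.toSpanSingleton_apply, map_smul, norm_smul, one_mul]
      calc ‖x‖ * ‖tr (U j) (g j)‖ ≤ ‖x‖ * ‖g j‖ := by gcongr; exact norm_tr_le _ _
        _ = ‖x‖ := by rw [h1, mul_one])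
    (fun j x => by
      rw [ContinuousLinearMap.toSpanSingleton_apply, map_smul, ← smul_sub, norm_smul, mul_comm]
      gcongr
      exact hz j)
  -- the functionals
  have hne : ∀ j, tr (U j) (g j) ≠ 0 := by
    intro j h
    have := hwn j
    rw [h, norm_zero] at this
    norm_num at this
  choose φ hφ1 hφ2 using fun j => exists_dual_vector 𝕜 (tr (U j) (g j))
    (norm_ne_zero_iff.2 (hne j))
  set ψ : ℕ → S 𝕜 p 𝕜 →L[𝕜] 𝕜 := fun j =>
    ((‖tr (U j) (g j)‖⁻¹ : ℝ) : 𝕜) • (φ j ∘L tr (U j)) with hψ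
  have hψa : ∀ j x, ψ j x = ((‖tr (U j) (g j)‖⁻¹ : ℝ) : 𝕜) * φ j (tr (U j) x) := fun j x => rfl
  obtain ⟨δ₀, hδ1, hδ2⟩ := assemble (p := p) (E := 𝕜) hov (ContinuousLinearMap.id 𝕜 (S 𝕜 p 𝕜))
    (fun y => le_rfl) ψ (c := 32 / 31) (e := 0) (by norm_num) (ε := fun _ => 0) (fun _ => le_rfl)
    summable_zero (by rw [tsum_zero])
    (fun j y => by
      rw [hψa, norm_mul, RCLike.norm_ofReal, abs_of_nonneg (by positivity), zero_mul, add_zero]
      have h4 : ‖φ j (tr (U j) y)‖ ≤ ‖tr (U j) y‖ := by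
        have := (φ j).le_opNorm (tr (U j) y)
        rwa [hφ1, one_mul] at this
      have h5 : ‖tr (U j) (g j)‖⁻¹ ≤ 32 / 31 := by
        rw [inv_le_comm₀ (lt_of_lt_of_le (by norm_num) (hwn j)) (by norm_num)]
        norm_num
        exact hwn j
      calc ‖tr (U j) (g j)‖⁻¹ * ‖φ j (tr (U j) y)‖ ≤ 32 / 31 * ‖tr (U j) y‖ := by gcongr
        _ = 32 / 31 * ‖tr (U j) (ContinuousLinearMap.id 𝕜 (S 𝕜 p 𝕜) y)‖ := rfl)
  have hδ3 : ∀ y, ‖δ₀ y‖ ≤ 32 / 31 * ‖y‖ := fun y => by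
    have := hδ2 y
    norm_num at this ⊢
    exact this
  -- `δ₀` on the window parts
  have hδw : ∀ j, δ₀ (tr (U j) (g j)) = sgl j 1 := by
    intro j
    apply S_ext
    intro i
    rw [hδ1, hψa, ev_sgl, tr_tr]
    by_cases hij : i = j
    · subst hij
      rw [if_pos rfl, Set.inter_self, hφ2]
      rw [← RCLike.ofReal_mul, inv_mul_cancel₀ (norm_ne_zero_iff.2 (hne i)), RCLike.ofReal_one]
    · rw [if_neg hij, (hdis i j hij).inter_eq]
      have h4 : tr (∅ : Set ℕ) (g j) = 0 := by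
        apply S_ext
        intro k
        rw [ev_tr, if_neg (Set.notMem_empty k), map_zero]
      rw [h4, map_zero, mul_zero]
  have hclose : ∀ x, ‖δ₀ (γ x) - x‖ ≤ 1 / 2 * ‖x‖ := by
    intro x
    have h4 : Tendsto (fun n => δ₀ (∑ j ∈ Finset.range n, ev j x • g j) - tr (Set.Iio n) x) atTop
        (𝓝 (δ₀ (γ x) - x)) := by
      refine Tendsto.sub ?_ (tendsto_tr x)
      have h5 := hγ1 x
      simp only [ContinuousLinearMap.toSpanSingleton_apply] at h5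
      exact (δ₀.continuous.tendsto _).comp h5
    refine le_of_tendsto h4.norm (Eventually.of_forall fun n => ?_)
    have h5 : δ₀ (∑ j ∈ Finset.range n, ev j x • g j) - tr (Set.Iio n) x =
        ∑ j ∈ Finset.range n, ev j x • δ₀ (g j - tr (U j) (g j)) := by
      rw [tr_Iio_eq_sum, map_sum, ← Finset.sum_sub_distrib]
      apply Finset.sum_congr rfl
      intro j _
      rw [map_smul, map_sub, hδw, smul_sub]
      congr 1
      have h6 : (sgl j (ev j x) : S 𝕜 p 𝕜) = ev j x • sgl j 1 := by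
        rw [← map_smul, smul_eq_mul, mul_one]
      exact h6
    rw [h5]
    calc ‖∑ j ∈ Finset.range n, ev j x • δ₀ (g j - tr (U j) (g j))‖
        ≤ ∑ j ∈ Finset.range n, ‖ev j x • δ₀ (g j - tr (U j) (g j))‖ := norm_sum_le _ _
      _ ≤ ∑ j ∈ Finset.range n, ‖x‖ * (32 / 31 * (1 / 2) ^ (j + 5)) := by
          apply Finset.sum_le_sum
          intro j _
          rw [norm_smul]
          gcongr
          · exact norm_ev_le j x
          · exact (hδ3 _).trans (by gcongr; exact hz j)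
      _ = ‖x‖ * (32 / 31) * ∑ j ∈ Finset.range n, (1 / 2 : ℝ) ^ (j + 5) := by
          rw [Finset.mul_sum]
          apply Finset.sum_congr rfl
          intro j _
          ring
      _ ≤ ‖x‖ * (32 / 31) * (1 / 16) := by
          gcongr
          rw [← hεs]
          exact hε.sum_le_tsum _ (fun j _ => by positivity)
      _ ≤ 1 / 2 * ‖x‖ := by
          have := norm_nonneg x
          linarith
  obtain ⟨V, hV1, _, hV3⟩ := exists_inverse (δ₀ ∘L γ) (fun y => hclose y)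
  refine ⟨γ, V ∘L δ₀, ?_, ?_, ?_, ?_⟩
  · intro x
    have h5 := hγ1 x
    simp only [ContinuousLinearMap.toSpanSingleton_apply] at h5
    exact h5
  · intro x
    exact hV1 x
  · intro x
    refine (hγ2 x).trans ?_
    have := norm_nonneg x
    push_cast
    nlinarith
  · intro x
    calc ‖V (δ₀ x)‖ ≤ 2 * ‖δ₀ x‖ := hV3 _
      _ ≤ 2 * (32 / 31 * ‖x‖) := by gcongr; exact hδ3 x
      _ ≤ 4 * ‖x‖ := by
          have := norm_nonneg x
          linarith

end Pool.Agent.Lib.MP_a0554b_an
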