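import Mathlib
import Pool.Agent.Lib.MP_a0554b_an.C1

set_option autoImplicit false

/-!
# Every infinite dimensional closed subspace of `ℓ_p` (or `c_0`) contains a complemented copy
-/

noncomputable section

namespace Pool.Agent.Lib.MP_a0554b_an

open Filter Topology
open scoped ENNReal

universe u v w

variable {𝕜 : Type v} [RCLike 𝕜] {p : ℝ≥0∞} [Fact (1 ≤ p)]

/-- PROOF: the linear map `Y → (Fin m → 𝕜)`, `y ↦ (ev k y)_k`, is not injective since `Y` is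
infinite dimensional; normalize a nonzero vector of its kernel; `tr (Iio m) g = 0` by
`S_ext`/`ev_tr`. -/
theorem exists_unit_tail (Y : Submodule 𝕜 (S 𝕜 p 𝕜)) (hinf : ¬ FiniteDimensional 𝕜 Y) (m : ℕ) :
    ∃ g ∈ Y, ‖g‖ = 1 ∧ tr (Set.Iio m) g = 0 := by
  let L : Y →ₗ[𝕜] (Fin m → 𝕜) :=
    LinearMap.pi fun i => ((ev (i : ℕ) : S 𝕜 p 𝕜 →L[𝕜] 𝕜) : S 𝕜 p 𝕜 →ₗ[𝕜] 𝕜) ∘ₗ Y.subtype
  have hni : ¬ Function.Injective L := fun h => hinf (Module.Finite.of_injective L h)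
  have hker : ∃ y : Y, L y = 0 ∧ y ≠ 0 := by
    by_contra hcon
    push Not at hcon
    exact hni ((injective_iff_map_eq_zero L).2 hcon)
  obtain ⟨y, hy0, hyne⟩ := hker
  have hyne' : (y : S 𝕜 p 𝕜) ≠ 0 := fun h => hyne (Subtype.ext h)
  have hnorm : ‖(y : S 𝕜 p 𝕜)‖ ≠ 0 := norm_ne_zero_iff.2 hyne'
  have htr : tr (Set.Iio m) (y : S 𝕜 p 𝕜) = 0 := by
    apply S_ext
    intro k
    rw [map_zero]
    by_cases hk : k ∈ Set.Iio m
    · rw [ev_tr_mem hk]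
      exact congrFun hy0 ⟨k, hk⟩
    · exact ev_tr_notMem hk _
  refine ⟨((‖(y : S 𝕜 p 𝕜)‖⁻¹ : ℝ) : 𝕜) • (y : S 𝕜 p 𝕜), Y.smul_mem _ y.2, ?_, ?_⟩
  · rw [norm_smul, RCLike.norm_ofReal, abs_inv, abs_norm, inv_mul_cancel₀ hnorm]
  · rw [map_smul, htr, smul_zero]

/-- PROOF: choose recursively `m 0 = 0`, `g j ∈ Y` by `exists_unit_tail` for `m j`, then
`m (j + 1) > m j` with `‖g j - tr (Iio (m (j + 1))) (g j)‖ ≤ (1/2)^(j+5)` (`tendsto_tr`); apply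
`spread`. The range of `γ` is in `Y` (closed, limits of finite sums): `codRestrict`;
`δ` restricted to `Y`. -/
theorem exists_copy (Y : Submodule 𝕜 (S 𝕜 p 𝕜)) (hY : IsClosed (Y : Set (S 𝕜 p 𝕜)))
    (hinf : ¬ FiniteDimensional 𝕜 Y) :
    ∃ (γ : S 𝕜 p 𝕜 →L[𝕜] Y) (δ : Y →L[𝕜] S 𝕜 p 𝕜), (∀ x, δ (γ x) = x) ∧
      (∀ x, ‖γ x‖ ≤ 4 * ‖x‖) ∧ ∀ y, ‖δ y‖ ≤ 4 * ‖y‖ := by
  choose G hG1 hG2 hG3 using exists_unit_tail Y hinf
  have hnext : ∀ j m : ℕ, ∃ n : ℕ, m < n ∧ ‖G m - tr (Set.Iio n) (G m)‖ ≤ (1 / 2) ^ (j + 5) := by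
    intro j m
    have h1 := Metric.tendsto_atTop.1 (tendsto_tr (G m)) ((1 / 2) ^ (j + 5)) (by positivity)
    obtain ⟨N, hN⟩ := h1
    refine ⟨max N (m + 1), lt_of_lt_of_le (Nat.lt_succ_self m) (le_max_right _ _), ?_⟩
    have h2 := hN (max N (m + 1)) (le_max_left _ _)
    rw [dist_eq_norm, norm_sub_rev] at h2
    exact h2.le
  choose next hn1 hn2 using hnext
  let M : ℕ → ℕ := fun j => Nat.rec 0 (fun j m => next j m) j
  have hM : ∀ j, M (j + 1) = next j (M j) := fun _ => rfl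
  have hmono : StrictMono M := strictMono_nat_of_lt_succ fun j => by
    rw [hM]
    exact hn1 j (M j)
  obtain ⟨γ, δ, hlim, hδγ, hγ, hδ⟩ := spread (fun j => G (M j)) M hmono (fun j => hG2 (M j))
    (fun j => hG3 (M j)) (fun j => by rw [hM]; exact hn2 j (M j))
  have hmem : ∀ x, γ x ∈ Y := by
    intro x
    refine hY.mem_of_tendsto (hlim x) (Eventually.of_forall fun n => ?_)
    exact Y.sum_mem fun j _ => Y.smul_mem _ (hG1 (M j))
  refine ⟨γ.codRestrict Y hmem, δ ∘L Y.subtypeL, fun x => ?_, fun x => ?_, fun y => ?_⟩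
  · exact hδγ x
  · have h1 : ‖γ.codRestrict Y hmem x‖ = ‖γ x‖ := rfl
    rw [h1]
    refine (hγ x).trans ?_
    have := norm_nonneg x
    linarith
  · exact hδ (y : S 𝕜 p 𝕜)

end Pool.Agent.Lib.MP_a0554b_an
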