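import Mathlib
import Pool.Agent.Lib.MP_a0554b_an.A6

set_option autoImplicit false

/-!
# Weakly null sequences and weak compactness in `ℓ_p`, `1 < p`
-/

noncomputable section

namespace Pool.Agent.Lib.MP_a0554b_an

open Filter Topology
open scoped ENNReal

universe u v w

variable {𝕜 : Type v} [RCLike 𝕜] {p : ℝ≥0∞} [Fact (1 ≤ p)]

/-- PROOF: given `ε > 0` choose `m` with `‖g ∘L (id - tr (Iio m))‖ ≤ ε / (M + 1)`
(`functional_tail`); `g (v j) = g (tr (Iio m) (v j)) + g (v j - tr (Iio m) (v j))`; the second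
term is at most `ε`, the first tends to zero since `tr (Iio m) (v j) = ∑_{k < m} sgl k (ev k (v j))`
tends to zero. -/
theorem weak_null (hp : 1 < p) (v : ℕ → S 𝕜 p 𝕜) (M : ℝ) (hM : ∀ j, ‖v j‖ ≤ M)
    (h : ∀ k, Tendsto (fun j => ev k (v j)) atTop (𝓝 0)) (g : S 𝕜 p 𝕜 →L[𝕜] 𝕜) :
    Tendsto (fun j => g (v j)) atTop (𝓝 0) := by
  have hM0 : 0 ≤ M := (norm_nonneg _).trans (hM 0)
  rw [Metric.tendsto_atTop]
  intro ε hε
  have hδ : 0 < ε / (2 * (M + 1)) := by positivity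
  have ht := functional_tail hp g
  rw [Metric.tendsto_atTop] at ht
  obtain ⟨m, hm⟩ := ht (ε / (2 * (M + 1))) hδ
  have hm' : ‖g ∘L (ContinuousLinearMap.id 𝕜 (S 𝕜 p 𝕜) - tr (Set.Iio m))‖ <
      ε / (2 * (M + 1)) := by
    have h5 := hm m le_rfl
    rw [Real.dist_eq, sub_zero] at h5
    exact lt_of_le_of_lt (le_abs_self _) h5
  have h1 : Tendsto (fun j => g (tr (Set.Iio m) (v j))) atTop (𝓝 0) := by
    have h2 : Tendsto (fun j => ∑ k ∈ Finset.range m, (sgl k (ev k (v j)) : S 𝕜 p 𝕜)) atTop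
        (𝓝 (∑ _k ∈ Finset.range m, (0 : S 𝕜 p 𝕜))) := by
      refine tendsto_finsetSum _ fun k _ => ?_
      have h3 := ((sgl k : 𝕜 →L[𝕜] S 𝕜 p 𝕜).continuous.tendsto 0).comp (h k)
      rw [map_zero] at h3
      exact h3
    rw [Finset.sum_const_zero] at h2
    have h4 := (g.continuous.tendsto 0).comp h2
    rw [map_zero] at h4
    refine h4.congr fun j => ?_
    simp only [Function.comp_apply, tr_Iio_eq_sum]
  rw [Metric.tendsto_atTop] at h1
  obtain ⟨N, hN⟩ := h1 (ε / 2) (half_pos hε)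
  refine ⟨N, fun j hj => ?_⟩
  have e1 := hN j hj
  rw [dist_zero_right] at e1 ⊢
  have e2 : ‖g (v j - tr (Set.Iio m) (v j))‖ ≤ ε / (2 * (M + 1)) * M := by
    have e3 := (g ∘L (ContinuousLinearMap.id 𝕜 (S 𝕜 p 𝕜) - tr (Set.Iio m))).le_opNorm (v j)
    have e4 : (g ∘L (ContinuousLinearMap.id 𝕜 (S 𝕜 p 𝕜) - tr (Set.Iio m))) (v j) =
        g (v j - tr (Set.Iio m) (v j)) := rfl
    rw [e4] at e3
    exact e3.trans (mul_le_mul hm'.le (hM j) (norm_nonneg _) hδ.le)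
  have e5 : ε / (2 * (M + 1)) * M ≤ ε / 2 := by
    rw [div_mul_eq_mul_div, div_le_div_iff₀ (by positivity) (by norm_num)]
    nlinarith
  have e6 : g (v j) = g (tr (Set.Iio m) (v j)) + g (v j - tr (Set.Iio m) (v j)) := by
    rw [← map_add, add_sub_cancel]
  calc ‖g (v j)‖ = ‖g (tr (Set.Iio m) (v j)) + g (v j - tr (Set.Iio m) (v j))‖ := by
        rw [← e6]
    _ ≤ ‖g (tr (Set.Iio m) (v j))‖ + ‖g (v j - tr (Set.Iio m) (v j))‖ := norm_add_le _ _
    _ < ε / 2 + ε / 2 := by linarith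
    _ = ε := by ring

/-- PROOF: the sequences `k ↦ ev k (x j)` lie in the compact set `Set.pi univ (closedBall 0 M)` of
`ℕ → 𝕜` (`isCompact_univ_pi`), which is metrizable: `IsCompact.tendsto_subseq` gives `φ` and a
limit `a : ℕ → 𝕜` with `ev k (x (φ j)) → a k` for all `k`. `a` is in `ℓ_p`
(`p < ∞`: every finite sum `∑_{k ∈ s} ‖a k‖ ^ p ≤ M ^ p` as a limit; `memℓp_gen'`), so `a k → 0` and
`a` defines an element of `S 𝕜 p 𝕜`. Apply `weak_null` to `x (φ j) - a`. -/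
theorem weak_subseq (hp : 1 < p) (hp' : p ≠ ∞) (x : ℕ → S 𝕜 p 𝕜) (M : ℝ)
    (hM : ∀ j, ‖x j‖ ≤ M) : ∃ (a : S 𝕜 p 𝕜) (φ : ℕ → ℕ), StrictMono φ ∧
      ∀ g : S 𝕜 p 𝕜 →L[𝕜] 𝕜, Tendsto (fun j => g (x (φ j))) atTop (𝓝 (g a)) := by
  have hM0 : 0 ≤ M := (norm_nonneg _).trans (hM 0)
  have hp0 : 0 < p.toReal := ENNReal.toReal_pos (p_ne_zero p) hp'
  have hK : IsCompact (Set.pi Set.univ (fun _ : ℕ => Metric.closedBall (0 : 𝕜) M)) :=
    isCompact_univ_pi fun _ => isCompact_closedBall _ _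
  obtain ⟨a, _, φ, hφ, hlim⟩ := hK.tendsto_subseq (x := fun j k => ev k (x j)) (fun j => by
    rw [Set.mem_univ_pi]
    intro k
    rw [mem_closedBall_zero_iff]
    exact (norm_ev_le k (x j)).trans (hM j))
  rw [tendsto_pi_nhds] at hlim
  have hlim' : ∀ k, Tendsto (fun j => ev k (x (φ j))) atTop (𝓝 (a k)) := hlim
  have hsum : ∀ s : Finset ℕ, ∑ i ∈ s, ‖a i‖ ^ p.toReal ≤ M ^ p.toReal := by
    intro s
    have h1 : Tendsto (fun j => ∑ i ∈ s, ‖ev i (x (φ j))‖ ^ p.toReal) atTop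
        (𝓝 (∑ i ∈ s, ‖a i‖ ^ p.toReal)) := by
      refine tendsto_finsetSum _ fun i _ => ?_
      exact ((hlim' i).norm).rpow_const (Or.inr hp0.le)
    refine le_of_tendsto h1 (Eventually.of_forall fun j => ?_)
    have h2 := lp.sum_rpow_le_norm_rpow hp0 (x (φ j)).1 s
    exact h2.trans (Real.rpow_le_rpow (norm_nonneg _) (hM (φ j)) hp0.le)
  have hmem : Memℓp a p := memℓp_gen' hsum
  have h0 : Tendsto a atTop (𝓝 0) := by
    have h1 : Summable fun i => ‖a i‖ ^ p.toReal := (memℓp_gen_iff hp0).1 hmem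
    have h2 := h1.tendsto_atTop_zero
    have h3 := h2.rpow_const (p := 1 / p.toReal) (Or.inr (by positivity))
    rw [Real.zero_rpow (by positivity)] at h3
    rw [tendsto_zero_iff_norm_tendsto_zero]
    refine h3.congr fun i => ?_
    rw [← Real.rpow_mul (norm_nonneg _), mul_one_div_cancel hp0.ne', Real.rpow_one]
  refine ⟨ofSeq a hmem h0, φ, hφ, fun g => ?_⟩
  have hw := weak_null hp (fun j => x (φ j) - ofSeq a hmem h0) (M + ‖(ofSeq a hmem h0 :
    S 𝕜 p 𝕜)‖) (fun j => (norm_sub_le _ _).trans (by linarith [hM (φ j)])) (fun k => by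
      have h1 : Tendsto (fun j => ev k (x (φ j)) - a k) atTop (𝓝 (a k - a k)) :=
        (hlim' k).sub_const (a k)
      rw [sub_self] at h1
      refine h1.congr fun j => ?_
      rw [map_sub, ev_ofSeq]) g
  have h2 := hw.add_const (g (ofSeq a hmem h0))
  rw [zero_add] at h2
  refine h2.congr fun j => ?_
  rw [map_sub, sub_add_cancel]

end Pool.Agent.Lib.MP_a0554b_an
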