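import Mathlib
import Pool.Agent.Lib.MP_a0554b_an.D1

set_option autoImplicit false

/-!
# Schauder bases of `ℓ_p`, `1 < p < ∞`, are shrinking
-/

noncomputable section

namespace Pool.Agent.Lib.MP_a0554b_an

open Filter Topology
open scoped ENNReal

universe u v w

variable {𝕜 : Type v} [RCLike 𝕜] {p : ℝ≥0∞} [Fact (1 ≤ p)]

theorem D2_coord_proj (b : SchauderBasis 𝕜 (S 𝕜 p 𝕜)) (i n : ℕ) (x : S 𝕜 p 𝕜) :
    b.coord i (b.proj n x) = if i < n then b.coord i x else 0 := by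
  rw [SchauderBasis.proj_apply, map_sum]
  simp only [map_smul, b.ortho, smul_eq_mul, Pi.single_apply, mul_ite, mul_one, mul_zero,
    Finset.sum_ite_eq, Finset.mem_range]

/-- the recursive choice: a function of the present index -/
theorem D2_step (b : SchauderBasis 𝕜 (S 𝕜 p 𝕜)) (f : S 𝕜 p 𝕜 →L[𝕜] 𝕜) {η : ℝ} (hη : 0 < η)
    (h : ∀ n, η ≤ ‖f ∘L (ContinuousLinearMap.id 𝕜 (S 𝕜 p 𝕜) - b.proj n)‖) (n : ℕ) :
    ∃ (z : S 𝕜 p 𝕜) (n' : ℕ), n < n' ∧ ‖z‖ ≤ 1 ∧ η / 4 ≤ ‖f (b.proj n' z - b.proj n z)‖ := by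
  have h1 : η / 2 < ‖f ∘L (ContinuousLinearMap.id 𝕜 (S 𝕜 p 𝕜) - b.proj n)‖ :=
    lt_of_lt_of_le (half_lt_self hη) (h n)
  obtain ⟨z, hz, hz2⟩ := ContinuousLinearMap.exists_lt_apply_of_lt_opNorm _ h1
  have h2 : Tendsto (fun m => ‖f (b.proj m z - b.proj n z)‖) atTop
      (𝓝 ‖f (z - b.proj n z)‖) := by
    refine Tendsto.norm ((f.continuous.tendsto _).comp ?_)
    exact (SchauderBasis.tendsto_proj b z).sub_const _
  have h3 : η / 4 < ‖f (z - b.proj n z)‖ := by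
    have : (f ∘L (ContinuousLinearMap.id 𝕜 (S 𝕜 p 𝕜) - b.proj n)) z = f (z - b.proj n z) := rfl
    rw [this] at hz2
    linarith
  have h4 := (h2.eventually (lt_mem_nhds h3)).and (eventually_gt_atTop n)
  obtain ⟨n', h5, h6⟩ := h4.exists
  exact ⟨z, n', h6, hz.le, h5.le⟩

/-- PROOF. Let `P n = b.proj n`, `‖P n‖ ≤ K` (`SchauderBasis.exists_norm_proj_le`, needs
completeness: `A1_complete`), `P n (P m x) = P (min n m) x` (`SchauderBasis.proj_comp`),
`P n x → x` (`SchauderBasis.tendsto_proj`). For `n ≤ n'`,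
`f ∘ (1 - P n') = f ∘ (1 - P n) ∘ (1 - P n')` so `‖f ∘ (1 - P n')‖ ≤ (1 + K) ‖f ∘ (1 - P n)‖`.
Suppose the norms do not tend to zero: then there is `η > 0` with `‖f ∘ (1 - P n)‖ ≥ η` for all `n`.
Choose recursively `n 0 = 0`, `z j` with `‖z j‖ ≤ 1`, `‖f (z j - P (n j) (z j))‖ ≥ η / 2`,
`n (j + 1) > n j` with `‖f (P (n (j + 1)) (z j) - P (n j) (z j))‖ ≥ η / 4`. Put
`x j = P (n (j + 1)) (z j) - P (n j) (z j)`: bounded by `2 K`, `‖f (x j)‖ ≥ η / 4` and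
`b.coord i (x j) = 0` for `i < n j`, in particular for `i < j`. By `weak_subseq` a subsequence
converges weakly to `a`; `b.coord i a = lim b.coord i (x (φ j)) = 0` for all `i`, so `a = 0`
(`b.expansion`, or `P n a → a`). Hence `f (x (φ j)) → 0`: contradiction. -/
theorem shrinking (hp : 1 < p) (hp' : p ≠ ∞) (b : SchauderBasis 𝕜 (S 𝕜 p 𝕜))
    (f : S 𝕜 p 𝕜 →L[𝕜] 𝕜) :
    Tendsto (fun n : ℕ => ‖f ∘L (ContinuousLinearMap.id 𝕜 (S 𝕜 p 𝕜) - b.proj n)‖) atTop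
      (𝓝 0) := by
  obtain ⟨K, hK⟩ := SchauderBasis.exists_norm_proj_le b
  have hK0 : 0 ≤ K := (ContinuousLinearMap.opNorm_nonneg _).trans (hK 0)
  by_contra hcon
  -- a uniform lower bound
  have hη : ∃ η : ℝ, 0 < η ∧
      ∀ n, η ≤ ‖f ∘L (ContinuousLinearMap.id 𝕜 (S 𝕜 p 𝕜) - b.proj n)‖ := by
    rw [Metric.tendsto_atTop] at hcon
    push Not at hcon
    obtain ⟨ε, hε, h1⟩ := hcon
    refine ⟨ε / (1 + K), by positivity, fun n => ?_⟩
    obtain ⟨n', hn', h2⟩ := h1 n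
    rw [dist_zero_right, Real.norm_eq_abs,
      abs_of_nonneg (ContinuousLinearMap.opNorm_nonneg _)] at h2
    have h3 : f ∘L (ContinuousLinearMap.id 𝕜 (S 𝕜 p 𝕜) - b.proj n') =
        (f ∘L (ContinuousLinearMap.id 𝕜 (S 𝕜 p 𝕜) - b.proj n)) ∘L
          (ContinuousLinearMap.id 𝕜 (S 𝕜 p 𝕜) - b.proj n') := by
      ext x
      simp only [ContinuousLinearMap.comp_apply, sub_apply,
        ContinuousLinearMap.id_apply, map_sub, SchauderBasis.proj_comp, min_eq_left hn']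
      abel
    have h4 : ‖ContinuousLinearMap.id 𝕜 (S 𝕜 p 𝕜) - b.proj n'‖ ≤ 1 + K := by
      refine ContinuousLinearMap.opNorm_le_bound _ (by positivity) fun x => ?_
      change ‖x - b.proj n' x‖ ≤ (1 + K) * ‖x‖
      have h5 : ‖b.proj n' x‖ ≤ K * ‖x‖ :=
        ((b.proj n').le_opNorm x).trans (mul_le_mul_of_nonneg_right (hK n') (norm_nonneg _))
      have h6 : ‖x - b.proj n' x‖ ≤ ‖x‖ + ‖b.proj n' x‖ := norm_sub_le _ _
      linarith
    rw [div_le_iff₀ (by positivity)]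
    calc ε ≤ ‖f ∘L (ContinuousLinearMap.id 𝕜 (S 𝕜 p 𝕜) - b.proj n')‖ := h2
      _ ≤ ‖f ∘L (ContinuousLinearMap.id 𝕜 (S 𝕜 p 𝕜) - b.proj n)‖ *
          ‖ContinuousLinearMap.id 𝕜 (S 𝕜 p 𝕜) - b.proj n'‖ := by
          rw [h3]
          exact ContinuousLinearMap.opNorm_comp_le _ _
      _ ≤ ‖f ∘L (ContinuousLinearMap.id 𝕜 (S 𝕜 p 𝕜) - b.proj n)‖ * (1 + K) :=
          mul_le_mul_of_nonneg_left h4 (ContinuousLinearMap.opNorm_nonneg _)
  obtain ⟨η, hη0, hη1⟩ := hη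
  choose z N hN hz hf using D2_step b f hη0 hη1
  -- the recursion
  let n : ℕ → ℕ := fun j => Nat.rec 0 (fun _ m => N m) j
  have hn0 : n 0 = 0 := rfl
  have hns : ∀ j, n (j + 1) = N (n j) := fun j => rfl
  have hmono : StrictMono n := strictMono_nat_of_lt_succ fun j => by
    rw [hns]; exact hN _
  let x : ℕ → S 𝕜 p 𝕜 := fun j => b.proj (n (j + 1)) (z (n j)) - b.proj (n j) (z (n j))
  have hx1 : ∀ j, ‖x j‖ ≤ 2 * K := by
    intro j
    have h1 : ∀ m, ‖b.proj m (z (n j))‖ ≤ K := fun m =>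
      calc ‖b.proj m (z (n j))‖ ≤ ‖b.proj m‖ * ‖z (n j)‖ := (b.proj m).le_opNorm _
        _ ≤ K * 1 := mul_le_mul (hK m) (hz _) (norm_nonneg _) hK0
        _ = K := mul_one _
    calc ‖x j‖ ≤ ‖b.proj (n (j + 1)) (z (n j))‖ + ‖b.proj (n j) (z (n j))‖ := norm_sub_le _ _
      _ ≤ K + K := add_le_add (h1 _) (h1 _)
      _ = 2 * K := by ring
  have hx2 : ∀ j, η / 4 ≤ ‖f (x j)‖ := fun j => hf (n j)
  have hx3 : ∀ i j, i < j → b.coord i (x j) = 0 := by
    intro i j hij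
    have h1 : i < n j := lt_of_lt_of_le hij (hmono.le_apply)
    have h2 : i < n (j + 1) := h1.trans (hmono (Nat.lt_succ_self j))
    change b.coord i (b.proj (n (j + 1)) (z (n j)) - b.proj (n j) (z (n j))) = 0
    rw [map_sub, D2_coord_proj, D2_coord_proj, if_pos h1, if_pos h2, sub_self]
  obtain ⟨a, φ, hφ, hg⟩ := weak_subseq hp hp' x (2 * K) hx1
  have ha : ∀ i, b.coord i a = 0 := by
    intro i
    have h1 := hg (b.coord i)
    have h2 : Tendsto (fun j => b.coord i (x (φ j))) atTop (𝓝 0) := by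
      refine tendsto_const_nhds.congr' ?_
      filter_upwards [eventually_gt_atTop i] with j hj
      exact (hx3 i (φ j) (lt_of_lt_of_le hj (hφ.le_apply))).symm
    exact tendsto_nhds_unique h1 h2
  have ha0 : a = 0 := by
    have h1 := SchauderBasis.tendsto_proj b a
    have h2 : ∀ m, b.proj m a = 0 := by
      intro m
      rw [SchauderBasis.proj_apply]
      exact Finset.sum_eq_zero fun i _ => by rw [ha i, zero_smul]
    simp only [h2] at h1
    exact tendsto_nhds_unique h1 tendsto_const_nhds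
  have h1 := (hg f).norm
  rw [ha0, map_zero, norm_zero] at h1
  have h2 := ge_of_tendsto' h1 fun j => hx2 (φ j)
  linarith

end Pool.Agent.Lib.MP_a0554b_an
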