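import Mathlib
import Pool.Agent.Lib.MP_a0554b_an.Defs

set_option autoImplicit false

/-!
# Basic facts about block sequences
-/

noncomputable section

namespace Pool.Agent.Lib.MP_a0554b_an

open Filter Topology
open scoped ENNReal

universe u v w

variable {𝕜 : Type v} [RCLike 𝕜] {X : Type u} [NormedAddCommGroup X] [NormedSpace 𝕜 X]
  {b : SchauderBasis 𝕜 X} {y : ℕ → X}

/-- the cut points of a block sequence: `supp (y k) ⊆ [e k, e (k + 1))` -/
structure IsCut (b : SchauderBasis 𝕜 X) (y : ℕ → X) (e : ℕ → ℕ) : Prop where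
  mono : StrictMono e
  zero : e 0 = 0
  supp : ∀ k n, b.coord n (y k) ≠ 0 → e k ≤ n ∧ n < e (k + 1)

theorem E1_exists_coord_ne {x : X} (hx : x ≠ 0) : ∃ n, b.coord n x ≠ 0 := by
  by_contra h
  push Not at h
  apply hx
  have h1 : ∀ n, b.proj n x = 0 := fun n => by
    rw [SchauderBasis.proj_apply]
    exact Finset.sum_eq_zero fun i _ => by rw [h i, zero_smul]
  have h2 := SchauderBasis.tendsto_proj b x
  simp only [h1] at h2
  exact (tendsto_nhds_unique h2 tendsto_const_nhds)

/-- PROOF: `e 0 = 0`, `e (k + 1) = 1 + max supp (y k)`. The support of `y k` is nonempty: if all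
`b.coord n (y k) = 0` then `y k = 0` (`b.expansion`, or `SchauderBasis.tendsto_proj`). -/
theorem IsBlock.exists_cut (hy : IsBlock b y) : ∃ e, IsCut b y e := by
  have hne : ∀ k, ((hy.finite k).toFinset).Nonempty := fun k => by
    obtain ⟨n, hn⟩ := E1_exists_coord_ne (b := b) (hy.ne_zero k)
    exact ⟨n, (hy.finite k).mem_toFinset.2 hn⟩
  let M : ℕ → ℕ := fun k => ((hy.finite k).toFinset).max' (hne k)
  have hM : ∀ k, b.coord (M k) (y k) ≠ 0 := fun k =>
    (hy.finite k).mem_toFinset.1 (Finset.max'_mem _ (hne k))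
  have hM' : ∀ k n, b.coord n (y k) ≠ 0 → n ≤ M k := fun k n hn =>
    Finset.le_max' _ _ ((hy.finite k).mem_toFinset.2 hn)
  let e : ℕ → ℕ := fun k => match k with
    | 0 => 0
    | k + 1 => M k + 1
  refine ⟨e, strictMono_nat_of_lt_succ fun k => ?_, rfl, fun k n hn => ⟨?_, ?_⟩⟩
  · cases k with
    | zero => exact Nat.succ_pos _
    | succ k =>
      change M k + 1 < M (k + 1) + 1
      exact Nat.succ_lt_succ (hy.lt k _ _ (hM k) (hM (k + 1)))
  · cases k with
    | zero => exact Nat.zero_le _
    | succ k => exact hy.lt k _ _ (hM k) hn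
  · exact Nat.lt_succ_of_le (hM' k n hn)

theorem IsCut.isBlock {e : ℕ → ℕ} (he : IsCut b y e) (h0 : ∀ k, y k ≠ 0) : IsBlock b y where
  ne_zero := h0
  finite := fun k => (Set.finite_Iio (e (k + 1))).subset fun n hn => (he.supp k n hn).2
  lt := fun k m n hm hn => lt_of_lt_of_le (he.supp k m hm).2 (he.supp (k + 1) n hn).1

/-- PROOF: `SchauderBasis.proj_apply`: for `i < k` all coordinates of `y i` are before
`e (i + 1) ≤ e k`: `b.proj n (y i) = b.proj (e k) (y i)` for `n ≥ e k` and the limit is `y i`; for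
`k ≤ i` they are after `e k`. -/
theorem IsCut.proj_apply {e : ℕ → ℕ} (he : IsCut b y e) (k i : ℕ) :
    b.proj (e k) (y i) = if i < k then y i else 0 := by
  split_ifs with h
  · have h1 : ∀ n, e k ≤ n → b.proj n (y i) = b.proj (e k) (y i) := fun n hn => by
      rw [SchauderBasis.proj_apply, SchauderBasis.proj_apply]
      refine (Finset.sum_subset (Finset.range_mono hn) fun m _ hm => ?_).symm
      have h2 : b.coord m (y i) = 0 := by
        by_contra h3
        have h4 := (he.supp i m h3).2
        have h5 : e (i + 1) ≤ e k := he.mono.monotone h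
        exact hm (Finset.mem_range.2 (lt_of_lt_of_le h4 h5))
      rw [h2, zero_smul]
    have h6 : Tendsto (fun n => b.proj n (y i)) atTop (𝓝 (b.proj (e k) (y i))) := by
      refine tendsto_const_nhds.congr' ?_
      filter_upwards [eventually_ge_atTop (e k)] with n hn
      exact (h1 n hn).symm
    exact tendsto_nhds_unique h6 (SchauderBasis.tendsto_proj b (y i))
  · rw [SchauderBasis.proj_apply]
    refine Finset.sum_eq_zero fun m hm => ?_
    have h2 : b.coord m (y i) = 0 := by
      by_contra h3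
      have h4 := (he.supp i m h3).1
      have h5 : e k ≤ e i := he.mono.monotone (not_lt.1 h)
      exact absurd (Finset.mem_range.1 hm) (not_lt.2 (h5.trans h4))
    rw [h2, zero_smul]

/-- an operator which maps the vectors of `y` to a finite dimensional span maps the closed span
there -/
theorem E1_mem_of_forall (A : X →L[𝕜] X) {s : Set ℕ} (hs : s.Finite)
    (h : ∀ i, A (y i) ∈ Submodule.span 𝕜 (y '' s)) {x : X} (hx : x ∈ closedSpan 𝕜 y) :
    A x ∈ Submodule.span 𝕜 (y '' s) := by
  haveI : FiniteDimensional 𝕜 (Submodule.span 𝕜 (y '' s)) :=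
    FiniteDimensional.span_of_finite 𝕜 (hs.image y)
  have hc : IsClosed ((Submodule.span 𝕜 (y '' s) : Submodule 𝕜 X) : Set X) :=
    Submodule.closed_of_finiteDimensional _
  have h1 : closedSpan 𝕜 y ≤ (Submodule.span 𝕜 (y '' s)).comap (A : X →ₗ[𝕜] X) := by
    refine Submodule.topologicalClosure_minimal _ ?_ (hc.preimage A.continuous)
    rw [Submodule.span_le]
    rintro _ ⟨i, rfl⟩
    exact h i
  exact h1 hx

/-- PROOF: true for `x` in the span of `y` by `IsCut.proj_apply` (`Submodule.span_induction`); the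
span of the finite set `y '' Iio k` is finite dimensional, hence closed; continuity. -/
theorem IsCut.proj_mem {e : ℕ → ℕ} (he : IsCut b y e) (k : ℕ) {x : X}
    (hx : x ∈ closedSpan 𝕜 y) : b.proj (e k) x ∈ Submodule.span 𝕜 (y '' Set.Iio k) := by
  refine E1_mem_of_forall _ (Set.finite_Iio k) (fun i => ?_) hx
  rw [he.proj_apply]
  split_ifs with h
  · exact Submodule.subset_span ⟨i, h, rfl⟩
  · exact Submodule.zero_mem _

theorem IsCut.proj_sub_mem {e : ℕ → ℕ} (he : IsCut b y e) {k l : ℕ} (hkl : k ≤ l) {x : X}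
    (hx : x ∈ closedSpan 𝕜 y) :
    b.proj (e l) x - b.proj (e k) x ∈ Submodule.span 𝕜 (y '' Set.Ico k l) := by
  have h0 : ∀ z, (b.proj (e l) - b.proj (e k)) z = b.proj (e l) z - b.proj (e k) z := fun z => rfl
  rw [← h0]
  refine E1_mem_of_forall _ (Set.finite_Ico k l) (fun i => ?_) hx
  rw [h0, he.proj_apply, he.proj_apply]
  by_cases h1 : i < k
  · rw [if_pos h1, if_pos (lt_of_lt_of_le h1 hkl), sub_self]
    exact Submodule.zero_mem _
  · rw [if_neg h1, sub_zero]
    split_ifs with h2
    · exact Submodule.subset_span ⟨i, ⟨not_lt.1 h1, h2⟩, rfl⟩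
    · exact Submodule.zero_mem _

theorem IsCut.proj_sub_eq {e : ℕ → ℕ} (he : IsCut b y e) {k l : ℕ} (hkl : k ≤ l) {x : X}
    (hx : x ∈ Submodule.span 𝕜 (y '' Set.Ico k l)) :
    b.proj (e l) x - b.proj (e k) x = x := by
  have h0 : ∀ z, ((b.proj (e l) - b.proj (e k) : X →L[𝕜] X) : X →ₗ[𝕜] X) z =
    b.proj (e l) z - b.proj (e k) z := fun z => rfl
  rw [← h0]
  have h1 : Set.EqOn ((b.proj (e l) - b.proj (e k) : X →L[𝕜] X) : X →ₗ[𝕜] X)
      (LinearMap.id : X →ₗ[𝕜] X) (y '' Set.Ico k l) := by
    rintro _ ⟨i, hi, rfl⟩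
    rw [h0, he.proj_apply, he.proj_apply, if_pos hi.2, if_neg (not_lt.2 hi.1), sub_zero]
    rfl
  exact LinearMap.eqOn_span h1 hx

theorem span_image_le (s : Set ℕ) :
    Submodule.span 𝕜 (y '' s) ≤ closedSpan 𝕜 y :=
  (Submodule.span_mono (Set.image_subset_range y s)).trans
    (Submodule.le_topologicalClosure _)

theorem IsBlock.shift (hy : IsBlock b y) (i : ℕ) : IsBlock b (fun k => y (k + i)) where
  ne_zero := fun k => hy.ne_zero _
  finite := fun k => hy.finite _
  lt := fun k m n hm hn => hy.lt (k + i) m n hm (by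
    rw [show k + i + 1 = k + 1 + i by ring]; exact hn)

/-- PROOF: `y` is linearly independent (apply `b.proj (e (k + 1)) - b.proj (e k)`), and the closed
span contains it (`LinearIndependent` sequences contradict finite dimension:
`LinearIndependent.finite` or `Module.Finite`...). -/
theorem IsBlock.not_finiteDimensional (hy : IsBlock b y) :
    ¬ FiniteDimensional 𝕜 (closedSpan 𝕜 y) := by
  intro hfin
  obtain ⟨e, he⟩ := hy.exists_cut
  have hmem : ∀ k, y k ∈ closedSpan 𝕜 y := fun k =>
    Submodule.le_topologicalClosure _ (Submodule.subset_span ⟨k, rfl⟩)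
  have hli : LinearIndependent 𝕜 (fun k => (⟨y k, hmem k⟩ : closedSpan 𝕜 y)) := by
    rw [linearIndependent_iff']
    intro s c hc i hi
    have h1 : ∑ j ∈ s, c j • y j = 0 := by
      have h2 := congrArg (fun z : closedSpan 𝕜 y => (z : X)) hc
      simpa using h2
    have h3 : ∑ j ∈ s, c j • (b.proj (e (i + 1)) (y j) - b.proj (e i) (y j)) = 0 := by
      have h4 := congrArg (b.proj (e (i + 1)) - b.proj (e i)) h1
      rw [map_sum, map_zero] at h4
      rw [← h4]
      refine Finset.sum_congr rfl fun j _ => ?_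
      rw [map_smul]
      rfl
    rw [Finset.sum_eq_single i] at h3
    · rw [he.proj_apply, he.proj_apply, if_pos (Nat.lt_succ_self i), if_neg (lt_irrefl i), sub_zero,
        smul_eq_zero] at h3
      exact h3.resolve_right (hy.ne_zero i)
    · intro j _ hj
      have h5 : b.proj (e (i + 1)) (y j) - b.proj (e i) (y j) = 0 := by
        rw [he.proj_apply, he.proj_apply]
        rcases lt_or_gt_of_ne hj with h6 | h6
        · rw [if_pos h6, if_pos (Nat.lt_succ_of_lt h6), sub_self]
        · rw [if_neg (not_lt.2 h6.le), if_neg (not_lt.2 (Nat.succ_le_of_lt h6)), sub_self]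
      rw [h5, smul_zero]
    · intro h7
      exact absurd hi h7
  have := hli.finite
  exact not_finite ℕ

theorem closedSpan_isClosed (y : ℕ → X) : IsClosed (closedSpan 𝕜 y : Set X) :=
  Submodule.isClosed_topologicalClosure _

instance [CompleteSpace X] (y : ℕ → X) : CompleteSpace (closedSpan 𝕜 y) :=
  (closedSpan_isClosed y).completeSpace_coe

end Pool.Agent.Lib.MP_a0554b_an
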