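import Mathlib
import Pool.Agent.Lib.MP_a0554b_an.E1

set_option autoImplicit false

/-!
# Concatenation of finite block sequences
-/

noncomputable section

namespace Pool.Agent.Lib.MP_a0554b_an

open Filter Topology
open scoped ENNReal

universe u v w

variable {𝕜 : Type v} [RCLike 𝕜] {X : Type u} [NormedAddCommGroup X] [NormedSpace 𝕜 X]
  {b : SchauderBasis 𝕜 X}

/-- PROOF: `s` is defined by recursion (`s j = ∑_{l < j} len l`), strictly monotone. For `t : ℕ` let
`j` be the largest number with `s j ≤ t` (`Nat.findGreatest` or `Nat.find` for `t < s (j + 1)`)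
and `w t = Y j (t - s j)`. Consecutive terms `w t`, `w (t + 1)`: both in the same piece (`IsBlock.lt`
of `Y j`), or `t` is the last index of the piece `j` and `t + 1 = s (j + 1)` (`hsucc`). -/
theorem exists_concat (Y : ℕ → ℕ → X) (hY : ∀ j, IsBlock b (Y j)) (len : ℕ → ℕ)
    (hlen : ∀ j, 0 < len j)
    (hsucc : ∀ j i n m, i < len j → b.coord n (Y j i) ≠ 0 → b.coord m (Y (j + 1) 0) ≠ 0 → n < m) :
    ∃ (w : ℕ → X) (s : ℕ → ℕ), IsBlock b w ∧ s 0 = 0 ∧ (∀ j, s (j + 1) = s j + len j) ∧
      ∀ j i, i < len j → w (s j + i) = Y j i := by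
  classical
  set s : ℕ → ℕ := fun j => ∑ l ∈ Finset.range j, len l with hs
  have hs0 : s 0 = 0 := by simp [hs]
  have hs1 : ∀ j, s (j + 1) = s j + len j := fun j => by
    simp only [hs]; rw [Finset.sum_range_succ]
  have hmono : StrictMono s := strictMono_nat_of_lt_succ fun j => by
    rw [hs1]; have := hlen j; omega
  have hex : ∀ t, ∃ j, t < s (j + 1) := fun t => ⟨t, by
    have := hmono.id_le (t + 1)
    simp only [id] at this
    omega⟩
  set idx : ℕ → ℕ := fun t => Nat.find (hex t) with hidx
  have hidx1 : ∀ t, t < s (idx t + 1) := fun t => Nat.find_spec (hex t)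
  have hidx2 : ∀ t, s (idx t) ≤ t := by
    intro t
    by_cases h : idx t = 0
    · rw [h, hs0]; exact Nat.zero_le _
    · obtain ⟨m, hm⟩ := Nat.exists_eq_succ_of_ne_zero h
      have h1 : ¬ t < s (m + 1) := Nat.find_min (hex t) (by
        have : Nat.find (hex t) = m.succ := hm
        omega)
      rw [hm]
      exact not_lt.1 h1
  have huniq : ∀ j i, i < len j → idx (s j + i) = j := by
    intro j i hi
    apply le_antisymm
    · exact Nat.find_min' (hex (s j + i)) (by rw [hs1]; omega)
    · by_contra hlt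
      have h1 := hidx1 (s j + i)
      have h2 : s (idx (s j + i) + 1) ≤ s j := hmono.monotone (by omega)
      omega
  set w : ℕ → X := fun t => Y (idx t) (t - s (idx t)) with hw
  have hwv : ∀ j i, i < len j → w (s j + i) = Y j i := by
    intro j i hi
    simp only [hw]
    rw [huniq j i hi, Nat.add_sub_cancel_left]
  refine ⟨w, s, ⟨fun t => (hY _).ne_zero _, fun t => (hY _).finite _, ?_⟩, hs0, hs1, hwv⟩
  intro t m n hm hn
  have h1 := hidx1 t
  have h2 := hidx2 t
  rw [hs1] at h1
  have ht : t = s (idx t) + (t - s (idx t)) := by omega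
  have hi : t - s (idx t) < len (idx t) := by omega
  have hwt : w t = Y (idx t) (t - s (idx t)) := rfl
  rw [hwt] at hm
  by_cases h3 : t - s (idx t) + 1 < len (idx t)
  · have h4 : w (t + 1) = Y (idx t) (t - s (idx t) + 1) := by
      rw [← hwv (idx t) _ h3]
      congr 1
      omega
    rw [h4] at hn
    exact (hY _).lt _ m n hm hn
  · have h5 : t + 1 = s (idx t + 1) + 0 := by rw [hs1]; omega
    have h6 : w (t + 1) = Y (idx t + 1) 0 := by
      rw [h5]
      exact hwv _ _ (hlen _)
    rw [h6] at hn
    exact hsucc (idx t) _ m n hi hm hn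

end Pool.Agent.Lib.MP_a0554b_an
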