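import Mathlib
import Pool.Agent.Lib.MP_a0554b_an.F1

set_option autoImplicit false

/-!
# The gluing lemma
-/

noncomputable section

namespace Pool.Agent.Lib.MP_a0554b_an

open Filter Topology
open scoped ENNReal

universe u v w

variable {𝕜 : Type v} [RCLike 𝕜] {X : Type u} [NormedAddCommGroup X] [NormedSpace 𝕜 X]

/-- the zero space is nice -/
theorem F2_nice_zero {C : ℝ} (hC : 0 ≤ C) (y : ℕ → X) :
    Nice (𝕜 := 𝕜) C (Submodule.span 𝕜 (y '' Set.Iio 0)) := by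
  have hbot : Submodule.span 𝕜 (y '' Set.Iio 0) = ⊥ := by
    rw [show Set.Iio 0 = (∅ : Set ℕ) by ext x; simp, Set.image_empty, Submodule.span_empty]
  rw [hbot]
  refine ⟨0, 0, ?_, ?_, ?_⟩
  · exact ContinuousLinearMap.ext fun x => Subsingleton.elim _ _
  · rw [norm_zero]; exact zero_le_one
  · rw [norm_zero]; exact hC

/-- blocks of a block sequence whose span is isomorphic to `X` are uniformly nice -/
theorem F2_nice [CompleteSpace X] (b : SchauderBasis 𝕜 X) {K : ℝ} (hK : ∀ n, ‖b.proj n‖ ≤ K)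
    {w : ℕ → X} (hw : IsBlock b w) (T : closedSpan 𝕜 w ≃L[𝕜] X) {k l : ℕ} (hkl : k ≤ l) {C : ℝ}
    (hC : ‖(T : closedSpan 𝕜 w →L[𝕜] X)‖ * (2 * K) * ‖(T.symm : X →L[𝕜] closedSpan 𝕜 w)‖ ≤ C) :
    Nice C (Submodule.span 𝕜 (w '' Set.Ico k l)) := by
  obtain ⟨e, he⟩ := hw.exists_cut
  obtain ⟨t, ht⟩ : ∃ t : ℝ, t = ‖(T : closedSpan 𝕜 w →L[𝕜] X)‖ := ⟨_, rfl⟩
  have hK0 : 0 ≤ K := (norm_nonneg _).trans (hK 0)
  have ht0 : 0 < t := by
    rw [ht]
    rw [norm_pos_iff]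
    intro h0
    have h1 : w 0 ∈ closedSpan 𝕜 w :=
      Submodule.le_topologicalClosure _ (Submodule.subset_span ⟨0, rfl⟩)
    have h2 : T ⟨w 0, h1⟩ = 0 := by
      have := congrArg (fun f : closedSpan 𝕜 w →L[𝕜] X => f ⟨w 0, h1⟩) h0
      exact this
    have h3 : (⟨w 0, h1⟩ : closedSpan 𝕜 w) = 0 := T.map_eq_zero_iff.1 h2
    exact hw.ne_zero 0 (congrArg Subtype.val h3)
  -- the inclusion
  have hle : Submodule.span 𝕜 (w '' Set.Ico k l) ≤ closedSpan 𝕜 w := span_image_le _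
  obtain ⟨inc, hinc, hincn⟩ : ∃ inc : Submodule.span 𝕜 (w '' Set.Ico k l) →L[𝕜] closedSpan 𝕜 w,
      (∀ x, ((inc x : closedSpan 𝕜 w) : X) = x) ∧ ‖inc‖ ≤ 1 := by
    refine ⟨LinearMap.mkContinuous (Submodule.inclusion hle) 1 (fun x => ?_), fun x => rfl,
      LinearMap.mkContinuous_norm_le _ zero_le_one _⟩
    rw [one_mul]
    exact le_rfl
  -- the projection
  obtain ⟨Q, hQ, hQn⟩ : ∃ Q : closedSpan 𝕜 w →L[𝕜] Submodule.span 𝕜 (w '' Set.Ico k l),
      (∀ x, ((Q x : Submodule.span 𝕜 (w '' Set.Ico k l)) : X) =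
        b.proj (e l) x - b.proj (e k) x) ∧ ‖Q‖ ≤ 2 * K := by
    refine ⟨LinearMap.mkContinuous
      { toFun := fun x => ⟨b.proj (e l) x - b.proj (e k) x, he.proj_sub_mem hkl x.2⟩
        map_add' := fun x y => Subtype.ext (by
          simp only [Submodule.coe_add, map_add]
          abel)
        map_smul' := fun c x => Subtype.ext (by
          simp only [Submodule.coe_smul, map_smul, RingHom.id_apply]
          rw [smul_sub]) } (2 * K) (fun x => ?_), fun x => rfl,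
      LinearMap.mkContinuous_norm_le _ (by positivity) _⟩
    change ‖b.proj (e l) (x : X) - b.proj (e k) (x : X)‖ ≤ 2 * K * ‖x‖
    refine (norm_sub_le _ _).trans ?_
    have h1 := (b.proj (e l)).le_of_opNorm_le (hK (e l)) (x : X)
    have h2 := (b.proj (e k)).le_of_opNorm_le (hK (e k)) (x : X)
    have h3 : ‖(x : X)‖ = ‖x‖ := rfl
    rw [h3] at h1 h2
    linarith
  refine ⟨((t⁻¹ : ℝ) : 𝕜) • ((T : closedSpan 𝕜 w →L[𝕜] X) ∘L inc),
    ((t : ℝ) : 𝕜) • (Q ∘L (T.symm : X →L[𝕜] closedSpan 𝕜 w)), ?_, ?_, ?_⟩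
  · ext x
    have h1 : ((t : ℝ) : 𝕜) * ((t⁻¹ : ℝ) : 𝕜) = 1 := by
      rw [← RCLike.ofReal_mul, mul_inv_cancel₀ ht0.ne', RCLike.ofReal_one]
    have h2 : T.symm (((t⁻¹ : ℝ) : 𝕜) • T (inc x)) = ((t⁻¹ : ℝ) : 𝕜) • inc x := by
      rw [map_smul, T.symm_apply_apply]
    have h3 : Q (inc x) = x := Subtype.ext (by
      rw [hQ, hinc]
      exact he.proj_sub_eq hkl x.2)
    change ((((t : ℝ) : 𝕜) • Q (T.symm (((t⁻¹ : ℝ) : 𝕜) • T (inc x))) :
      Submodule.span 𝕜 (w '' Set.Ico k l)) : X) = (x : X)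
    rw [h2, map_smul, h3, smul_smul, h1, one_smul]
  · rw [norm_smul, RCLike.norm_ofReal, abs_of_pos (inv_pos.2 ht0)]
    have h1 : ‖(T : closedSpan 𝕜 w →L[𝕜] X) ∘L inc‖ ≤ t * 1 := by
      refine (ContinuousLinearMap.opNorm_comp_le _ _).trans ?_
      rw [← ht]
      exact mul_le_mul_of_nonneg_left hincn ht0.le
    calc t⁻¹ * ‖(T : closedSpan 𝕜 w →L[𝕜] X) ∘L inc‖ ≤ t⁻¹ * (t * 1) :=
          mul_le_mul_of_nonneg_left h1 (inv_nonneg.2 ht0.le)
      _ = 1 := by field_simp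
  · rw [norm_smul, RCLike.norm_ofReal, abs_of_pos ht0]
    refine le_trans ?_ hC
    rw [← ht, mul_assoc]
    refine mul_le_mul_of_nonneg_left ?_ ht0.le
    refine (ContinuousLinearMap.opNorm_comp_le _ _).trans ?_
    exact mul_le_mul_of_nonneg_right hQn (norm_nonneg _)

/-- PROOF. Suppose not: for all `N`, `C` there are a block sequence `y` with all supports in
`[N, ∞)` and `k` such that `Nice C (span (y '' Iio k))` fails. Choose recursively `N 0 = 0`,
`(Y j, len j)` for `N j` and `C = j`, and `N (j + 1)` larger than all elements of the supports of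
`Y j i`, `i < len j` (finitely many finite sets). `len j > 0`, because the zero space is
`Nice C` for `C ≥ 0` (`a = 0`, `g = 0`). `exists_concat` gives `w` (`hsucc`: supports of
`Y (j + 1) 0` are in `[N (j + 1), ∞)`). By `hb` there is an isomorphism `T : closedSpan w ≃ X`. Let
`e` be the cut points of `w`. `G j = span (Y j '' Iio (len j)) = span (w '' Ico (s j) (s (j + 1)))`;
`Q j = b.proj (e (s (j + 1))) - b.proj (e (s j))` maps `closedSpan w` into `G j` and is the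
identity on `G j` (`IsCut.proj_sub_mem`, `IsCut.proj_sub_eq`), `‖Q j‖ ≤ 2 K`.
`a = ‖T‖⁻¹ • T` on `G j` (`‖T‖ > 0`: `closedSpan w` is not zero), `g = ‖T‖ • Q j ∘ T⁻¹`:
`g ∘ a = id`, `‖a‖ ≤ 1`, `‖g‖ ≤ ‖T‖ * 2 K * ‖T⁻¹‖` for all `j`: contradiction for
`j ≥ ‖T‖ * 2 K * ‖T⁻¹‖`. -/
theorem gluing [CompleteSpace X] (b : SchauderBasis 𝕜 X) (hb : BlockHomogeneous b) :
    ∃ (N : ℕ) (C : ℝ), 0 ≤ C ∧ ∀ y : ℕ → X, IsBlock b y →
      (∀ k n, b.coord n (y k) ≠ 0 → N ≤ n) →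
        ∀ k, Nice C (Submodule.span 𝕜 (y '' Set.Iio k)) := by
  classical
  by_contra hcon
  push Not at hcon
  have hex : ∀ (N j : ℕ), ∃ (y : ℕ → X) (k : ℕ), IsBlock b y ∧
      (∀ k n, b.coord n (y k) ≠ 0 → N ≤ n) ∧
      ¬ Nice (j : ℝ) (Submodule.span 𝕜 (y '' Set.Iio k)) := by
    intro N j
    obtain ⟨y, h1, h2, k, h3⟩ := hcon N j (Nat.cast_nonneg j)
    exact ⟨y, k, h1, h2, h3⟩
  choose yf kf hy hN hbad using hex
  have hbd : ∀ N j : ℕ, ∃ M : ℕ, ∀ i, i < kf N j → ∀ n, b.coord n (yf N j i) ≠ 0 → n < M := by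
    intro N j
    have hfin : (⋃ i ∈ Finset.range (kf N j), {n | b.coord n (yf N j i) ≠ 0}).Finite :=
      Set.Finite.biUnion (Finset.finite_toSet _) fun i _ => (hy N j).finite i
    obtain ⟨M, hM⟩ := hfin.bddAbove
    refine ⟨M + 1, fun i hi n hn => Nat.lt_succ_of_le (hM ?_)⟩
    exact Set.mem_biUnion (Finset.mem_coe.2 (Finset.mem_range.2 hi)) hn
  choose bd hbd using hbd
  obtain ⟨st, hst⟩ : ∃ st : ℕ → ℕ, ∀ j, st (j + 1) = bd (st j) j :=
    ⟨fun j => Nat.rec 0 (fun j N => bd N j) j, fun j => rfl⟩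
  have hlen : ∀ j, 0 < kf (st j) j := by
    intro j
    by_contra h0
    have h1 : kf (st j) j = 0 := by omega
    apply hbad (st j) j
    rw [h1]
    exact F2_nice_zero (Nat.cast_nonneg j) _
  obtain ⟨w, s, hw, hs0, hs, hws⟩ := exists_concat (b := b) (fun j => yf (st j) j)
    (fun j => hy (st j) j) (fun j => kf (st j) j) hlen (by
      intro j i n m hi hn hm
      have h1 := hbd (st j) j i hi n hn
      have h2 := hN (st (j + 1)) (j + 1) 0 m hm
      rw [hst j] at h2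
      exact lt_of_lt_of_le h1 h2)
  obtain ⟨T⟩ := hb w hw
  obtain ⟨K, hK⟩ := b.exists_norm_proj_le
  obtain ⟨j, hj⟩ := exists_nat_ge (‖(T : closedSpan 𝕜 w →L[𝕜] X)‖ * (2 * K) *
    ‖(T.symm : X →L[𝕜] closedSpan 𝕜 w)‖)
  apply hbad (st j) j
  have hspan : yf (st j) j '' Set.Iio (kf (st j) j) = w '' Set.Ico (s j) (s (j + 1)) := by
    ext x
    constructor
    · rintro ⟨i, hi, rfl⟩
      refine ⟨s j + i, ⟨by omega, ?_⟩, hws j i hi⟩
      rw [hs j]
      have : i < kf (st j) j := hi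
      omega
    · rintro ⟨i, ⟨hi1, hi2⟩, rfl⟩
      rw [hs j] at hi2
      refine ⟨i - s j, ?_, ?_⟩
      · change i - s j < kf (st j) j
        omega
      · rw [← hws j (i - s j) (by omega)]
        congr 1
        omega
  rw [hspan]
  exact F2_nice b hK hw T (by rw [hs j]; omega) hj

/-- the same for the intervals of the block sequence -/
theorem gluing_Ico [CompleteSpace X] (b : SchauderBasis 𝕜 X) (hb : BlockHomogeneous b) :
    ∃ (N : ℕ) (C : ℝ), 0 ≤ C ∧ ∀ y : ℕ → X, IsBlock b y →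
      (∀ k n, b.coord n (y k) ≠ 0 → N ≤ n) →
        ∀ k l, Nice C (Submodule.span 𝕜 (y '' Set.Ico k l)) := by
  obtain ⟨N, C, hC, h⟩ := gluing b hb
  refine ⟨N, C, hC, fun y hy hN k l => ?_⟩
  have h1 := h _ (hy.shift k) (fun i n hn => hN _ n hn) (l - k)
  have h2 : (fun i => y (i + k)) '' Set.Iio (l - k) = y '' Set.Ico k l := by
    ext x
    constructor
    · rintro ⟨i, hi, rfl⟩
      have hi' : i < l - k := hi
      exact ⟨i + k, ⟨by omega, by omega⟩, rfl⟩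
    · rintro ⟨i, ⟨h3, h4⟩, rfl⟩
      refine ⟨i - k, ?_, ?_⟩
      · change i - k < l - k
        omega
      · change y (i - k + k) = y i
        congr 1
        omega
  rw [h2] at h1
  exact h1

end Pool.Agent.Lib.MP_a0554b_an
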