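import Mathlib
import Pool.Agent.Lib.MP_a0554b_an.D2

set_option autoImplicit false

/-!
# Interlacing a Schauder basis of `ℓ_p` with the unit vector basis
-/

noncomputable section

namespace Pool.Agent.Lib.MP_a0554b_an

open Filter Topology
open scoped ENNReal

universe u v w

variable {𝕜 : Type v} [RCLike 𝕜] {p : ℝ≥0∞} [Fact (1 ≤ p)]

/-- PROOF: `norm_comp_tr_le` for `A = Id - b.proj n` and `b.proj n x → x`. -/
theorem lim1 (b : SchauderBasis 𝕜 (S 𝕜 p 𝕜)) (m : ℕ) :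
    Tendsto (fun n => ‖(ContinuousLinearMap.id 𝕜 (S 𝕜 p 𝕜) - b.proj n) ∘L tr (Set.Iio m)‖)
      atTop (𝓝 0) := by
  have h1 : Tendsto (fun n => ∑ k ∈ Finset.range m,
      ‖(ContinuousLinearMap.id 𝕜 (S 𝕜 p 𝕜) - b.proj n) (sgl k 1)‖) atTop (𝓝 0) := by
    have h2 : ∀ k ∈ Finset.range m, Tendsto (fun n =>
        ‖(ContinuousLinearMap.id 𝕜 (S 𝕜 p 𝕜) - b.proj n) (sgl k 1)‖) atTop (𝓝 0) := by
      intro k _
      have h3 := (b.tendsto_proj (sgl k 1)).const_sub (sgl k 1 : S 𝕜 p 𝕜)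
      rw [sub_self] at h3
      exact tendsto_zero_iff_norm_tendsto_zero.1 h3
    have h4 := tendsto_finsetSum (Finset.range m) h2
    simpa using h4
  exact squeeze_zero (fun _ => ContinuousLinearMap.opNorm_nonneg _) (fun n => norm_comp_tr_le _ m) h1

/-- PROOF: `norm_tr_comp_le` for `A = Id - b.proj n` and `shrinking` for `f = ev k`. -/
theorem lim2 (hp : 1 < p) (hp' : p ≠ ∞) (b : SchauderBasis 𝕜 (S 𝕜 p 𝕜)) (m : ℕ) :
    Tendsto (fun n => ‖tr (Set.Iio m) ∘L (ContinuousLinearMap.id 𝕜 (S 𝕜 p 𝕜) - b.proj n)‖)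
      atTop (𝓝 0) := by
  have h1 : Tendsto (fun n => ∑ k ∈ Finset.range m,
      ‖(ev k : S 𝕜 p 𝕜 →L[𝕜] 𝕜) ∘L (ContinuousLinearMap.id 𝕜 (S 𝕜 p 𝕜) - b.proj n)‖)
      atTop (𝓝 0) := by
    have h4 := tendsto_finsetSum (Finset.range m)
      (fun k _ => shrinking hp hp' b (ev k : S 𝕜 p 𝕜 →L[𝕜] 𝕜))
    simpa using h4
  exact squeeze_zero (fun _ => ContinuousLinearMap.opNorm_nonneg _) (fun n => norm_tr_comp_le _ m) h1

/-- PROOF: `b.proj n x = ∑_{i < n} b.coord i x • b i`, so the norm is at most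
`∑_{i < n} ‖b.coord i‖ * ‖b i - tr (Iio m) (b i)‖ → 0`. -/
theorem lim3 (b : SchauderBasis 𝕜 (S 𝕜 p 𝕜)) (n : ℕ) :
    Tendsto (fun m => ‖(ContinuousLinearMap.id 𝕜 (S 𝕜 p 𝕜) - tr (Set.Iio m)) ∘L b.proj n‖)
      atTop (𝓝 0) := by
  have h1 : Tendsto (fun m => ∑ i ∈ Finset.range n,
      ‖b.coord i‖ * ‖b i - tr (Set.Iio m) (b i)‖) atTop (𝓝 0) := by
    have h2 : ∀ i ∈ Finset.range n, Tendsto (fun m =>
        ‖b.coord i‖ * ‖b i - tr (Set.Iio m) (b i)‖) atTop (𝓝 0) := by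
      intro i _
      have h3 := (tendsto_tr (b i)).const_sub (b i)
      rw [sub_self] at h3
      have h5 := (tendsto_zero_iff_norm_tendsto_zero.1 h3).const_mul ‖b.coord i‖
      rw [mul_zero] at h5
      exact h5
    have h4 := tendsto_finsetSum (Finset.range n) h2
    simpa using h4
  refine squeeze_zero (fun _ => ContinuousLinearMap.opNorm_nonneg _) (fun m => ?_) h1
  refine ContinuousLinearMap.opNorm_le_bound _
    (Finset.sum_nonneg fun i _ => mul_nonneg (ContinuousLinearMap.opNorm_nonneg _) (norm_nonneg _)) ?_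
  intro x
  have h2 : ((ContinuousLinearMap.id 𝕜 (S 𝕜 p 𝕜) - tr (Set.Iio m)) ∘L b.proj n) x =
      ∑ i ∈ Finset.range n, b.coord i x • (b i - tr (Set.Iio m) (b i)) := by
    change b.proj n x - tr (Set.Iio m) (b.proj n x) = _
    rw [SchauderBasis.proj_apply, map_sum, ← Finset.sum_sub_distrib]
    refine Finset.sum_congr rfl fun i _ => ?_
    rw [map_smul, smul_sub]
  rw [h2, Finset.sum_mul]
  refine (norm_sum_le _ _).trans (Finset.sum_le_sum fun i _ => ?_)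
  rw [norm_smul]
  have h3 := (b.coord i).le_opNorm x
  calc ‖b.coord i x‖ * ‖b i - tr (Set.Iio m) (b i)‖
      ≤ (‖b.coord i‖ * ‖x‖) * ‖b i - tr (Set.Iio m) (b i)‖ :=
        mul_le_mul_of_nonneg_right h3 (norm_nonneg _)
    _ = ‖b.coord i‖ * ‖b i - tr (Set.Iio m) (b i)‖ * ‖x‖ := by ring

/-- PROOF: `b.proj n x = ∑_{i < n} b.coord i x • b i`, so the norm is at most
`∑_{i < n} ‖b.coord i ∘L (Id - tr (Iio m))‖ * ‖b i‖ → 0` by `functional_tail`. -/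
theorem lim4 (hp : 1 < p) (b : SchauderBasis 𝕜 (S 𝕜 p 𝕜)) (n : ℕ) :
    Tendsto (fun m => ‖b.proj n ∘L (ContinuousLinearMap.id 𝕜 (S 𝕜 p 𝕜) - tr (Set.Iio m))‖)
      atTop (𝓝 0) := by
  have h1 : Tendsto (fun m => ∑ i ∈ Finset.range n,
      ‖b.coord i ∘L (ContinuousLinearMap.id 𝕜 (S 𝕜 p 𝕜) - tr (Set.Iio m))‖ * ‖b i‖)
      atTop (𝓝 0) := by
    have h2 : ∀ i ∈ Finset.range n, Tendsto (fun m =>
        ‖b.coord i ∘L (ContinuousLinearMap.id 𝕜 (S 𝕜 p 𝕜) - tr (Set.Iio m))‖ * ‖b i‖)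
        atTop (𝓝 0) := by
      intro i _
      have h5 := (functional_tail hp (b.coord i)).mul_const ‖b i‖
      rw [zero_mul] at h5
      exact h5
    have h4 := tendsto_finsetSum (Finset.range n) h2
    simpa using h4
  refine squeeze_zero (fun _ => ContinuousLinearMap.opNorm_nonneg _) (fun m => ?_) h1
  refine ContinuousLinearMap.opNorm_le_bound _
    (Finset.sum_nonneg fun i _ => mul_nonneg (ContinuousLinearMap.opNorm_nonneg _) (norm_nonneg _)) ?_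
  intro x
  have h2 : (b.proj n ∘L (ContinuousLinearMap.id 𝕜 (S 𝕜 p 𝕜) - tr (Set.Iio m))) x =
      ∑ i ∈ Finset.range n,
        (b.coord i ∘L (ContinuousLinearMap.id 𝕜 (S 𝕜 p 𝕜) - tr (Set.Iio m))) x • b i := by
    rw [ContinuousLinearMap.comp_apply, SchauderBasis.proj_apply]
    rfl
  rw [h2, Finset.sum_mul]
  refine (norm_sum_le _ _).trans (Finset.sum_le_sum fun i _ => ?_)
  rw [norm_smul]
  have h3 := (b.coord i ∘L (ContinuousLinearMap.id 𝕜 (S 𝕜 p 𝕜) - tr (Set.Iio m))).le_opNorm x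
  calc ‖(b.coord i ∘L (ContinuousLinearMap.id 𝕜 (S 𝕜 p 𝕜) - tr (Set.Iio m))) x‖ * ‖b i‖
      ≤ (‖b.coord i ∘L (ContinuousLinearMap.id 𝕜 (S 𝕜 p 𝕜) - tr (Set.Iio m))‖ * ‖x‖) * ‖b i‖ :=
        mul_le_mul_of_nonneg_right h3 (norm_nonneg _)
    _ = ‖b.coord i ∘L (ContinuousLinearMap.id 𝕜 (S 𝕜 p 𝕜) - tr (Set.Iio m))‖ * ‖b i‖ * ‖x‖ := by
        ring

end Pool.Agent.Lib.MP_a0554b_an
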