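import Mathlib
import Pool.Agent.Lib.MP_a0554b_an.G1a

set_option autoImplicit false

/-!
# Interlacing a Schauder basis of `ℓ_p` with the unit vector basis
-/

noncomputable section

namespace Pool.Agent.Lib.MP_a0554b_an

open Filter Topology
open scoped ENNReal

universe u v w

variable {𝕜 : Type v} [RCLike 𝕜] {p : ℝ≥0∞} [Fact (1 ≤ p)]

theorem select_step (hp : 1 < p) (hp' : p ≠ ∞) (b : SchauderBasis 𝕜 (S 𝕜 p 𝕜)) (e : ℕ → ℕ)
    (he : StrictMono e) (j k m : ℕ) : ∃ s : ℕ × ℕ, k < s.1 ∧ m < s.2 ∧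
      ‖(ContinuousLinearMap.id 𝕜 (S 𝕜 p 𝕜) - b.proj (e s.1)) ∘L tr (Set.Iio m)‖ ≤ (1 / 2) ^ (j + 4) ∧
      ‖tr (Set.Iio m) ∘L (ContinuousLinearMap.id 𝕜 (S 𝕜 p 𝕜) - b.proj (e s.1))‖ ≤ (1 / 2) ^ (j + 4) ∧
      ‖(ContinuousLinearMap.id 𝕜 (S 𝕜 p 𝕜) - tr (Set.Iio s.2)) ∘L b.proj (e s.1)‖ ≤ (1 / 2) ^ (j + 4) ∧
      ‖b.proj (e s.1) ∘L (ContinuousLinearMap.id 𝕜 (S 𝕜 p 𝕜) - tr (Set.Iio s.2))‖ ≤ (1 / 2) ^ (j + 4) := by
  have hpos : (0 : ℝ) < (1 / 2) ^ (j + 4) := by positivity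
  have t1 := ((lim1 b m).comp he.tendsto_atTop).eventually (ge_mem_nhds hpos)
  have t2 := ((lim2 hp hp' b m).comp he.tendsto_atTop).eventually (ge_mem_nhds hpos)
  obtain ⟨k', h1, h2, h3⟩ := (t1.and (t2.and (eventually_gt_atTop k))).exists
  have t3 := (lim3 b (e k')).eventually (ge_mem_nhds hpos)
  have t4 := (lim4 hp b (e k')).eventually (ge_mem_nhds hpos)
  obtain ⟨m', h4, h5, h6⟩ := (t3.and (t4.and (eventually_gt_atTop m))).exists
  exact ⟨(k', m'), h3, h6, h1, h2, h4, h5⟩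

/-- PROOF: recursion: `κ 0 = 0`, `μ 0 = 0`, `μ 1 = 1`; given `κ j`, `μ (j + 1)` choose
`κ (j + 1) > κ j` with the first two conditions (`lim1`, `lim2` for `m = μ (j + 1)`; `e k → ∞`),
then `μ (j + 2) > μ (j + 1)` with the last two (`lim3`, `lim4` for `n = e (κ (j + 1))`). -/
theorem select (hp : 1 < p) (hp' : p ≠ ∞) (b : SchauderBasis 𝕜 (S 𝕜 p 𝕜)) (e : ℕ → ℕ)
    (he : StrictMono e) : ∃ κ μ : ℕ → ℕ, StrictMono κ ∧ StrictMono μ ∧ κ 0 = 0 ∧ μ 0 = 0 ∧ ∀ j,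
      ‖(ContinuousLinearMap.id 𝕜 (S 𝕜 p 𝕜) - b.proj (e (κ (j + 1)))) ∘L tr (Set.Iio (μ (j + 1)))‖ ≤ (1 / 2) ^ (j + 4) ∧
      ‖tr (Set.Iio (μ (j + 1))) ∘L (ContinuousLinearMap.id 𝕜 (S 𝕜 p 𝕜) - b.proj (e (κ (j + 1))))‖ ≤ (1 / 2) ^ (j + 4) ∧
      ‖(ContinuousLinearMap.id 𝕜 (S 𝕜 p 𝕜) - tr (Set.Iio (μ (j + 2)))) ∘L b.proj (e (κ (j + 1)))‖ ≤ (1 / 2) ^ (j + 4) ∧
      ‖b.proj (e (κ (j + 1))) ∘L (ContinuousLinearMap.id 𝕜 (S 𝕜 p 𝕜) - tr (Set.Iio (μ (j + 2))))‖ ≤ (1 / 2) ^ (j + 4) := by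
  choose F hF1 hF2 hF using select_step hp hp' b e he
  let st : ℕ → ℕ × ℕ := fun n => Nat.rec (0, 1) (fun j s => F j s.1 s.2) n
  have st1 : ∀ j, st (j + 1) = F j (st j).1 (st j).2 := fun j => rfl
  let μ : ℕ → ℕ := fun n => Nat.casesOn n 0 (fun j => (st j).2)
  refine ⟨fun j => (st j).1, μ, ?_, ?_, rfl, rfl, ?_⟩
  · exact strictMono_nat_of_lt_succ (fun j => by rw [st1 j]; exact hF1 _ _ _)
  · refine strictMono_nat_of_lt_succ (fun j => ?_)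
    cases j with
    | zero => exact Nat.one_pos
    | succ i =>
      change (st i).2 < (st (i + 1)).2
      rw [st1 i]; exact hF2 _ _ _
  · intro j
    have h := hF j (st j).1 (st j).2
    rw [← st1 j] at h
    exact h

/-- PROOF: write `P k = b.proj (e (κ k))`, `P 0 = 0` as `e 0 = 0` (`SchauderBasis.proj_zero`),
`R k = tr (Iio (μ k))`, `R 0 = 0`, `A = P (j + 1) - P j`, `U = Ico (μ j) (μ (j + 2))`,
`tr U = R (j + 2) - R j`. `A - tr U ∘ A = (1 - R (j + 2)) ∘ A + R j ∘ A`.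
`(1 - R (j + 2)) ∘ P (j + 1)`: third condition. `(1 - R (j + 2)) ∘ P j`: zero for `j = 0`, otherwise
`(1 - R (j + 2)) ∘ (1 - R (j + 1)) ∘ P j`, third condition for `j - 1`.
`R j ∘ A = R j ∘ (1 - P j) - R j ∘ (1 - P (j + 1))`, zero for `j = 0`; otherwise the second
condition for `j - 1` and (with `R j = R j ∘ R (j + 1)`) for `j`. Total at most
`2 * (1/2)^(j+4) + 2 * (1/2)^(j+3) ≤ (1/2)^j`.
`A - A ∘ tr U = A ∘ (1 - R (j + 2)) + A ∘ R j` in the same way with the first and fourth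
conditions (`P j ∘ (1 - R (j + 2)) = P j ∘ (1 - R (j + 1)) ∘ (1 - R (j + 2))`). -/
theorem interlace (hp : 1 < p) (hp' : p ≠ ∞) (b : SchauderBasis 𝕜 (S 𝕜 p 𝕜)) (e : ℕ → ℕ)
    (he : StrictMono e) (he0 : e 0 = 0) :
    ∃ κ μ : ℕ → ℕ, StrictMono κ ∧ StrictMono μ ∧ κ 0 = 0 ∧ μ 0 = 0 ∧ ∀ j x,
      ‖(b.proj (e (κ (j + 1))) x - b.proj (e (κ j)) x) - tr (Set.Ico (μ j) (μ (j + 2)))
        (b.proj (e (κ (j + 1))) x - b.proj (e (κ j)) x)‖ ≤ (1 / 2) ^ j * ‖x‖ ∧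
      ‖(b.proj (e (κ (j + 1))) x - b.proj (e (κ j)) x) -
        (b.proj (e (κ (j + 1))) (tr (Set.Ico (μ j) (μ (j + 2))) x) -
          b.proj (e (κ j)) (tr (Set.Ico (μ j) (μ (j + 2))) x))‖ ≤ (1 / 2) ^ j * ‖x‖ := by
  obtain ⟨κ, μ, hκ, hμ, hκ0, hμ0, h⟩ := select hp hp' b e he
  refine ⟨κ, μ, hκ, hμ, hκ0, hμ0, ?_⟩
  obtain ⟨P, hP⟩ : ∃ P : ℕ → (S 𝕜 p 𝕜 →L[𝕜] S 𝕜 p 𝕜), ∀ j, P j = b.proj (e (κ j)) :=
    ⟨_, fun _ => rfl⟩
  obtain ⟨R, hR⟩ : ∃ R : ℕ → (S 𝕜 p 𝕜 →L[𝕜] S 𝕜 p 𝕜), ∀ j, R j = tr (Set.Iio (μ j)) :=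
    ⟨_, fun _ => rfl⟩
  simp only [← hP]
  have h' : ∀ j,
      ‖(ContinuousLinearMap.id 𝕜 (S 𝕜 p 𝕜) - P (j + 1)) ∘L R (j + 1)‖ ≤ (1 / 2) ^ (j + 4) ∧
      ‖R (j + 1) ∘L (ContinuousLinearMap.id 𝕜 (S 𝕜 p 𝕜) - P (j + 1))‖ ≤ (1 / 2) ^ (j + 4) ∧
      ‖(ContinuousLinearMap.id 𝕜 (S 𝕜 p 𝕜) - R (j + 2)) ∘L P (j + 1)‖ ≤ (1 / 2) ^ (j + 4) ∧
      ‖P (j + 1) ∘L (ContinuousLinearMap.id 𝕜 (S 𝕜 p 𝕜) - R (j + 2))‖ ≤ (1 / 2) ^ (j + 4) := by
    intro j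
    rw [hP (j + 1), hR (j + 1), hR (j + 2)]
    exact h j
  have P0 : P 0 = 0 := by rw [hP, hκ0, he0, SchauderBasis.proj_zero]
  have R0 : ∀ x, R 0 x = 0 := by
    intro x
    classical
    apply S_ext
    intro k
    rw [hR, hμ0, ev_tr, if_neg (by simp), map_zero]
  have RR : ∀ i j x, i ≤ j → R i (R j x) = R i x := by
    intro i j x hij
    rw [hR, hR, tr_tr, Set.inter_eq_left.2]
    exact Set.Iio_subset_Iio (hμ.monotone hij)
  have RR' : ∀ i j x, i ≤ j → R j (R i x) = R i x := by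
    intro i j x hij
    rw [hR, hR, tr_tr, Set.inter_eq_right.2]
    exact Set.Iio_subset_Iio (hμ.monotone hij)
  have nR : ∀ j x, ‖R j x‖ ≤ ‖x‖ := fun j x => by rw [hR]; exact norm_tr_le _ _
  have nR' : ∀ j x, ‖x - R j x‖ ≤ ‖x‖ := fun j x => by rw [hR]; exact norm_sub_tr_le _ _
  have trU : ∀ j x, tr (Set.Ico (μ j) (μ (j + 2))) x = R (j + 2) x - R j x := by
    intro j x
    classical
    have hmj : μ j ≤ μ (j + 2) := hμ.monotone (by omega)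
    apply S_ext
    intro k
    rw [hR, hR, map_sub, ev_tr, ev_tr, ev_tr]
    simp only [Set.mem_Ico, Set.mem_Iio]
    by_cases h1 : k < μ j
    · rw [if_neg (by omega), if_pos (by omega), if_pos h1, sub_self]
    · by_cases h2 : k < μ (j + 2)
      · rw [if_pos ⟨by omega, h2⟩, if_pos h2, if_neg h1, sub_zero]
      · rw [if_neg (by omega), if_neg h2, if_neg h1, sub_zero]
  -- the four conditions, pointwise
  have c1 : ∀ j y, ‖R (j + 1) y - P (j + 1) (R (j + 1) y)‖ ≤ (1 / 2) ^ (j + 4) * ‖y‖ := by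
    intro j y
    exact ContinuousLinearMap.le_of_opNorm_le _ (h' j).1 y
  have c2 : ∀ j y, ‖R (j + 1) (y - P (j + 1) y)‖ ≤ (1 / 2) ^ (j + 4) * ‖y‖ := by
    intro j y
    exact ContinuousLinearMap.le_of_opNorm_le _ (h' j).2.1 y
  have c3 : ∀ j y, ‖P (j + 1) y - R (j + 2) (P (j + 1) y)‖ ≤ (1 / 2) ^ (j + 4) * ‖y‖ := by
    intro j y
    exact ContinuousLinearMap.le_of_opNorm_le _ (h' j).2.2.1 y
  have c4 : ∀ j y, ‖P (j + 1) (y - R (j + 2) y)‖ ≤ (1 / 2) ^ (j + 4) * ‖y‖ := by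
    intro j y
    exact ContinuousLinearMap.le_of_opNorm_le _ (h' j).2.2.2 y
  have A2 : ∀ j y, ‖P j y - R (j + 2) (P j y)‖ ≤ (1 / 2) ^ (j + 3) * ‖y‖ := by
    intro j y
    cases j with
    | zero =>
      rw [P0]
      simp only [zero_apply, map_zero, sub_zero, norm_zero]
      positivity
    | succ i =>
      have e1 : P (i + 1) y - R (i + 1 + 2) (P (i + 1) y)
          = (P (i + 1) y - R (i + 2) (P (i + 1) y))
            - R (i + 1 + 2) (P (i + 1) y - R (i + 2) (P (i + 1) y)) := by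
        rw [map_sub, RR' (i + 2) (i + 1 + 2) _ (by omega)]
        abel
      rw [e1]
      exact (nR' _ _).trans (c3 i y)
  have A3 : ∀ j y, ‖R j (y - P j y)‖ ≤ (1 / 2) ^ (j + 3) * ‖y‖ := by
    intro j y
    cases j with
    | zero => rw [R0, norm_zero]; positivity
    | succ i => exact c2 i y
  have A4 : ∀ j y, ‖R j (y - P (j + 1) y)‖ ≤ (1 / 2) ^ (j + 4) * ‖y‖ := by
    intro j y
    rw [← RR j (j + 1) _ (by omega)]
    exact (nR _ _).trans (c2 j y)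
  have B2 : ∀ j y, ‖P j (y - R (j + 2) y)‖ ≤ (1 / 2) ^ (j + 3) * ‖y‖ := by
    intro j y
    cases j with
    | zero =>
      rw [P0]
      simp only [zero_apply, norm_zero]
      positivity
    | succ i =>
      have e1 : y - R (i + 1 + 2) y = (y - R (i + 1 + 2) y) - R (i + 2) (y - R (i + 1 + 2) y) := by
        rw [map_sub, RR (i + 2) (i + 1 + 2) _ (by omega), sub_self, sub_zero]
      rw [e1]
      refine (c4 i _).trans ?_
      have := nR' (i + 1 + 2) y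
      have h3 : i + 1 + 3 = i + 4 := by omega
      rw [h3]
      gcongr
  have B3 : ∀ j y, ‖R j y - P j (R j y)‖ ≤ (1 / 2) ^ (j + 3) * ‖y‖ := by
    intro j y
    cases j with
    | zero => rw [R0, map_zero, sub_zero, norm_zero]; positivity
    | succ i => exact c1 i y
  have B4 : ∀ j y, ‖R j y - P (j + 1) (R j y)‖ ≤ (1 / 2) ^ (j + 4) * ‖y‖ := by
    intro j y
    have h1 := c1 j (R j y)
    rw [RR' j (j + 1) _ (by omega)] at h1
    refine h1.trans ?_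
    have := nR j y
    gcongr
  have pw3 : ∀ j : ℕ, ((1 : ℝ) / 2) ^ (j + 3) = (1 / 2) ^ j * (1 / 8) := fun j => by
    rw [pow_add]; norm_num
  have pw4 : ∀ j : ℕ, ((1 : ℝ) / 2) ^ (j + 4) = (1 / 2) ^ j * (1 / 16) := fun j => by
    rw [pow_add]; norm_num
  intro j x
  have hx : 0 ≤ (1 / 2 : ℝ) ^ j * ‖x‖ := by positivity
  constructor
  · rw [trU]
    have e1 : (P (j + 1) x - P j x) - (R (j + 2) (P (j + 1) x - P j x) - R j (P (j + 1) x - P j x))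
        = (P (j + 1) x - R (j + 2) (P (j + 1) x)) - (P j x - R (j + 2) (P j x))
          + (R j (x - P j x) - R j (x - P (j + 1) x)) := by
      simp only [map_sub]
      abel
    rw [e1]
    have n1 := c3 j x
    have n2 := A2 j x
    have n3 := A3 j x
    have n4 := A4 j x
    rw [pw3] at n2 n3
    rw [pw4] at n1 n4
    have m1 := norm_add_le ((P (j + 1) x - R (j + 2) (P (j + 1) x)) - (P j x - R (j + 2) (P j x)))
      (R j (x - P j x) - R j (x - P (j + 1) x))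
    have m2 := norm_sub_le (P (j + 1) x - R (j + 2) (P (j + 1) x)) (P j x - R (j + 2) (P j x))
    have m3 := norm_sub_le (R j (x - P j x)) (R j (x - P (j + 1) x))
    nlinarith
  · rw [trU]
    have e1 : (P (j + 1) x - P j x) - (P (j + 1) (R (j + 2) x - R j x) - P j (R (j + 2) x - R j x))
        = (P (j + 1) (x - R (j + 2) x) - P j (x - R (j + 2) x))
          + ((R j x - P j (R j x)) - (R j x - P (j + 1) (R j x))) := by
      simp only [map_sub]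
      abel
    rw [e1]
    have n1 := c4 j x
    have n2 := B2 j x
    have n3 := B3 j x
    have n4 := B4 j x
    rw [pw3] at n2 n3
    rw [pw4] at n1 n4
    have m1 := norm_add_le (P (j + 1) (x - R (j + 2) x) - P j (x - R (j + 2) x))
      ((R j x - P j (R j x)) - (R j x - P (j + 1) (R j x)))
    have m2 := norm_sub_le (P (j + 1) (x - R (j + 2) x)) (P j (x - R (j + 2) x))
    have m3 := norm_sub_le (R j x - P j (R j x)) (R j x - P (j + 1) (R j x))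
    nlinarith

end Pool.Agent.Lib.MP_a0554b_an
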