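import Mathlib
import Pool.Agent.Lib.MP_a0554b_an.G1
import Pool.Agent.Lib.MP_a0554b_an.A4
import Pool.Agent.Lib.MP_a0554b_an.A5
import Pool.Agent.Lib.MP_a0554b_an.E1

set_option autoImplicit false

/-!
# Block subspaces of `ℓ_p`, `1 < p < ∞`: factorization through `ℓ_p(ℓ_p)`
-/

noncomputable section

namespace Pool.Agent.Lib.MP_a0554b_an

open Filter Topology
open scoped ENNReal

universe u v w

variable {𝕜 : Type v} [RCLike 𝕜] {p : ℝ≥0∞} [Fact (1 ≤ p)]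

theorem overlap_two {μ : ℕ → ℕ} (hμ : StrictMono μ) :
    Overlap 2 (fun j => Set.Ico (μ j) (μ (j + 2))) where
  pos := by norm_num
  disj := by
    have key : ∀ i j, i < j → i % 2 = j % 2 →
        Disjoint (Set.Ico (μ i) (μ (i + 2))) (Set.Ico (μ j) (μ (j + 2))) := by
      intro i j hij h
      rw [Set.disjoint_left]
      intro x hx hx'
      have h1 : μ (i + 2) ≤ μ j := hμ.monotone (by omega)
      have h2 := hx.2
      have h3 := hx'.1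
      omega
    intro i j hij h
    rcases lt_or_gt_of_ne hij with h' | h'
    · exact key i j h' h
    · exact (key j i h' h.symm).symm

theorem G2_nice {X : Type u} [NormedAddCommGroup X] [NormedSpace 𝕜 X] {C : ℝ} {G : Submodule 𝕜 X}
    (h : Nice C G) : ∃ (a : G →L[𝕜] X) (g : X →L[𝕜] G), (∀ z, g (a z) = z) ∧ (∀ z, ‖a z‖ ≤ ‖z‖) ∧
      ∀ z, ‖g z‖ ≤ C * ‖z‖ := by
  obtain ⟨a, g, h1, h2, h3⟩ := h
  refine ⟨a, g, fun z => ?_, fun z => ?_, fun z => g.le_of_opNorm_le h3 z⟩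
  · exact DFunLike.congr_fun h1 z
  · have := a.le_of_opNorm_le h2 z
    rwa [one_mul] at this

/-- PROOF. Let `e` be the cut points of `y`, `κ`, `μ` from `interlace`, `L = S 𝕜 p 𝕜`,
`A j x = b.proj (e (κ (j + 1))) x - b.proj (e (κ j)) x`, `G j = span (y '' Ico (κ j) (κ (j + 1)))`,
`U j = Ico (μ j) (μ (j + 2))` (`overlap_two`), `a j : G j → L`, `g j : L → G j` from `hN`
(`‖a j‖ ≤ 1`, `‖g j‖ ≤ C`, `g j ∘ a j = id`). `A j` maps `Y = closedSpan y` into `G j`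
(`IsCut.proj_sub_mem`) and is the identity on `G j` (`IsCut.proj_sub_eq`).
`α`: `assemble` with `ι` the inclusion of `Y`, `T j = a j ∘ A j`:
`‖T j x‖ ≤ ‖A j x‖ ≤ ‖A j (tr (U j) x)‖ + (1/2)^j ‖x‖ ≤ 2 K ‖tr (U j) x‖ + (1/2)^j ‖x‖`; `r = 2`,
`c = 2 K`, `e = 2`: `‖α x‖ ≤ (4 K + 2) ‖x‖`.
`β`: `cosum` with `T j x = g j x ∈ G j ⊆ L`: `‖tr (U j) (T j x)‖ ≤ C ‖x‖`,
`T j x = A j (T j x)` so `‖T j x - tr (U j) (T j x)‖ ≤ (1/2)^j * C ‖x‖`; `‖β x‖ ≤ (2 C + 2 C) ‖x‖`;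
the values are in `Y` (closed; `codRestrict`).
`β (α x) = lim ∑_{j < n} g j (a j (A j x)) = lim ∑_{j < n} A j x = lim b.proj (e (κ n)) x = x`. -/
theorem core_lp (hp : 1 < p) (hp' : p ≠ ∞) (b : SchauderBasis 𝕜 (S 𝕜 p 𝕜)) {K C : ℝ}
    (hK : ∀ n x, ‖b.proj n x‖ ≤ K * ‖x‖) (hK0 : 0 ≤ K) (hC : 0 ≤ C) (y : ℕ → S 𝕜 p 𝕜)
    (hy : IsBlock b y) (hN : ∀ k l, Nice C (Submodule.span 𝕜 (y '' Set.Ico k l))) :
    ∃ (α : closedSpan 𝕜 y →L[𝕜] S 𝕜 p (S 𝕜 p 𝕜)) (β : S 𝕜 p (S 𝕜 p 𝕜) →L[𝕜] closedSpan 𝕜 y),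
      (∀ x, β (α x) = x) ∧ (∀ x, ‖α x‖ ≤ (4 * K + 4 * C + 2) * ‖x‖) ∧
        ∀ x, ‖β x‖ ≤ (4 * K + 4 * C + 2) * ‖x‖ := by
  classical
  obtain ⟨e, he⟩ := hy.exists_cut
  obtain ⟨κ, μ, hκ, hμ, hκ0, -, hI⟩ := interlace hp hp' b e he.mono he.zero
  have hN' : ∀ j, ∃ (a : Submodule.span 𝕜 (y '' Set.Ico (κ j) (κ (j + 1))) →L[𝕜] S 𝕜 p 𝕜)
      (g : S 𝕜 p 𝕜 →L[𝕜] Submodule.span 𝕜 (y '' Set.Ico (κ j) (κ (j + 1)))),
      (∀ z, g (a z) = z) ∧ (∀ z, ‖a z‖ ≤ ‖z‖) ∧ ∀ z, ‖g z‖ ≤ C * ‖z‖ :=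
    fun j => G2_nice (hN (κ j) (κ (j + 1)))
  choose a g hga ha' hg' using hN'
  have hle : ∀ j, κ j ≤ κ (j + 1) := fun j => hκ.monotone (Nat.le_succ j)
  -- the operators `A j` from `Y` to `G j`
  obtain ⟨A, hA⟩ : ∃ A : ∀ j, closedSpan 𝕜 y →L[𝕜]
      Submodule.span 𝕜 (y '' Set.Ico (κ j) (κ (j + 1))), ∀ j x, (A j x : S 𝕜 p 𝕜) =
        b.proj (e (κ (j + 1))) x.1 - b.proj (e (κ j)) x.1 :=
    ⟨fun j => ContinuousLinearMap.codRestrict
      ((b.proj (e (κ (j + 1))) - b.proj (e (κ j))) ∘L (closedSpan 𝕜 y).subtypeL) _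
      (fun x => he.proj_sub_mem (hle j) x.2), fun j x => rfl⟩
  have hAn : ∀ j x, ‖A j x‖ ≤ 2 * K * ‖tr (Set.Ico (μ j) (μ (j + 2))) x.1‖
      + (1 / 2) ^ j * ‖x‖ := by
    intro j x
    have h1 := (hI j x.1).2
    have h2 : ‖A j x‖ = ‖b.proj (e (κ (j + 1))) x.1 - b.proj (e (κ j)) x.1‖ := by
      rw [← hA j x]; rfl
    have h3 : ‖b.proj (e (κ (j + 1))) (tr (Set.Ico (μ j) (μ (j + 2))) x.1) -
          b.proj (e (κ j)) (tr (Set.Ico (μ j) (μ (j + 2))) x.1)‖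
        ≤ 2 * K * ‖tr (Set.Ico (μ j) (μ (j + 2))) x.1‖ := by
      refine (norm_sub_le _ _).trans ?_
      have h4 := hK (e (κ (j + 1))) (tr (Set.Ico (μ j) (μ (j + 2))) x.1)
      have h5 := hK (e (κ j)) (tr (Set.Ico (μ j) (μ (j + 2))) x.1)
      linarith
    have h6 : ‖x.1‖ = ‖x‖ := rfl
    rw [h2]
    have h7 := norm_add_le
      ((b.proj (e (κ (j + 1))) x.1 - b.proj (e (κ j)) x.1) -
        (b.proj (e (κ (j + 1))) (tr (Set.Ico (μ j) (μ (j + 2))) x.1) -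
          b.proj (e (κ j)) (tr (Set.Ico (μ j) (μ (j + 2))) x.1)))
      (b.proj (e (κ (j + 1))) (tr (Set.Ico (μ j) (μ (j + 2))) x.1) -
          b.proj (e (κ j)) (tr (Set.Ico (μ j) (μ (j + 2))) x.1))
    rw [sub_add_cancel] at h7
    rw [h6] at h1
    linarith
  have hs2 : Summable (fun j : ℕ => ((1 : ℝ) / 2) ^ j) := summable_geometric_two
  -- the operator `α`
  obtain ⟨α, hα1, hα2⟩ := @assemble 𝕜 _ p _ (S 𝕜 p 𝕜) _ _ 𝕜 _ _ (closedSpan 𝕜 y)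
    (closedSpan 𝕜 y).normedAddCommGroup (closedSpan 𝕜 y).normedSpace 2 _
    (overlap_two hμ) (closedSpan 𝕜 y).subtypeL (fun x => le_rfl) (fun j => a j ∘L A j) (2 * K) 2
    (by positivity) (fun j => (1 / 2) ^ j) (fun j => by positivity) hs2
    tsum_geometric_two.le (fun j x => (ha' j (A j x)).trans (hAn j x))
  -- the operator `β`
  have hgn : ∀ j z, ‖(g j z : S 𝕜 p 𝕜)‖ ≤ C * ‖z‖ := fun j z => hg' j z
  obtain ⟨β, hβ1, hβ2⟩ := cosum (𝕜 := 𝕜) (p := p) (E := S 𝕜 p 𝕜) (F := 𝕜) (overlap_two hμ)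
    (fun j => (Submodule.span 𝕜 (y '' Set.Ico (κ j) (κ (j + 1)))).subtypeL ∘L g j)
    (c := C) (e := 2 * C) hC (ε := fun j => (1 / 2) ^ j * C) (fun j => by positivity)
    (hs2.mul_right C) (by rw [tsum_mul_right, tsum_geometric_two])
    (fun j x => (norm_tr_le _ _).trans (hgn j x))
    (fun j x => by
      have h1 := (hI j (g j x : S 𝕜 p 𝕜)).1
      rw [he.proj_sub_eq (hle j) (g j x).2] at h1
      refine h1.trans ?_
      rw [mul_assoc]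
      exact mul_le_mul_of_nonneg_left (hgn j x) (by positivity))
  have hβm : ∀ x, β x ∈ closedSpan 𝕜 y := by
    intro x
    refine (closedSpan_isClosed y).mem_of_tendsto (hβ1 x) (Eventually.of_forall fun n => ?_)
    exact Submodule.sum_mem _ (fun j _ => span_image_le _ (g j (ev j x)).2)
  refine ⟨α, β.codRestrict _ hβm, fun x => Subtype.ext ?_, fun x => ?_, fun x => ?_⟩
  · change β (α x) = x.1
    refine tendsto_nhds_unique (hβ1 (α x)) ?_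
    have h1 : ∀ n, ∑ j ∈ Finset.range n,
        ((Submodule.span 𝕜 (y '' Set.Ico (κ j) (κ (j + 1)))).subtypeL ∘L g j) (ev j (α x))
        = b.proj (e (κ n)) x.1 := by
      intro n
      induction n with
      | zero =>
        rw [hκ0, he.zero, SchauderBasis.proj_zero]
        simp
      | succ n ih =>
        rw [Finset.sum_range_succ, ih, hα1]
        have h2 : g n (a n (A n x)) = A n x := by
          exact hga n (A n x)
        change _ + ((g n (a n (A n x)) : _) : S 𝕜 p 𝕜) = _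
        rw [h2, hA]
        abel
    simp only [h1]
    exact (b.tendsto_proj x.1).comp (he.mono.comp hκ).tendsto_atTop
  · refine (hα2 x).trans ?_
    refine mul_le_mul_of_nonneg_right ?_ (norm_nonneg _)
    push_cast
    linarith
  · change ‖β x‖ ≤ _
    refine (hβ2 x).trans ?_
    refine mul_le_mul_of_nonneg_right ?_ (norm_nonneg _)
    push_cast
    linarith

end Pool.Agent.Lib.MP_a0554b_an
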