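import Mathlib
import Pool.Agent.Lib.MP_a0554b_an.A1
import Pool.Agent.Lib.MP_a0554b_an.B1

set_option autoImplicit false

/-!
# `c_0`: nice finite dimensional subspaces are complemented
-/

noncomputable section

namespace Pool.Agent.Lib.MP_a0554b_an

open Filter Topology
open scoped ENNReal

universe u v w

variable {𝕜 : Type v} [RCLike 𝕜]

/-- the norm of `c_0`. PROOF: `lp.norm_le_of_forall_le`. -/
theorem norm_le_of_ev {E : Type u} [NormedAddCommGroup E] [NormedSpace 𝕜 E] (x : S 𝕜 ∞ E) {c : ℝ}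
    (hc : 0 ≤ c) (h : ∀ k, ‖ev k x‖ ≤ c) : ‖x‖ ≤ c :=
  lp.norm_le_of_forall_le (f := x.1) hc h

/-- PROOF: Hahn-Banach (`exists_extension_norm_eq`) for the functionals `ev k ∘ a`, `k < m`;
`A x = ∑_{k < m} sgl k (ã k x)`; its coordinates are `ã k x` for `k < m` and `0` for `k ≥ m`
(`ev_sgl`), so `‖A x‖ ≤ c ‖x‖` (`norm_le_of_ev`). -/
theorem extend_tr {X : Type u} [NormedAddCommGroup X] [NormedSpace 𝕜 X] (G : Submodule 𝕜 X)
    (a : G →L[𝕜] S 𝕜 ∞ 𝕜) {c : ℝ} (hc : 0 ≤ c) (ha : ∀ x, ‖a x‖ ≤ c * ‖x‖) (m : ℕ) :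
    ∃ A : X →L[𝕜] S 𝕜 ∞ 𝕜, (∀ x : G, A x = tr (Set.Iio m) (a x)) ∧ ∀ x, ‖A x‖ ≤ c * ‖x‖ := by
  classical
  have h1 : ∀ k : ℕ, ∃ g : X →L[𝕜] 𝕜, (∀ x : G, g x = ev k (a x)) ∧ ‖g‖ ≤ c := by
    intro k
    obtain ⟨g, hg1, hg2⟩ := exists_extension_norm_eq G
      ((ev k : S 𝕜 ∞ 𝕜 →L[𝕜] 𝕜) ∘L a)
    refine ⟨g, hg1, ?_⟩
    rw [hg2]
    apply ContinuousLinearMap.opNorm_le_bound _ hc
    intro x
    exact (norm_ev_le k (a x)).trans (ha x)
  choose g hg1 hg2 using h1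
  have h2 : ∀ x j, ev j ((∑ k ∈ Finset.range m, (sgl k : 𝕜 →L[𝕜] S 𝕜 ∞ 𝕜) ∘L g k) x) =
      if j < m then g j x else 0 := by
    intro x j
    rw [sum_apply, map_sum]
    simp only [ContinuousLinearMap.comp_apply, ev_sgl, Finset.sum_ite_eq, Finset.mem_range]
  refine ⟨∑ k ∈ Finset.range m, (sgl k : 𝕜 →L[𝕜] S 𝕜 ∞ 𝕜) ∘L g k, fun x => ?_, fun x => ?_⟩
  · apply S_ext
    intro j
    rw [h2, ev_tr]
    simp only [Set.mem_Iio, hg1]
  · apply norm_le_of_ev _ (by positivity)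
    intro j
    rw [h2]
    split_ifs
    · exact (g j).le_of_opNorm_le (hg2 j) x
    · rw [norm_zero]
      positivity

/-- the truncations of an operator on a finite dimensional space converge in norm -/
theorem H1_trunc {G : Type u} [NormedAddCommGroup G] [NormedSpace 𝕜 G] [FiniteDimensional 𝕜 G]
    (a : G →L[𝕜] S 𝕜 ∞ 𝕜) {δ : ℝ} (hδ : 0 < δ) :
    ∃ m : ℕ, ∀ x, ‖tr (Set.Iio m) (a x) - a x‖ ≤ δ * ‖x‖ := by
  let e := Module.finBasis 𝕜 G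
  let c : Fin (Module.finrank 𝕜 G) → (G →L[𝕜] 𝕜) := fun i =>
    LinearMap.toContinuousLinearMap (e.coord i)
  have h1 : Tendsto (fun m : ℕ => ∑ i, ‖c i‖ * ‖tr (Set.Iio m) (a (e i)) - a (e i)‖) atTop
      (𝓝 0) := by
    have : (0 : ℝ) = ∑ i : Fin (Module.finrank 𝕜 G), ‖c i‖ * 0 := by simp
    rw [this]
    apply tendsto_finsetSum
    intro i _
    apply Tendsto.const_mul
    have h2 := tendsto_tr (a (e i))
    have h3 := (h2.sub_const (a (e i))).norm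
    rwa [sub_self, norm_zero] at h3
  obtain ⟨m, hm⟩ := (h1.eventually (gt_mem_nhds hδ)).exists
  refine ⟨m, fun x => ?_⟩
  have h4 : tr (Set.Iio m) (a x) - a x =
      ∑ i, c i x • (tr (Set.Iio m) (a (e i)) - a (e i)) := by
    have hx : x = ∑ i, c i x • e i := (e.sum_repr x).symm
    conv_lhs => rw [hx]
    simp only [map_sum, map_smul, smul_sub, Finset.sum_sub_distrib]
  rw [h4]
  calc ‖∑ i, c i x • (tr (Set.Iio m) (a (e i)) - a (e i))‖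
      ≤ ∑ i, ‖c i x • (tr (Set.Iio m) (a (e i)) - a (e i))‖ := norm_sum_le _ _
    _ ≤ ∑ i, ‖c i‖ * ‖tr (Set.Iio m) (a (e i)) - a (e i)‖ * ‖x‖ := by
        apply Finset.sum_le_sum
        intro i _
        rw [norm_smul]
        have := (c i).le_opNorm x
        nlinarith [norm_nonneg (tr (Set.Iio m) (a (e i)) - a (e i))]
    _ = (∑ i, ‖c i‖ * ‖tr (Set.Iio m) (a (e i)) - a (e i)‖) * ‖x‖ := by
        rw [Finset.sum_mul]
    _ ≤ δ * ‖x‖ := mul_le_mul_of_nonneg_right hm.le (norm_nonneg _)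

/-- the argument for a subspace of any space `X` -/
theorem H1_main {X : Type u} [NormedAddCommGroup X] [NormedSpace 𝕜 X] {C : ℝ} (hC : 0 ≤ C)
    (G : Submodule 𝕜 X) [FiniteDimensional 𝕜 G]
    (h : ∃ (a : G →L[𝕜] S 𝕜 ∞ 𝕜) (g : S 𝕜 ∞ 𝕜 →L[𝕜] G),
      g ∘L a = ContinuousLinearMap.id 𝕜 G ∧ ‖a‖ ≤ 1 ∧ ‖g‖ ≤ C) :
    ∃ P : X →L[𝕜] G, (∀ x : G, P x = x) ∧ ∀ x, ‖P x‖ ≤ 2 * C * ‖x‖ := by
  obtain ⟨a, g, hga', ha', hg'⟩ := h
  have hga : ∀ x : G, g (a x) = x := fun x => by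
    have := congrArg (fun f : G →L[𝕜] G => f x) hga'
    simpa using this
  have ha : ∀ x, ‖a x‖ ≤ 1 * ‖x‖ := fun x => a.le_of_opNorm_le ha' x
  have hg : ∀ x, ‖g x‖ ≤ C * ‖x‖ := fun x => g.le_of_opNorm_le hg' x
  have hC1 : 0 < 1 / (2 * (C + 1)) := by positivity
  obtain ⟨m, hm⟩ := H1_trunc a hC1
  obtain ⟨A, hA1, hA2⟩ := extend_tr G a zero_le_one ha m
  have : CompleteSpace G := FiniteDimensional.complete 𝕜 G
  have hT : ∀ y : G, ‖((g ∘L A) ∘L G.subtypeL) y - y‖ ≤ 1 / 2 * ‖y‖ := by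
    intro y
    have h1 : ((g ∘L A) ∘L G.subtypeL) y - y = g (tr (Set.Iio m) (a y) - a y) := by
      rw [map_sub, hga y, ← hA1 y]
      rfl
    rw [h1]
    calc ‖g (tr (Set.Iio m) (a y) - a y)‖ ≤ C * ‖tr (Set.Iio m) (a y) - a y‖ := hg _
      _ ≤ C * (1 / (2 * (C + 1)) * ‖y‖) := mul_le_mul_of_nonneg_left (hm y) hC
      _ = (C / (C + 1)) * (1 / 2 * ‖y‖) := by field_simp
      _ ≤ 1 * (1 / 2 * ‖y‖) := by
          apply mul_le_mul_of_nonneg_right _ (by positivity)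
          rw [div_le_one (by positivity)]
          linarith
      _ = 1 / 2 * ‖y‖ := one_mul _
  obtain ⟨V, hV1, hV2, hV3⟩ := exists_inverse ((g ∘L A) ∘L G.subtypeL) hT
  refine ⟨V ∘L (g ∘L A), fun x => hV1 x, fun x => ?_⟩
  have h2 := hV3 (g (A x))
  have h3 := hg (A x)
  have h4 := hA2 x
  calc ‖V (g (A x))‖ ≤ 2 * ‖g (A x)‖ := h2
    _ ≤ 2 * (C * ‖A x‖) := by linarith
    _ ≤ 2 * (C * (1 * ‖x‖)) := by
        apply mul_le_mul_of_nonneg_left _ (by norm_num)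
        exact mul_le_mul_of_nonneg_left h4 hC
    _ = 2 * C * ‖x‖ := by ring

/-- PROOF. `a : G → c_0`, `g : c_0 → G`, `g ∘ a = id`, `‖a‖ ≤ 1`, `‖g‖ ≤ C`. The operators
`x ↦ a x - tr (Iio m) (a x)` on the finite dimensional space `G` tend pointwise to zero, hence in norm
(take a basis of `G`, or: a pointwise convergent sequence of operators on a finite dimensional space
converges in norm); choose `m` with `C * ‖a x - tr (Iio m) (a x)‖ ≤ ‖x‖ / 2`. With `A` from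
`extend_tr` (`c = 1`) the operator `T = g ∘ A` on `G` satisfies
`‖T x - x‖ = ‖g (tr (Iio m) (a x)) - g (a x)‖ ≤ ‖x‖ / 2`; `V` its inverse (`exists_inverse`; `G` is
complete), `Q = V ∘ g ∘ A`. -/
theorem proj_of_nice {C : ℝ} (hC : 0 ≤ C) (G : Submodule 𝕜 (S 𝕜 ∞ 𝕜)) [FiniteDimensional 𝕜 G]
    (h : Nice C G) : ∃ P : S 𝕜 ∞ 𝕜 →L[𝕜] G, (∀ x : G, P x = x) ∧
      ∀ x, ‖P x‖ ≤ 2 * C * ‖x‖ := by
  exact H1_main hC G h

end Pool.Agent.Lib.MP_a0554b_an
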