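import Mathlib
import Pool.Agent.Lib.MP_a0554b_an.A6
import Pool.Agent.Lib.MP_a0554b_an.B1

set_option autoImplicit false

/-!
# `c_0`: approximating functionals
-/

noncomputable section

namespace Pool.Agent.Lib.MP_a0554b_an

open Filter Topology
open scoped ENNReal

universe u v w

variable {𝕜 : Type v} [RCLike 𝕜]

/-- Uniformly bounded finite rank projections `Q n` of `c_0` onto an increasing sequence of
subspaces of `Y` with dense union. -/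
structure Approx (Y : Submodule 𝕜 (S 𝕜 ∞ 𝕜)) (lam : ℝ) (Q : ℕ → S 𝕜 ∞ 𝕜 →L[𝕜] Y) : Prop where
  closed : IsClosed (Y : Set (S 𝕜 ∞ 𝕜))
  nonneg : 1 ≤ lam
  bound : ∀ n x, ‖Q n x‖ ≤ lam * ‖x‖
  fin : ∀ n, FiniteDimensional 𝕜 (LinearMap.range (Q n : S 𝕜 ∞ 𝕜 →ₗ[𝕜] Y))
  mono : ∀ n m, n ≤ m → ∀ x, Q m (Q n x : S 𝕜 ∞ 𝕜) = Q n x
  dense : ∀ y : Y, Tendsto (fun n => Q n (y : S 𝕜 ∞ 𝕜)) atTop (𝓝 y)

variable {Y : Submodule 𝕜 (S 𝕜 ∞ 𝕜)} {lam : ℝ} {Q : ℕ → S 𝕜 ∞ 𝕜 →L[𝕜] Y}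

/-- a limit functional along an ultrafilter -/
theorem H2_lim {A B : Type*} [NormedAddCommGroup A] [NormedSpace 𝕜 A] [NormedAddCommGroup B]
    [NormedSpace 𝕜 B] (Q : ℕ → A →L[𝕜] B) (lam : ℝ) (hQ : ∀ n x, ‖Q n x‖ ≤ lam * ‖x‖)
    (f : B →L[𝕜] 𝕜) (U : Ultrafilter ℕ) :
    ∃ g : A →L[𝕜] 𝕜, ∀ x, Tendsto (fun n => f (Q n x)) (U : Filter ℕ) (𝓝 (g x)) := by
  have hb : ∀ n x, ‖f (Q n x)‖ ≤ ‖f‖ * lam * ‖x‖ := fun n x =>
    calc ‖f (Q n x)‖ ≤ ‖f‖ * ‖Q n x‖ := f.le_opNorm _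
      _ ≤ ‖f‖ * (lam * ‖x‖) :=
          mul_le_mul_of_nonneg_left (hQ n x) (ContinuousLinearMap.opNorm_nonneg _)
      _ = ‖f‖ * lam * ‖x‖ := by ring
  have h1 : ∀ x, ∃ c : 𝕜, Tendsto (fun n => f (Q n x)) (U : Filter ℕ) (𝓝 c) := by
    intro x
    have hc : IsCompact (Metric.closedBall (0 : 𝕜) (‖f‖ * lam * ‖x‖)) := isCompact_closedBall _ _
    obtain ⟨c, -, h2⟩ := hc.ultrafilter_le_nhds (U.map fun n => f (Q n x)) (by
      rw [le_principal_iff, Ultrafilter.mem_coe, Ultrafilter.mem_map]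
      refine Filter.univ_mem' fun n => ?_
      rw [Set.mem_preimage, Metric.mem_closedBall, dist_zero_right]
      exact hb n x)
    exact ⟨c, h2⟩
  choose g hg using h1
  refine ⟨LinearMap.mkContinuous
    { toFun := g
      map_add' := fun x y => by
        refine tendsto_nhds_unique (hg (x + y)) ?_
        simp only [map_add]
        exact (hg x).add (hg y)
      map_smul' := fun c x => by
        refine tendsto_nhds_unique (hg (c • x)) ?_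
        simp only [map_smul, RingHom.id_apply]
        exact (hg x).const_smul c } (‖f‖ * lam) (fun x => ?_), fun x => hg x⟩
  exact le_of_tendsto (hg x).norm (Filter.univ_mem' fun n => hb n x)

/-- PROOF. Let `𝓤` be an ultrafilter finer than `atTop`. For `f ∈ F` the functionals `f ∘ Q n` on
`c_0` are bounded by `‖f‖ * lam`, so by Banach-Alaoglu (`WeakDual.isCompact_closedBall`,
`IsCompact.ultrafilter_le_nhds`) they converge pointwise along `𝓤` to a functional `h f` on `c_0`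
(alternatively: `ev`-coordinates: the scalars `f (Q n x)` are bounded, converge along `𝓤` for each
`x`, and the limit is linear and bounded). For `y ∈ Y`: `h f y = lim f (Q n y) = f y` (`dense`). By
`functional_tail` (`p = ∞`, `1 < ∞`) there is `m` with
`‖h f ∘ (1 - tr (Iio m))‖ ≤ ε / 2` for all `f ∈ F`. For this `m`,
`‖(f ∘ Q n - h f) ∘ tr (Iio m)‖ ≤ ∑_{k < m} ‖(f ∘ Q n - h f) (sgl k 1)‖` (`norm_comp_tr_le`) `→ 0`
along `𝓤`; so there is `n ≥ n₀` with this `≤ ε / 2` for all `f ∈ F`. For `y ∈ Y`: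
`f (Q n (tr (Iio m) y)) - f y = (f ∘ Q n - h f) (tr (Iio m) y) - h f (y - tr (Iio m) y)`. -/
theorem functional_approx (h : Approx Y lam Q) (F : Finset (Y →L[𝕜] 𝕜)) {ε : ℝ} (hε : 0 < ε)
    (n₀ : ℕ) : ∃ n m : ℕ, n₀ ≤ n ∧ ∀ f ∈ F, ∀ y : Y,
      ‖f (Q n (tr (Set.Iio m) (y : S 𝕜 ∞ 𝕜))) - f y‖ ≤ ε * ‖y‖ := by
  let U : Ultrafilter ℕ := Ultrafilter.of atTop
  have hU : (U : Filter ℕ) ≤ atTop := Ultrafilter.of_le atTop
  choose g hg using fun f : Y →L[𝕜] 𝕜 =>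
    @H2_lim 𝕜 _ (S 𝕜 ∞ 𝕜) Y inferInstance inferInstance inferInstance inferInstance Q lam h.bound
      f U
  have hgy : ∀ (f : Y →L[𝕜] 𝕜) (y : Y), g f (y : S 𝕜 ∞ 𝕜) = f y := by
    intro f y
    refine tendsto_nhds_unique (hg f y) ?_
    exact ((f.continuous.tendsto y).comp (h.dense y)).mono_left hU
  -- the tails
  have h1 : ∀ᶠ m : ℕ in atTop, ∀ f ∈ F,
      ‖g f ∘L (ContinuousLinearMap.id 𝕜 (S 𝕜 ∞ 𝕜) - tr (Set.Iio m))‖ < ε / 2 := by
    rw [Filter.eventually_all_finset]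
    intro f _
    exact (functional_tail (p := ∞) (by simp) (g f)).eventually (gt_mem_nhds (half_pos hε))
  obtain ⟨m, hm⟩ := h1.exists
  have h2 : ∀ᶠ n : ℕ in (U : Filter ℕ), ∀ f ∈ F,
      ‖(f ∘L Q n - g f) ∘L tr (Set.Iio m)‖ < ε / 2 := by
    rw [Filter.eventually_all_finset]
    intro f _
    have h3 : Tendsto (fun n => ∑ k ∈ Finset.range m, ‖(f ∘L Q n - g f) (sgl k 1)‖)
        (U : Filter ℕ) (𝓝 0) := by
      have h4 : ∀ k ∈ Finset.range m, Tendsto (fun n => ‖(f ∘L Q n - g f) (sgl k 1)‖)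
          (U : Filter ℕ) (𝓝 0) := by
        intro k _
        have h5 := ((hg f (sgl k 1)).sub_const (g f (sgl k 1))).norm
        rw [sub_self, norm_zero] at h5
        exact h5
      have h6 := tendsto_finsetSum (Finset.range m) h4
      rwa [Finset.sum_const_zero] at h6
    filter_upwards [h3.eventually (gt_mem_nhds (half_pos hε))] with n hn
    exact lt_of_le_of_lt (norm_comp_tr_le _ m) hn
  obtain ⟨n, h3, h4⟩ := (h2.and (hU (eventually_ge_atTop n₀))).exists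
  refine ⟨n, m, h4, fun f hf y => ?_⟩
  have h5 := ((f ∘L Q n - g f) ∘L tr (Set.Iio m)).le_opNorm (y : S 𝕜 ∞ 𝕜)
  have h6 := (g f ∘L (ContinuousLinearMap.id 𝕜 (S 𝕜 ∞ 𝕜) - tr (Set.Iio m))).le_opNorm
    (y : S 𝕜 ∞ 𝕜)
  have h7 : f (Q n (tr (Set.Iio m) (y : S 𝕜 ∞ 𝕜))) - f y =
      ((f ∘L Q n - g f) ∘L tr (Set.Iio m)) (y : S 𝕜 ∞ 𝕜) -
      (g f ∘L (ContinuousLinearMap.id 𝕜 (S 𝕜 ∞ 𝕜) - tr (Set.Iio m))) (y : S 𝕜 ∞ 𝕜) := by
    rw [← hgy f y]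
    simp only [ContinuousLinearMap.comp_apply, sub_apply, ContinuousLinearMap.id_apply, map_sub]
    ring
  have h8 : 0 ≤ ‖(y : S 𝕜 ∞ 𝕜)‖ := norm_nonneg _
  have h9 := mul_le_mul_of_nonneg_right (h3 f hf).le h8
  have h10 := mul_le_mul_of_nonneg_right (hm f hf).le h8
  rw [h7]
  refine (norm_sub_le _ _).trans ?_
  have h11 : ‖y‖ = ‖(y : S 𝕜 ∞ 𝕜)‖ := rfl
  rw [h11]
  linarith

end Pool.Agent.Lib.MP_a0554b_an
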