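import Mathlib
import Pool.Agent.Lib.MP_a0554b_an.H2

set_option autoImplicit false

/-!
# `c_0`: finite rank operators approximating the identity of `Y` and of its dual
-/

noncomputable section

namespace Pool.Agent.Lib.MP_a0554b_an

open Filter Topology
open scoped ENNReal

universe u v w

section general

variable {𝕜 : Type v} [RCLike 𝕜]

theorem norm_comb_le {Z : Type w} [NormedAddCommGroup Z] [NormedSpace 𝕜 Z] {v w : Z} {a b M : ℝ}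
    (ha : 0 ≤ a) (hb : 0 ≤ b) (hab : a + b = 1) (hv : ‖v‖ ≤ M) (hw : ‖w‖ ≤ M) :
    ‖(a : 𝕜) • v + (b : 𝕜) • w‖ ≤ M := by
  have ha' : ‖(a : 𝕜)‖ = a := by rw [RCLike.norm_ofReal, abs_of_nonneg ha]
  have hb' : ‖(b : 𝕜)‖ = b := by rw [RCLike.norm_ofReal, abs_of_nonneg hb]
  calc ‖(a : 𝕜) • v + (b : 𝕜) • w‖ ≤ ‖(a : 𝕜) • v‖ + ‖(b : 𝕜) • w‖ := norm_add_le _ _
    _ = a * ‖v‖ + b * ‖w‖ := by rw [norm_smul, norm_smul, ha', hb']
    _ ≤ a * M + b * M :=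
      add_le_add (mul_le_mul_of_nonneg_left hv ha) (mul_le_mul_of_nonneg_left hw hb)
    _ = M := by rw [← add_mul, hab, one_mul]

/-- Hahn-Banach: if a convex set `G` of operators approximates the identity weakly (after
composition with finitely many functionals), then it approximates it at finitely many vectors. -/
theorem exists_mem_of_functionals {L : Type u} {Z : Type w} [NormedAddCommGroup L]
    [NormedSpace 𝕜 L] [NormedAddCommGroup Z] [NormedSpace 𝕜 Z] (j : Z → L) (G : Set (L →L[𝕜] Z))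
    (hconv : ∀ V ∈ G, ∀ W ∈ G, ∀ a b : ℝ, 0 ≤ a → 0 ≤ b → a + b = 1 →
      (a : 𝕜) • V + (b : 𝕜) • W ∈ G)
    (hG : ∀ (F : Finset (Z →L[𝕜] 𝕜)) (δ : ℝ), 0 < δ → ∃ V ∈ G, ∀ f ∈ F, ∀ y : Z,
      ‖f (V (j y)) - f y‖ ≤ δ * ‖y‖)
    (E : Finset Z) {ε : ℝ} (hε : 0 < ε) : ∃ V ∈ G, ∀ e ∈ E, ‖V (j e) - e‖ ≤ ε := by
  classical
  let _ : NormedSpace ℝ Z := NormedSpace.restrictScalars ℝ 𝕜 Z
  have _ : IsScalarTower ℝ 𝕜 Z := IsScalarTower.of_algebraMap_smul (fun r x => rfl)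
  set e : {x // x ∈ E} → Z := fun i => i.1 with he
  let Φ : (L →L[𝕜] Z) → ({x // x ∈ E} → Z) := fun V i => V (j (e i))
  have hconv' : Convex ℝ (Φ '' G) := by
    rintro _ ⟨V, hV, rfl⟩ _ ⟨W, hW, rfl⟩ a b ha hb hab
    refine ⟨_, hconv V hV W hW a b ha hb hab, ?_⟩
    funext i
    change ((a : 𝕜) • V + (b : 𝕜) • W) (j (e i)) = a • V (j (e i)) + b • W (j (e i))
    rw [RCLike.real_smul_eq_coe_smul (K := 𝕜) a, RCLike.real_smul_eq_coe_smul (K := 𝕜) b]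
    rfl
  have key : e ∈ closure (Φ '' G) := by
    by_contra hnot
    obtain ⟨g, s, hg1, hg2⟩ := RCLike.geometric_hahn_banach_closed_point (𝕜 := 𝕜)
      hconv'.closure isClosed_closure hnot
    let gi : {x // x ∈ E} → (Z →L[𝕜] 𝕜) := fun i =>
      g ∘L (ContinuousLinearMap.single 𝕜 (fun _ : {x // x ∈ E} => Z) i)
    have hgsum : ∀ z, g z = ∑ i, gi i (z i) := by
      intro z
      have hz : z = ∑ i, Pi.single i (z i) := (Finset.univ_sum_single z).symm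
      conv_lhs => rw [hz]
      rw [map_sum]
      rfl
    set N : ℝ := ∑ i, ‖e i‖ with hN
    have hN0 : 0 ≤ N := Finset.sum_nonneg (fun i _ => norm_nonneg _)
    set d : ℝ := RCLike.re (g e) - s with hd
    have hd0 : 0 < d := by rw [hd]; linarith
    have hε' : 0 < d / (2 * (N + 1)) := by positivity
    obtain ⟨V, hV, hnm⟩ := hG (Finset.univ.image gi) _ hε'
    have h1 := hg1 (Φ V) (subset_closure ⟨_, hV, rfl⟩)
    have h2 : ‖g (Φ V) - g e‖ ≤ d / (2 * (N + 1)) * N := by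
      rw [hgsum, hgsum, ← Finset.sum_sub_distrib, hN, Finset.mul_sum]
      exact norm_sum_le_of_le _ (fun i _ =>
        hnm (gi i) (Finset.mem_image_of_mem _ (Finset.mem_univ i)) (e i))
    have h3 : d / (2 * (N + 1)) * N < d := by
      rw [div_mul_eq_mul_div, div_lt_iff₀ (by positivity)]
      nlinarith
    have h4 : RCLike.re (g e) - RCLike.re (g (Φ V)) ≤ ‖g (Φ V) - g e‖ := by
      have := RCLike.re_le_norm (g e - g (Φ V))
      rw [map_sub, norm_sub_rev] at this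
      exact this
    linarith
  obtain ⟨w, ⟨V, hV, rfl⟩, hw⟩ := Metric.mem_closure_iff.1 key ε hε
  refine ⟨V, hV, fun x hx => ?_⟩
  have h1 : dist (e ⟨x, hx⟩) (Φ V ⟨x, hx⟩) ≤ dist e (Φ V) := dist_le_pi_dist e (Φ V) ⟨x, hx⟩
  rw [dist_comm, dist_eq_norm] at h1
  exact h1.trans hw.le

end general

variable {𝕜 : Type v} [RCLike 𝕜]
variable {Y : Submodule 𝕜 (S 𝕜 ∞ 𝕜)} {lam : ℝ} {Q : ℕ → S 𝕜 ∞ 𝕜 →L[𝕜] Y}

/-- the good operators for a finite set `F` of functionals: bounded by `lam`, with range in the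
range of some `Q n`, and `‖f ∘ V - f‖ ≤ ε` on `Y` for `f ∈ F` -/
def Good (Q : ℕ → S 𝕜 ∞ 𝕜 →L[𝕜] Y) (lam : ℝ) (F : Finset (Y →L[𝕜] 𝕜)) (ε : ℝ) :
    Set (S 𝕜 ∞ 𝕜 →L[𝕜] Y) :=
  {V | (∀ x, ‖V x‖ ≤ lam * ‖x‖) ∧ (∃ n, ∀ x, Q n (V x : S 𝕜 ∞ 𝕜) = V x) ∧
    ∀ f ∈ F, ∀ y : Y, ‖f (V (y : S 𝕜 ∞ 𝕜)) - f y‖ ≤ ε * ‖y‖}

theorem Good.comb (h : Approx Y lam Q) (F : Finset (Y →L[𝕜] 𝕜)) (ε : ℝ)
    {V W : S 𝕜 ∞ 𝕜 →L[𝕜] Y} (hV : V ∈ Good Q lam F ε) (hW : W ∈ Good Q lam F ε) {a b : ℝ}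
    (ha : 0 ≤ a) (hb : 0 ≤ b) (hab : a + b = 1) :
    (a : 𝕜) • V + (b : 𝕜) • W ∈ Good Q lam F ε := by
  obtain ⟨hV1, ⟨n1, hV2⟩, hV3⟩ := hV
  obtain ⟨hW1, ⟨n2, hW2⟩, hW3⟩ := hW
  have happ : ∀ x, ((a : 𝕜) • V + (b : 𝕜) • W) x = (a : 𝕜) • V x + (b : 𝕜) • W x := fun x => rfl
  refine ⟨fun x => ?_, ⟨max n1 n2, fun x => ?_⟩, fun f hf y => ?_⟩
  · rw [happ]
    exact norm_comb_le (𝕜 := 𝕜) (Z := Y) ha hb hab (hV1 x) (hW1 x)
  · have e1 : Q (max n1 n2) (V x : S 𝕜 ∞ 𝕜) = V x := by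
      conv_lhs => rw [← hV2 x]
      rw [h.mono _ _ (le_max_left _ _)]
      exact hV2 x
    have e2 : Q (max n1 n2) (W x : S 𝕜 ∞ 𝕜) = W x := by
      conv_lhs => rw [← hW2 x]
      rw [h.mono _ _ (le_max_right _ _)]
      exact hW2 x
    rw [happ]
    rw [Submodule.coe_add, Submodule.coe_smul, Submodule.coe_smul, map_add, map_smul, map_smul,
      e1, e2]
  · have e : f (((a : 𝕜) • V + (b : 𝕜) • W) (y : S 𝕜 ∞ 𝕜)) - f y =
        (a : 𝕜) • (f (V (y : S 𝕜 ∞ 𝕜)) - f y) + (b : 𝕜) • (f (W (y : S 𝕜 ∞ 𝕜)) - f y) := by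
      have hab' : (a : 𝕜) + (b : 𝕜) = 1 := by rw [← RCLike.ofReal_add, hab, RCLike.ofReal_one]
      rw [happ, map_add, map_smul, map_smul]
      simp only [smul_eq_mul]
      linear_combination (f y) * hab'
    rw [e]
    exact norm_comb_le ha hb hab (hV3 f hf y) (hW3 f hf y)

theorem Good.convex (h : Approx Y lam Q) (F : Finset (Y →L[𝕜] 𝕜)) (ε : ℝ) :
    Convex ℝ (Good Q lam F ε) := by
  intro V hV W hW a b ha hb hab
  have e : a • V + b • W = (a : 𝕜) • V + (b : 𝕜) • W := by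
    ext x : 1
    have hr : ∀ (r : ℝ) (z : Y), r • z = (r : 𝕜) • z := fun r z => by
      apply Subtype.ext
      apply S_ext
      intro k
      change r • ev k (z : S 𝕜 ∞ 𝕜) = (r : 𝕜) • ev k (z : S 𝕜 ∞ 𝕜)
      rw [RCLike.real_smul_eq_coe_smul (K := 𝕜) r]
    exact congrArg₂ (· + ·) (hr a _) (hr b _)
  rw [e]
  exact Good.comb h F ε hV hW ha hb hab

/-- Finitely many vectors and finitely many functionals at the same time (Hahn-Banach). -/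
theorem exists_good (h : Approx Y lam Q) (F : Finset (Y →L[𝕜] 𝕜)) (E : Finset Y) {ε : ℝ}
    (hε : 0 < ε) : ∃ V ∈ Good Q lam F ε, ∀ e ∈ E, ‖V (e : S 𝕜 ∞ 𝕜) - e‖ ≤ ε := by
  classical
  have H := exists_mem_of_functionals (𝕜 := 𝕜) (L := S 𝕜 ∞ 𝕜) (Z := Y)
  refine H (fun y : Y => (y : S 𝕜 ∞ 𝕜)) (Good Q lam F ε) (fun V hV W hW a b ha hb hab => Good.comb h F ε hV hW ha hb hab) (fun F' δ hδ => ?_) E hε
  obtain ⟨n, m, -, hnm⟩ := functional_approx h (F ∪ F') (lt_min hε hδ) 0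
  refine ⟨Q n ∘L tr (Set.Iio m), ⟨fun x => ?_, ⟨n, fun x => ?_⟩, fun f hf y => ?_⟩,
    fun f hf y => ?_⟩
  · exact (h.bound n _).trans (mul_le_mul_of_nonneg_left (norm_tr_le _ _)
      (zero_le_one.trans h.nonneg))
  · exact h.mono n n le_rfl _
  · exact (hnm f (Finset.mem_union_left _ hf) y).trans
      (mul_le_mul_of_nonneg_right (min_le_left _ _) (norm_nonneg _))
  · exact (hnm f (Finset.mem_union_right _ hf) y).trans
      (mul_le_mul_of_nonneg_right (min_le_right _ _) (norm_nonneg _))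

end Pool.Agent.Lib.MP_a0554b_an
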