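import Mathlib
import Pool.Agent.Lib.MP_a0554b_an.H3

set_option autoImplicit false

/-!
# `c_0`: choice of the sequence `V j`
-/

noncomputable section

namespace Pool.Agent.Lib.MP_a0554b_an

open Filter Topology
open scoped ENNReal

universe u v w

variable {𝕜 : Type v} [RCLike 𝕜]
variable {Y : Submodule 𝕜 (S 𝕜 ∞ 𝕜)} {lam : ℝ} {Q : ℕ → S 𝕜 ∞ 𝕜 →L[𝕜] Y}

/-- a finite rank operator as a sum of rank one operators -/
theorem H4a_repr {Z W : Type*} [NormedAddCommGroup Z] [NormedSpace 𝕜 Z] [NormedAddCommGroup W]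
    [NormedSpace 𝕜 W] (T : Z →L[𝕜] W) [FiniteDimensional 𝕜 (LinearMap.range (T : Z →ₗ[𝕜] W))] :
    ∃ (n : ℕ) (φ : Fin n → Z →L[𝕜] 𝕜) (w : Fin n → W), ∀ z, T z = ∑ i, φ i z • w i := by
  let R : Submodule 𝕜 W := LinearMap.range (T : Z →ₗ[𝕜] W)
  let bR := Module.finBasis 𝕜 R
  let TR : Z →L[𝕜] R := T.codRestrict R (fun z => LinearMap.mem_range_self _ z)
  refine ⟨_, fun i => (LinearMap.toContinuousLinearMap (bR.coord i)).comp TR,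
    fun i => (bR i : W), fun z => ?_⟩
  have h1 := bR.sum_repr (TR z)
  have h2 := congrArg (fun r : R => (r : W)) h1
  simp only [Submodule.coe_sum, Submodule.coe_smul] at h2
  exact h2.symm

theorem H4a_norm_smul {X : Type*} [NormedAddCommGroup X] [NormedSpace 𝕜 X] (Y : Submodule 𝕜 X)
    (c : 𝕜) (y : Y) : ‖c • y‖ = ‖c‖ * ‖y‖ := norm_smul c y

/-- A finite rank operator `T : Z → Y` is approximated: there are a finite set `E ⊆ Y` and `δ > 0`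
such that `‖V (T z) - T z‖ ≤ η ‖z‖` whenever `‖V e - e‖ ≤ δ` for `e ∈ E`.
PROOF: `T z = ∑ i, φ i z • e i` with a basis `e i` of the range of `T` and continuous functionals
`φ i` (coordinates of a finite dimensional space are continuous); `δ = η / (1 + ∑ ‖φ i‖)`. -/
theorem approx_left {Z : Type*} [NormedAddCommGroup Z] [NormedSpace 𝕜 Z] (T : Z →L[𝕜] Y)
    [FiniteDimensional 𝕜 (LinearMap.range (T : Z →ₗ[𝕜] Y))] {η : ℝ} (hη : 0 < η) :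
    ∃ (E : Finset Y) (δ : ℝ), 0 < δ ∧ ∀ V : S 𝕜 ∞ 𝕜 →L[𝕜] Y,
      (∀ e ∈ E, ‖V (e : S 𝕜 ∞ 𝕜) - e‖ ≤ δ) → ∀ z, ‖V (T z : S 𝕜 ∞ 𝕜) - T z‖ ≤ η * ‖z‖ := by
  classical
  obtain ⟨n, φ, w, hT⟩ := @H4a_repr 𝕜 _ Z Y _ _ (Submodule.normedAddCommGroup Y)
    (Submodule.normedSpace Y) T _
  set δ : ℝ := η / (1 + ∑ i, ‖φ i‖) with hδ
  have hpos : 0 < 1 + ∑ i, ‖φ i‖ := by
    have := Finset.sum_nonneg fun i (_ : i ∈ (Finset.univ : Finset (Fin n))) => norm_nonneg (φ i)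
    linarith
  refine ⟨Finset.univ.image w, δ, div_pos hη hpos, fun V hV z => ?_⟩
  have h1 : V (T z : S 𝕜 ∞ 𝕜) - T z = ∑ i, φ i z • (V (w i : S 𝕜 ∞ 𝕜) - w i) := by
    have h2 : ((T z : Y) : S 𝕜 ∞ 𝕜) = ∑ i, φ i z • (w i : S 𝕜 ∞ 𝕜) := by
      rw [hT z, Submodule.coe_sum]
      exact Finset.sum_congr rfl fun i _ => by rw [Submodule.coe_smul]
    rw [h2, map_sum]
    have h3 : T z = ∑ i, φ i z • w i := hT z
    rw [h3, ← Finset.sum_sub_distrib]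
    exact Finset.sum_congr rfl fun i _ => by rw [map_smul, smul_sub]
  rw [h1]
  calc ‖∑ i, φ i z • (V (w i : S 𝕜 ∞ 𝕜) - w i)‖
      ≤ ∑ i, ‖φ i z • (V (w i : S 𝕜 ∞ 𝕜) - w i)‖ := norm_sum_le _ _
    _ ≤ ∑ i, (‖φ i‖ * ‖z‖) * δ := by
        refine Finset.sum_le_sum fun i _ => ?_
        rw [H4a_norm_smul (X := S 𝕜 ∞ 𝕜) Y]
        exact mul_le_mul ((φ i).le_opNorm z) (hV _ (Finset.mem_image_of_mem w (Finset.mem_univ i)))
          (norm_nonneg _) (mul_nonneg (norm_nonneg _) (norm_nonneg _))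
    _ = ((∑ i, ‖φ i‖) * δ) * ‖z‖ := by
        rw [Finset.sum_mul, Finset.sum_mul]
        exact Finset.sum_congr rfl fun i _ => by ring
    _ ≤ η * ‖z‖ := by
        gcongr
        rw [hδ, mul_div_assoc', div_le_iff₀ hpos]
        nlinarith

/-- PROOF: `T y = ∑ i, φ i y • w i` with a basis `w i` of the range of `T` and continuous functionals
`φ i` on `Y`; `F = {φ i}`, `δ = η / (1 + ∑ ‖w i‖)`. -/
theorem approx_right {Z : Type*} [NormedAddCommGroup Z] [NormedSpace 𝕜 Z] (T : Y →L[𝕜] Z)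
    [FiniteDimensional 𝕜 (LinearMap.range (T : Y →ₗ[𝕜] Z))] {η : ℝ} (hη : 0 < η) :
    ∃ (F : Finset (Y →L[𝕜] 𝕜)) (δ : ℝ), 0 < δ ∧ ∀ V : S 𝕜 ∞ 𝕜 →L[𝕜] Y,
      (∀ f ∈ F, ∀ y : Y, ‖f (V (y : S 𝕜 ∞ 𝕜)) - f y‖ ≤ δ * ‖y‖) →
        ∀ y : Y, ‖T (V (y : S 𝕜 ∞ 𝕜)) - T y‖ ≤ η * ‖y‖ := by
  classical
  obtain ⟨n, φ, w, hT⟩ := @H4a_repr 𝕜 _ Y Z (Submodule.normedAddCommGroup Y)
    (Submodule.normedSpace Y) _ _ T _
  set δ : ℝ := η / (1 + ∑ i, ‖w i‖) with hδ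
  have hpos : 0 < 1 + ∑ i, ‖w i‖ := by
    have := Finset.sum_nonneg fun i (_ : i ∈ (Finset.univ : Finset (Fin n))) => norm_nonneg (w i)
    linarith
  refine ⟨Finset.univ.image φ, δ, div_pos hη hpos, fun V hV y => ?_⟩
  have h1 : T (V (y : S 𝕜 ∞ 𝕜)) - T y = ∑ i, (φ i (V (y : S 𝕜 ∞ 𝕜)) - φ i y) • w i := by
    rw [hT (V (y : S 𝕜 ∞ 𝕜)), hT y, ← Finset.sum_sub_distrib]
    exact Finset.sum_congr rfl fun i _ => by rw [sub_smul]
  rw [h1]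
  calc ‖∑ i, (φ i (V (y : S 𝕜 ∞ 𝕜)) - φ i y) • w i‖
      ≤ ∑ i, ‖(φ i (V (y : S 𝕜 ∞ 𝕜)) - φ i y) • w i‖ := norm_sum_le _ _
    _ ≤ ∑ i, (δ * ‖y‖) * ‖w i‖ := by
        refine Finset.sum_le_sum fun i _ => ?_
        rw [norm_smul]
        exact mul_le_mul_of_nonneg_right
          (hV _ (Finset.mem_image_of_mem φ (Finset.mem_univ i)) y) (norm_nonneg _)
    _ = (δ * ∑ i, ‖w i‖) * ‖y‖ := by
        rw [Finset.mul_sum, Finset.sum_mul]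
        exact Finset.sum_congr rfl fun i _ => by ring
    _ ≤ η * ‖y‖ := by
        gcongr
        rw [hδ, div_mul_eq_mul_div, div_le_iff₀ hpos]
        nlinarith

end Pool.Agent.Lib.MP_a0554b_an
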