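import Mathlib
import Pool.Agent.Lib.MP_a0554b_an.H4a

set_option autoImplicit false

/-!
# `c_0`: choice of the sequence `V j`
-/

noncomputable section

namespace Pool.Agent.Lib.MP_a0554b_an

open Filter Topology
open scoped ENNReal

universe u v w

variable {𝕜 : Type v} [RCLike 𝕜]
variable {Y : Submodule 𝕜 (S 𝕜 ∞ 𝕜)} {lam : ℝ} {Q : ℕ → S 𝕜 ∞ 𝕜 →L[𝕜] Y}

/-- The selected sequence. -/
structure Sel (Q : ℕ → S 𝕜 ∞ 𝕜 →L[𝕜] Y) (lam : ℝ) (V : ℕ → S 𝕜 ∞ 𝕜 →L[𝕜] Y) (N m : ℕ → ℕ) :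
    Prop where
  bound : ∀ j x, ‖V j x‖ ≤ lam * ‖x‖
  zero : V 0 = 0
  m_zero : m 0 = 0
  m_mono : StrictMono m
  N_mono : Monotone N
  range : ∀ j x, Q (N j) (V j x : S 𝕜 ∞ 𝕜) = V j x
  left : ∀ i j, i ≤ j → ∀ x, ‖V (j + 1) (V i x : S 𝕜 ∞ 𝕜) - V i x‖ ≤ (1 / 2) ^ (j + 6) * ‖x‖
  right : ∀ i j, i ≤ j → ∀ y : Y,
    ‖V i (V (j + 1) (y : S 𝕜 ∞ 𝕜) : S 𝕜 ∞ 𝕜) - V i (y : S 𝕜 ∞ 𝕜)‖ ≤ (1 / 2) ^ (j + 6) * ‖y‖
  start : ∀ i j, i ≤ j → ∀ y : Y, ‖tr (Set.Iio (m i)) ((V (j + 1) (y : S 𝕜 ∞ 𝕜) : S 𝕜 ∞ 𝕜) -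
    (y : S 𝕜 ∞ 𝕜))‖ ≤ (1 / 2) ^ (j + 6) * ‖y‖
  tail : ∀ j x, ‖(V (j + 1) x : S 𝕜 ∞ 𝕜) - tr (Set.Iio (m (j + 1))) (V (j + 1) x : S 𝕜 ∞ 𝕜)‖ ≤
    (1 / 2) ^ (j + 6) * ‖x‖
  lim : ∀ y : Y, Tendsto (fun j => V j (y : S 𝕜 ∞ 𝕜)) atTop (𝓝 y)

/-- a finite rank operator followed by operators tending to zero pointwise -/
theorem H4_small {𝕜 : Type*} [RCLike 𝕜] {X W Z : Type*} [NormedAddCommGroup X]
    [NormedSpace 𝕜 X] [NormedAddCommGroup W] [NormedSpace 𝕜 W] [NormedAddCommGroup Z]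
    [NormedSpace 𝕜 Z] (V : X →L[𝕜] W)
    (hV : FiniteDimensional 𝕜 (LinearMap.range (V : X →ₗ[𝕜] W))) (T : ℕ → W →L[𝕜] Z)
    (hT : ∀ w, Tendsto (fun m => T m w) atTop (𝓝 0)) {η : ℝ} (hη : 0 < η) :
    ∀ᶠ m in atTop, ∀ x, ‖T m (V x)‖ ≤ η * ‖x‖ := by
  classical
  set R := LinearMap.range (V : X →ₗ[𝕜] W) with hR
  have hfin : FiniteDimensional 𝕜 R := hV
  set b := Module.finBasis 𝕜 R with hb
  set d := Module.finrank 𝕜 R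
  -- the coordinate functionals
  let φ : Fin d → R →L[𝕜] 𝕜 := fun i => LinearMap.toContinuousLinearMap (b.coord i)
  let V' : X →L[𝕜] R := V.codRestrict R (fun x => ⟨x, rfl⟩)
  have hrep : ∀ x, V x = ∑ i, φ i (V' x) • (b i : W) := by
    intro x
    have h1 : (V' x : R) = ∑ i, φ i (V' x) • b i := (b.sum_repr (V' x)).symm
    have h2 : V x = ((V' x : R) : W) := rfl
    rw [h2]
    conv_lhs => rw [h1]
    push_cast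
    rfl
  set C : ℝ := ∑ i, ‖φ i ∘L V'‖ with hC
  have hC0 : 0 ≤ C := Finset.sum_nonneg fun i _ => norm_nonneg _
  have hev : ∀ᶠ m in atTop, ∀ i, ‖T m (b i : W)‖ ≤ η / (C + 1) := by
    rw [eventually_all]
    intro i
    have h1 : Tendsto (fun m => ‖T m (b i : W)‖) atTop (𝓝 0) :=
      tendsto_zero_iff_norm_tendsto_zero.1 (hT _)
    exact (h1.eventually (gt_mem_nhds (by positivity : (0:ℝ) < η / (C + 1)))).mono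
      fun m hm => hm.le
  filter_upwards [hev] with m hm1 x
  have h3 : T m (V x) = ∑ i, φ i (V' x) • T m (b i : W) := by
    rw [hrep x, map_sum]
    refine Finset.sum_congr rfl fun i _ => ?_
    rw [map_smul]
  rw [h3]
  calc ‖∑ i, φ i (V' x) • T m (b i : W)‖
      ≤ ∑ i, ‖φ i (V' x) • T m (b i : W)‖ := norm_sum_le _ _
    _ ≤ ∑ i, (‖φ i ∘L V'‖ * ‖x‖) * (η / (C + 1)) := by
        refine Finset.sum_le_sum fun i _ => ?_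
        rw [norm_smul]
        exact mul_le_mul ((φ i ∘L V').le_opNorm x) (hm1 i) (norm_nonneg _) (by positivity)
    _ = C / (C + 1) * η * ‖x‖ := by
        rw [← Finset.sum_mul, ← Finset.sum_mul, ← hC]
        field_simp
    _ ≤ 1 * η * ‖x‖ := by
        have h4 : C / (C + 1) ≤ 1 := by
          rw [div_le_one (by linarith)]; linarith
        have := norm_nonneg x
        gcongr
    _ = η * ‖x‖ := by rw [one_mul]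

section aux

/-- `p V` holds for all sufficiently good operators `V` -/
def H4_Ev (Q : ℕ → S 𝕜 ∞ 𝕜 →L[𝕜] Y) (lam : ℝ) (q : (S 𝕜 ∞ 𝕜 →L[𝕜] Y) → Prop) : Prop :=
  ∃ (F : Finset (Y →L[𝕜] 𝕜)) (E : Finset Y) (ε : ℝ), 0 < ε ∧
    ∀ V ∈ Good Q lam F ε, (∀ e ∈ E, ‖V (e : S 𝕜 ∞ 𝕜) - e‖ ≤ ε) → q V

theorem H4_Ev_true : H4_Ev Q lam (fun _ => True) := ⟨∅, ∅, 1, one_pos, fun _ _ _ => trivial⟩

theorem H4_Good_mono {F F' : Finset (Y →L[𝕜] 𝕜)} {ε ε' : ℝ} (hF : F ⊆ F') (hε : ε' ≤ ε)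
    {V : S 𝕜 ∞ 𝕜 →L[𝕜] Y} (hV : V ∈ Good Q lam F' ε') : V ∈ Good Q lam F ε :=
  ⟨hV.1, hV.2.1, fun f hf y => (hV.2.2 f (hF hf) y).trans
    (mul_le_mul_of_nonneg_right hε (norm_nonneg _))⟩

theorem H4_Ev_and {q r : (S 𝕜 ∞ 𝕜 →L[𝕜] Y) → Prop} (hq : H4_Ev Q lam q) (hr : H4_Ev Q lam r) :
    H4_Ev Q lam (fun V => q V ∧ r V) := by
  classical
  obtain ⟨F, E, ε, hε, h⟩ := hq
  obtain ⟨F', E', ε', hε', h'⟩ := hr
  refine ⟨F ∪ F', E ∪ E', min ε ε', lt_min hε hε', fun V hV hE => ⟨?_, ?_⟩⟩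
  · exact h V (H4_Good_mono Finset.subset_union_left (min_le_left _ _) hV)
      (fun e he => (hE e (Finset.mem_union_left _ he)).trans (min_le_left _ _))
  · exact h' V (H4_Good_mono Finset.subset_union_right (min_le_right _ _) hV)
      (fun e he => (hE e (Finset.mem_union_right _ he)).trans (min_le_right _ _))

theorem H4_Ev_forall {α : Type*} (s : Finset α) (q : α → (S 𝕜 ∞ 𝕜 →L[𝕜] Y) → Prop)
    (h : ∀ a ∈ s, H4_Ev Q lam (q a)) : H4_Ev Q lam (fun V => ∀ a ∈ s, q a V) := by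
  classical
  induction s using Finset.induction_on with
  | empty =>
    obtain ⟨F, E, ε, hε, h'⟩ := (H4_Ev_true : H4_Ev Q lam (fun _ => True))
    exact ⟨F, E, ε, hε, fun V _ _ a ha => absurd ha (Finset.notMem_empty a)⟩
  | insert a s ha ih =>
    obtain ⟨F, E, ε, hε, h'⟩ := H4_Ev_and (h a (Finset.mem_insert_self a s))
      (ih fun b hb => h b (Finset.mem_insert_of_mem hb))
    refine ⟨F, E, ε, hε, fun V hV hE b hb => ?_⟩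
    rcases Finset.mem_insert.1 hb with rfl | hb
    · exact (h' V hV hE).1
    · exact (h' V hV hE).2 b hb

theorem H4_Ev_exists (h : Approx Y lam Q) {q : (S 𝕜 ∞ 𝕜 →L[𝕜] Y) → Prop} (hq : H4_Ev Q lam q) :
    ∃ V : S 𝕜 ∞ 𝕜 →L[𝕜] Y, q V ∧ (∀ x, ‖V x‖ ≤ lam * ‖x‖) ∧
      ∃ n, ∀ x, Q n (V x : S 𝕜 ∞ 𝕜) = V x := by
  obtain ⟨F, E, ε, hε, h'⟩ := hq
  obtain ⟨V, hV, hE⟩ := exists_good h F E hε
  exact ⟨V, h' V hV hE, hV.1, hV.2.1⟩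

theorem H4_Ev_left {Z : Type*} [NormedAddCommGroup Z] [NormedSpace 𝕜 Z] (T : Z →L[𝕜] Y)
    (hT : FiniteDimensional 𝕜 (LinearMap.range (T : Z →ₗ[𝕜] Y))) {η : ℝ} (hη : 0 < η) :
    H4_Ev Q lam (fun V => ∀ z, ‖V (T z : S 𝕜 ∞ 𝕜) - T z‖ ≤ η * ‖z‖) := by
  obtain ⟨E, δ, hδ, h⟩ := approx_left T hη
  exact ⟨∅, E, δ, hδ, fun V _ hE => h V hE⟩

theorem H4_Ev_right {Z : Type*} [NormedAddCommGroup Z] [NormedSpace 𝕜 Z] (T : Y →L[𝕜] Z)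
    (hT : FiniteDimensional 𝕜 (LinearMap.range (T : Y →ₗ[𝕜] Z))) {η : ℝ} (hη : 0 < η) :
    H4_Ev Q lam (fun V => ∀ y : Y, ‖T (V (y : S 𝕜 ∞ 𝕜)) - T y‖ ≤ η * ‖y‖) := by
  obtain ⟨F, δ, hδ, h⟩ := approx_right T hη
  exact ⟨F, ∅, δ, hδ, fun V hV _ => h V hV.2.2⟩

/-- a finite rank operator into `Y` is small on tails -/
theorem H4_tail (V : S 𝕜 ∞ 𝕜 →L[𝕜] Y)
    (hV : FiniteDimensional 𝕜 (LinearMap.range (V : S 𝕜 ∞ 𝕜 →ₗ[𝕜] Y))) {η : ℝ} (hη : 0 < η)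
    (m₀ : ℕ) : ∃ m, m₀ < m ∧
      ∀ x, ‖(V x : S 𝕜 ∞ 𝕜) - tr (Set.Iio m) (V x : S 𝕜 ∞ 𝕜)‖ ≤ η * ‖x‖ := by
  have h := @H4_small 𝕜 _ (S 𝕜 ∞ 𝕜) Y (S 𝕜 ∞ 𝕜) _ _ (Submodule.normedAddCommGroup Y)
    (Submodule.normedSpace Y) _ _ V hV
    (fun m => Y.subtypeL - (tr (Set.Iio m) : S 𝕜 ∞ 𝕜 →L[𝕜] S 𝕜 ∞ 𝕜).comp Y.subtypeL)
    (fun w => by
      have h2 := (tendsto_const_nhds (x := (w : S 𝕜 ∞ 𝕜))).sub (tendsto_tr (w : S 𝕜 ∞ 𝕜))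
      rw [sub_self] at h2
      exact h2) η hη
  obtain ⟨m, hm1, hm2⟩ := (h.and (eventually_gt_atTop m₀)).exists
  exact ⟨m, hm2, hm1⟩

/-- a quadruple `(j, V, N, m)` -/
structure H4_Q (Y : Submodule 𝕜 (S 𝕜 ∞ 𝕜)) where
  j : ℕ
  V : S 𝕜 ∞ 𝕜 →L[𝕜] Y
  N : ℕ
  m : ℕ

/-- the conditions on one quadruple -/
structure H4_P (Q : ℕ → S 𝕜 ∞ 𝕜 →L[𝕜] Y) (lam : ℝ) (a : H4_Q Y) : Prop where
  bound : ∀ x, ‖a.V x‖ ≤ lam * ‖x‖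
  range : ∀ x, Q a.N (a.V x : S 𝕜 ∞ 𝕜) = a.V x
  m_pos : 0 < a.m
  tail : ∀ x, ‖(a.V x : S 𝕜 ∞ 𝕜) - tr (Set.Iio a.m) (a.V x : S 𝕜 ∞ 𝕜)‖ ≤
    (1 / 2) ^ (a.j + 6) * ‖x‖
  lim : ∀ z, ‖a.V (Q a.j z : S 𝕜 ∞ 𝕜) - Q a.j z‖ ≤ (1 / 2) ^ (a.j + 6) * ‖z‖

/-- the conditions on a pair of quadruples -/
structure H4_r (a a' : H4_Q Y) : Prop where
  j_lt : a.j < a'.j
  N_le : a.N ≤ a'.N
  m_lt : a.m < a'.m
  left : ∀ x, ‖a'.V (a.V x : S 𝕜 ∞ 𝕜) - a.V x‖ ≤ (1 / 2) ^ (a'.j + 6) * ‖x‖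
  right : ∀ y : Y, ‖a.V (a'.V (y : S 𝕜 ∞ 𝕜) : S 𝕜 ∞ 𝕜) - a.V (y : S 𝕜 ∞ 𝕜)‖ ≤
    (1 / 2) ^ (a'.j + 6) * ‖y‖
  start : ∀ y : Y, ‖tr (Set.Iio a.m) ((a'.V (y : S 𝕜 ∞ 𝕜) : S 𝕜 ∞ 𝕜) - (y : S 𝕜 ∞ 𝕜))‖ ≤
    (1 / 2) ^ (a'.j + 6) * ‖y‖

theorem H4_fin_of_range (h : Approx Y lam Q) {V : S 𝕜 ∞ 𝕜 →L[𝕜] Y} {N : ℕ}
    (hV : ∀ x, Q N (V x : S 𝕜 ∞ 𝕜) = V x) :
    FiniteDimensional 𝕜 (LinearMap.range (V : S 𝕜 ∞ 𝕜 →ₗ[𝕜] Y)) := by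
  have := h.fin N
  refine Submodule.finiteDimensional_of_le (S₂ := LinearMap.range (Q N : S 𝕜 ∞ 𝕜 →ₗ[𝕜] Y)) ?_
  rintro _ ⟨x, rfl⟩
  exact ⟨(V x : S 𝕜 ∞ 𝕜), hV x⟩

theorem H4_fin_comp (h : Approx Y lam Q) {V : S 𝕜 ∞ 𝕜 →L[𝕜] Y} {N : ℕ}
    (hV : ∀ x, Q N (V x : S 𝕜 ∞ 𝕜) = V x) :
    FiniteDimensional 𝕜 (LinearMap.range ((V ∘L Y.subtypeL : Y →L[𝕜] Y) : Y →ₗ[𝕜] Y)) := by
  have := h.fin N
  refine Submodule.finiteDimensional_of_le (S₂ := LinearMap.range (Q N : S 𝕜 ∞ 𝕜 →ₗ[𝕜] Y)) ?_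
  rintro _ ⟨x, rfl⟩
  exact ⟨(V x : S 𝕜 ∞ 𝕜), hV x⟩

theorem H4_fin_tr (m : ℕ) : FiniteDimensional 𝕜 (LinearMap.range
    (((tr (Set.Iio m) : S 𝕜 ∞ 𝕜 →L[𝕜] S 𝕜 ∞ 𝕜) ∘L Y.subtypeL : Y →L[𝕜] S 𝕜 ∞ 𝕜) :
      Y →ₗ[𝕜] S 𝕜 ∞ 𝕜)) := by
  classical
  have h1 : FiniteDimensional 𝕜 (Submodule.span 𝕜
      (((Finset.range m).image fun k => (sgl k 1 : S 𝕜 ∞ 𝕜) : Finset (S 𝕜 ∞ 𝕜)) :
        Set (S 𝕜 ∞ 𝕜))) := FiniteDimensional.span_finset 𝕜 _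
  refine Submodule.finiteDimensional_of_le (S₂ := Submodule.span 𝕜
      (((Finset.range m).image fun k => (sgl k 1 : S 𝕜 ∞ 𝕜) : Finset (S 𝕜 ∞ 𝕜)) :
        Set (S 𝕜 ∞ 𝕜))) ?_
  rintro _ ⟨y, rfl⟩
  change tr (Set.Iio m) (y : S 𝕜 ∞ 𝕜) ∈ _
  rw [tr_Iio_eq_sum]
  refine Submodule.sum_mem _ fun k hk => ?_
  have h2 : (sgl k (ev k (y : S 𝕜 ∞ 𝕜)) : S 𝕜 ∞ 𝕜) = ev k (y : S 𝕜 ∞ 𝕜) • sgl k (1 : 𝕜) := by
    rw [← map_smul, smul_eq_mul, mul_one]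
  rw [h2]
  refine Submodule.smul_mem _ _ (Submodule.subset_span ?_)
  rw [Finset.coe_image]
  exact ⟨k, Finset.mem_coe.2 hk, rfl⟩

theorem H4_Ev_right_V (h : Approx Y lam Q) {V₀ : S 𝕜 ∞ 𝕜 →L[𝕜] Y} {N : ℕ}
    (hV : ∀ x, Q N (V₀ x : S 𝕜 ∞ 𝕜) = V₀ x) {η : ℝ} (hη : 0 < η) :
    H4_Ev Q lam (fun V => ∀ y : Y,
      ‖V₀ (V (y : S 𝕜 ∞ 𝕜) : S 𝕜 ∞ 𝕜) - V₀ (y : S 𝕜 ∞ 𝕜)‖ ≤ η * ‖y‖) :=
  @H4_Ev_right 𝕜 _ Y lam Q Y (Submodule.normedAddCommGroup Y) (Submodule.normedSpace Y)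
    (V₀ ∘L Y.subtypeL : Y →L[𝕜] Y) (H4_fin_comp h hV) η hη

theorem H4_Ev_right_tr (m : ℕ) {η : ℝ} (hη : 0 < η) :
    H4_Ev Q lam (fun V => ∀ y : Y,
      ‖tr (Set.Iio m) ((V (y : S 𝕜 ∞ 𝕜) : S 𝕜 ∞ 𝕜) - (y : S 𝕜 ∞ 𝕜))‖ ≤ η * ‖y‖) := by
  obtain ⟨F, E, ε, hε, h⟩ := H4_Ev_right (Q := Q) (lam := lam) (Z := S 𝕜 ∞ 𝕜)
    ((tr (Set.Iio m) : S 𝕜 ∞ 𝕜 →L[𝕜] S 𝕜 ∞ 𝕜) ∘L Y.subtypeL : Y →L[𝕜] S 𝕜 ∞ 𝕜)
    (H4_fin_tr m) hη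
  refine ⟨F, E, ε, hε, fun V hV hE y => ?_⟩
  rw [map_sub]
  exact h V hV hE y

theorem H4_step (h : Approx Y lam Q) (s : Finset (H4_Q Y)) (hs : ∀ a ∈ s, H4_P Q lam a) :
    ∃ a', H4_P Q lam a' ∧ ∀ a ∈ s, H4_r a a' := by
  classical
  set j' : ℕ := s.sup (fun a => a.j) + 1 with hj'
  set η : ℝ := (1 / 2) ^ (j' + 6) with hη
  have hη0 : 0 < η := by positivity
  have e1 := H4_Ev_forall (Q := Q) (lam := lam) s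
    (fun a V => ∀ x, ‖V (a.V x : S 𝕜 ∞ 𝕜) - a.V x‖ ≤ η * ‖x‖)
    (fun a ha => H4_Ev_left (Z := S 𝕜 ∞ 𝕜) a.V (H4_fin_of_range h (hs a ha).range) hη0)
  have e2 := H4_Ev_forall (Q := Q) (lam := lam) s
    (fun a V => ∀ y : Y, ‖a.V (V (y : S 𝕜 ∞ 𝕜) : S 𝕜 ∞ 𝕜) - a.V (y : S 𝕜 ∞ 𝕜)‖ ≤ η * ‖y‖)
    (fun a ha => H4_Ev_right_V h (hs a ha).range hη0)
  have e3 := H4_Ev_forall (Q := Q) (lam := lam) s
    (fun a V => ∀ y : Y,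
      ‖tr (Set.Iio a.m) ((V (y : S 𝕜 ∞ 𝕜) : S 𝕜 ∞ 𝕜) - (y : S 𝕜 ∞ 𝕜))‖ ≤ η * ‖y‖)
    (fun a _ => H4_Ev_right_tr a.m hη0)
  have e4 : H4_Ev Q lam (fun V => ∀ z, ‖V (Q j' z : S 𝕜 ∞ 𝕜) - Q j' z‖ ≤ η * ‖z‖) :=
    H4_Ev_left (Z := S 𝕜 ∞ 𝕜) (Q j') (h.fin j') hη0
  obtain ⟨V, ⟨⟨h1, h2⟩, h3, h4⟩, hb, n, hn⟩ := H4_Ev_exists h (H4_Ev_and (H4_Ev_and e1 e2)
    (H4_Ev_and e3 e4))
  set N' : ℕ := max (s.sup fun a => a.N) n with hN'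
  have hN : ∀ x, Q N' (V x : S 𝕜 ∞ 𝕜) = V x := by
    intro x
    have h5 := h.mono n N' (le_max_right _ _) (V x : S 𝕜 ∞ 𝕜)
    rw [hn x] at h5
    exact h5
  obtain ⟨m', hm', ht⟩ := H4_tail V (H4_fin_of_range h hN) hη0 (s.sup fun a => a.m)
  refine ⟨⟨j', V, N', m'⟩, ⟨hb, hN, (Nat.zero_le _).trans_lt hm', ht, h4⟩, fun a ha => ?_⟩
  refine ⟨?_, ?_, ?_, h1 a ha, h2 a ha, h3 a ha⟩
  · exact Nat.lt_succ_of_le (Finset.le_sup (f := fun a : H4_Q Y => a.j) ha)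
  · exact (Finset.le_sup (f := fun a : H4_Q Y => a.N) ha).trans (le_max_left _ _)
  · exact (Finset.le_sup (f := fun a : H4_Q Y => a.m) ha).trans_lt hm'

end aux

/-- PROOF. Recursion on `j`, starting with `V 0 = 0`, `N 0 = 0`, `m 0 = 0`. Given `V i`, `N i`, `m i`
for `i ≤ j` choose `V (j + 1)` by `exists_good` for finite sets `F`, `E` and `ε` small enough:
`left`: `approx_left` for `T = V i` (finite rank since `Q (N i) ∘ V i = V i`);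
`right`: `approx_right` for `T = V i` restricted to `Y`; `start`: `approx_right` for
`T = tr (Iio (m i))` restricted to `Y` (finite rank by `tr_Iio_eq_sum`); and, for `lim`:
`approx_left` for `T = Q j` and `η = (1/2)^(j+6)`, which gives
`‖V (j + 1) (Q j x) - Q j x‖ ≤ (1/2)^(j+6) ‖x‖`. There are finitely many conditions: take unions
of the finite sets and the minimum of the `δ`'s. `N (j + 1)`: the maximum of `N j` and the `n` of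
`Good` (use `Approx.mono`). `m (j + 1) > m j` with `tail`: a finite rank operator composed with
`1 - tr (Iio m)`, `m → ∞`, tends to zero in norm (`tendsto_tr` on a basis of the range).
`lim`: `‖V (j + 1) y - y‖ ≤ ‖V (j + 1) (y - Q j y)‖ + ‖V (j + 1) (Q j y) - Q j y‖ + ‖Q j y - y‖
≤ (lam + 1) ‖y - Q j y‖ + (1/2)^(j+6) ‖y‖ → 0` (`Approx.dense`).
Lean: `exists_seq_of_forall_finset_exists` (Mathlib) does this strong recursion: let `α` be the type of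
quadruples `a = (j, V, N, m)`, `P a` the conditions on one quadruple (bound, range, tail and the
condition for `lim` with `j`), `r a a'` the conditions for `a` before `a'` (`j < j'`, `N ≤ N'`,
`m < m'`, left, right, start), all with error `(1/2)^(j' + 6)`; for the sequence `f` of the lemma
`j (f n) ≥ n`. Put `V 0 = 0`, `N 0 = 0`, `m 0 = 0`, `V (n + 1) = V (f n)`, ...
(require `0 < m` in `P`; the conditions with `i = 0` are trivial, as `tr (Iio 0) = 0`). -/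
theorem exists_sel (h : Approx Y lam Q) : ∃ V N m, Sel Q lam V N m := by
  obtain ⟨f, hP, hr⟩ := exists_seq_of_forall_finset_exists (H4_P Q lam) H4_r
    (fun s hs => H4_step h s hs)
  have hlam : 0 ≤ lam := zero_le_one.trans h.nonneg
  have hj : ∀ n, n ≤ (f n).j := by
    intro n
    induction n with
    | zero => exact Nat.zero_le _
    | succ n ih => exact ih.trans_lt (hr n (n + 1) (Nat.lt_succ_self n)).j_lt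
  have hpow : ∀ n, ((1 : ℝ) / 2) ^ ((f n).j + 6) ≤ (1 / 2) ^ (n + 6) := fun n =>
    pow_le_pow_of_le_one (by norm_num) (by norm_num) (Nat.add_le_add_right (hj n) 6)
  have tr0 : ∀ x : S 𝕜 ∞ 𝕜, tr (Set.Iio 0) x = 0 := by
    intro x
    rw [tr_Iio_eq_sum]
    simp
  let V : ℕ → S 𝕜 ∞ 𝕜 →L[𝕜] Y := fun n => Nat.casesOn n 0 (fun k => (f k).V)
  let N : ℕ → ℕ := fun n => Nat.casesOn n 0 (fun k => (f k).N)
  let m : ℕ → ℕ := fun n => Nat.casesOn n 0 (fun k => (f k).m)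
  have V0 : V 0 = 0 := rfl
  have VS : ∀ k, V (k + 1) = (f k).V := fun _ => rfl
  have N0 : N 0 = 0 := rfl
  have NS : ∀ k, N (k + 1) = (f k).N := fun _ => rfl
  have m0 : m 0 = 0 := rfl
  have mS : ∀ k, m (k + 1) = (f k).m := fun _ => rfl
  refine ⟨V, N, m, ?_⟩
  refine ⟨?_, V0, m0, ?_, ?_, ?_, ?_, ?_, ?_, ?_, ?_⟩
  · intro j x
    cases j with
    | zero =>
      rw [V0]
      have h0 : ‖(0 : S 𝕜 ∞ 𝕜 →L[𝕜] Y) x‖ = 0 := norm_zero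
      rw [h0]
      exact mul_nonneg hlam (norm_nonneg _)
    | succ k => rw [VS]; exact (hP k).bound x
  · refine strictMono_nat_of_lt_succ fun n => ?_
    cases n with
    | zero => rw [m0, mS]; exact (hP 0).m_pos
    | succ k => rw [mS, mS]; exact (hr k (k + 1) (Nat.lt_succ_self k)).m_lt
  · refine monotone_nat_of_le_succ fun n => ?_
    cases n with
    | zero => rw [N0]; exact Nat.zero_le _
    | succ k => rw [NS, NS]; exact (hr k (k + 1) (Nat.lt_succ_self k)).N_le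
  · intro j x
    cases j with
    | zero => rw [V0]; simp
    | succ k => rw [VS, NS]; exact (hP k).range x
  · intro i j hij x
    cases i with
    | zero =>
      rw [V0]
      have : ‖V (j + 1) (((0 : S 𝕜 ∞ 𝕜 →L[𝕜] Y) x : Y) : S 𝕜 ∞ 𝕜) -
          (0 : S 𝕜 ∞ 𝕜 →L[𝕜] Y) x‖ = 0 := by simp
      rw [this]
      positivity
    | succ k =>
      rw [VS, VS]
      exact ((hr k j (Nat.lt_of_succ_le hij)).left x).trans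
        (mul_le_mul_of_nonneg_right (hpow j) (norm_nonneg _))
  · intro i j hij y
    cases i with
    | zero =>
      rw [V0]
      have h0 : ‖(0 : S 𝕜 ∞ 𝕜 →L[𝕜] Y) (V (j + 1) (y : S 𝕜 ∞ 𝕜) : S 𝕜 ∞ 𝕜) -
          (0 : S 𝕜 ∞ 𝕜 →L[𝕜] Y) (y : S 𝕜 ∞ 𝕜)‖ = 0 := by
        have h1 : (0 : S 𝕜 ∞ 𝕜 →L[𝕜] Y) (V (j + 1) (y : S 𝕜 ∞ 𝕜) : S 𝕜 ∞ 𝕜) -
          (0 : S 𝕜 ∞ 𝕜 →L[𝕜] Y) (y : S 𝕜 ∞ 𝕜) = 0 := sub_self (0 : Y)
        rw [h1]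
        exact norm_zero
      rw [h0]
      positivity
    | succ k =>
      rw [VS, VS]
      exact ((hr k j (Nat.lt_of_succ_le hij)).right y).trans
        (mul_le_mul_of_nonneg_right (hpow j) (norm_nonneg _))
  · intro i j hij y
    cases i with
    | zero =>
      rw [m0, tr0, norm_zero]
      positivity
    | succ k =>
      rw [VS, mS]
      exact ((hr k j (Nat.lt_of_succ_le hij)).start y).trans
        (mul_le_mul_of_nonneg_right (hpow j) (norm_nonneg _))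
  · intro j x
    rw [VS, mS]
    exact ((hP j).tail x).trans (mul_le_mul_of_nonneg_right (hpow j) (norm_nonneg _))
  · intro y
    rw [← tendsto_add_atTop_iff_nat 1]
    have hjt : Tendsto (fun n => (f n).j) atTop atTop :=
      tendsto_atTop_mono hj tendsto_id
    have hQ : Tendsto (fun n => ‖Q (f n).j (y : S 𝕜 ∞ 𝕜) - y‖) atTop (𝓝 0) :=
      (tendsto_iff_norm_sub_tendsto_zero.1 (h.dense y)).comp hjt
    have hp : Tendsto (fun n : ℕ => ((1 : ℝ) / 2) ^ (n + 6) * ‖y‖) atTop (𝓝 0) := by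
      have h1 : Tendsto (fun n : ℕ => ((1 : ℝ) / 2) ^ n) atTop (𝓝 0) :=
        tendsto_pow_atTop_nhds_zero_of_lt_one (by norm_num) (by norm_num)
      have h2 := ((tendsto_add_atTop_iff_nat 6).2 h1).mul_const ‖y‖
      rwa [zero_mul] at h2
    have hb : Tendsto (fun n => (lam + 1) * ‖Q (f n).j (y : S 𝕜 ∞ 𝕜) - y‖ +
        ((1 : ℝ) / 2) ^ (n + 6) * ‖y‖) atTop (𝓝 0) := by
      have h3 := (hQ.const_mul (lam + 1)).add hp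
      rwa [mul_zero, zero_add] at h3
    rw [tendsto_iff_norm_sub_tendsto_zero]
    refine squeeze_zero (fun _ => norm_nonneg _) (fun n => ?_) hb
    rw [VS]
    set q : Y := Q (f n).j (y : S 𝕜 ∞ 𝕜) with hq
    have e1 : (f n).V (y : S 𝕜 ∞ 𝕜) - y = -((f n).V ((q - y : Y) : S 𝕜 ∞ 𝕜)) +
        ((f n).V (q : S 𝕜 ∞ 𝕜) - q) + (q - y) := by
      push_cast
      rw [map_sub]
      abel
    have e2 : ‖(f n).V ((q - y : Y) : S 𝕜 ∞ 𝕜)‖ ≤ lam * ‖q - y‖ := by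
      have := (hP n).bound ((q - y : Y) : S 𝕜 ∞ 𝕜)
      rwa [Submodule.coe_norm] at *
    have e3 : ‖(f n).V (q : S 𝕜 ∞ 𝕜) - q‖ ≤ (1 / 2) ^ (n + 6) * ‖y‖ := by
      have := (hP n).lim (y : S 𝕜 ∞ 𝕜)
      exact this.trans (mul_le_mul_of_nonneg_right (hpow n) (norm_nonneg _))
    rw [e1]
    calc ‖-((f n).V ((q - y : Y) : S 𝕜 ∞ 𝕜)) + ((f n).V (q : S 𝕜 ∞ 𝕜) - q) + (q - y)‖
        ≤ ‖(f n).V ((q - y : Y) : S 𝕜 ∞ 𝕜)‖ + ‖(f n).V (q : S 𝕜 ∞ 𝕜) - q‖ + ‖q - y‖ := by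
          refine (norm_add_le _ _).trans (add_le_add ((norm_add_le _ _).trans ?_) le_rfl)
          exact add_le_add (norm_neg _).le le_rfl
      _ ≤ lam * ‖q - y‖ + (1 / 2) ^ (n + 6) * ‖y‖ + ‖q - y‖ := by gcongr
      _ = (lam + 1) * ‖q - y‖ + (1 / 2) ^ (n + 6) * ‖y‖ := by ring

end Pool.Agent.Lib.MP_a0554b_an
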