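import Mathlib
import Pool.Agent.Lib.MP_a0554b_an.H4

set_option autoImplicit false

/-!
# `c_0`: factorization through `c_0(c_0)`
-/

noncomputable section

namespace Pool.Agent.Lib.MP_a0554b_an

open Filter Topology
open scoped ENNReal

universe u v w

variable {𝕜 : Type v} [RCLike 𝕜]
variable {Y : Submodule 𝕜 (S 𝕜 ∞ 𝕜)} {lam : ℝ} {Q : ℕ → S 𝕜 ∞ 𝕜 →L[𝕜] Y}
  {V : ℕ → S 𝕜 ∞ 𝕜 →L[𝕜] Y} {N m : ℕ → ℕ}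

/-- Indices `j - 1`, `j - 2` are truncated subtractions of natural numbers; `V 0 = 0`, `m 0 = 0`.
PROOF. `B = V (j + 2) - V (j - 1)`, `A = V (j + 1) - V j`.
`B (A y) = V (j+2) (V (j+1) y) - V (j+2) (V j y) - V (j-1) (V (j+1) y) + V (j-1) (V j y)`; the four
terms are close to `V (j+1) y`, `V j y` (`left`, error `(1/2)^(j+7)` each), `V (j-1) y`
(`right` with `i = j - 1`, `j`: error `(1/2)^(j+6)`), `V (j-1) y` (`right` with `i = j - 1` and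
`j - 1`, error `(1/2)^(j+5)`; for `j = 0` both sides are zero). Sum of the errors
`(1/2)^(j+6) + (1/2)^(j+6) + (1/2)^(j+5) = (1/2)^(j+4)`. -/
theorem Sel.BA (h : Sel Q lam V N m) (j : ℕ) (y : Y) :
    ‖(V (j + 2) ((V (j + 1) (y : S 𝕜 ∞ 𝕜) - V j (y : S 𝕜 ∞ 𝕜) : Y) : S 𝕜 ∞ 𝕜) -
      V (j - 1) ((V (j + 1) (y : S 𝕜 ∞ 𝕜) - V j (y : S 𝕜 ∞ 𝕜) : Y) : S 𝕜 ∞ 𝕜)) -
      (V (j + 1) (y : S 𝕜 ∞ 𝕜) - V j (y : S 𝕜 ∞ 𝕜))‖ ≤ (1 / 2) ^ (j + 4) * ‖y‖ := by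
  have t1 : ‖V (j + 2) (V (j + 1) (y : S 𝕜 ∞ 𝕜) : S 𝕜 ∞ 𝕜) - V (j + 1) (y : S 𝕜 ∞ 𝕜)‖ ≤
      (1 / 2) ^ (j + 1 + 6) * ‖y‖ := h.left (j + 1) (j + 1) le_rfl (y : S 𝕜 ∞ 𝕜)
  have t2 : ‖V (j + 2) (V j (y : S 𝕜 ∞ 𝕜) : S 𝕜 ∞ 𝕜) - V j (y : S 𝕜 ∞ 𝕜)‖ ≤
      (1 / 2) ^ (j + 1 + 6) * ‖y‖ := h.left j (j + 1) (Nat.le_succ j) (y : S 𝕜 ∞ 𝕜)
  have t3 : ‖V (j - 1) (V (j + 1) (y : S 𝕜 ∞ 𝕜) : S 𝕜 ∞ 𝕜) - V (j - 1) (y : S 𝕜 ∞ 𝕜)‖ ≤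
      (1 / 2) ^ (j + 6) * ‖y‖ := h.right (j - 1) j (Nat.sub_le j 1) y
  have t4 : ‖V (j - 1) (V j (y : S 𝕜 ∞ 𝕜) : S 𝕜 ∞ 𝕜) - V (j - 1) (y : S 𝕜 ∞ 𝕜)‖ ≤
      (1 / 2) ^ (j + 5) * ‖y‖ := by
    rcases j with _ | k
    · rw [Nat.zero_sub, h.zero, zero_apply, zero_apply, sub_zero]
      exact (le_of_eq norm_zero).trans (by positivity)
    · exact h.right k k le_rfl y
  have e : (V (j + 2) ((V (j + 1) (y : S 𝕜 ∞ 𝕜) - V j (y : S 𝕜 ∞ 𝕜) : Y) : S 𝕜 ∞ 𝕜) -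
      V (j - 1) ((V (j + 1) (y : S 𝕜 ∞ 𝕜) - V j (y : S 𝕜 ∞ 𝕜) : Y) : S 𝕜 ∞ 𝕜)) -
      (V (j + 1) (y : S 𝕜 ∞ 𝕜) - V j (y : S 𝕜 ∞ 𝕜)) =
      ((V (j + 2) (V (j + 1) (y : S 𝕜 ∞ 𝕜) : S 𝕜 ∞ 𝕜) - V (j + 1) (y : S 𝕜 ∞ 𝕜)) -
        (V (j + 2) (V j (y : S 𝕜 ∞ 𝕜) : S 𝕜 ∞ 𝕜) - V j (y : S 𝕜 ∞ 𝕜))) -
      ((V (j - 1) (V (j + 1) (y : S 𝕜 ∞ 𝕜) : S 𝕜 ∞ 𝕜) - V (j - 1) (y : S 𝕜 ∞ 𝕜)) -
        (V (j - 1) (V j (y : S 𝕜 ∞ 𝕜) : S 𝕜 ∞ 𝕜) - V (j - 1) (y : S 𝕜 ∞ 𝕜))) := by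
    rw [Submodule.coe_sub, map_sub, map_sub]
    abel
  rw [e]
  refine (norm_sub_le _ _).trans ?_
  refine (add_le_add ((norm_sub_le _ _).trans (add_le_add t1 t2))
    ((norm_sub_le _ _).trans (add_le_add t3 t4))).trans (le_of_eq ?_)
  ring

/-- PROOF. With `z = V (j + 2) y - V (j - 1) y`, `U = Ico (m (j - 2)) (m (j + 2))`:
`z - tr U z = (z - tr (Iio (m (j + 2))) z) + tr (Iio (m (j - 2))) z`.
`V (j+2) y - tr (Iio (m (j+2))) (V (j+2) y)`: `tail`, error `(1/2)^(j+7)`.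
`V (j-1) y - tr (Iio (m (j+2))) (V (j-1) y)`: zero for `j ≤ 1` (`V 0 = 0`); for `j ≥ 2` it is
`(1 - tr (Iio (m (j+2)))) (1 - tr (Iio (m (j-1)))) (V (j-1) y)`, error `(1/2)^(j+4)` by `tail`.
`tr (Iio (m (j-2))) z`: zero for `j ≤ 2` (`m 0 = 0`); otherwise
`tr (...) (V (j+2) y - y) - tr (...) (V (j-1) y - y)`: `start` with `i = j - 2`, errors
`(1/2)^(j+7)` and `(1/2)^(j+4)`. Total `≤ (1/2)^(j+2)`. -/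
theorem Sel.window (h : Sel Q lam V N m) (j : ℕ) (y : Y) :
    ‖((V (j + 2) (y : S 𝕜 ∞ 𝕜) - V (j - 1) (y : S 𝕜 ∞ 𝕜) : Y) : S 𝕜 ∞ 𝕜) -
      tr (Set.Ico (m (j - 2)) (m (j + 2)))
        ((V (j + 2) (y : S 𝕜 ∞ 𝕜) - V (j - 1) (y : S 𝕜 ∞ 𝕜) : Y) : S 𝕜 ∞ 𝕜)‖ ≤
      (1 / 2) ^ (j + 2) * ‖y‖ := by
  obtain ⟨a, ha⟩ : ∃ a : S 𝕜 ∞ 𝕜, a = (V (j + 2) (y : S 𝕜 ∞ 𝕜) : S 𝕜 ∞ 𝕜) := ⟨_, rfl⟩
  obtain ⟨b, hb⟩ : ∃ b : S 𝕜 ∞ 𝕜, b = (V (j - 1) (y : S 𝕜 ∞ 𝕜) : S 𝕜 ∞ 𝕜) := ⟨_, rfl⟩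
  have hm1 : m (j - 2) ≤ m (j + 2) := h.m_mono.monotone (by omega)
  have split : ∀ z : S 𝕜 ∞ 𝕜, z - tr (Set.Ico (m (j - 2)) (m (j + 2))) z =
      (z - tr (Set.Iio (m (j + 2))) z) + tr (Set.Iio (m (j - 2))) z := by
    intro z
    apply S_ext
    intro k
    rw [map_add, map_sub, map_sub]
    simp only [ev_tr, Set.mem_Ico, Set.mem_Iio]
    by_cases h1 : k < m (j - 2)
    · rw [if_neg (fun h' => absurd h'.1 (not_le.2 h1)), if_pos (lt_of_lt_of_le h1 hm1), if_pos h1]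
      abel
    · by_cases h2 : k < m (j + 2)
      · rw [if_pos ⟨not_lt.1 h1, h2⟩, if_pos h2, if_neg h1]
        abel
      · rw [if_neg (fun h' => h2 h'.2), if_neg h2, if_neg h1]
        abel
  have t1 : ‖a - tr (Set.Iio (m (j + 2))) a‖ ≤ (1 / 2) ^ (j + 1 + 6) * ‖y‖ := by
    rw [ha]
    exact h.tail (j + 1) (y : S 𝕜 ∞ 𝕜)
  have t2 : ‖b - tr (Set.Iio (m (j + 2))) b‖ ≤ (1 / 2) ^ (j + 4) * ‖y‖ := by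
    rcases j with _ | _ | k
    · rw [hb, h.zero, zero_apply, Submodule.coe_zero, map_zero, sub_zero, norm_zero]
      positivity
    · rw [hb, show 0 + 1 - 1 = 0 from rfl, h.zero, zero_apply, Submodule.coe_zero, map_zero,
        sub_zero, norm_zero]
      positivity
    · have h1 : ‖b - tr (Set.Iio (m (k + 1))) b‖ ≤ (1 / 2) ^ (k + 6) * ‖y‖ := by
        rw [hb]
        exact h.tail k (y : S 𝕜 ∞ 𝕜)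
      refine le_trans ?_ h1
      rw [sub_tr, sub_tr]
      refine norm_tr_mono (Set.compl_subset_compl.2 (Set.Iio_subset_Iio ?_)) b
      exact h.m_mono.monotone (by omega)
  have t3 : ‖tr (Set.Iio (m (j - 2))) (a - b)‖ ≤
      (1 / 2) ^ (j + 1 + 6) * ‖y‖ + (1 / 2) ^ (j + 4) * ‖y‖ := by
    rcases Nat.lt_or_ge 2 j with hj | hj
    · obtain ⟨k, rfl⟩ : ∃ k, j = k + 2 := ⟨j - 2, by omega⟩
      have s1 : ‖tr (Set.Iio (m k)) (a - (y : S 𝕜 ∞ 𝕜))‖ ≤ (1 / 2) ^ (k + 2 + 1 + 6) * ‖y‖ := by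
        rw [ha]
        exact h.start k (k + 2 + 1) (by omega) y
      have s2 : ‖tr (Set.Iio (m k)) (b - (y : S 𝕜 ∞ 𝕜))‖ ≤ (1 / 2) ^ (k + 6) * ‖y‖ := by
        rw [hb]
        exact h.start k k le_rfl y
      have e : tr (Set.Iio (m (k + 2 - 2))) (a - b) =
          tr (Set.Iio (m k)) (a - (y : S 𝕜 ∞ 𝕜)) - tr (Set.Iio (m k)) (b - (y : S 𝕜 ∞ 𝕜)) := by
        rw [← map_sub, sub_sub_sub_cancel_right]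
        rfl
      rw [e]
      exact (norm_sub_le _ _).trans (add_le_add s1 s2)
    · have e : tr (Set.Iio (m (j - 2))) (a - b) = 0 := by
        rw [show j - 2 = 0 by omega, h.m_zero]
        apply S_ext
        intro k
        rw [ev_tr_notMem (by simp), map_zero]
      rw [e, norm_zero]
      positivity
  rw [Submodule.coe_sub, ← ha, ← hb, split]
  have e : (a - b) - tr (Set.Iio (m (j + 2))) (a - b) =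
      (a - tr (Set.Iio (m (j + 2))) a) - (b - tr (Set.Iio (m (j + 2))) b) := by
    rw [map_sub]
    abel
  rw [e]
  refine (norm_add_le _ _).trans ((add_le_add ((norm_sub_le _ _).trans (add_le_add t1 t2))
    t3).trans ?_)
  have hy := norm_nonneg y
  have h2 : (0 : ℝ) ≤ (1 / 2) ^ j * ‖y‖ := by positivity
  have e1 : (1 / 2 : ℝ) ^ (j + 1 + 6) * ‖y‖ = (1 / 2) ^ j * ‖y‖ / 128 := by ring
  have e2 : (1 / 2 : ℝ) ^ (j + 4) * ‖y‖ = (1 / 2) ^ j * ‖y‖ / 16 := by ring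
  have e3 : (1 / 2 : ℝ) ^ (j + 2) * ‖y‖ = (1 / 2) ^ j * ‖y‖ / 4 := by ring
  rw [e1, e2, e3]
  linarith

end Pool.Agent.Lib.MP_a0554b_an
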