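import Mathlib
import Pool.Agent.Lib.MP_a0554b_an.H1
import Pool.Agent.Lib.MP_a0554b_an.H5a
import Pool.Agent.Lib.MP_a0554b_an.A4

set_option autoImplicit false

/-!
# `c_0`: factorization through `c_0(c_0)`
-/

noncomputable section

namespace Pool.Agent.Lib.MP_a0554b_an

open Filter Topology
open scoped ENNReal

universe u v w

variable {𝕜 : Type v} [RCLike 𝕜]
variable {Y : Submodule 𝕜 (S 𝕜 ∞ 𝕜)} {lam : ℝ} {Q : ℕ → S 𝕜 ∞ 𝕜 →L[𝕜] Y}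
  {V : ℕ → S 𝕜 ∞ 𝕜 →L[𝕜] Y} {N m : ℕ → ℕ}

theorem overlap_four {m : ℕ → ℕ} (hm : StrictMono m) :
    Overlap 4 (fun j => Set.Ico (m (j - 2)) (m (j + 2))) where
  pos := by norm_num
  disj := by
    have key : ∀ i j, i < j → i % 4 = j % 4 →
        Disjoint (Set.Ico (m (i - 2)) (m (i + 2))) (Set.Ico (m (j - 2)) (m (j + 2))) := by
      intro i j hij h
      rw [Set.disjoint_left]
      intro x hx hx'
      have h1 : m (i + 2) ≤ m (j - 2) := hm.monotone (by omega)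
      have h2 := hx.2
      have h3 := hx'.1
      omega
    intro i j hij h
    rcases lt_or_gt_of_ne hij with h' | h'
    · exact key i j h' h
    · exact (key j i h' h.symm).symm

theorem H5_op {W : Type w} [NormedAddCommGroup W] [NormedSpace 𝕜 W] {E : Type u}
    [NormedAddCommGroup E] [NormedSpace 𝕜 E] (A : ℕ → (W →L[𝕜] E)) {c : ℝ} (hc : 0 ≤ c)
    (h : ∀ j y, ‖A j y‖ ≤ c * ‖y‖) (h0 : ∀ y, Tendsto (fun j => A j y) atTop (𝓝 0)) :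
    ∃ α : W →L[𝕜] S 𝕜 ∞ E, (∀ y j, ev j (α y) = A j y) ∧ ∀ y, ‖α y‖ ≤ c * ‖y‖ := by
  obtain ⟨α, h1, h2⟩ := exists_op (𝕜 := 𝕜) (p := ∞) (E := E) (Y := W)
    (fun j => (A j : W →ₗ[𝕜] E)) c
    (fun y => by
      have hb : Memℓp (fun j => A j y) ∞ := by
        refine memℓp_infty ⟨c * ‖y‖, ?_⟩
        rintro _ ⟨j, rfl⟩
        exact h j y
      refine ⟨ofSeq _ hb (h0 y), fun k => rfl, ?_⟩
      refine norm_le_of_ev _ (by positivity) (fun k => ?_)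
      rw [ev_ofSeq]
      exact h k y)
  exact ⟨α, h1, h2⟩

/-- PROOF. `(V, N, m)` from `exists_sel`. `A j y = V (j+1) y - V j y`, `B j z = V (j+2) z - V (j-1) z`.
`α y = (A j y)_j` as an element of `S 𝕜 ∞ (S 𝕜 ∞ 𝕜)`: `exists_op`, with `ofSeq`:
`memℓp_infty` (bounded by `2 lam ‖y‖`), tends to zero since `V j y` converges; norm
`≤ 2 lam ‖y‖` (`norm_le_of_ev`).
`β`: `cosum` with `r = 4` (`overlap_four`), `T j x = B j (Q (N (j + 1)) x) ∈ Y`,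
`c = 2 lam ^ 2` (`‖tr U z‖ ≤ ‖z‖`), `ε j = (1/2)^(j+2) * lam` (`Sel.window` for
`y = Q (N (j+1)) x`), `e = lam`: `‖β x‖ ≤ (8 lam^2 + lam) ‖x‖`; values in `Y` (closed,
`codRestrict`).
`β (α y) = lim ∑_{j < n} B j (Q (N (j+1)) (A j y)) = lim ∑_{j < n} B j (A j y)` (`A j y` is fixed by
`Q (N (j+1))`: `range`, `N_mono`, `Approx.mono`), and `∑_{j < n} A j y = V n y → y`
(`zero`, `lim`), so `‖β (α y) - y‖ ≤ ∑ (1/2)^(j+4) ‖y‖ = ‖y‖ / 8 ≤ ‖y‖ / 2` (`Sel.BA`).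
`exists_inverse` for `T = β ∘ α` on `Y` (complete, closed) gives `V'`; replace `β` by `V' ∘ β`. -/
theorem core_c0 (h : Approx Y lam Q) :
    ∃ (α : Y →L[𝕜] S 𝕜 ∞ (S 𝕜 ∞ 𝕜)) (β : S 𝕜 ∞ (S 𝕜 ∞ 𝕜) →L[𝕜] Y), (∀ y, β (α y) = y) ∧
      (∀ y, ‖α y‖ ≤ (2 * lam + 16 * lam ^ 2) * ‖y‖) ∧
        ∀ x, ‖β x‖ ≤ (2 * lam + 16 * lam ^ 2) * ‖x‖ := by
  obtain ⟨V, N, m, hs⟩ := exists_sel h
  have hlam : 0 ≤ lam := zero_le_one.trans h.nonneg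
  have _ : CompleteSpace Y := h.closed.completeSpace_coe
  -- the operators `A j`
  obtain ⟨A, hA⟩ : ∃ A : ℕ → (Y →L[𝕜] Y), ∀ j y,
      A j y = V (j + 1) (y : S 𝕜 ∞ 𝕜) - V j (y : S 𝕜 ∞ 𝕜) :=
    ⟨fun j => (V (j + 1) - V j) ∘L Y.subtypeL, fun _ _ => rfl⟩
  have hAle : ∀ j y, ‖A j y‖ ≤ 2 * lam * ‖y‖ := by
    intro j y
    rw [hA]
    have h1 := hs.bound (j + 1) (y : S 𝕜 ∞ 𝕜)
    have h2 := hs.bound j (y : S 𝕜 ∞ 𝕜)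
    have h3 := norm_sub_le (V (j + 1) (y : S 𝕜 ∞ 𝕜)) (V j (y : S 𝕜 ∞ 𝕜))
    have h4 : ‖(y : S 𝕜 ∞ 𝕜)‖ = ‖y‖ := rfl
    rw [h4] at h1 h2
    linarith
  have hA0 : ∀ y : Y, Tendsto (fun j => ((A j y : Y) : S 𝕜 ∞ 𝕜)) atTop (𝓝 0) := by
    intro y
    have h1 : Tendsto (fun j => A j y) atTop (𝓝 (y - y)) := by
      simp only [hA]
      exact ((hs.lim y).comp (tendsto_add_atTop_nat 1)).sub (hs.lim y)
    rw [sub_self] at h1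
    have h2 := (Y.subtypeL.continuous.tendsto 0).comp h1
    rw [map_zero] at h2
    exact h2
  obtain ⟨A', hA'⟩ : ∃ A' : ℕ → (Y →L[𝕜] S 𝕜 ∞ 𝕜), ∀ j y, A' j y = ((A j y : Y) : S 𝕜 ∞ 𝕜) :=
    ⟨fun j => Y.subtypeL ∘L A j, fun _ _ => rfl⟩
  have key := @H5_op 𝕜 _ Y _ _ (S 𝕜 ∞ 𝕜) _ _
  obtain ⟨α, hα1, hα2⟩ := key A' (c := 2 * lam) (by positivity)
    (fun j y => by rw [hA']; exact hAle j y) (fun y => by simp only [hA']; exact hA0 y)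
  -- the operator `β`
  have hB : ∀ j (y : Y), ‖V (j + 2) (y : S 𝕜 ∞ 𝕜) - V (j - 1) (y : S 𝕜 ∞ 𝕜)‖ ≤ 2 * lam * ‖y‖ := by
    intro j y
    have h1 := hs.bound (j + 2) (y : S 𝕜 ∞ 𝕜)
    have h2 := hs.bound (j - 1) (y : S 𝕜 ∞ 𝕜)
    have h3 := norm_sub_le (V (j + 2) (y : S 𝕜 ∞ 𝕜)) (V (j - 1) (y : S 𝕜 ∞ 𝕜))
    have h4 : ‖(y : S 𝕜 ∞ 𝕜)‖ = ‖y‖ := rfl
    rw [h4] at h1 h2
    linarith
  obtain ⟨T, hT⟩ : ∃ T : ℕ → (S 𝕜 ∞ 𝕜 →L[𝕜] S 𝕜 ∞ 𝕜), ∀ j x, T j x =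
      ((V (j + 2) (Q (N (j + 1)) x : S 𝕜 ∞ 𝕜) - V (j - 1) (Q (N (j + 1)) x : S 𝕜 ∞ 𝕜) : Y) :
        S 𝕜 ∞ 𝕜) :=
    ⟨fun j => Y.subtypeL ∘L (V (j + 2) - V (j - 1)) ∘L Y.subtypeL ∘L Q (N (j + 1)),
      fun _ _ => rfl⟩
  have hsum : HasSum (fun j : ℕ => (1 / 2 : ℝ) ^ (j + 2) * lam) (lam / 2) := by
    have h2 : (fun j : ℕ => (1 / 2 : ℝ) ^ (j + 2) * lam) =
        fun j : ℕ => (1 / 2 : ℝ) ^ j * (1 / 4 * lam) := by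
      funext j
      rw [pow_add]
      ring
    have h3 : lam / 2 = 2 * (1 / 4 * lam) := by ring
    rw [h2, h3]
    exact hasSum_geometric_two.mul_right (1 / 4 * lam)
  obtain ⟨β₀, hβ1, hβ2⟩ := cosum (overlap_four hs.m_mono) T (c := 2 * lam ^ 2) (e := lam)
    (ε := fun j => (1 / 2 : ℝ) ^ (j + 2) * lam) (by positivity) (fun j => by positivity)
    hsum.summable (by rw [hsum.tsum_eq]; linarith)
    (fun j x => by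
      refine (norm_tr_le _ _).trans ?_
      rw [hT]
      refine (hB j (Q (N (j + 1)) x)).trans ?_
      have h1 := h.bound (N (j + 1)) x
      calc 2 * lam * ‖Q (N (j + 1)) x‖ ≤ 2 * lam * (lam * ‖x‖) := by gcongr
        _ = 2 * lam ^ 2 * ‖x‖ := by ring)
    (fun j x => by
      rw [hT]
      refine (hs.window j (Q (N (j + 1)) x)).trans ?_
      have h1 := h.bound (N (j + 1)) x
      calc (1 / 2) ^ (j + 2) * ‖Q (N (j + 1)) x‖ ≤ (1 / 2) ^ (j + 2) * (lam * ‖x‖) := by gcongr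
        _ = (1 / 2) ^ (j + 2) * lam * ‖x‖ := by ring)
  have hmem : ∀ x, β₀ x ∈ Y := by
    intro x
    refine h.closed.mem_of_tendsto (hβ1 x) (Eventually.of_forall (fun n => ?_))
    refine Submodule.sum_mem _ (fun j _ => ?_)
    rw [hT]
    exact Submodule.coe_mem _
  obtain ⟨β, hβ⟩ : ∃ β : S 𝕜 ∞ (S 𝕜 ∞ 𝕜) →L[𝕜] Y, ∀ x, (β x : S 𝕜 ∞ 𝕜) = β₀ x :=
    ⟨β₀.codRestrict Y hmem, fun _ => rfl⟩
  have hβn : ∀ x, ‖β x‖ ≤ (8 * lam ^ 2 + lam) * ‖x‖ := by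
    intro x
    have h1 : ‖β x‖ = ‖β₀ x‖ := by rw [← hβ]; rfl
    rw [h1]
    refine (hβ2 x).trans (le_of_eq ?_)
    push_cast
    ring
  -- `β ∘ α` is close to the identity
  have hfix : ∀ j y, Q (N (j + 1)) ((A j y : Y) : S 𝕜 ∞ 𝕜) = A j y := by
    intro j y
    have h1 := hs.range (j + 1) (y : S 𝕜 ∞ 𝕜)
    have h2 : Q (N (j + 1)) (V j (y : S 𝕜 ∞ 𝕜) : S 𝕜 ∞ 𝕜) = V j (y : S 𝕜 ∞ 𝕜) := by
      have h3 := hs.range j (y : S 𝕜 ∞ 𝕜)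
      rw [← h3]
      exact h.mono _ _ (hs.N_mono (Nat.le_succ j)) _
    rw [hA, Submodule.coe_sub, map_sub, h1, h2]
  have hTA : ∀ j y, ‖T j ((A j y : Y) : S 𝕜 ∞ 𝕜) - ((A j y : Y) : S 𝕜 ∞ 𝕜)‖ ≤
      (1 / 2) ^ (j + 4) * ‖y‖ := by
    intro j y
    rw [hT, hfix, ← Submodule.coe_sub]
    have h1 := hs.BA j y
    rw [hA]
    exact h1
  have hclose : ∀ y : Y, ‖(β ∘L α) y - y‖ ≤ 1 / 2 * ‖y‖ := by
    intro y
    have e1 : ‖(β ∘L α) y - y‖ = ‖β₀ (α y) - (y : S 𝕜 ∞ 𝕜)‖ := by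
      rw [← hβ]
      rfl
    rw [e1]
    have t1 : Tendsto (fun n => ∑ j ∈ Finset.range n, T j (ev j (α y)) - (y : S 𝕜 ∞ 𝕜)) atTop
        (𝓝 (β₀ (α y) - (y : S 𝕜 ∞ 𝕜))) := (hβ1 (α y)).sub_const _
    have t2 : Tendsto (fun n => ‖((V n (y : S 𝕜 ∞ 𝕜) : Y) : S 𝕜 ∞ 𝕜) - (y : S 𝕜 ∞ 𝕜)‖) atTop
        (𝓝 0) := by
      have h1 := (Y.subtypeL.continuous.tendsto y).comp (hs.lim y)
      have h2 := (tendsto_iff_norm_sub_tendsto_zero).1 h1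
      exact h2
    have hgeo : ∀ n, ∑ j ∈ Finset.range n, ((1 / 2 : ℝ)) ^ (j + 4) ≤ 1 / 8 := by
      intro n
      have h1 : HasSum (fun j : ℕ => (1 / 2 : ℝ) ^ (j + 4)) (1 / 8) := by
        have h2 : (fun j : ℕ => (1 / 2 : ℝ) ^ (j + 4)) =
            fun j : ℕ => (1 / 2 : ℝ) ^ j * (1 / 16) := by
          funext j
          rw [pow_add]
          norm_num
        have h3 : (1 / 8 : ℝ) = 2 * (1 / 16) := by norm_num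
        rw [h2, h3]
        exact hasSum_geometric_two.mul_right (1 / 16 : ℝ)
      exact sum_le_hasSum _ (fun j _ => by positivity) h1
    have hb : ∀ n, ‖∑ j ∈ Finset.range n, T j (ev j (α y)) - (y : S 𝕜 ∞ 𝕜)‖ ≤
        1 / 8 * ‖y‖ + ‖((V n (y : S 𝕜 ∞ 𝕜) : Y) : S 𝕜 ∞ 𝕜) - (y : S 𝕜 ∞ 𝕜)‖ := by
      intro n
      have e2 : ∑ j ∈ Finset.range n, ((A j y : Y) : S 𝕜 ∞ 𝕜) = (V n (y : S 𝕜 ∞ 𝕜) : Y) := by
        have e3 : ∀ j, ((A j y : Y) : S 𝕜 ∞ 𝕜) =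
            ((V (j + 1) (y : S 𝕜 ∞ 𝕜) : Y) : S 𝕜 ∞ 𝕜) - ((V j (y : S 𝕜 ∞ 𝕜) : Y) : S 𝕜 ∞ 𝕜) :=
          fun j => by rw [hA, Submodule.coe_sub]
        rw [Finset.sum_congr rfl (fun j _ => e3 j),
          Finset.sum_range_sub (fun j => ((V j (y : S 𝕜 ∞ 𝕜) : Y) : S 𝕜 ∞ 𝕜)), hs.zero]
        simp
      have e4 : ∀ j, ev j (α y) = ((A j y : Y) : S 𝕜 ∞ 𝕜) := fun j => (hα1 y j).trans (hA' j y)
      have e5 : ∑ j ∈ Finset.range n, T j (ev j (α y)) - (y : S 𝕜 ∞ 𝕜) =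
          ∑ j ∈ Finset.range n, (T j ((A j y : Y) : S 𝕜 ∞ 𝕜) - ((A j y : Y) : S 𝕜 ∞ 𝕜)) +
            (((V n (y : S 𝕜 ∞ 𝕜) : Y) : S 𝕜 ∞ 𝕜) - (y : S 𝕜 ∞ 𝕜)) := by
        rw [Finset.sum_sub_distrib, e2]
        simp only [e4]
        abel
      rw [e5]
      refine (norm_add_le _ _).trans ?_
      have h1 : ‖∑ j ∈ Finset.range n, (T j ((A j y : Y) : S 𝕜 ∞ 𝕜) - ((A j y : Y) : S 𝕜 ∞ 𝕜))‖ ≤
          1 / 8 * ‖y‖ := by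
        refine (norm_sum_le _ _).trans ?_
        calc ∑ j ∈ Finset.range n, ‖T j ((A j y : Y) : S 𝕜 ∞ 𝕜) - ((A j y : Y) : S 𝕜 ∞ 𝕜)‖
            ≤ ∑ j ∈ Finset.range n, (1 / 2) ^ (j + 4) * ‖y‖ :=
              Finset.sum_le_sum (fun j _ => hTA j y)
          _ = (∑ j ∈ Finset.range n, (1 / 2) ^ (j + 4)) * ‖y‖ := by rw [Finset.sum_mul]
          _ ≤ 1 / 8 * ‖y‖ := by
              have := hgeo n
              gcongr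
      linarith
    have t3 : Tendsto (fun n => 1 / 8 * ‖y‖ +
        ‖((V n (y : S 𝕜 ∞ 𝕜) : Y) : S 𝕜 ∞ 𝕜) - (y : S 𝕜 ∞ 𝕜)‖) atTop (𝓝 (1 / 8 * ‖y‖ + 0)) :=
      t2.const_add _
    have h1 := le_of_tendsto_of_tendsto' t1.norm t3 hb
    have h2 := norm_nonneg y
    linarith
  have key2 := @exists_inverse 𝕜 _ Y _ _ _
  obtain ⟨V', hV1, hV2, hV3⟩ := key2 (β ∘L α) hclose
  refine ⟨α, V' ∘L β, fun y => hV1 y, fun y => ?_, fun x => ?_⟩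
  · refine (hα2 y).trans ?_
    have h1 := norm_nonneg y
    have h2 : 0 ≤ 16 * lam ^ 2 * ‖y‖ := by positivity
    nlinarith
  · have h1 := hV3 (β x)
    have h2 := hβn x
    have e1 : (V' ∘L β) x = V' (β x) := rfl
    rw [e1]
    nlinarith [norm_nonneg x]

end Pool.Agent.Lib.MP_a0554b_an
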