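import Mathlib
import Pool.Agent.Lib.MP_a0554b_an.H5
import Pool.Agent.Lib.MP_a0554b_an.E1

set_option autoImplicit false

/-!
# `c_0`: block subspaces are approximated by nice finite dimensional spaces
-/

noncomputable section

namespace Pool.Agent.Lib.MP_a0554b_an

open Filter Topology
open scoped ENNReal

universe u v w

variable {𝕜 : Type v} [RCLike 𝕜]

theorem H6_span {X : Type u} [NormedAddCommGroup X] [NormedSpace 𝕜 X] (y : ℕ → X) {x : X}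
    (hx : x ∈ Submodule.span 𝕜 (Set.range y)) :
    ∃ k, x ∈ Submodule.span 𝕜 (y '' Set.Iio k) := by
  have mono : ∀ {k l : ℕ}, k ≤ l → Submodule.span 𝕜 (y '' Set.Iio k) ≤
      Submodule.span 𝕜 (y '' Set.Iio l) := fun h =>
    Submodule.span_mono (Set.image_mono (Set.Iio_subset_Iio h))
  induction hx using Submodule.span_induction with
  | mem x hx =>
    obtain ⟨i, rfl⟩ := hx
    exact ⟨i + 1, Submodule.subset_span ⟨i, Nat.lt_succ_self i, rfl⟩⟩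
  | zero => exact ⟨0, Submodule.zero_mem _⟩
  | add a b _ _ ha hb =>
    obtain ⟨k, hk⟩ := ha
    obtain ⟨l, hl⟩ := hb
    exact ⟨max k l, Submodule.add_mem _ (mono (le_max_left _ _) hk) (mono (le_max_right _ _) hl)⟩
  | smul c a _ ha =>
    obtain ⟨k, hk⟩ := ha
    exact ⟨k, Submodule.smul_mem _ _ hk⟩

/-- PROOF. `G n = span (y '' Iio n)` is finite dimensional; `Q n` := `proj_of_nice` for `G n`
followed by the inclusion into `closedSpan y` (`span_image_le`); `lam = max (2 C) 1`.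
`mono`: `Q n x ∈ G n ⊆ G m`. `fin`: the range is contained in the image of `G n`. `dense`: the set
of `x` with `Q n x → x` contains all `G k` (constant from `n = k` on), so the span of
`y`, and is closed since the `Q n` are uniformly bounded. -/
theorem exists_approx {C : ℝ} (hC : 0 ≤ C) (y : ℕ → S 𝕜 ∞ 𝕜)
    (hN : ∀ k, Nice C (Submodule.span 𝕜 (y '' Set.Iio k))) :
    ∃ Q, Approx (closedSpan 𝕜 y) (max (2 * C) 1) Q := by
  have hfd : ∀ k, FiniteDimensional 𝕜 (Submodule.span 𝕜 (y '' Set.Iio k)) := fun k =>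
    FiniteDimensional.span_of_finite 𝕜 ((Set.finite_Iio k).image y)
  have hP : ∀ k, ∃ P : S 𝕜 ∞ 𝕜 →L[𝕜] (Submodule.span 𝕜 (y '' Set.Iio k)),
      (∀ x : (Submodule.span 𝕜 (y '' Set.Iio k)), P x = x) ∧ ∀ x, ‖P x‖ ≤ 2 * C * ‖x‖ := by
    intro k
    have := hfd k
    exact proj_of_nice hC _ (hN k)
  choose P hP1 hP2 using hP
  have mono : ∀ {k l : ℕ}, k ≤ l → Submodule.span 𝕜 (y '' Set.Iio k) ≤
      Submodule.span 𝕜 (y '' Set.Iio l) := fun h =>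
    Submodule.span_mono (Set.image_mono (Set.Iio_subset_Iio h))
  obtain ⟨Q, hQdef⟩ : ∃ Q : ℕ → S 𝕜 ∞ 𝕜 →L[𝕜] closedSpan 𝕜 y,
      ∀ n x, (Q n x : S 𝕜 ∞ 𝕜) = (P n x : S 𝕜 ∞ 𝕜) := by
    refine ⟨fun n => ContinuousLinearMap.codRestrict
      ((Submodule.span 𝕜 (y '' Set.Iio n)).subtypeL ∘L P n) (closedSpan 𝕜 y)
      (fun x => span_image_le _ (P n x).2), fun n x => rfl⟩
  have hfix : ∀ n (x : S 𝕜 ∞ 𝕜), x ∈ Submodule.span 𝕜 (y '' Set.Iio n) →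
      (P n x : S 𝕜 ∞ 𝕜) = x := by
    intro n x hx
    have := hP1 n ⟨x, hx⟩
    exact congrArg Subtype.val this
  have hlam : 0 ≤ max (2 * C) 1 := le_trans zero_le_one (le_max_right _ _)
  have hb : ∀ n x, ‖Q n x‖ ≤ max (2 * C) 1 * ‖x‖ := by
    intro n x
    change ‖(Q n x : S 𝕜 ∞ 𝕜)‖ ≤ _
    rw [hQdef]
    exact (hP2 n x).trans (mul_le_mul_of_nonneg_right (le_max_left _ _) (norm_nonneg _))
  refine ⟨Q, ?_⟩
  constructor
  · exact closedSpan_isClosed y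
  · exact le_max_right _ _
  · exact hb
  · intro n
    have := hfd n
    have h1 : LinearMap.range (Q n : S 𝕜 ∞ 𝕜 →ₗ[𝕜] closedSpan 𝕜 y) ≤
        LinearMap.range (Submodule.inclusion (span_image_le (𝕜 := 𝕜) (y := y) (Set.Iio n))) := by
      rintro _ ⟨x, rfl⟩
      refine ⟨P n x, ?_⟩
      apply Subtype.ext
      change (P n x : S 𝕜 ∞ 𝕜) = (Q n x : S 𝕜 ∞ 𝕜)
      rw [hQdef]
    exact Submodule.finiteDimensional_of_le h1
  · intro n m hnm x
    apply Subtype.ext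
    rw [hQdef m, hfix m]
    rw [hQdef n]
    exact mono hnm (P n x).2
  · intro z
    rw [Metric.tendsto_atTop]
    intro ε hε
    have hz : (z : S 𝕜 ∞ 𝕜) ∈ closure (Submodule.span 𝕜 (Set.range y) : Set (S 𝕜 ∞ 𝕜)) := z.2
    rw [Metric.mem_closure_iff] at hz
    have hpos : 0 < max (2 * C) 1 + 1 := by linarith
    obtain ⟨g, hg, hzg⟩ := hz (ε / (max (2 * C) 1 + 1)) (div_pos hε hpos)
    obtain ⟨k, hk⟩ := H6_span y hg
    refine ⟨k, fun n hn => ?_⟩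
    have hgn : (Q n g : S 𝕜 ∞ 𝕜) = g := by
      rw [hQdef, hfix n g (mono hn hk)]
    have h1 : ‖(Q n (z : S 𝕜 ∞ 𝕜) : S 𝕜 ∞ 𝕜) - z‖ ≤
        (max (2 * C) 1 + 1) * ‖(z : S 𝕜 ∞ 𝕜) - g‖ := by
      have h2 : (Q n (z : S 𝕜 ∞ 𝕜) : S 𝕜 ∞ 𝕜) - z =
          (Q n ((z : S 𝕜 ∞ 𝕜) - g) : S 𝕜 ∞ 𝕜) - ((z : S 𝕜 ∞ 𝕜) - g) := by
        rw [map_sub, Submodule.coe_sub, hgn]
        abel
      rw [h2]
      refine (norm_sub_le _ _).trans ?_
      have h3 : ‖(Q n ((z : S 𝕜 ∞ 𝕜) - g) : S 𝕜 ∞ 𝕜)‖ ≤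
        max (2 * C) 1 * ‖(z : S 𝕜 ∞ 𝕜) - g‖ := hb n ((z : S 𝕜 ∞ 𝕜) - g)
      linarith
    rw [dist_eq_norm]
    refine lt_of_le_of_lt h1 ?_
    rw [dist_eq_norm] at hzg
    have h4 := (lt_div_iff₀ hpos).1 hzg
    linarith

end Pool.Agent.Lib.MP_a0554b_an
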