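import Mathlib
import Pool.Agent.Lib.MP_a0554b_an.E1
import Pool.Agent.Lib.MP_a0554b_an.A8
import Pool.Agent.Lib.MP_a0554b_an.B1

set_option autoImplicit false

/-!
# The first blocks do not matter
-/

noncomputable section

namespace Pool.Agent.Lib.MP_a0554b_an

open Filter Topology
open scoped ENNReal

universe u v w

variable {𝕜 : Type v} [RCLike 𝕜] {p : ℝ≥0∞} [Fact (1 ≤ p)] {X : Type u}
  [NormedAddCommGroup X] [NormedSpace 𝕜 X] {b : SchauderBasis 𝕜 X}

/-- PROOF. Let `e` be the cut points of `y`, `P = b.proj (e 1)`, `u = ‖y 0‖⁻¹ • y 0`, `Y = closedSpan y`,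
`Y' = closedSpan (y (· + 1))`. For `x ∈ Y`: `P x ∈ span {y 0} = 𝕜 u` (`IsCut.proj_mem` for `k = 1`), so
`P x = a(x) • u` with `a` linear (`|a(x)| = ‖P x‖ ≤ K ‖x‖`), and `x - P x ∈ Y'` (true for
`x = y i`; closed span, continuity), norm `≤ (1 + K) ‖x‖`. `x ↦ (a(x), x - P x)` is an isomorphism
`Y ≃ 𝕜 × Y'` with inverse `(a, z) ↦ a • u + z` (`P z = 0` for `z ∈ Y'`), norm `≤ 2`. So
`IsoB (K + 2) Y (𝕜 × Y')`; then `IsoB.prod` (with the identity of `𝕜`, constant `max C 1`) and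
`exists_iso_line` (constant `2`). -/
theorem iso_of_tail {K C : ℝ} (hK : ∀ n x, ‖b.proj n x‖ ≤ K * ‖x‖) (hK0 : 0 ≤ K) (y : ℕ → X)
    (hy : IsBlock b y) (h : IsoB 𝕜 C (closedSpan 𝕜 (fun k => y (k + 1))) (S 𝕜 p 𝕜)) :
    IsoB 𝕜 ((K + 2) * (max C 1) * 2) (closedSpan 𝕜 y) (S 𝕜 p 𝕜) := by
  obtain ⟨e, he⟩ := hy.exists_cut
  set P : X →L[𝕜] X := b.proj (e 1) with hP
  have hPK : ∀ x, ‖P x‖ ≤ K * ‖x‖ := hK (e 1)
  have hy0 : ‖y 0‖ ≠ 0 := norm_ne_zero_iff.2 (hy.ne_zero 0)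
  set u : X := ((‖y 0‖⁻¹ : ℝ) : 𝕜) • y 0 with hu
  have hu1 : ‖u‖ = 1 := by
    rw [hu, norm_smul, RCLike.norm_ofReal, abs_inv, abs_norm, inv_mul_cancel₀ hy0]
  have hPy0 : P (y 0) = y 0 := by rw [hP, he.proj_apply 1 0, if_pos one_pos]
  have hPu : P u = u := by rw [hu, map_smul, hPy0]
  have hPy : ∀ k, P (y (k + 1)) = 0 := fun k => by
    rw [hP, he.proj_apply 1 (k + 1), if_neg (by omega)]
  have hy0u : y 0 = ((‖y 0‖ : ℝ) : 𝕜) • u := by
    rw [hu, smul_smul, ← RCLike.ofReal_mul, mul_inv_cancel₀ hy0, RCLike.ofReal_one, one_smul]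
  -- membership facts
  have hmem : ∀ k, y k ∈ closedSpan 𝕜 y := fun k =>
    Submodule.le_topologicalClosure _ (Submodule.subset_span ⟨k, rfl⟩)
  have huY : u ∈ closedSpan 𝕜 y := Submodule.smul_mem _ _ (hmem 0)
  have hsub : closedSpan 𝕜 (fun k => y (k + 1)) ≤ closedSpan 𝕜 y := by
    apply Submodule.topologicalClosure_mono
    apply Submodule.span_mono
    rintro _ ⟨k, rfl⟩
    exact ⟨k + 1, rfl⟩
  have hPmem : ∀ x ∈ closedSpan 𝕜 y, P x ∈ Submodule.span 𝕜 {u} := by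
    intro x hx
    have h1 := he.proj_mem 1 hx
    have h2 : y '' Set.Iio 1 = {y 0} := by
      ext z
      constructor
      · rintro ⟨k, hk, rfl⟩
        have hk' : k < 1 := hk
        have : k = 0 := by omega
        subst this
        rfl
      · intro hz
        rw [Set.mem_singleton_iff] at hz
        exact ⟨0, by simp, hz.symm⟩
    rw [h2] at h1
    obtain ⟨c, hc⟩ := Submodule.mem_span_singleton.1 h1
    rw [hP, ← hc, hy0u, smul_smul]
    exact Submodule.smul_mem _ _ (Submodule.mem_span_singleton_self u)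
  have hker : ∀ z ∈ closedSpan 𝕜 (fun k => y (k + 1)), P z = 0 := by
    have h1 : closedSpan 𝕜 (fun k => y (k + 1)) ≤ P.ker := by
      apply Submodule.topologicalClosure_minimal
      · rw [Submodule.span_le]
        rintro _ ⟨k, rfl⟩
        exact hPy k
      · exact P.isClosed_ker
    exact fun z hz => h1 hz
  have hdiff : ∀ x ∈ closedSpan 𝕜 y, x - P x ∈ closedSpan 𝕜 (fun k => y (k + 1)) := by
    set R : X →L[𝕜] X := ContinuousLinearMap.id 𝕜 X - P with hR
    have h1 : closedSpan 𝕜 y ≤ (closedSpan 𝕜 (fun k => y (k + 1))).comap R.toLinearMap := by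
      apply Submodule.topologicalClosure_minimal
      · rw [Submodule.span_le]
        rintro _ ⟨k, rfl⟩
        rcases Nat.eq_zero_or_pos k with rfl | hk
        · have : R (y 0) = 0 := by
            change y 0 - P (y 0) = 0
            rw [hPy0, sub_self]
          change R (y 0) ∈ closedSpan 𝕜 (fun k => y (k + 1))
          rw [this]
          exact Submodule.zero_mem _
        · obtain ⟨j, rfl⟩ : ∃ j, k = j + 1 := ⟨k - 1, by omega⟩
          have : R (y (j + 1)) = y (j + 1) := by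
            change y (j + 1) - P (y (j + 1)) = y (j + 1)
            rw [hPy, sub_zero]
          change R (y (j + 1)) ∈ closedSpan 𝕜 (fun k => y (k + 1))
          rw [this]
          exact Submodule.le_topologicalClosure _ (Submodule.subset_span ⟨j, rfl⟩)
      · exact (closedSpan_isClosed _).preimage R.continuous
    exact fun x hx => h1 hx
  -- the operators
  set E := LinearIsometryEquiv.toSpanUnitSingleton (𝕜 := 𝕜) u hu1 with hE
  have hEs : ∀ z : Submodule.span 𝕜 {u}, (E.symm z) • u = (z : X) := by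
    intro z
    have h1 : E (E.symm z) = z := E.apply_symm_apply z
    have h2 : ((E (E.symm z) : Submodule.span 𝕜 {u}) : X) = (E.symm z) • u := by
      rw [hE, LinearIsometryEquiv.toSpanUnitSingleton_apply]
    rw [← h2, h1]
  let PY : closedSpan 𝕜 y →L[𝕜] Submodule.span 𝕜 {u} :=
    (P ∘L (closedSpan 𝕜 y).subtypeL).codRestrict _ (fun x => hPmem x x.2)
  let a : closedSpan 𝕜 y →L[𝕜] 𝕜 := (E.symm.toContinuousLinearEquiv : _ →L[𝕜] 𝕜) ∘L PY
  have ha : ∀ x, (a x) • u = P (x : X) := fun x => hEs (PY x)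
  have han : ∀ x, ‖a x‖ = ‖P (x : X)‖ := fun x => E.symm.norm_map (PY x)
  let Q : closedSpan 𝕜 y →L[𝕜] closedSpan 𝕜 (fun k => y (k + 1)) :=
    ((ContinuousLinearMap.id 𝕜 X - P) ∘L (closedSpan 𝕜 y).subtypeL).codRestrict _
      (fun x => hdiff x x.2)
  have hQ : ∀ x, ((Q x : closedSpan 𝕜 (fun k => y (k + 1))) : X) = (x : X) - P (x : X) :=
    fun x => rfl
  let f : closedSpan 𝕜 y →L[𝕜] 𝕜 × closedSpan 𝕜 (fun k => y (k + 1)) := a.prod Q
  let g₁ : 𝕜 × closedSpan 𝕜 (fun k => y (k + 1)) →L[𝕜] X :=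
    (ContinuousLinearMap.toSpanSingleton 𝕜 u) ∘L (ContinuousLinearMap.fst 𝕜 _ _) +
      (closedSpan 𝕜 (fun k => y (k + 1))).subtypeL ∘L (ContinuousLinearMap.snd 𝕜 _ _)
  have hg₁ : ∀ z, g₁ z = z.1 • u + (z.2 : X) := fun z => rfl
  let g : 𝕜 × closedSpan 𝕜 (fun k => y (k + 1)) →L[𝕜] closedSpan 𝕜 y :=
    g₁.codRestrict _ (fun z => by
      rw [hg₁]
      exact Submodule.add_mem _ (Submodule.smul_mem _ _ huY) (hsub z.2.2))
  have hg : ∀ z, ((g z : closedSpan 𝕜 y) : X) = z.1 • u + (z.2 : X) := fun z => rfl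
  have hgf : ∀ x, g (f x) = x := by
    intro x
    apply Subtype.ext
    rw [hg]
    change a x • u + ((Q x : closedSpan 𝕜 (fun k => y (k + 1))) : X) = x
    rw [ha, hQ]
    abel
  have hPg : ∀ z, P ((g z : closedSpan 𝕜 y) : X) = z.1 • u := by
    intro z
    rw [hg, map_add, map_smul, hPu, hker _ z.2.2, add_zero]
  have hu0 : u ≠ 0 := by
    intro hc
    rw [hc, norm_zero] at hu1
    exact zero_ne_one hu1
  have hfg : ∀ z, f (g z) = z := by
    intro z
    apply Prod.ext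
    · change a (g z) = z.1
      have h1 : (a (g z)) • u = z.1 • u := by rw [ha, hPg]
      exact smul_left_injective 𝕜 hu0 h1
    · apply Subtype.ext
      change ((Q (g z) : closedSpan 𝕜 (fun k => y (k + 1))) : X) = z.2
      rw [hQ, hPg, hg]
      abel
  have h1 : IsoB 𝕜 (K + 2) (closedSpan 𝕜 y) (𝕜 × closedSpan 𝕜 (fun k => y (k + 1))) := by
    refine ⟨ContinuousLinearEquiv.equivOfInverse f g hgf hfg, fun x => ?_, fun z => ?_⟩
    · change ‖f x‖ ≤ (K + 2) * ‖x‖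
      have hx0 : 0 ≤ ‖x‖ := norm_nonneg x
      have hPx : ‖P (x : X)‖ ≤ K * ‖x‖ := hPK x
      refine max_le ?_ ?_
      · change ‖a x‖ ≤ (K + 2) * ‖x‖
        rw [han]
        linarith
      · change ‖(x : X) - P (x : X)‖ ≤ (K + 2) * ‖x‖
        have h2 := norm_sub_le (x : X) (P (x : X))
        have h3 : ‖(x : X)‖ = ‖x‖ := rfl
        linarith
    · change ‖g z‖ ≤ (K + 2) * ‖z‖
      change ‖z.1 • u + (z.2 : X)‖ ≤ (K + 2) * ‖z‖
      have h2 : ‖z.1 • u‖ ≤ ‖z‖ := by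
        rw [norm_smul, hu1, mul_one]
        exact norm_fst_le z
      have h3 : ‖(z.2 : X)‖ ≤ ‖z‖ := norm_snd_le z
      have h4 := norm_add_le (z.1 • u) (z.2 : X)
      have h5 : 0 ≤ ‖z‖ := norm_nonneg z
      nlinarith
  have h2 : IsoB 𝕜 (max C 1) 𝕜 𝕜 := by
    have h3 : IsoB 𝕜 1 𝕜 𝕜 :=
      ⟨ContinuousLinearEquiv.refl 𝕜 𝕜, fun x => by simp, fun x => by simp⟩
    exact h3.mono (le_max_right _ _)
  have h3 := IsoB.prod h2 (h.mono (le_max_left C 1))
  have hm0 : (0 : ℝ) ≤ max C 1 := le_trans zero_le_one (le_max_right _ _)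
  exact IsoB.trans (by positivity) (by norm_num) (IsoB.trans (by linarith) hm0 h1 h3)
    exists_iso_line

/-- PROOF: induction on `N` with `iso_of_tail`. -/
theorem iso_of_tails {K : ℝ} (hK : ∀ n x, ‖b.proj n x‖ ≤ K * ‖x‖) (hK0 : 0 ≤ K) (N : ℕ) (C : ℝ) :
    ∃ C' : ℝ, ∀ y : ℕ → X, IsBlock b y →
      IsoB 𝕜 C (closedSpan 𝕜 (fun k => y (k + N))) (S 𝕜 p 𝕜) →
        IsoB 𝕜 C' (closedSpan 𝕜 y) (S 𝕜 p 𝕜) := by
  induction N generalizing C with
  | zero => exact ⟨C, fun y _ h => h⟩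
  | succ N ih =>
    obtain ⟨C', hC'⟩ := ih ((K + 2) * (max C 1) * 2)
    refine ⟨C', fun y hy h => hC' y hy ?_⟩
    apply iso_of_tail hK hK0 (fun k => y (k + N)) (hy.shift N)
    have h1 : (fun k => y (k + (N + 1))) = fun k => (fun j => y (j + N)) (k + 1) := by
      funext k
      change y (k + (N + 1)) = y (k + 1 + N)
      congr 1
      omega
    rw [h1] at h
    exact h

end Pool.Agent.Lib.MP_a0554b_an
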