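import Mathlib
import Pool.Agent.Lib.MP_a0554b_an.E1
import Pool.Agent.Lib.MP_a0554b_an.C2

set_option autoImplicit false

/-!
# A space with a basis which contains `ℓ_p` (or `c_0`) has a block subspace isomorphic to it
-/

noncomputable section

namespace Pool.Agent.Lib.MP_a0554b_an

open Filter Topology
open scoped ENNReal

universe u v w

variable {𝕜 : Type v} [RCLike 𝕜] {p : ℝ≥0∞} [Fact (1 ≤ p)] {X : Type u}
  [NormedAddCommGroup X] [NormedSpace 𝕜 X]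

theorem J1_coord_proj (b : SchauderBasis 𝕜 X) (i n : ℕ) (z : X) :
    b.coord i (b.proj n z) = if i < n then b.coord i z else 0 := by
  rw [SchauderBasis.proj_apply, map_sum]
  have h : ∀ k ∈ Finset.range n, b.coord i (b.coord k z • b k)
      = if i = k then b.coord k z else 0 := by
    intro k _
    rw [map_smul, b.ortho]
    by_cases hik : i = k
    · subst hik
      simp
    · simp [hik]
  rw [Finset.sum_congr rfl h, Finset.sum_ite_eq]
  simp only [Finset.mem_range]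

/-- PROOF. The linear map `x ↦ ((ev k x)_{k < m}, (b.coord i (T x))_{i < n})` from the infinite
dimensional space `S 𝕜 p 𝕜` to a finite dimensional one is not injective. -/
theorem exists_unit_both (b : SchauderBasis 𝕜 X) (T : S 𝕜 p 𝕜 →L[𝕜] X) (m n : ℕ) :
    ∃ x : S 𝕜 p 𝕜, ‖x‖ = 1 ∧ tr (Set.Iio m) x = 0 ∧ b.proj n (T x) = 0 := by
  classical
  -- a finite dimensional space of sequences
  let φ : (Fin (m + n + 1) → 𝕜) →ₗ[𝕜] S 𝕜 p 𝕜 :=
    ∑ i : Fin (m + n + 1), ((sgl (i : ℕ) : 𝕜 →L[𝕜] S 𝕜 p 𝕜) : 𝕜 →ₗ[𝕜] S 𝕜 p 𝕜) ∘ₗ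
      LinearMap.proj i
  have hφ : ∀ a, φ a = ∑ i : Fin (m + n + 1), sgl (i : ℕ) (a i) := by
    intro a
    simp only [φ, LinearMap.sum_apply, LinearMap.comp_apply, LinearMap.proj_apply]
    rfl
  have hev : ∀ (a : Fin (m + n + 1) → 𝕜) (i : Fin (m + n + 1)), ev (i : ℕ) (φ a) = a i := by
    intro a i
    rw [hφ, map_sum]
    rw [Finset.sum_eq_single i]
    · rw [ev_sgl, if_pos rfl]
    · intro j _ hj
      rw [ev_sgl, if_neg (fun h => hj (Fin.ext h.symm))]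
    · intro h
      exact absurd (Finset.mem_univ i) h
  let L : S 𝕜 p 𝕜 →ₗ[𝕜] (Fin m → 𝕜) × (Fin n → 𝕜) :=
    LinearMap.prod (LinearMap.pi fun k : Fin m => ((ev (k : ℕ) : S 𝕜 p 𝕜 →L[𝕜] 𝕜) :
        S 𝕜 p 𝕜 →ₗ[𝕜] 𝕜))
      (LinearMap.pi fun i : Fin n => ((b.coord (i : ℕ) ∘L T : S 𝕜 p 𝕜 →L[𝕜] 𝕜) :
        S 𝕜 p 𝕜 →ₗ[𝕜] 𝕜))
  have hker : LinearMap.ker (L ∘ₗ φ) ≠ ⊥ := by
    apply LinearMap.ker_ne_bot_of_finrank_lt
    simp only [Module.finrank_prod, Module.finrank_fin_fun]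
    omega
  obtain ⟨a, ha, ha0⟩ := Submodule.exists_mem_ne_zero_of_ne_bot hker
  rw [LinearMap.mem_ker, LinearMap.comp_apply] at ha
  have hx0 : φ a ≠ 0 := by
    intro h
    apply ha0
    ext i
    have h1 := hev a i
    rw [h, map_zero] at h1
    rw [← h1]
    rfl
  have h1 : ∀ k, k < m → ev k (φ a) = 0 := by
    intro k hk
    exact congrFun (congrArg Prod.fst ha) ⟨k, hk⟩
  have h2 : ∀ i, i < n → b.coord i (T (φ a)) = 0 := by
    intro i hi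
    exact congrFun (congrArg Prod.snd ha) ⟨i, hi⟩
  have hn : ‖φ a‖ ≠ 0 := norm_ne_zero_iff.2 hx0
  refine ⟨((‖φ a‖⁻¹ : ℝ) : 𝕜) • φ a, ?_, ?_, ?_⟩
  · rw [norm_smul, RCLike.norm_ofReal, abs_of_nonneg (inv_nonneg.2 (norm_nonneg _)),
      inv_mul_cancel₀ hn]
  · rw [map_smul]
    have h3 : tr (Set.Iio m) (φ a) = 0 := by
      apply S_ext
      intro k
      rw [ev_tr, map_zero]
      split_ifs with hk
      · exact h1 k hk
      · rfl
    rw [h3, smul_zero]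
  · rw [map_smul, map_smul]
    have h3 : b.proj n (T (φ a)) = 0 := by
      rw [SchauderBasis.proj_apply]
      exact Finset.sum_eq_zero fun i hi => by
        rw [h2 i (Finset.mem_range.1 hi), zero_smul]
    rw [h3, smul_zero]

/-- the recursive choice -/
theorem J1_choice (b : SchauderBasis 𝕜 X) (T : S 𝕜 p 𝕜 →L[𝕜] X) {c : ℝ} (hc : 0 < c)
    (hT : ∀ x, c * ‖x‖ ≤ ‖T x‖) :
    ∃ (m n : ℕ → ℕ) (x : ℕ → S 𝕜 p 𝕜) (y : ℕ → X), StrictMono m ∧ (∀ j, ‖x j‖ = 1) ∧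
      (∀ j, tr (Set.Iio (m j)) (x j) = 0) ∧
      (∀ j, ‖x j - tr (Set.Iio (m (j + 1))) (x j)‖ ≤ (1 / 2) ^ (j + 5)) ∧
      (∀ j, ‖T (x j) - y j‖ ≤ (c / 4) * (1 / 2) ^ (j + 4)) ∧ IsCut b y n ∧ ∀ j, y j ≠ 0 := by
  choose X1 hX1 hX2 hX3 using exists_unit_both b T
  have hM : ∀ j m n : ℕ, ∃ m' : ℕ, m < m' ∧
      ‖X1 m n - tr (Set.Iio m') (X1 m n)‖ ≤ (1 / 2) ^ (j + 5) := by
    intro j m n
    have h1 := (Metric.tendsto_atTop.1 (tendsto_tr (X1 m n))) ((1 / 2) ^ (j + 5)) (by positivity)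
    obtain ⟨N, hN⟩ := h1
    refine ⟨max N (m + 1), by omega, ?_⟩
    have h2 := hN (max N (m + 1)) (le_max_left _ _)
    rw [dist_comm, dist_eq_norm] at h2
    exact h2.le
  have hN : ∀ j m n : ℕ, ∃ n' : ℕ, n < n' ∧
      ‖T (X1 m n) - b.proj n' (T (X1 m n))‖ ≤ (c / 4) * (1 / 2) ^ (j + 4) := by
    intro j m n
    have h1 := (Metric.tendsto_atTop.1 (b.tendsto_proj (T (X1 m n))))
      ((c / 4) * (1 / 2) ^ (j + 4)) (by positivity)
    obtain ⟨N, hN⟩ := h1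
    refine ⟨max N (n + 1), by omega, ?_⟩
    have h2 := hN (max N (n + 1)) (le_max_left _ _)
    rw [dist_comm, dist_eq_norm] at h2
    exact h2.le
  choose M hM1 hM2 using hM
  choose N hN1 hN2 using hN
  obtain ⟨st, hst0, hst⟩ : ∃ st : ℕ → ℕ × ℕ, st 0 = (0, 0) ∧
      ∀ j, st (j + 1) = (M j (st j).1 (st j).2, N j (st j).1 (st j).2) :=
    ⟨fun j => Nat.rec (0, 0) (fun j q => (M j q.1 q.2, N j q.1 q.2)) j, rfl, fun j => rfl⟩
  obtain ⟨m, hm⟩ : ∃ m : ℕ → ℕ, ∀ j, m j = (st j).1 := ⟨fun j => (st j).1, fun _ => rfl⟩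
  obtain ⟨n, hn⟩ : ∃ n : ℕ → ℕ, ∀ j, n j = (st j).2 := ⟨fun j => (st j).2, fun _ => rfl⟩
  obtain ⟨x, hx⟩ : ∃ x : ℕ → S 𝕜 p 𝕜, ∀ j, x j = X1 (m j) (n j) :=
    ⟨fun j => X1 (m j) (n j), fun _ => rfl⟩
  have hmS : ∀ j, m (j + 1) = M j (m j) (n j) := fun j => by rw [hm, hst, hm, hn]
  have hnS : ∀ j, n (j + 1) = N j (m j) (n j) := fun j => by rw [hn, hst, hm, hn]
  have hmono : StrictMono m := strictMono_nat_of_lt_succ fun j => by rw [hmS]; exact hM1 _ _ _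
  have hnmono : StrictMono n := strictMono_nat_of_lt_succ fun j => by rw [hnS]; exact hN1 _ _ _
  have hx1 : ∀ j, ‖x j‖ = 1 := fun j => by rw [hx]; exact hX1 _ _
  have hx2 : ∀ j, tr (Set.Iio (m j)) (x j) = 0 := fun j => by rw [hx]; exact hX2 _ _
  have hx3 : ∀ j, ‖x j - tr (Set.Iio (m (j + 1))) (x j)‖ ≤ (1 / 2) ^ (j + 5) := fun j => by
    rw [hx, hmS]; exact hM2 _ _ _
  have hx4 : ∀ j, b.proj (n j) (T (x j)) = 0 := fun j => by rw [hx]; exact hX3 _ _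
  have hx5 : ∀ j, ‖T (x j) - b.proj (n (j + 1)) (T (x j))‖ ≤ (c / 4) * (1 / 2) ^ (j + 4) :=
    fun j => by rw [hx, hnS]; exact hN2 _ _ _
  refine ⟨m, n, x, fun j => b.proj (n (j + 1)) (T (x j)), hmono, hx1, hx2, hx3, hx5, ?_, ?_⟩
  · refine ⟨hnmono, by rw [hn, hst0], fun k i hi => ?_⟩
    rw [J1_coord_proj] at hi
    have h1 : i < n (k + 1) := by
      by_contra hlt
      exact hi (if_neg hlt)
    refine ⟨?_, h1⟩
    by_contra hlt
    rw [not_le] at hlt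
    apply hi
    rw [if_pos h1]
    have h2 := J1_coord_proj b i (n k) (T (x k))
    rw [if_pos hlt, hx4, map_zero] at h2
    exact h2.symm
  · intro j h0
    have h1 := hT (x j)
    rw [hx1, mul_one] at h1
    have h2 := hx5 j
    have h0' : b.proj (n (j + 1)) (T (x j)) = 0 := h0
    rw [h0', sub_zero] at h2
    have h3 : (1 / 2 : ℝ) ^ (j + 4) ≤ 1 := pow_le_one₀ (by norm_num) (by norm_num)
    have h4 : (c / 4) * (1 / 2 : ℝ) ^ (j + 4) ≤ c / 4 := by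
      have := mul_le_mul_of_nonneg_left h3 (show (0 : ℝ) ≤ c / 4 by positivity)
      rwa [mul_one] at this
    linarith

theorem J1_geo (c : ℝ) :
    HasSum (fun j : ℕ => (c / 4) * (1 / 2 : ℝ) ^ (j + 4)) (c / 32) := by
  have h1 := (hasSum_geometric_two).mul_left ((c / 4) * (1 / 2) ^ 4)
  have h3 : (c / 4) * (1 / 2 : ℝ) ^ 4 * 2 = c / 32 := by ring
  rw [h3] at h1
  have h4 : (fun j : ℕ => (c / 4) * (1 / 2 : ℝ) ^ (j + 4))
      = fun j : ℕ => (c / 4) * (1 / 2 : ℝ) ^ 4 * (1 / 2) ^ j := by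
    funext j
    rw [pow_add]
    ring
  rw [h4]
  exact h1

/-- the correction operator -/
theorem J1_corr {Y : Type*} [NormedAddCommGroup Y] [NormedSpace 𝕜 Y] [CompleteSpace X]
    (f : ℕ → Y →L[𝕜] 𝕜) (hf : ∀ j z, ‖f j z‖ ≤ ‖z‖) (w : ℕ → X) {c : ℝ}
    (hw : ∀ j, ‖w j‖ ≤ (c / 4) * (1 / 2) ^ (j + 4)) :
    ∃ D : Y →L[𝕜] X, ‖D‖ ≤ c / 32 ∧
      ∀ z, Tendsto (fun k => ∑ j ∈ Finset.range k, f j z • w j) atTop (𝓝 (D z)) := by
  have hsw : ∀ j, ‖(f j).smulRight (w j)‖ ≤ (c / 4) * (1 / 2) ^ (j + 4) := by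
    intro j
    refine ContinuousLinearMap.opNorm_le_bound _ ((norm_nonneg _).trans (hw j)) fun z => ?_
    rw [ContinuousLinearMap.smulRight_apply, norm_smul, mul_comm]
    exact mul_le_mul (hw j) (hf j z) (norm_nonneg _) ((norm_nonneg _).trans (hw j))
  have hsumm : Summable (fun j => (f j).smulRight (w j)) :=
    Summable.of_norm_bounded (J1_geo c).summable hsw
  obtain ⟨D, hD⟩ := hsumm
  refine ⟨D, ?_, fun z => ?_⟩
  · rw [← hD.tsum_eq]
    exact tsum_of_norm_bounded (J1_geo c) hsw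
  · have h1 := hD.tendsto_sum_nat
    have h2 := ((ContinuousLinearMap.apply 𝕜 X z).continuous.tendsto D).comp h1
    refine h2.congr fun k => ?_
    simp only [Function.comp_apply, ContinuousLinearMap.apply_apply]
    rw [sum_apply]
    rfl

/-- an operator which is bounded below, with range dense in the closed span -/
theorem J1_equiv [CompleteSpace X] (y : ℕ → X) (G : S 𝕜 p 𝕜 →L[𝕜] X) {K : ℝ} (hK : 0 ≤ K)
    (hGlow : ∀ z, ‖z‖ ≤ K * ‖G z‖)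
    (hGlim : ∀ z, Tendsto (fun k => ∑ j ∈ Finset.range k, ev j z • y j) atTop (𝓝 (G z))) :
    Nonempty (closedSpan 𝕜 y ≃L[𝕜] S 𝕜 p 𝕜) := by
  have hanti : AntilipschitzWith (Real.toNNReal K) G := by
    refine ContinuousLinearMap.antilipschitz_of_bound G fun z => ?_
    rw [Real.coe_toNNReal _ hK]
    exact hGlow z
  have hclosed : IsClosed (Set.range G) := hanti.isClosed_range G.uniformContinuous
  have hle : ∀ z, G z ∈ closedSpan 𝕜 y := by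
    intro z
    refine (closedSpan_isClosed y).mem_of_tendsto (hGlim z) (Eventually.of_forall fun k => ?_)
    refine Submodule.sum_mem _ fun j _ => Submodule.smul_mem _ _ ?_
    exact (Submodule.le_topologicalClosure _) (Submodule.subset_span ⟨j, rfl⟩)
  have hyG : ∀ j, G (sgl j 1) = y j := by
    intro j
    refine tendsto_nhds_unique (hGlim (sgl j 1)) ?_
    refine tendsto_const_nhds.congr' ?_
    filter_upwards [eventually_gt_atTop j] with k hk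
    rw [Finset.sum_eq_single_of_mem j (Finset.mem_range.2 hk)]
    · rw [ev_sgl, if_pos rfl, one_smul]
    · intro i _ hij
      rw [ev_sgl, if_neg hij, zero_smul]
  have hge : closedSpan 𝕜 y ≤ LinearMap.range (G : S 𝕜 p 𝕜 →ₗ[𝕜] X) := by
    refine Submodule.topologicalClosure_minimal _ ?_ hclosed
    rw [Submodule.span_le]
    rintro _ ⟨j, rfl⟩
    exact ⟨sgl j 1, hyG j⟩
  obtain ⟨H, hH⟩ : ∃ H : S 𝕜 p 𝕜 →L[𝕜] closedSpan 𝕜 y, ∀ z, ((H z : closedSpan 𝕜 y) : X) = G z :=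
    ⟨G.codRestrict (closedSpan 𝕜 y) hle, fun z => rfl⟩
  have hker : LinearMap.ker (H : S 𝕜 p 𝕜 →ₗ[𝕜] closedSpan 𝕜 y) = ⊥ := by
    rw [LinearMap.ker_eq_bot']
    intro z hz
    have h1 : G z = 0 := by
      rw [← hH]
      have : H z = 0 := hz
      rw [this]
      rfl
    have h2 := hGlow z
    rw [h1, norm_zero, mul_zero] at h2
    exact norm_le_zero_iff.1 h2
  have hrange : LinearMap.range (H : S 𝕜 p 𝕜 →ₗ[𝕜] closedSpan 𝕜 y) = ⊤ := by
    rw [LinearMap.range_eq_top]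
    rintro ⟨u, hu⟩
    obtain ⟨z, hz⟩ := hge hu
    refine ⟨z, Subtype.ext ?_⟩
    exact (hH z).trans hz
  exact ⟨(ContinuousLinearEquiv.ofBijective H hker hrange).symm⟩

/-- PROOF. `c ‖x‖ ≤ ‖T x‖`. Choose recursively `m 0 = n 0 = 0`, `x j` by `exists_unit_both` for
`m j`, `n j`, then `m (j + 1) > m j` with `‖x j - tr (Iio (m (j+1))) (x j)‖ ≤ (1/2)^(j+5)` and
`n (j + 1) > n j` with `‖T (x j) - b.proj (n (j+1)) (T (x j))‖ ≤ (c / 4) * (1/2)^(j+4)`.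
Let `y j = b.proj (n (j+1)) (T (x j))`; coordinates in `[n j, n (j+1))`; `‖y j‖ ≥ c / 2`, so
`y j ≠ 0`: `IsBlock b y` (`IsCut.isBlock` with `e = n`). `γ`, `δ` from `spread` for `g = x`;
`‖γ z‖ ≥ ‖z‖ / 4`. `G z = T (γ z) - ∑_j ev j z • (T (x j) - y j)` (absolutely convergent, `X`
complete, norm of the sum `≤ (c/4) * (1/8) ‖z‖`): `G` is a bounded operator `S 𝕜 p 𝕜 → X`,
`‖G z‖ ≥ (c/4) ‖z‖ - (c/32) ‖z‖ ≥ (c/8) ‖z‖`, and `G z = lim ∑_{j < n} ev j z • y j`. So the range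
of `G` is closed (complete), is contained in `closedSpan y` and contains all `y j = G (sgl j 1)`,
hence is `closedSpan y`. `G : S 𝕜 p 𝕜 ≃ closedSpan y`
(`ContinuousLinearEquiv.ofBijective`, or `LinearEquiv` with bounds). -/
theorem exists_block_copy [CompleteSpace X] (b : SchauderBasis 𝕜 X)
    (h : Contains 𝕜 (S 𝕜 p 𝕜) X) :
    ∃ y, IsBlock b y ∧ Nonempty (closedSpan 𝕜 y ≃L[𝕜] S 𝕜 p 𝕜) := by
  obtain ⟨T, c, hc, hT⟩ := h
  obtain ⟨m, n, x, y, hmono, hx1, hx2, hx3, hwn, hcut, hy0⟩ := J1_choice b T hc hT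
  refine ⟨y, hcut.isBlock hy0, ?_⟩
  obtain ⟨γ, δ, hγ1, hδγ, hγ2, hδ⟩ := spread x m hmono hx1 hx2 hx3
  obtain ⟨D, hDn, hDz⟩ := J1_corr (fun j => (ev j : S 𝕜 p 𝕜 →L[𝕜] 𝕜))
    (fun j z => norm_ev_le j z) (fun j => T (x j) - y j) hwn
  obtain ⟨G, hG⟩ : ∃ G : S 𝕜 p 𝕜 →L[𝕜] X, ∀ z, G z = T (γ z) - D z :=
    ⟨T ∘L γ - D, fun z => rfl⟩
  have hGlim : ∀ z, Tendsto (fun k => ∑ j ∈ Finset.range k, ev j z • y j) atTop (𝓝 (G z)) := by
    intro z
    rw [hG]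
    have h1 := ((T.continuous.tendsto (γ z)).comp (hγ1 z)).sub (hDz z)
    refine h1.congr fun k => ?_
    simp only [Function.comp_apply]
    rw [map_sum, ← Finset.sum_sub_distrib]
    refine Finset.sum_congr rfl fun j _ => ?_
    rw [map_smul, ← smul_sub, sub_sub_cancel]
  have hGlow : ∀ z, ‖z‖ ≤ (8 / c) * ‖G z‖ := by
    intro z
    have h1 : ‖z‖ ≤ 4 * ‖γ z‖ := by
      have := hδ (γ z)
      rwa [hδγ] at this
    have h2 := hT (γ z)
    have h3 : ‖D z‖ ≤ c / 32 * ‖z‖ := (D.le_opNorm z).trans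
      (mul_le_mul_of_nonneg_right hDn (norm_nonneg z))
    have h4 : ‖T (γ z)‖ ≤ ‖G z‖ + ‖D z‖ := by
      have : T (γ z) = G z + D z := by rw [hG, sub_add_cancel]
      rw [this]
      exact norm_add_le _ _
    have h5 : c * ‖z‖ ≤ 8 * ‖G z‖ := by nlinarith [norm_nonneg z]
    rw [div_mul_eq_mul_div, le_div_iff₀ hc]
    linarith
  exact J1_equiv y G (by positivity) hGlow hGlim

theorem iso_of_contains [CompleteSpace X] (b : SchauderBasis 𝕜 X) (hb : BlockHomogeneous b)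
    (h : Contains 𝕜 (S 𝕜 p 𝕜) X) : Nonempty (X ≃L[𝕜] S 𝕜 p 𝕜) := by
  obtain ⟨y, hy, ⟨T⟩⟩ := exists_block_copy b h
  obtain ⟨T'⟩ := hb y hy
  exact ⟨T'.symm.trans T⟩

end Pool.Agent.Lib.MP_a0554b_an
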