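import Mathlib
import Pool.Agent.Lib.MP_a0554b_an.E1
import Pool.Agent.Lib.MP_a0554b_an.B1

set_option autoImplicit false

/-!
# Transport of a Schauder basis along an isomorphism
-/

noncomputable section

namespace Pool.Agent.Lib.MP_a0554b_an

open Filter Topology
open scoped ENNReal

universe u v w

variable {𝕜 : Type v} [RCLike 𝕜] {X : Type u} [NormedAddCommGroup X] [NormedSpace 𝕜 X]
  {Z : Type w} [NormedAddCommGroup Z] [NormedSpace 𝕜 Z]

/-- the image of a Schauder basis under an isomorphism -/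
theorem exists_map (b : SchauderBasis 𝕜 X) (τ : X ≃L[𝕜] Z) :
    ∃ b' : SchauderBasis 𝕜 Z, (∀ n, b' n = τ (b n)) ∧ ∀ n z, b'.coord n z = b.coord n (τ.symm z) := by
  refine ⟨{ basis := fun n => τ (b n)
            coord := fun n => (b.coord n) ∘L (τ.symm : Z →L[𝕜] X)
            ortho := fun i j => by simpa using b.ortho i j
            expansion := fun z => ?_ }, fun n => rfl, fun n z => rfl⟩
  have h := (b.expansion (τ.symm z)).mapL (τ : X →L[𝕜] Z)
  simpa using h

/-- PROOF: `IsBlock b' y ↔ IsBlock b (τ.symm ∘ y)`, and `τ` restricts to an isomorphism of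
`closedSpan (τ.symm ∘ y)` onto `closedSpan y` (`Submodule.map_span`,
`Submodule.topologicalClosure_map`, or `ContinuousLinearEquiv.submoduleMap`), with the bounds
of `τ`, `τ.symm`. -/
theorem closedSpan_map (τ : X ≃L[𝕜] Z) {M : ℝ} (h1 : ∀ x, ‖τ x‖ ≤ M * ‖x‖)
    (h2 : ∀ z, ‖τ.symm z‖ ≤ M * ‖z‖) (y : ℕ → Z) :
    IsoB 𝕜 M (closedSpan 𝕜 (fun k => τ.symm (y k))) (closedSpan 𝕜 y) := by
  have key : Submodule.map (τ : X →ₗ[𝕜] Z) (closedSpan 𝕜 (fun k => τ.symm (y k))) =
      closedSpan 𝕜 y := by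
    apply SetLike.coe_injective
    rw [Submodule.map_coe]
    unfold closedSpan
    rw [Submodule.topologicalClosure_coe, Submodule.topologicalClosure_coe]
    have e1 : (fun x => (τ : X →ₗ[𝕜] Z) x) '' closure
        ((Submodule.span 𝕜 (Set.range fun k => τ.symm (y k)) : Submodule 𝕜 X) : Set X) =
        closure ((fun x => (τ : X →ₗ[𝕜] Z) x) ''
          ((Submodule.span 𝕜 (Set.range fun k => τ.symm (y k)) : Submodule 𝕜 X) : Set X)) :=
      τ.toHomeomorph.image_closure _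
    have e2 : (fun x => (τ : X →ₗ[𝕜] Z) x) ''
          ((Submodule.span 𝕜 (Set.range fun k => τ.symm (y k)) : Submodule 𝕜 X) : Set X) =
        ((Submodule.span 𝕜 (Set.range y) : Submodule 𝕜 Z) : Set Z) := by
      have h3 := Submodule.map_span (τ : X →ₗ[𝕜] Z) (Set.range fun k => τ.symm (y k))
      have h4 : (fun x => (τ : X →ₗ[𝕜] Z) x) '' (Set.range fun k => τ.symm (y k)) = Set.range y := by
        rw [← Set.range_comp]
        congr 1
        funext k
        exact τ.apply_symm_apply (y k)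
      have h5 := congrArg (fun S : Submodule 𝕜 Z => (S : Set Z)) h3
      simp only [Submodule.map_coe] at h5
      rw [← h4]
      exact h5
    exact e1.trans (congrArg closure e2)
  have main : IsoB 𝕜 M (closedSpan 𝕜 (fun k => τ.symm (y k)))
      (Submodule.map (τ : X →ₗ[𝕜] Z) (closedSpan 𝕜 (fun k => τ.symm (y k)))) := by
    refine ⟨τ.submoduleMap _, fun x => ?_, fun z => ?_⟩
    · exact h1 x
    · obtain ⟨x, rfl⟩ := (τ.submoduleMap (closedSpan 𝕜 (fun k => τ.symm (y k)))).surjective z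
      rw [ContinuousLinearEquiv.symm_apply_apply]
      have h3 := h2 (τ x)
      rw [ContinuousLinearEquiv.symm_apply_apply] at h3
      exact h3
  rw [key] at main
  exact main

theorem K1_isBlock (b : SchauderBasis 𝕜 X) (τ : X ≃L[𝕜] Z) (b' : SchauderBasis 𝕜 Z)
    (hb' : ∀ n z, b'.coord n z = b.coord n (τ.symm z)) {y : ℕ → Z} (hy : IsBlock b' y) :
    IsBlock b (fun k => τ.symm (y k)) where
  ne_zero := fun k h => hy.ne_zero k ((map_eq_zero_iff τ.symm τ.symm.injective).1 h)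
  finite := fun k => by
    have h := hy.finite k
    simp only [hb'] at h
    exact h
  lt := fun k m n h1 h2 => hy.lt k m n (by rw [hb']; exact h1) (by rw [hb']; exact h2)

theorem blockHomogeneous_map (b : SchauderBasis 𝕜 X) (τ : X ≃L[𝕜] Z) (b' : SchauderBasis 𝕜 Z)
    (hb' : ∀ n z, b'.coord n z = b.coord n (τ.symm z)) (hb : BlockHomogeneous b) :
    BlockHomogeneous b' := by
  intro y hy
  obtain ⟨e⟩ := hb _ (K1_isBlock b τ b' hb' hy)
  obtain ⟨f, _, _⟩ := closedSpan_map τ (M := max ‖(τ : X →L[𝕜] Z)‖ ‖(τ.symm : Z →L[𝕜] X)‖)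
    (fun x => ((τ : X →L[𝕜] Z).le_opNorm x).trans (by gcongr; exact le_max_left _ _))
    (fun z => ((τ.symm : Z →L[𝕜] X).le_opNorm z).trans (by gcongr; exact le_max_right _ _)) y
  exact ⟨(f.symm.trans e).trans τ⟩

theorem blockHomogeneousWith_map (b : SchauderBasis 𝕜 X) (τ : X ≃L[𝕜] Z) (b' : SchauderBasis 𝕜 Z)
    (hb' : ∀ n z, b'.coord n z = b.coord n (τ.symm z)) {C : ℝ}
    (h : ∀ y, IsBlock b' y → IsoB 𝕜 C (closedSpan 𝕜 y) Z) :
    ∃ C' : ℝ, BlockHomogeneousWith b C' := by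
  set M := max ‖(τ : X →L[𝕜] Z)‖ ‖(τ.symm : Z →L[𝕜] X)‖ with hM
  have hM0 : 0 ≤ M := (norm_nonneg _).trans (le_max_left _ _)
  have h1 : ∀ x, ‖τ x‖ ≤ M * ‖x‖ := fun x =>
    ((τ : X →L[𝕜] Z).le_opNorm x).trans (by gcongr; exact le_max_left _ _)
  have h2 : ∀ z, ‖τ.symm z‖ ≤ M * ‖z‖ := fun z =>
    ((τ.symm : Z →L[𝕜] X).le_opNorm z).trans (by gcongr; exact le_max_right _ _)
  have hC0 : 0 ≤ max C 0 := le_max_right _ _
  refine ⟨M * max C 0 * M * (M * max C 0 * M), ?_⟩
  intro y hy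
  have hb : ∀ n x, b.coord n x = b'.coord n (τ.symm.symm x) := by
    intro n x
    rw [hb', ContinuousLinearEquiv.symm_symm, ContinuousLinearEquiv.symm_apply_apply]
  have hy' : IsBlock b' (fun k => τ (y k)) := K1_isBlock b' τ.symm b hb hy
  have e1 : IsoB 𝕜 M (closedSpan 𝕜 y) (closedSpan 𝕜 (fun k => τ (y k))) := by
    have h3 := closedSpan_map τ h1 h2 (fun k => τ (y k))
    have h4 : (fun k => τ.symm ((fun k => τ (y k)) k)) = y :=
      funext fun k => τ.symm_apply_apply (y k)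
    rw [h4] at h3
    exact h3
  have e2 : IsoB 𝕜 (max C 0) (closedSpan 𝕜 (fun k => τ (y k))) Z :=
    (h _ hy').mono (le_max_left _ _)
  have e3 : IsoB 𝕜 M Z X := ⟨τ.symm, h2, fun x => by simpa using h1 x⟩
  have e4 := (e1.trans hM0 hC0 e2).trans (mul_nonneg hM0 hC0) hM0 e3
  exact e4.toIsoC (mul_nonneg (mul_nonneg hM0 hC0) hM0)

end Pool.Agent.Lib.MP_a0554b_an
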