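import Mathlib
import Pool.Agent.Lib.MP_a0554b_an.E1

set_option autoImplicit false

/-!
# `ℓ_1`: the system of a block subspace
-/

noncomputable section

namespace Pool.Agent.Lib.MP_a0554b_an

open Filter Topology
open scoped ENNReal

universe u v w

variable {𝕜 : Type v} [RCLike 𝕜]

/-- finite defect of bounded completeness: after subtracting a linear combination of `m` fixed
sequences, every series with bounded partial sums becomes convergent (`m = 0` is bounded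
completeness) -/
def BoundedlyCompleteUpTo {X : Type u} [NormedAddCommGroup X] [NormedSpace 𝕜 X]
    (b : SchauderBasis 𝕜 X) (m : ℕ) : Prop :=
  ∃ s : Fin m → ℕ → 𝕜, ∀ a : ℕ → 𝕜, (∃ M : ℝ, ∀ n, ‖∑ i ∈ Finset.range n, a i • b i‖ ≤ M) →
    ∃ (c : Fin m → 𝕜) (x : X),
      Tendsto (fun n => ∑ i ∈ Finset.range n, (a i - ∑ j, c j * s j i) • b i) atTop (𝓝 x)

/-- A space `Y` with commuting finite rank projections `P n → id` of norm at most `K`, such that
the `P n` factor through `L` (`ℓ_1` in the application) with constants `K`, `C`. -/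
structure Sys0 {Y : Type u} [NormedAddCommGroup Y] [NormedSpace 𝕜 Y] {L : Type w}
    [NormedAddCommGroup L] [NormedSpace 𝕜 L] (K C : ℝ)
    (P : ℕ → Y →L[𝕜] Y) (a : ℕ → Y →L[𝕜] L) (r : ℕ → L →L[𝕜] Y) : Prop where
  one_le : 1 ≤ K
  C_nonneg : 0 ≤ C
  P_norm : ∀ n y, ‖P n y‖ ≤ K * ‖y‖
  P_P : ∀ m n y, P m (P n y) = P (min m n) y
  fin : ∀ n, FiniteDimensional 𝕜 (LinearMap.range (P n : Y →ₗ[𝕜] Y))
  lim : ∀ y, Tendsto (fun n => P n y) atTop (𝓝 y)
  a_norm : ∀ n y, ‖a n y‖ ≤ K * ‖y‖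
  r_norm : ∀ n x, ‖r n x‖ ≤ C * ‖x‖
  r_a : ∀ n y, r n (a n y) = P n y
  P_r : ∀ n x, P n (r n x) = r n x

/-- The same with `lim` replaced by completeness for bounded coherent sequences: this holds in the
bounded completion. -/
structure Sys {Y : Type u} [NormedAddCommGroup Y] [NormedSpace 𝕜 Y] {L : Type w}
    [NormedAddCommGroup L] [NormedSpace 𝕜 L] (K C : ℝ)
    (P : ℕ → Y →L[𝕜] Y) (a : ℕ → Y →L[𝕜] L) (r : ℕ → L →L[𝕜] Y) : Prop where
  one_le : 1 ≤ K
  C_nonneg : 0 ≤ C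
  P_norm : ∀ n y, ‖P n y‖ ≤ K * ‖y‖
  P_P : ∀ m n y, P m (P n y) = P (min m n) y
  fin : ∀ n, FiniteDimensional 𝕜 (LinearMap.range (P n : Y →ₗ[𝕜] Y))
  norm_le : ∀ y (M : ℝ), (∀ n, ‖P n y‖ ≤ M) → ‖y‖ ≤ M
  complete : ∀ z : ℕ → Y, (∀ n, P n (z (n + 1)) = z n) → (∃ M : ℝ, ∀ n, ‖z n‖ ≤ M) →
    ∃ y, ∀ n, P n y = z n
  a_norm : ∀ n y, ‖a n y‖ ≤ K * ‖y‖
  r_norm : ∀ n x, ‖r n x‖ ≤ C * ‖x‖
  r_a : ∀ n y, r n (a n y) = P n y
  P_r : ∀ n x, P n (r n x) = r n x

theorem L0_coord_proj {X : Type u} [NormedAddCommGroup X] [NormedSpace 𝕜 X]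
    (b : SchauderBasis 𝕜 X) (N i : ℕ) (h : i < N) (w : X) :
    b.coord i (b.proj N w) = b.coord i w := by
  have ho : ∀ j, b.coord i (b j) = if i = j then 1 else 0 := fun j => by
    rw [b.ortho]
    simp only [Pi.single_apply]
    split_ifs <;> rfl
  rw [SchauderBasis.proj_apply, map_sum]
  rw [Finset.sum_eq_single i]
  · rw [map_smul, ho, if_pos rfl, smul_eq_mul, mul_one]
  · intro j _ hj
    rw [map_smul, ho, if_neg (Ne.symm hj), smul_zero]
  · intro hi
    exact absurd (Finset.mem_range.2 h) hi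

theorem L0_proj_eq {X : Type u} [NormedAddCommGroup X] [NormedSpace 𝕜 X]
    {b : SchauderBasis 𝕜 X} {y : ℕ → X} {e : ℕ → ℕ} (he : IsCut b y e) (n : ℕ) {x : X}
    (hx : x ∈ Submodule.span 𝕜 (y '' Set.Iio n)) : b.proj (e n) x = x := by
  have h0 : Set.Ico 0 n = Set.Iio n := by ext i; simp
  have h := he.proj_sub_eq (k := 0) (l := n) (Nat.zero_le n) (x := x) (by rw [h0]; exact hx)
  rw [he.zero, SchauderBasis.proj_zero] at h
  simpa using h

/-- The finite dimensional projections of a block subspace: `e` = cut points of `y`, `P n` =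
`b.proj (e n)` restricted to `Y = closedSpan y`. -/
theorem exists_sys0 {X : Type u} [NormedAddCommGroup X] [NormedSpace 𝕜 X] (b : SchauderBasis 𝕜 X)
    {K C : ℝ} (hK : ∀ n x, ‖b.proj n x‖ ≤ K * ‖x‖) (hK1 : 1 ≤ K)
    (hC : 0 ≤ C) (y : ℕ → X) (hy : IsBlock b y)
    (hN : ∀ k, Nice C (Submodule.span 𝕜 (y '' Set.Iio k))) :
    ∃ (e : ℕ → ℕ) (P : ℕ → closedSpan 𝕜 y →L[𝕜] closedSpan 𝕜 y)
      (a : ℕ → closedSpan 𝕜 y →L[𝕜] X) (r : ℕ → X →L[𝕜] closedSpan 𝕜 y), StrictMono e ∧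
      (∀ n (x : closedSpan 𝕜 y), (P n x : X) = b.proj (e n) (x : X)) ∧ Sys0 K C P a r := by
  obtain ⟨e, he⟩ := hy.exists_cut
  have hsub : ∀ n, ∀ x ∈ Submodule.span 𝕜 (y '' Set.Iio n), x ∈ closedSpan 𝕜 y :=
    fun n x hx => span_image_le (Set.Iio n) hx
  choose a' g' hga ha hg using hN
  -- the projection to the span of the first vectors
  let pG : ∀ n, closedSpan 𝕜 y →L[𝕜] Submodule.span 𝕜 (y '' Set.Iio n) := fun n =>
    (b.proj (e n) ∘L (closedSpan 𝕜 y).subtypeL).codRestrict _ (fun x => he.proj_mem n x.2)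
  let inc : ∀ n, Submodule.span 𝕜 (y '' Set.Iio n) →L[𝕜] closedSpan 𝕜 y := fun n =>
    (Submodule.span 𝕜 (y '' Set.Iio n)).subtypeL.codRestrict _ (fun x => hsub n x x.2)
  let P : ℕ → closedSpan 𝕜 y →L[𝕜] closedSpan 𝕜 y := fun n => inc n ∘L pG n
  have hPc : ∀ n (x : closedSpan 𝕜 y), (P n x : X) = b.proj (e n) (x : X) := fun n x => rfl
  have hP_norm : ∀ n (x : closedSpan 𝕜 y), ‖P n x‖ ≤ K * ‖x‖ := fun n x => hK (e n) (x : X)
  have hPP : ∀ m n (x : closedSpan 𝕜 y), P m (P n x) = P (min m n) x := fun m n x => by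
    apply Subtype.ext
    rw [hPc, hPc, hPc, SchauderBasis.proj_comp, he.mono.monotone.map_min]
  have hfinG : ∀ n, FiniteDimensional 𝕜 (Submodule.span 𝕜 (y '' Set.Iio n)) := fun n =>
    FiniteDimensional.span_of_finite 𝕜 ((Set.finite_Iio n).image y)
  refine ⟨e, P, fun n => a' n ∘L pG n, fun n => inc n ∘L g' n, he.mono, hPc, ?_⟩
  refine
    { one_le := hK1
      C_nonneg := hC
      P_norm := hP_norm
      P_P := hPP
      fin := ?_
      lim := ?_
      a_norm := ?_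
      r_norm := ?_
      r_a := ?_
      P_r := ?_ }
  · intro n
    have := hfinG n
    have : FiniteDimensional 𝕜 (LinearMap.range (inc n).toLinearMap) := inferInstance
    refine Submodule.finiteDimensional_of_le (S₂ := LinearMap.range (inc n).toLinearMap) ?_
    rintro _ ⟨x, rfl⟩
    exact ⟨pG n x, rfl⟩
  · intro x
    rw [tendsto_subtype_rng]
    exact (SchauderBasis.tendsto_proj b (x : X)).comp he.mono.tendsto_atTop
  · intro n x
    have h5 : ‖a' n (pG n x)‖ ≤ ‖pG n x‖ := by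
      refine ((a' n).le_opNorm _).trans ?_
      calc ‖a' n‖ * ‖pG n x‖ ≤ 1 * ‖pG n x‖ :=
            mul_le_mul_of_nonneg_right (ha n) (norm_nonneg _)
        _ = ‖pG n x‖ := one_mul _
    exact h5.trans (hK (e n) (x : X))
  · intro n x
    have h6 : ‖g' n x‖ ≤ C * ‖x‖ :=
      ((g' n).le_opNorm _).trans (mul_le_mul_of_nonneg_right (hg n) (norm_nonneg _))
    exact h6
  · intro n x
    have h7 : g' n (a' n (pG n x)) = pG n x := by
      have := congrArg (fun T : _ →L[𝕜] _ => T (pG n x)) (hga n)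
      simpa using this
    change inc n (g' n (a' n (pG n x))) = inc n (pG n x)
    rw [h7]
  · intro n x
    apply Subtype.ext
    rw [hPc]
    exact L0_proj_eq he n (g' n x).2

end Pool.Agent.Lib.MP_a0554b_an
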