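import Mathlib
import Pool.Agent.Lib.MP_a0554b_an.L0

set_option autoImplicit false

/-!
# `ℓ_1`: the compact space
-/

noncomputable section

namespace Pool.Agent.Lib.MP_a0554b_an

open Filter Topology
open scoped ENNReal

universe u v w

variable {𝕜 : Type v} [RCLike 𝕜] {Y : Type u} [NormedAddCommGroup Y] [NormedSpace 𝕜 Y] {K C : ℝ}
    {P : ℕ → Y →L[𝕜] Y} {a : ℕ → Y →L[𝕜] S 𝕜 1 𝕜} {r : ℕ → S 𝕜 1 𝕜 →L[𝕜] Y}

/-- bounded coherent sequences, with the topology of pointwise convergence -/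
def Bset (P : ℕ → Y →L[𝕜] Y) (R : ℝ) : Set (ℕ → Y) :=
  {ω | (∀ n, P n (ω (n + 1)) = ω n) ∧ ∀ n, ‖ω n‖ ≤ R}

/-- PROOF: `Bset P R` is a closed subset of the product of the sets
`{z ∈ range (P n) : ‖z‖ ≤ R}`, which are compact (finite dimensional; `range (P n)` is closed);
`isCompact_univ_pi`, `IsCompact.of_isClosed_subset`. -/
theorem Sys.compact (h : Sys K C P a r) (R : ℝ) : IsCompact (Bset P R) := by
  have hc : ∀ n, IsCompact {z : Y | z ∈ LinearMap.range (P n : Y →ₗ[𝕜] Y) ∧ ‖z‖ ≤ R} := by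
    intro n
    have := h.fin n
    have : ProperSpace (LinearMap.range (P n : Y →ₗ[𝕜] Y)) := FiniteDimensional.proper_rclike 𝕜 _
    have h1 := (isCompact_closedBall (0 : LinearMap.range (P n : Y →ₗ[𝕜] Y)) R).image
      continuous_subtype_val
    refine (congrArg IsCompact (Set.ext fun z => ?_)).mp h1
    constructor
    · rintro ⟨w, hw, rfl⟩
      rw [mem_closedBall_zero_iff] at hw
      exact ⟨w.2, hw⟩
    · rintro ⟨h2, h3⟩
      exact ⟨⟨z, h2⟩, mem_closedBall_zero_iff.2 h3, rfl⟩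
  refine (isCompact_univ_pi hc).of_isClosed_subset ?_ ?_
  · have e : Bset P R = (⋂ n, {ω : ℕ → Y | P n (ω (n + 1)) = ω n}) ∩
        ⋂ n, {ω : ℕ → Y | ‖ω n‖ ≤ R} := by
      ext ω
      simp [Bset]
    rw [e]
    refine (isClosed_iInter fun n => ?_).inter (isClosed_iInter fun n => ?_)
    · exact isClosed_eq ((P n).continuous.comp (continuous_apply (n + 1))) (continuous_apply n)
    · exact isClosed_le (continuous_norm.comp (continuous_apply n)) continuous_const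
  · intro ω hω n _
    exact ⟨⟨ω (n + 1), hω.1 n⟩, hω.2 n⟩

/-- the points of the compact space given by the vectors `r n (sgl i 1)` -/
theorem Sys.exists_pt (h : Sys K C P a r) :
    ∃ pt : ℕ → ℕ → Bset P (K * C), ∀ n i m, (pt n i).1 m = P m (r n (sgl i 1)) := by
  refine ⟨fun n i => ⟨fun m => P m (r n (sgl i 1)), ?_, ?_⟩, fun n i m => rfl⟩
  · intro m
    rw [h.P_P]
    simp
  · intro m
    refine (h.P_norm m _).trans ?_
    have h1 : ‖r n (sgl i 1)‖ ≤ C * ‖(sgl i 1 : S 𝕜 1 𝕜)‖ := h.r_norm n _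
    rw [norm_sgl, norm_one, mul_one] at h1
    have h2 := h.one_le
    gcongr

/-- a closed cover. PROOF: `x j` a dense sequence of `Y` (`TopologicalSpace.denseSeq`),
`F j = {ω | ∀ m, ‖ω m - P m (x j)‖ ≤ ε}` is closed. Covering: for `ω ∈ Bset P R` there is
`g ∈ Y` with `P m g = ω m` (`complete`); choose `j` with `‖g - x j‖ ≤ ε / K`;
`‖ω m - P m (x j)‖ = ‖P m (g - x j)‖ ≤ ε`. -/
theorem Sys.cover [TopologicalSpace.SeparableSpace Y] (h : Sys K C P a r) (R : ℝ) {ε : ℝ}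
    (hε : 0 < ε) : ∃ x : ℕ → Y, ∀ ω ∈ Bset P R, ∃ j, ∀ m, ‖ω m - P m (x j)‖ ≤ ε := by
  refine ⟨TopologicalSpace.denseSeq Y, fun ω hω => ?_⟩
  obtain ⟨g, h3⟩ := h.complete ω hω.1 ⟨R, hω.2⟩
  have hK : 0 < K := lt_of_lt_of_le one_pos h.one_le
  obtain ⟨j, hj⟩ := (TopologicalSpace.denseRange_denseSeq Y).exists_dist_lt g (div_pos hε hK)
  refine ⟨j, fun m => ?_⟩
  rw [← h3 m, ← map_sub]
  refine (h.P_norm m _).trans ?_
  rw [dist_eq_norm] at hj
  calc K * ‖g - TopologicalSpace.denseSeq Y j‖ ≤ K * (ε / K) :=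
        mul_le_mul_of_nonneg_left hj.le hK.le
    _ = ε := by field_simp

end Pool.Agent.Lib.MP_a0554b_an
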