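import Mathlib
import Pool.Agent.Lib.MP_a0554b_an.A1

set_option autoImplicit false

/-!
# The norm of `ℓ_1`
-/

noncomputable section

namespace Pool.Agent.Lib.MP_a0554b_an

open Filter Topology
open scoped ENNReal

universe u v w

variable {𝕜 : Type v} [RCLike 𝕜]

/-- PROOF: `lp.norm_eq_tsum_rpow` for `p = 1`. -/
theorem hasSum_norm_ev (x : S 𝕜 1 𝕜) : HasSum (fun i => ‖ev i x‖) ‖x‖ := by
  have h := lp.hasSum_norm (E := fun _ : ℕ => 𝕜) (p := 1) (by norm_num) x.1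
  simp only [ENNReal.toReal_one, Real.rpow_one] at h
  exact h

/-- PROOF: `tendsto_tr` and `tr_Iio_eq_sum`, or directly; absolutely convergent by `hasSum_norm_ev`
and `norm_sgl`. -/
theorem hasSum_sgl (x : S 𝕜 1 𝕜) : HasSum (fun i => ev i x • (sgl i 1 : S 𝕜 1 𝕜)) x := by
  have h1 : ∀ i, (ev i x • (sgl i 1 : S 𝕜 1 𝕜)) = sgl i (ev i x) := fun i => by
    rw [← map_smul, smul_eq_mul, mul_one]
  have h2 : Summable (fun i => ev i x • (sgl i 1 : S 𝕜 1 𝕜)) := by
    refine Summable.of_norm ?_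
    have h3 : (fun i => ‖ev i x • (sgl i 1 : S 𝕜 1 𝕜)‖) = fun i => ‖ev i x‖ := by
      funext i
      rw [h1, norm_sgl]
    rw [h3]
    exact (hasSum_norm_ev x).summable
  rw [h2.hasSum_iff_tendsto_nat]
  refine (tendsto_tr x).congr fun m => ?_
  rw [tr_Iio_eq_sum]
  exact Finset.sum_congr rfl fun i _ => (h1 i).symm

end Pool.Agent.Lib.MP_a0554b_an
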