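import Mathlib
import Pool.Agent.Lib.MP_a0554b_an.L1
import Pool.Agent.Lib.MP_a0554b_an.L2a

set_option autoImplicit false

/-!
# `ℓ_1`: the limit functionals
-/

noncomputable section

namespace Pool.Agent.Lib.MP_a0554b_an

open Filter Topology
open scoped ENNReal

universe u v w

variable {𝕜 : Type v} [RCLike 𝕜] {Y : Type u} [NormedAddCommGroup Y] [NormedSpace 𝕜 Y] {K C : ℝ}
    {P : ℕ → Y →L[𝕜] Y} {a : ℕ → Y →L[𝕜] S 𝕜 1 𝕜} {r : ℕ → S 𝕜 1 𝕜 →L[𝕜] Y}

/-- the function `ω ↦ ‖f ω‖` -/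
def nrmC {B : Type*} [TopologicalSpace B] (f : C(B, 𝕜)) : C(B, ℝ) :=
  ⟨fun ω => ‖f ω‖, f.continuous.norm⟩

/-- the function `ω ↦ φ (ω m)` on the compact space -/
def evC (P : ℕ → Y →L[𝕜] Y) (R : ℝ) (φ : Y →L[𝕜] 𝕜) (m : ℕ) : C(Bset P R, 𝕜) :=
  ⟨fun ω => φ (ω.1 m), by
    exact φ.continuous.comp ((continuous_apply m).comp continuous_subtype_val)⟩

theorem L2_exists_lim {E : Type*} [NormedAddCommGroup E] [ProperSpace E] (U : Ultrafilter ℕ)
    (g : ℕ → E) (M : ℝ) (hg : ∀ n, ‖g n‖ ≤ M) : ∃ z, Tendsto g U (𝓝 z) := by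
  obtain ⟨z, _, hz⟩ := (isCompact_closedBall (0 : E) M).ultrafilter_le_nhds (U.map g) (by
    rw [Ultrafilter.coe_map]
    refine tendsto_principal.2 (Eventually.of_forall fun n => ?_)
    rw [mem_closedBall_zero_iff]
    exact hg n)
  exact ⟨z, hz⟩

/-- the pairing of `ℓ_1` with bounded sequences -/
def L2_pair (v : S 𝕜 1 𝕜) (g : ℕ → 𝕜) : 𝕜 := ∑' i, ev i v * g i

/-- the pairing of the absolute values with bounded sequences -/
def L2_apair (v : S 𝕜 1 𝕜) (g : ℕ → ℝ) : ℝ := ∑' i, ‖ev i v‖ * g i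

theorem L2_summable (v : S 𝕜 1 𝕜) {g : ℕ → 𝕜} {M : ℝ} (hg : ∀ i, ‖g i‖ ≤ M) :
    Summable (fun i => ev i v * g i) := by
  refine Summable.of_norm_bounded ((hasSum_norm_ev v).summable.mul_right M) fun i => ?_
  rw [norm_mul]
  exact mul_le_mul_of_nonneg_left (hg i) (norm_nonneg _)

theorem L2_asummable (v : S 𝕜 1 𝕜) {g : ℕ → ℝ} {M : ℝ} (hg : ∀ i, ‖g i‖ ≤ M) :
    Summable (fun i => ‖ev i v‖ * g i) := by
  refine Summable.of_norm_bounded ((hasSum_norm_ev v).summable.mul_right M) fun i => ?_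
  rw [norm_mul, norm_norm]
  exact mul_le_mul_of_nonneg_left (hg i) (norm_nonneg _)

theorem L2_apair_norm (v : S 𝕜 1 𝕜) {g : ℕ → ℝ} {M : ℝ} (hg : ∀ i, ‖g i‖ ≤ M) :
    ‖L2_apair v g‖ ≤ ‖v‖ * M := by
  have h1 : HasSum (fun i => ‖ev i v‖ * M) (‖v‖ * M) := (hasSum_norm_ev v).mul_right M
  exact tsum_of_norm_bounded h1 fun i => by
    rw [norm_mul, norm_norm]
    exact mul_le_mul_of_nonneg_left (hg i) (norm_nonneg _)

theorem L2_pair_le (v : S 𝕜 1 𝕜) {g : ℕ → 𝕜} {M : ℝ} (hg : ∀ i, ‖g i‖ ≤ M) :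
    ‖L2_pair v g‖ ≤ L2_apair v (fun i => ‖g i‖) := by
  have h1 : Summable (fun i => ‖ev i v‖ * ‖g i‖) :=
    L2_asummable v (M := M) fun i => by rw [norm_norm]; exact hg i
  exact tsum_of_norm_bounded h1.hasSum fun i => by rw [norm_mul]

theorem L2_pair_clm (v : S 𝕜 1 𝕜) (ψ : S 𝕜 1 𝕜 →L[𝕜] 𝕜) :
    L2_pair v (fun i => ψ (sgl i 1)) = ψ v := by
  have h := (hasSum_sgl v).mapL ψ
  unfold L2_pair
  rw [← h.tsum_eq]
  refine tsum_congr fun i => ?_
  rw [map_smul, smul_eq_mul]

/-- PROOF. Let `𝓤` be an ultrafilter finer than `atTop`, `pt` from `Sys.exists_pt`. Put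
`Λ x f = lim_𝓤 ∑' i, ev i (a n x) * f (pt n i)`, `Θ x f = lim_𝓤 ∑' i, ‖ev i (a n x)‖ * f (pt n i)`
(the numbers are bounded by `K ‖x‖ ‖f‖`, `hasSum_norm_ev`, so the limits along `𝓤` exist:
`Ultrafilter`, compact balls, `IsCompact.ultrafilter_le_nhds`; `limUnder`/`Classical.choose`;
`B = Bset P (K * C)` is compact by `Sys.compact`, so `f` is bounded). Linearity by
uniqueness of limits. Last statement: for `n ≥ m`,
`∑' i, ev i (a n x) * φ (P m (r n (sgl i 1))) = φ (P m (r n (a n x))) = φ (P m (P n x)) = φ (P m x)`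
(`x = ∑' ev i x • sgl i 1` in `ℓ_1`: `tendsto_tr`, `tr_Iio_eq_sum`). -/
theorem Sys.exists_functionals (h : Sys K C P a r) :
    ∃ (L : Y →ₗ[𝕜] C(Bset P (K * C), 𝕜) →ₗ[𝕜] 𝕜) (Th : Y → C(Bset P (K * C), ℝ) →ₗ[ℝ] ℝ),
      (∀ x f, (∀ ω, 0 ≤ f ω) → 0 ≤ Th x f) ∧ (∀ x, Th x 1 ≤ K * ‖x‖) ∧
      (∀ x f, ‖L x f‖ ≤ Th x (nrmC f)) ∧
      ∀ x φ m, L x (evC P (K * C) φ m) = φ (P m x) := by
  obtain ⟨pt, hpt⟩ := h.exists_pt
  have : CompactSpace (Bset P (K * C)) := isCompact_iff_compactSpace.1 (h.compact _)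
  let U : Ultrafilter ℕ := Ultrafilter.of atTop
  have hU : (U : Filter ℕ) ≤ atTop := Ultrafilter.of_le _
  -- boundedness
  have hb : ∀ (f : C(Bset P (K * C), 𝕜)) n i, ‖f (pt n i)‖ ≤ ‖f‖ := fun f n i =>
    f.norm_coe_le_norm _
  have hbr : ∀ (f : C(Bset P (K * C), ℝ)) n i, ‖f (pt n i)‖ ≤ ‖f‖ := fun f n i =>
    f.norm_coe_le_norm _
  have hK0 : 0 ≤ K := zero_le_one.trans h.one_le
  have hTb : ∀ x (f : C(Bset P (K * C), ℝ)) n,
      ‖L2_apair (a n x) (fun i => f (pt n i))‖ ≤ K * ‖x‖ * ‖f‖ := by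
    intro x f n
    refine (L2_apair_norm (a n x) (hbr f n)).trans ?_
    exact mul_le_mul_of_nonneg_right (h.a_norm n x) (norm_nonneg _)
  have hLb : ∀ x (f : C(Bset P (K * C), 𝕜)) n,
      ‖L2_pair (a n x) (fun i => f (pt n i))‖ ≤ K * ‖x‖ * ‖nrmC f‖ := by
    intro x f n
    refine (L2_pair_le (a n x) (hb f n)).trans ?_
    exact (le_abs_self _).trans (hTb x (nrmC f) n)
  have exT : ∀ x (f : C(Bset P (K * C), ℝ)), ∃ z,
      Tendsto (fun n => L2_apair (a n x) (fun i => f (pt n i))) U (𝓝 z) := fun x f =>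
    L2_exists_lim U _ _ (hTb x f)
  have exL : ∀ x (f : C(Bset P (K * C), 𝕜)), ∃ z,
      Tendsto (fun n => L2_pair (a n x) (fun i => f (pt n i))) U (𝓝 z) := fun x f =>
    L2_exists_lim U _ _ (hLb x f)
  choose th hth using exT
  choose la hla using exL
  let L : Y →ₗ[𝕜] C(Bset P (K * C), 𝕜) →ₗ[𝕜] 𝕜 := LinearMap.mk₂ 𝕜 la
    (by
      intro x y f
      refine tendsto_nhds_unique (hla (x + y) f) (((hla x f).add (hla y f)).congr fun n => ?_)
      unfold L2_pair
      rw [← (L2_summable _ (hb f n)).tsum_add (L2_summable _ (hb f n))]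
      refine tsum_congr fun i => ?_
      rw [map_add, map_add, add_mul])
    (by
      intro c x f
      refine tendsto_nhds_unique (hla (c • x) f) (((hla x f).const_smul c).congr fun n => ?_)
      unfold L2_pair
      rw [smul_eq_mul, ← tsum_mul_left]
      refine tsum_congr fun i => ?_
      rw [map_smul, map_smul, smul_eq_mul, mul_assoc])
    (by
      intro x f g
      refine tendsto_nhds_unique (hla x (f + g)) (((hla x f).add (hla x g)).congr fun n => ?_)
      unfold L2_pair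
      rw [← (L2_summable _ (hb f n)).tsum_add (L2_summable _ (hb g n))]
      refine tsum_congr fun i => ?_
      beta_reduce
      rw [ContinuousMap.add_apply, mul_add])
    (by
      intro c x f
      refine tendsto_nhds_unique (hla x (c • f)) (((hla x f).const_smul c).congr fun n => ?_)
      unfold L2_pair
      rw [smul_eq_mul, ← tsum_mul_left]
      refine tsum_congr fun i => ?_
      beta_reduce
      rw [ContinuousMap.smul_apply, smul_eq_mul]
      ring)
  let Th : Y → C(Bset P (K * C), ℝ) →ₗ[ℝ] ℝ := fun x =>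
    { toFun := th x
      map_add' := by
        intro f g
        refine tendsto_nhds_unique (hth x (f + g)) (((hth x f).add (hth x g)).congr fun n => ?_)
        unfold L2_apair
        rw [← (L2_asummable _ (hbr f n)).tsum_add (L2_asummable _ (hbr g n))]
        refine tsum_congr fun i => ?_
        beta_reduce
        rw [ContinuousMap.add_apply, mul_add]
      map_smul' := by
        intro c f
        refine tendsto_nhds_unique (hth x (c • f)) (((hth x f).const_smul c).congr fun n => ?_)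
        unfold L2_apair
        rw [smul_eq_mul, ← tsum_mul_left]
        refine tsum_congr fun i => ?_
        beta_reduce
        rw [ContinuousMap.smul_apply, smul_eq_mul]
        ring }
  refine ⟨L, Th, ?_, ?_, ?_, ?_⟩
  · intro x f hf
    refine ge_of_tendsto (hth x f) (Eventually.of_forall fun n => ?_)
    exact tsum_nonneg fun i => mul_nonneg (norm_nonneg _) (hf _)
  · intro x
    refine le_of_tendsto (hth x 1) (Eventually.of_forall fun n => ?_)
    have h1 : L2_apair (a n x) (fun i => (1 : C(Bset P (K * C), ℝ)) (pt n i)) = ‖a n x‖ := by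
      unfold L2_apair
      rw [← (hasSum_norm_ev (a n x)).tsum_eq]
      refine tsum_congr fun i => ?_
      beta_reduce
      rw [ContinuousMap.one_apply, mul_one]
    rw [h1]
    exact h.a_norm n x
  · intro x f
    refine le_of_tendsto_of_tendsto (hla x f).norm (hth x (nrmC f))
      (Eventually.of_forall fun n => ?_)
    exact L2_pair_le (a n x) (hb f n)
  · intro x φ m
    have h2 : Tendsto (fun n => L2_pair (a n x) (fun i => evC P (K * C) φ m (pt n i))) U
        (𝓝 (φ (P m x))) := by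
      refine tendsto_const_nhds.congr' ?_
      filter_upwards [hU (eventually_ge_atTop m)] with n hn
      have h3 := L2_pair_clm (a n x) (φ.comp ((P m).comp (r n)))
      have h4 : (fun i => evC P (K * C) φ m (pt n i)) =
          fun i => (φ.comp ((P m).comp (r n))) (sgl i 1) := by
        funext i
        show φ ((pt n i).1 m) = _
        rw [hpt]
        rfl
      rw [h4, h3]
      show φ (P m x) = φ (P m (r n (a n x)))
      rw [h.r_a, h.P_P, min_eq_left hn]
    exact tendsto_nhds_unique (hla x _) h2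

end Pool.Agent.Lib.MP_a0554b_an
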