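import Mathlib
import Pool.Agent.Lib.MP_a0554b_an.Defs

set_option autoImplicit false

/-!
# Positive functionals on `C(B, ℝ)` are dominated by measures (Riesz-Markov-Kakutani)
-/

noncomputable section

namespace Pool.Agent.Lib.MP_a0554b_an

open Filter Topology MeasureTheory
open scoped ENNReal

universe u v w

/-- PROOF: Mathlib has the Riesz-Markov-Kakutani theorem (`RealRMK.rieszMeasure`,
`RealRMK.integral_rieszMeasure`) for positive functionals on `C_c(B, ℝ)`; on a compact space every
continuous function has compact support. The mass: `f = 1`. -/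
theorem exists_measure {B : Type u} [TopologicalSpace B] [CompactSpace B] [T2Space B]
    [MeasurableSpace B] [BorelSpace B] (Th : C(B, ℝ) →ₗ[ℝ] ℝ)
    (h : ∀ f : C(B, ℝ), (∀ ω, 0 ≤ f ω) → 0 ≤ Th f) :
    ∃ θ : Measure B, IsFiniteMeasure θ ∧ ∀ f : C(B, ℝ), Th f = ∫ ω, f ω ∂θ := by
  let Λ : CompactlySupportedContinuousMap B ℝ →ₚ[ℝ] ℝ :=
  { toFun := fun g => Th g.toContinuousMap
    map_add' := fun g g' => Th.map_add g.toContinuousMap g'.toContinuousMap
    map_smul' := fun c g => Th.map_smul c g.toContinuousMap
    monotone' := by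
      intro g g' hgg'
      have h1 := h (g'.toContinuousMap - g.toContinuousMap) (fun ω => by
        rw [ContinuousMap.sub_apply, sub_nonneg]
        exact hgg' ω)
      rw [map_sub, sub_nonneg] at h1
      exact h1 }
  refine ⟨RealRMK.rieszMeasure Λ, inferInstance, fun f => ?_⟩
  let f' : CompactlySupportedContinuousMap B ℝ :=
  { toFun := f
    hasCompactSupport' := HasCompactSupport.of_compactSpace _ }
  exact (RealRMK.integral_rieszMeasure Λ f').symm

end Pool.Agent.Lib.MP_a0554b_an
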