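import Mathlib
import Pool.Agent.Lib.MP_a0554b_an.A1

set_option autoImplicit false

/-!
# Approximation of indicator functions of closed sets
-/

noncomputable section

namespace Pool.Agent.Lib.MP_a0554b_an

open Filter Topology MeasureTheory
open scoped ENNReal

universe u v w

variable {𝕜 : Type v} [RCLike 𝕜] {Y : Type u} [NormedAddCommGroup Y] [NormedSpace 𝕜 Y]

/-- The function `f` approximates the indicator function of the closed set `H` in `L_1(θ)`
for every finite measure `θ`. PROOF: choose a metric (`TopologicalSpace.metrizableSpaceMetric`),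
`f k ω = max 0 (1 - k * infDist ω H)` if `H` is nonempty, `0` otherwise
(or `thickenedIndicator`); it tends pointwise to the indicator function of `H`
(closed), dominated by `1`; dominated convergence. -/
theorem exists_approx_indicator {B : Type w} [TopologicalSpace B] [CompactSpace B]
    [TopologicalSpace.MetrizableSpace B] [MeasurableSpace B] [BorelSpace B] (H : Set B)
    (hH : IsClosed H) : ∃ f : ℕ → C(B, 𝕜), ∀ θ : Measure B, IsFiniteMeasure θ →
      Tendsto (fun k => ∫ ω, ‖f k ω - H.indicator (fun _ => (1 : 𝕜)) ω‖ ∂θ) atTop (𝓝 0) := by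
  let g : ℕ → C(B, 𝕜) := fun k =>
    ⟨fun ω => (((hH.apprSeq k ω : NNReal) : ℝ) : 𝕜),
      RCLike.continuous_ofReal.comp
        (NNReal.continuous_coe.comp (hH.apprSeq k).continuous)⟩
  have hg : ∀ k ω, g k ω = (((hH.apprSeq k ω : NNReal) : ℝ) : 𝕜) := fun k ω => rfl
  have hb : ∀ k ω, ‖g k ω - H.indicator (fun _ => (1 : 𝕜)) ω‖ ≤ 1 := by
    intro k ω
    have h1 : ((hH.apprSeq k ω : NNReal) : ℝ) ≤ 1 := by
      exact_mod_cast HasOuterApproxClosed.apprSeq_apply_le_one hH k ω
    have h0 : 0 ≤ ((hH.apprSeq k ω : NNReal) : ℝ) := NNReal.coe_nonneg _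
    by_cases hω : ω ∈ H
    · rw [hg, Set.indicator_of_mem hω, HasOuterApproxClosed.apprSeq_apply_eq_one hH k hω]
      simp
    · rw [hg, Set.indicator_of_notMem hω, sub_zero, RCLike.norm_ofReal, abs_of_nonneg h0]
      exact h1
  refine ⟨g, fun θ hθ => ?_⟩
  have hmI : Measurable (fun ω => H.indicator (fun _ => (1 : 𝕜)) ω) :=
    measurable_const.indicator hH.measurableSet
  have h2 : Tendsto (fun k => ∫ ω, ‖g k ω - H.indicator (fun _ => (1 : 𝕜)) ω‖ ∂θ) atTop
      (𝓝 (∫ _, (0 : ℝ) ∂θ)) := by
    refine tendsto_integral_of_dominated_convergence (fun _ => 1) (fun k => ?_)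
      (integrable_const 1) (fun k => Eventually.of_forall fun ω => ?_)
      (Eventually.of_forall fun ω => ?_)
    · exact (((g k).continuous.measurable.sub hmI).norm).aestronglyMeasurable
    · rw [norm_norm]
      exact hb k ω
    · have h3 := (tendsto_pi_nhds.1 (HasOuterApproxClosed.tendsto_apprSeq hH)) ω
      have h4 : Tendsto (fun k => g k ω) atTop (𝓝 (H.indicator (fun _ => (1 : 𝕜)) ω)) := by
        have h5 := ((RCLike.continuous_ofReal (K := 𝕜)).tendsto _).comp
          ((NNReal.continuous_coe.tendsto _).comp h3)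
        have h7 : (((H.indicator (fun _ => (1 : NNReal)) ω : NNReal) : ℝ) : 𝕜) =
            H.indicator (fun _ => (1 : 𝕜)) ω := by
          by_cases hω : ω ∈ H
          · rw [Set.indicator_of_mem hω, Set.indicator_of_mem hω]
            simp
          · rw [Set.indicator_of_notMem hω, Set.indicator_of_notMem hω]
            simp
        rw [h7] at h5
        exact h5
      have h6 := (h4.sub_const (H.indicator (fun _ => (1 : 𝕜)) ω)).norm
      rwa [sub_self, norm_zero] at h6
  rwa [integral_zero] at h2

end Pool.Agent.Lib.MP_a0554b_an
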