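import Mathlib
import Pool.Agent.Lib.MP_a0554b_an.A1
import Pool.Agent.Lib.MP_a0554b_an.L4a

set_option autoImplicit false

/-!
# Discretization of vector measures on a compact metrizable space
-/

noncomputable section

namespace Pool.Agent.Lib.MP_a0554b_an

open Filter Topology MeasureTheory
open scoped ENNReal

universe u v w

variable {𝕜 : Type v} [RCLike 𝕜] {Y : Type u} [NormedAddCommGroup Y] [NormedSpace 𝕜 Y]

/-- the disjoint pieces of an increasing sequence of sets -/
def L4A {B : Type w} (H : ℕ → Set B) : ℕ → Set B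
  | 0 => H 0
  | j + 1 => H (j + 1) \ H j

theorem L4A_disj {B : Type w} {H : ℕ → Set B} (hm : Monotone H) {i j : ℕ} (h : i < j) {ω : B}
    (hi : ω ∈ L4A H i) (hj : ω ∈ L4A H j) : False := by
  have h1 : ω ∈ H i := by
    cases i with
    | zero => exact hi
    | succ i => exact hi.1
  cases j with
  | zero => omega
  | succ j => exact hj.2 (hm (by omega) h1)

theorem L4A_cover {B : Type w} {H : ℕ → Set B} {n : ℕ} {ω : B} (h : ω ∈ H n) :
    ∃ j ≤ n, ω ∈ L4A H j := by
  induction n with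
  | zero => exact ⟨0, le_refl 0, h⟩
  | succ n ih =>
    by_cases h1 : ω ∈ H n
    · obtain ⟨j, hj, hj2⟩ := ih h1
      exact ⟨j, by omega, hj2⟩
    · exact ⟨n + 1, le_refl _, h, h1⟩

/-- the sum of `c j` over the pieces -/
theorem L4A_sum {B : Type w} {H : ℕ → Set B} (hm : Monotone H) (c : ℕ → 𝕜) {n j : ℕ} {ω : B}
    (hj : j < n) (h : ω ∈ L4A H j) :
    ∑ i ∈ Finset.range n, c i * (L4A H i).indicator (fun _ => (1 : 𝕜)) ω = c j := by
  rw [Finset.sum_eq_single j]
  · rw [Set.indicator_of_mem h, mul_one]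
  · intro i _ hij
    rw [Set.indicator_of_notMem, mul_zero]
    intro hi
    rcases lt_or_gt_of_ne hij with h1 | h1
    · exact L4A_disj hm h1 hi h
    · exact L4A_disj hm h1 h hi
  · intro h1
    exact absurd (Finset.mem_range.2 hj) h1

theorem L4A_measurable {B : Type w} [TopologicalSpace B] [MeasurableSpace B] [BorelSpace B]
    {H : ℕ → Set B} (hc : ∀ j, IsClosed (H j)) (j : ℕ) : MeasurableSet (L4A H j) := by
  cases j with
  | zero => exact (hc 0).measurableSet
  | succ j => exact (hc (j + 1)).measurableSet.diff (hc j).measurableSet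

theorem L4_int {B : Type w} [TopologicalSpace B] [CompactSpace B] [MeasurableSpace B]
    [BorelSpace B] (θ : Measure B) [IsFiniteMeasure θ] (f : C(B, 𝕜)) (g : B → 𝕜)
    (hg : Measurable g) (M : ℝ) (hM : ∀ ω, ‖g ω‖ ≤ M) :
    Integrable (fun ω => ‖f ω - g ω‖) θ := by
  refine Integrable.of_bound (C := ‖f‖ + M) ?_ (Eventually.of_forall fun ω => ?_)
  · exact ((f.continuous.measurable.sub hg).norm).aestronglyMeasurable
  · rw [norm_norm]
    exact (norm_sub_le _ _).trans (add_le_add (f.norm_coe_le_norm ω) (hM ω))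

theorem L4_ind_norm {B : Type w} (A : Set B) (ω : B) :
    ‖A.indicator (fun _ => (1 : 𝕜)) ω‖ ≤ 1 := by
  by_cases h : ω ∈ A
  · rw [Set.indicator_of_mem h, norm_one]
  · rw [Set.indicator_of_notMem h, norm_zero]
    exact zero_le_one

theorem L4_approx {B : Type w} [TopologicalSpace B] [CompactSpace B]
    [TopologicalSpace.MetrizableSpace B] [MeasurableSpace B] [BorelSpace B]
    {H : ℕ → Set B} (hc : ∀ j, IsClosed (H j)) (hm : Monotone H) :
    ∃ g : ℕ → ℕ → C(B, 𝕜), ∀ j, ∀ θ : Measure B, IsFiniteMeasure θ →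
      Tendsto (fun k => ∫ ω, ‖g j k ω - (L4A H j).indicator (fun _ => (1 : 𝕜)) ω‖ ∂θ)
        atTop (𝓝 0) := by
  choose e he using fun j => exists_approx_indicator (𝕜 := 𝕜) (H j) (hc j)
  refine ⟨fun j => match j with
    | 0 => e 0
    | j + 1 => fun k => e (j + 1) k - e j k, fun j θ hθ => ?_⟩
  cases j with
  | zero => exact he 0 θ hθ
  | succ j =>
    have h1 := he (j + 1) θ hθ
    have h2 := he j θ hθ
    have h3 := h1.add h2
    rw [add_zero] at h3
    refine squeeze_zero (fun k => integral_nonneg fun ω => norm_nonneg _) (fun k => ?_) h3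
    have hi : ∀ j k, Integrable (fun ω => ‖e j k ω - (H j).indicator (fun _ => (1 : 𝕜)) ω‖) θ :=
      fun j k => L4_int θ (e j k) _ (measurable_const.indicator (hc j).measurableSet) 1
        (fun ω => L4_ind_norm _ _)
    rw [← integral_add (hi (j + 1) k) (hi j k)]
    refine integral_mono ?_ ((hi (j + 1) k).add (hi j k)) (fun ω => ?_)
    · exact L4_int θ (e (j + 1) k - e j k) _
        (measurable_const.indicator (L4A_measurable hc (j + 1))) 1 (fun ω => L4_ind_norm _ _)
    · have h4 : (L4A H (j + 1)).indicator (fun _ => (1 : 𝕜)) ω =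
          (H (j + 1)).indicator (fun _ => (1 : 𝕜)) ω - (H j).indicator (fun _ => (1 : 𝕜)) ω := by
        by_cases h5 : ω ∈ H j
        · have h6 : ω ∈ H (j + 1) := hm (Nat.le_succ j) h5
          rw [Set.indicator_of_mem h5, Set.indicator_of_mem h6, Set.indicator_of_notMem, sub_self]
          exact fun h => h.2 h5
        · by_cases h6 : ω ∈ H (j + 1)
          · rw [Set.indicator_of_notMem h5, Set.indicator_of_mem h6, Set.indicator_of_mem, sub_zero]
            exact ⟨h6, h5⟩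
          · rw [Set.indicator_of_notMem h5, Set.indicator_of_notMem h6, Set.indicator_of_notMem,
              sub_zero]
            exact fun h => h6 h.1
      change ‖(e (j + 1) k - e j k) ω - (L4A H (j + 1)).indicator (fun _ => (1 : 𝕜)) ω‖ ≤ _
      rw [h4, ContinuousMap.sub_apply]
      have h7 : e (j + 1) k ω - e j k ω - ((H (j + 1)).indicator (fun _ => (1 : 𝕜)) ω -
          (H j).indicator (fun _ => (1 : 𝕜)) ω) =
          (e (j + 1) k ω - (H (j + 1)).indicator (fun _ => (1 : 𝕜)) ω) -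
            (e j k ω - (H j).indicator (fun _ => (1 : 𝕜)) ω) := by ring
      rw [h7]
      exact norm_sub_le _ _

/-- PROOF. For a closed set `H` let `f k` be as in `exists_approx_indicator`; for each `x` the
sequence `L x (f k)` is Cauchy, since `‖L x (f k) - L x (f l)‖ ≤ ∫ ‖f k - f l‖ dθ` with `θ = θ_x` from
`hL`. Let `l H x` be the limit, linear in `x`. Put `J x j = l (H j) x - l (H (j-1)) x`
(`l (H 0) x` for `j = 0`). With `A j = H j \ H (j-1)`: `‖J x j‖ ≤ θ_x (A j)` and
`∑ θ_x (A j) = θ_x(B) ≤ K ‖x‖`: `J x ∈ ℓ_1` with norm at most `K ‖x‖` (`exists_op`, `memℓp_gen`).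
Last statement: for every `n`, `∑_{j ≤ n} J x j * c j - L x f` is the limit of
`L x (∑_{j ≤ n} c j • (f_k^{H j} - f_k^{H (j-1)}) - f)`, so its norm is at most
`∫ ‖∑_{j ≤ n} c j 1_{A j} - f‖ dθ_x ≤ ε θ_x(H n) + ‖f‖ θ_x(B \ H n)`, and `θ_x (B \ H n) → 0`
(`hm`, `hU`: continuity from above of the finite measure). -/
theorem exists_J {B : Type w} [TopologicalSpace B] [CompactSpace B]
    [TopologicalSpace.MetrizableSpace B] [MeasurableSpace B] [BorelSpace B]
    (L : Y →ₗ[𝕜] C(B, 𝕜) →ₗ[𝕜] 𝕜) {K : ℝ}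
    (hL : ∀ x, ∃ θ : Measure B, IsFiniteMeasure θ ∧ θ.real Set.univ ≤ K * ‖x‖ ∧
      ∀ f : C(B, 𝕜), ‖L x f‖ ≤ ∫ ω, ‖f ω‖ ∂θ)
    (H : ℕ → Set B) (hc : ∀ j, IsClosed (H j)) (hm : Monotone H) (hU : ⋃ j, H j = Set.univ) :
    ∃ J : Y →L[𝕜] S 𝕜 1 𝕜, (∀ x, ‖J x‖ ≤ K * ‖x‖) ∧
      ∀ (x : Y) (f : C(B, 𝕜)) (c : ℕ → 𝕜) (ε M : ℝ), 0 ≤ ε → (∀ j, ‖c j‖ ≤ M) →
        (∀ ω ∈ H 0, ‖c 0 - f ω‖ ≤ ε) → (∀ j, ∀ ω ∈ H (j + 1) \ H j, ‖c (j + 1) - f ω‖ ≤ ε) →
          ‖∑' j, ev j (J x) * c j - L x f‖ ≤ ε * (K * ‖x‖) := by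
  classical
  obtain ⟨g, hg⟩ := L4_approx (𝕜 := 𝕜) hc hm
  have hIm : ∀ j, Measurable (fun ω => (L4A H j).indicator (fun _ => (1 : 𝕜)) ω) := fun j =>
    measurable_const.indicator (L4A_measurable hc j)
  -- the sequences `L x (g j k)` converge
  have hcau : ∀ x j, ∃ l : 𝕜, Tendsto (fun k => L x (g j k)) atTop (𝓝 l) := by
    intro x j
    obtain ⟨θ, hθ, h1, h2⟩ := hL x
    apply cauchySeq_tendsto_of_complete
    have h3 := hg j θ hθ
    have hi : ∀ k, Integrable
        (fun ω => ‖g j k ω - (L4A H j).indicator (fun _ => (1 : 𝕜)) ω‖) θ := fun k =>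
      L4_int θ (g j k) _ (hIm j) 1 (fun ω => L4_ind_norm _ _)
    rw [Metric.cauchySeq_iff']
    intro ε hε
    obtain ⟨N, hN⟩ := (Metric.tendsto_atTop.1 h3) (ε / 2) (half_pos hε)
    refine ⟨N, fun k hk => ?_⟩
    rw [dist_eq_norm, ← map_sub]
    refine lt_of_le_of_lt (h2 _) ?_
    have h4 : ∫ ω, ‖(g j k - g j N) ω‖ ∂θ ≤
        ∫ ω, ‖g j k ω - (L4A H j).indicator (fun _ => (1 : 𝕜)) ω‖ ∂θ +
          ∫ ω, ‖g j N ω - (L4A H j).indicator (fun _ => (1 : 𝕜)) ω‖ ∂θ := by
      rw [← integral_add (hi k) (hi N)]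
      refine integral_mono ?_ ((hi k).add (hi N)) (fun ω => ?_)
      · have := L4_int θ (g j k - g j N) (fun _ => (0 : 𝕜)) measurable_const 0 (fun ω => by simp)
        simpa using this
      · change ‖(g j k - g j N) ω‖ ≤ _
        rw [ContinuousMap.sub_apply]
        have h7 : g j k ω - g j N ω = (g j k ω - (L4A H j).indicator (fun _ => (1 : 𝕜)) ω) -
            (g j N ω - (L4A H j).indicator (fun _ => (1 : 𝕜)) ω) := by ring
        rw [h7]
        exact norm_sub_le _ _
    have h5 := hN k hk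
    have h6 := hN N (le_refl N)
    rw [dist_zero_right] at h5 h6
    have h7 := lt_of_le_of_lt (le_abs_self _) h5
    have h8 := lt_of_le_of_lt (le_abs_self _) h6
    linarith
  choose l hl using hcau
  let T : ℕ → Y →ₗ[𝕜] 𝕜 := fun j =>
    { toFun := fun x => l x j
      map_add' := fun x y => by
        have h1 := (hl x j).add (hl y j)
        have h2 := hl (x + y) j
        simp only [map_add, LinearMap.add_apply] at h2
        exact tendsto_nhds_unique h2 h1
      map_smul' := fun c x => by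
        have h1 := (hl x j).const_smul c
        have h2 := hl (c • x) j
        simp only [map_smul, LinearMap.smul_apply] at h2
        exact tendsto_nhds_unique h2 h1 }
  have hT : ∀ x j, T j x = l x j := fun x j => rfl
  -- the key estimate
  have key : ∀ (x : Y) (θ : Measure B), IsFiniteMeasure θ →
      (∀ f : C(B, 𝕜), ‖L x f‖ ≤ ∫ ω, ‖f ω‖ ∂θ) → ∀ (n : ℕ) (c : ℕ → 𝕜) (f : C(B, 𝕜)),
      ‖∑ j ∈ Finset.range n, l x j * c j - L x f‖ ≤
        ∫ ω, ‖f ω - ∑ j ∈ Finset.range n, c j * (L4A H j).indicator (fun _ => (1 : 𝕜)) ω‖ ∂θ := by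
    intro x θ hθ h2 n c f
    set G : B → 𝕜 := fun ω =>
      ∑ j ∈ Finset.range n, c j * (L4A H j).indicator (fun _ => (1 : 𝕜)) ω with hG
    have hGm : Measurable G := Finset.measurable_sum _ fun j _ => (hIm j).const_mul (c j)
    have hGb : ∀ ω, ‖G ω‖ ≤ ∑ j ∈ Finset.range n, ‖c j‖ := fun ω =>
      (norm_sum_le _ _).trans (Finset.sum_le_sum fun j _ => by
        rw [norm_mul]
        exact mul_le_of_le_one_right (norm_nonneg _) (L4_ind_norm _ _))
    have hi : ∀ j k, Integrable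
        (fun ω => ‖g j k ω - (L4A H j).indicator (fun _ => (1 : 𝕜)) ω‖) θ := fun j k =>
      L4_int θ (g j k) _ (hIm j) 1 (fun ω => L4_ind_norm _ _)
    have hl1 : Tendsto (fun k => L x (∑ j ∈ Finset.range n, c j • g j k - f)) atTop
        (𝓝 (∑ j ∈ Finset.range n, l x j * c j - L x f)) := by
      have h3 : Tendsto (fun k => ∑ j ∈ Finset.range n, L x (g j k) * c j) atTop
          (𝓝 (∑ j ∈ Finset.range n, l x j * c j)) :=
        tendsto_finsetSum _ fun j _ => (hl x j).mul_const (c j)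
      have h4 := h3.sub_const (L x f)
      refine h4.congr fun k => ?_
      rw [map_sub, map_sum]
      congr 1
      refine Finset.sum_congr rfl fun j _ => ?_
      rw [map_smul, smul_eq_mul, mul_comm]
    have hr : Tendsto (fun k => ∫ ω, ‖f ω - G ω‖ ∂θ + ∑ j ∈ Finset.range n, ‖c j‖ *
        ∫ ω, ‖g j k ω - (L4A H j).indicator (fun _ => (1 : 𝕜)) ω‖ ∂θ) atTop
        (𝓝 (∫ ω, ‖f ω - G ω‖ ∂θ)) := by
      have h3 : Tendsto (fun k => ∑ j ∈ Finset.range n, ‖c j‖ *
          ∫ ω, ‖g j k ω - (L4A H j).indicator (fun _ => (1 : 𝕜)) ω‖ ∂θ) atTop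
          (𝓝 (∑ j ∈ Finset.range n, ‖c j‖ * 0)) :=
        tendsto_finsetSum _ fun j _ => (hg j θ hθ).const_mul ‖c j‖
      simp only [mul_zero, Finset.sum_const_zero] at h3
      have h4 := h3.const_add (∫ ω, ‖f ω - G ω‖ ∂θ)
      rwa [add_zero] at h4
    refine le_of_tendsto_of_tendsto hl1.norm hr (Eventually.of_forall fun k => ?_)
    refine (h2 _).trans ?_
    have hs : ∑ j ∈ Finset.range n, ‖c j‖ *
        ∫ ω, ‖g j k ω - (L4A H j).indicator (fun _ => (1 : 𝕜)) ω‖ ∂θ =
        ∫ ω, ∑ j ∈ Finset.range n, ‖c j‖ *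
          ‖g j k ω - (L4A H j).indicator (fun _ => (1 : 𝕜)) ω‖ ∂θ := by
      rw [integral_finsetSum _ fun j _ => (hi j k).const_mul ‖c j‖]
      refine Finset.sum_congr rfl fun j _ => ?_
      rw [integral_const_mul]
    have hfG := L4_int θ f G hGm _ hGb
    have hs2 : Integrable (fun ω => ∑ j ∈ Finset.range n, ‖c j‖ *
        ‖g j k ω - (L4A H j).indicator (fun _ => (1 : 𝕜)) ω‖) θ :=
      integrable_finsetSum _ fun j _ => (hi j k).const_mul ‖c j‖
    change ∫ ω, ‖(∑ j ∈ Finset.range n, c j • g j k - f) ω‖ ∂θ ≤ ∫ ω, ‖f ω - G ω‖ ∂θ +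
      ∑ j ∈ Finset.range n, ‖c j‖ *
        ∫ ω, ‖g j k ω - (L4A H j).indicator (fun _ => (1 : 𝕜)) ω‖ ∂θ
    rw [hs, ← integral_add hfG hs2]
    refine integral_mono ?_ (hfG.add hs2) (fun ω => ?_)
    · have := L4_int θ (∑ j ∈ Finset.range n, c j • g j k - f) (fun _ => (0 : 𝕜))
        measurable_const 0 (fun ω => by simp)
      simpa using this
    · change ‖(∑ j ∈ Finset.range n, c j • g j k - f) ω‖ ≤ ‖f ω - G ω‖ +
        ∑ j ∈ Finset.range n, ‖c j‖ * ‖g j k ω - (L4A H j).indicator (fun _ => (1 : 𝕜)) ω‖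
      have h7 : (∑ j ∈ Finset.range n, c j • g j k - f) ω = -(f ω - G ω) +
          ∑ j ∈ Finset.range n, c j *
            (g j k ω - (L4A H j).indicator (fun _ => (1 : 𝕜)) ω) := by
        rw [ContinuousMap.sub_apply, ContinuousMap.sum_apply]
        simp only [ContinuousMap.smul_apply, smul_eq_mul, mul_sub, Finset.sum_sub_distrib, hG]
        ring
      rw [h7]
      refine (norm_add_le _ _).trans (add_le_add (by rw [norm_neg]) ?_)
      refine (norm_sum_le _ _).trans (Finset.sum_le_sum fun j _ => ?_)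
      rw [norm_mul]
  -- the norms of the coordinates
  have hsum : ∀ (x : Y) (n : ℕ), ∑ j ∈ Finset.range n, ‖l x j‖ ≤ K * ‖x‖ := by
    intro x n
    obtain ⟨θ, hθ, h1, h2⟩ := hL x
    -- choose signs
    have h3 : ∀ j, ∃ c : 𝕜, ‖c‖ ≤ 1 ∧ l x j * c = (‖l x j‖ : 𝕜) := by
      intro j
      by_cases h0 : l x j = 0
      · exact ⟨0, by simp, by simp [h0]⟩
      · have h4 : (‖l x j‖ : 𝕜) ≠ 0 := by
          rw [Ne, RCLike.ofReal_eq_zero]
          exact norm_ne_zero_iff.2 h0
        refine ⟨(‖l x j‖ : 𝕜) / l x j, ?_, ?_⟩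
        · rw [norm_div, RCLike.norm_ofReal, abs_of_nonneg (norm_nonneg _), div_self]
          exact norm_ne_zero_iff.2 h0
        · field_simp
    choose c hc1 hc2 using h3
    have h4 := key x θ hθ h2 n c 0
    have h5 : ∑ j ∈ Finset.range n, l x j * c j - L x 0 =
        ((∑ j ∈ Finset.range n, ‖l x j‖ : ℝ) : 𝕜) := by
      rw [map_zero, sub_zero, RCLike.ofReal_sum]
      exact Finset.sum_congr rfl fun j _ => hc2 j
    rw [h5, RCLike.norm_ofReal,
      abs_of_nonneg (Finset.sum_nonneg fun _ _ => norm_nonneg _)] at h4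
    refine h4.trans (le_trans ?_ h1)
    have h6 : θ.real Set.univ = ∫ _, (1 : ℝ) ∂θ := by simp
    rw [h6]
    refine integral_mono ?_ (integrable_const 1) (fun ω => ?_)
    · exact L4_int θ 0 _ (Finset.measurable_sum _ fun j _ => (hIm j).const_mul (c j))
        (∑ j ∈ Finset.range n, ‖c j‖) (fun ω => (norm_sum_le _ _).trans
          (Finset.sum_le_sum fun j _ => by
            rw [norm_mul]
            exact mul_le_of_le_one_right (norm_nonneg _) (L4_ind_norm _ _)))
    · change ‖(0 : C(B, 𝕜)) ω -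
        ∑ j ∈ Finset.range n, c j * (L4A H j).indicator (fun _ => (1 : 𝕜)) ω‖ ≤ 1
      rw [ContinuousMap.zero_apply, zero_sub, norm_neg]
      by_cases h7 : ∃ j < n, ω ∈ L4A H j
      · obtain ⟨j, hj, hj2⟩ := h7
        rw [L4A_sum hm c hj hj2]
        exact hc1 j
      · rw [Finset.sum_eq_zero, norm_zero]
        · exact zero_le_one
        · intro j hj
          rw [Set.indicator_of_notMem, mul_zero]
          exact fun h => h7 ⟨j, Finset.mem_range.1 hj, h⟩
  have hsm : ∀ x, Summable fun j => ‖l x j‖ := fun x =>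
    summable_of_sum_range_le (fun _ => norm_nonneg _) (hsum x)
  obtain ⟨J, hJ1, hJ2⟩ := exists_op (𝕜 := 𝕜) (p := 1) (E := 𝕜) T K (fun x => by
    have hmem : Memℓp (fun j => l x j) 1 := by
      apply memℓp_gen
      simpa using hsm x
    have h0 : Tendsto (fun j => l x j) atTop (𝓝 0) :=
      tendsto_zero_iff_norm_tendsto_zero.2 (hsm x).tendsto_atTop_zero
    refine ⟨ofSeq _ hmem h0, fun k => rfl, ?_⟩
    have h1 : ‖ofSeq (𝕜 := 𝕜) (fun j => l x j) hmem h0‖ = ∑' j, ‖l x j‖ := by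
      have h2 := lp.norm_eq_tsum_rpow (p := 1) (by simp)
        (⟨fun j => l x j, hmem⟩ : lp (fun _ : ℕ => 𝕜) 1)
      change ‖(⟨fun j => l x j, hmem⟩ : lp (fun _ : ℕ => 𝕜) 1)‖ = _
      simpa using h2
    rw [h1]
    exact (hsm x).tsum_le_of_sum_range_le (hsum x))
  refine ⟨J, hJ2, fun x f c ε M hε hM h0 h1 => ?_⟩
  obtain ⟨θ, hθ, hθ1, hθ2⟩ := hL x
  have hev : ∀ j, ev j (J x) = l x j := fun j => hJ1 x j
  simp only [hev]
  have hsc : Summable fun j => l x j * c j := by
    refine Summable.of_norm_bounded ((hsm x).mul_right M) (fun j => ?_)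
    rw [norm_mul]
    exact mul_le_mul_of_nonneg_left (hM j) (norm_nonneg _)
  have ht : Tendsto (fun n => ‖∑ j ∈ Finset.range n, l x j * c j - L x f‖) atTop
      (𝓝 ‖∑' j, l x j * c j - L x f‖) :=
    (hsc.hasSum.tendsto_sum_nat.sub_const (L x f)).norm
  have ht' := (tendsto_add_atTop_iff_nat 1).2 ht
  have hcompl : Tendsto (fun n => θ.real (H n)ᶜ) atTop (𝓝 0) := by
    have h2 := tendsto_measure_iInter_atTop (μ := θ) (s := fun n => (H n)ᶜ)
      (fun n => (hc n).measurableSet.compl.nullMeasurableSet)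
      (fun i j hij => Set.compl_subset_compl.2 (hm hij)) ⟨0, measure_ne_top _ _⟩
    have h3 : (⋂ n, (H n)ᶜ) = ∅ := by
      rw [← Set.compl_iUnion, hU, Set.compl_univ]
    rw [h3, measure_empty] at h2
    have h4 := (ENNReal.tendsto_toReal (by simp : (0 : ℝ≥0∞) ≠ ⊤)).comp h2
    rw [ENNReal.toReal_zero] at h4
    exact h4
  have hr : Tendsto (fun n => ε * (K * ‖x‖) + ‖f‖ * θ.real (H n)ᶜ) atTop
      (𝓝 (ε * (K * ‖x‖))) := by
    have h2 := (hcompl.const_mul ‖f‖).const_add (ε * (K * ‖x‖))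
    rwa [mul_zero, add_zero] at h2
  refine le_of_tendsto_of_tendsto ht' hr (Eventually.of_forall fun n => ?_)
  refine (key x θ hθ hθ2 (n + 1) c f).trans ?_
  have h2 : ∫ ω, (ε + ‖f‖ * ((H n)ᶜ).indicator (fun _ => (1 : ℝ)) ω) ∂θ ≤
      ε * (K * ‖x‖) + ‖f‖ * θ.real (H n)ᶜ := by
    have h3 : Integrable (fun ω => ((H n)ᶜ).indicator (fun _ => (1 : ℝ)) ω) θ :=
      (integrable_const 1).indicator (hc n).measurableSet.compl
    rw [integral_add (integrable_const ε) (h3.const_mul ‖f‖), integral_const, integral_const_mul,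
      integral_indicator (hc n).measurableSet.compl]
    simp only [integral_const, smul_eq_mul, mul_one, MeasurableSet.univ,
      measureReal_restrict_apply, Set.univ_inter]
    have h4 : θ.real Set.univ * ε ≤ ε * (K * ‖x‖) := by
      rw [mul_comm]
      exact mul_le_mul_of_nonneg_left hθ1 hε
    linarith
  refine le_trans ?_ h2
  refine integral_mono ?_ ?_ (fun ω => ?_)
  · exact L4_int θ f _ (Finset.measurable_sum _ fun j _ => (hIm j).const_mul (c j))
      (∑ j ∈ Finset.range (n + 1), ‖c j‖) (fun ω => (norm_sum_le _ _).trans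
        (Finset.sum_le_sum fun j _ => by
          rw [norm_mul]
          exact mul_le_of_le_one_right (norm_nonneg _) (L4_ind_norm _ _)))
  · exact (integrable_const ε).add
      (((integrable_const 1).indicator (hc n).measurableSet.compl).const_mul ‖f‖)
  · change ‖f ω - ∑ j ∈ Finset.range (n + 1),
      c j * (L4A H j).indicator (fun _ => (1 : 𝕜)) ω‖ ≤
        ε + ‖f‖ * ((H n)ᶜ).indicator (fun _ => (1 : ℝ)) ω
    by_cases h7 : ω ∈ H n
    · obtain ⟨j, hj, hj2⟩ := L4A_cover h7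
      rw [L4A_sum hm c (by omega) hj2, Set.indicator_of_notMem (by simpa using h7), mul_zero,
        add_zero, ← norm_neg, neg_sub]
      cases j with
      | zero => exact h0 ω hj2
      | succ j => exact h1 j ω hj2
    · rw [Set.indicator_of_mem (by simpa using h7), mul_one, Finset.sum_eq_zero, sub_zero]
      · have := f.norm_coe_le_norm ω
        linarith
      · intro j hj
        rw [Set.indicator_of_notMem, mul_zero]
        intro h8
        apply h7
        have h9 : ω ∈ H j := by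
          cases j with
          | zero => exact h8
          | succ j => exact h8.1
        exact hm (by have := Finset.mem_range.1 hj; omega) h9

end Pool.Agent.Lib.MP_a0554b_an
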