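import Mathlib
import Pool.Agent.Lib.MP_a0554b_an.L2a

set_option autoImplicit false

/-!
# Operators on `ℓ_1` given by bounded sequences
-/

noncomputable section

namespace Pool.Agent.Lib.MP_a0554b_an

open Filter Topology
open scoped ENNReal

universe u v w

variable {𝕜 : Type v} [RCLike 𝕜] {Y : Type u} [NormedAddCommGroup Y] [NormedSpace 𝕜 Y]

/-- PROOF: `T z = ∑' j, ev j z • t j`, absolutely convergent (`hasSum_norm_ev`). -/
theorem exists_T [CompleteSpace Y] (t : ℕ → Y) {M : ℝ} (ht : ∀ j, ‖t j‖ ≤ M) :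
    ∃ T : S 𝕜 1 𝕜 →L[𝕜] Y, (∀ z, HasSum (fun j => ev j z • t j) (T z)) ∧
      ∀ z, ‖T z‖ ≤ M * ‖z‖ := by
  have hb : ∀ (z : S 𝕜 1 𝕜) (j : ℕ), ‖ev j z • t j‖ ≤ M * ‖ev j z‖ := by
    intro z j
    rw [norm_smul, mul_comm]
    exact mul_le_mul_of_nonneg_right (ht j) (norm_nonneg _)
  have hg : ∀ z : S 𝕜 1 𝕜, HasSum (fun j => M * ‖ev j z‖) (M * ‖z‖) := fun z =>
    (hasSum_norm_ev z).mul_left M
  have hs : ∀ z : S 𝕜 1 𝕜, HasSum (fun j => ev j z • t j) (∑' j, ev j z • t j) := fun z =>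
    (Summable.of_norm_bounded (hg z).summable (hb z)).hasSum
  have hn : ∀ z : S 𝕜 1 𝕜, ‖∑' j, ev j z • t j‖ ≤ M * ‖z‖ := fun z =>
    tsum_of_norm_bounded (hg z) (hb z)
  refine ⟨LinearMap.mkContinuous
    { toFun := fun z => ∑' j, ev j z • t j
      map_add' := fun x y => ?_
      map_smul' := fun c x => ?_ } M hn, hs, hn⟩
  · refine HasSum.unique (hs (x + y)) ?_
    have h := (hs x).add (hs y)
    refine h.congr_fun ?_
    intro j
    simp only [map_add, add_smul]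
  · refine HasSum.unique (hs (c • x)) ?_
    have h := (hs x).const_smul c
    refine h.congr_fun ?_
    intro j
    simp only [map_smul, smul_eq_mul, mul_smul]

end Pool.Agent.Lib.MP_a0554b_an
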