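import Mathlib
import Pool.Agent.Lib.MP_a0554b_an.L2
import Pool.Agent.Lib.MP_a0554b_an.L3
import Pool.Agent.Lib.MP_a0554b_an.L4
import Pool.Agent.Lib.MP_a0554b_an.L5a
import Pool.Agent.Lib.MP_a0554b_an.B1

set_option autoImplicit false

/-!
# `ℓ_1`: factorization through `ℓ_1`
-/

noncomputable section

namespace Pool.Agent.Lib.MP_a0554b_an

open Filter Topology MeasureTheory
open scoped ENNReal

universe u v w

variable {𝕜 : Type v} [RCLike 𝕜] {Y : Type u} [NormedAddCommGroup Y] [NormedSpace 𝕜 Y] {K C : ℝ}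
    {P : ℕ → Y →L[𝕜] Y} {a : ℕ → Y →L[𝕜] S 𝕜 1 𝕜} {r : ℕ → S 𝕜 1 𝕜 →L[𝕜] Y}

/-- PROOF. `B = Bset P (K * C)`: compact (`Sys.compact`, `isCompact_iff_compactSpace`), metrizable
(subspace of a countable product of metric spaces), with its Borel sigma-algebra
(`borel B`, `⟨rfl⟩`). `L`, `Th` from `Sys.exists_functionals`; for each `x` the measure `θ_x` from
`exists_measure`: `θ_x.real univ = Th x 1 ≤ K ‖x‖` and `‖L x f‖ ≤ Th x (nrmC f) = ∫ ‖f‖ dθ_x`.
`ε = 1 / (2 K)`, `x j` from `Sys.cover`, `F j = {ω | ∀ m, ‖ω m - P m (x j)‖ ≤ ε}` closed,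
`H j = ⋃ i ≤ j, F i`. `J` from `exists_J`. `t j = x j` if `F j` is nonempty, `0` otherwise:
`‖t j‖ ≤ K C + ε ≤ K C + 1` (for `ω ∈ F j`, `‖P m (x j)‖ ≤ ‖ω m‖ + ε` for all `m`). `T` from
`exists_T`. For a functional `φ` with `‖φ‖ ≤ 1` and `m`: `φ (P m (T (J x))) = ∑' j, ev j (J x) * c j`
with `c j = φ (P m (t j))`, `‖c j - φ (ω m)‖ ≤ ε` for `ω ∈ H j \ H (j-1) ⊆ F j`. So by `exists_J` (with
`f = evC P (K * C) φ m`) and `L x f = φ (P m x)`: `‖φ (P m (T (J x) - x))‖ ≤ ε K ‖x‖ = ‖x‖ / 2`.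
Hence `‖P m (T (J x) - x)‖ ≤ ‖x‖ / 2` (Hahn-Banach: `exists_dual_vector`,
`ContinuousLinearMap`...), and (`norm_le`) `‖T (J x) - x‖ ≤ ‖x‖ / 2`. `V` from `exists_inverse` for
`T ∘ J`; `α = J`, `β = V ∘ T`. -/
theorem Sys.factor [CompleteSpace Y] [TopologicalSpace.SeparableSpace Y] (h : Sys K C P a r) :
    ∃ (α : Y →L[𝕜] S 𝕜 1 𝕜) (β : S 𝕜 1 𝕜 →L[𝕜] Y), (∀ y, β (α y) = y) ∧
      (∀ y, ‖α y‖ ≤ K * ‖y‖) ∧ ∀ x, ‖β x‖ ≤ 2 * (K * C + 1) * ‖x‖ := by
  have hK1 := h.one_le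
  have hK0 : 0 < K := by linarith
  have hC0 := h.C_nonneg
  have : CompactSpace (Bset P (K * C)) := isCompact_iff_compactSpace.mp (h.compact _)
  have : SecondCountableTopology Y := UniformSpace.secondCountable_of_separable Y
  have : TopologicalSpace.MetrizableSpace (Bset P (K * C)) :=
    TopologicalSpace.metrizableSpace_of_t3_secondCountable _
  let _ : MeasurableSpace (Bset P (K * C)) := borel _
  have : BorelSpace (Bset P (K * C)) := ⟨rfl⟩
  obtain ⟨L, Th, hTh0, hTh1, hL, hLe⟩ := h.exists_functionals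
  have hL' : ∀ x, ∃ θ : Measure (Bset P (K * C)), IsFiniteMeasure θ ∧
      θ.real Set.univ ≤ K * ‖x‖ ∧ ∀ f : C(Bset P (K * C), 𝕜), ‖L x f‖ ≤ ∫ ω, ‖f ω‖ ∂θ := by
    intro x
    obtain ⟨θ, hfin, hθ⟩ := exists_measure (Th x) (hTh0 x)
    have := hfin
    refine ⟨θ, hfin, ?_, fun f => ?_⟩
    · have h1 := hθ 1
      have h2 : ∫ ω, (1 : C(Bset P (K * C), ℝ)) ω ∂θ = θ.real Set.univ := by
        simp
      rw [← h2, ← h1]
      exact hTh1 x
    · refine (hL x f).trans ?_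
      rw [hθ (nrmC f)]
      exact le_refl _
  set ε : ℝ := 1 / (2 * K) with hεdef
  have hε : 0 < ε := by positivity
  have hε1 : ε ≤ 1 := by
    rw [hεdef, div_le_one (by positivity)]
    linarith
  obtain ⟨x, hx⟩ := h.cover (K * C) hε
  set F : ℕ → Set (Bset P (K * C)) := fun j => {ω | ∀ m, ‖ω.1 m - P m (x j)‖ ≤ ε} with hF
  have hFc : ∀ j, IsClosed (F j) := by
    intro j
    have e : F j = ⋂ m, {ω : Bset P (K * C) | ‖ω.1 m - P m (x j)‖ ≤ ε} := by
      ext ω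
      simp [hF]
    rw [e]
    refine isClosed_iInter fun m => isClosed_le ?_ continuous_const
    exact ((continuous_apply m).comp continuous_subtype_val |>.sub continuous_const).norm
  set H : ℕ → Set (Bset P (K * C)) := fun j => ⋃ i ∈ Finset.range (j + 1), F i with hH
  have hHc : ∀ j, IsClosed (H j) := by
    intro j
    exact isClosed_biUnion_finset fun i _ => hFc i
  have hHm : Monotone H := by
    intro i j hij
    simp only [hH]
    refine Set.iUnion₂_subset fun k hk => ?_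
    refine Set.subset_iUnion₂_of_subset k ?_ (Set.Subset.refl _)
    rw [Finset.mem_range] at hk ⊢
    omega
  have hHU : ⋃ j, H j = Set.univ := by
    rw [Set.eq_univ_iff_forall]
    intro ω
    obtain ⟨j, hj⟩ := hx ω.1 ω.2
    refine Set.mem_iUnion.mpr ⟨j, ?_⟩
    simp only [hH, Set.mem_iUnion]
    exact ⟨j, Finset.mem_range.mpr (Nat.lt_succ_self j), hj⟩
  obtain ⟨J, hJ1, hJ2⟩ := exists_J L hL' H hHc hHm hHU
  classical
  set t : ℕ → Y := fun j => if (F j).Nonempty then x j else 0 with ht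
  have htb : ∀ j, ‖t j‖ ≤ K * C + 1 := by
    intro j
    simp only [ht]
    split_ifs with hne
    · obtain ⟨ω, hω⟩ := hne
      refine h.norm_le _ _ fun m => ?_
      have h1 : ‖ω.1 m - P m (x j)‖ ≤ ε := hω m
      have h2 : ‖ω.1 m‖ ≤ K * C := ω.2.2 m
      have h3 : ‖P m (x j)‖ ≤ ‖ω.1 m‖ + ‖ω.1 m - P m (x j)‖ := by
        have := norm_sub_le (ω.1 m) (ω.1 m - P m (x j))
        rwa [sub_sub_cancel] at this
      linarith
    · rw [norm_zero]
      positivity
  obtain ⟨T, hT1, hT2⟩ := exists_T (𝕜 := 𝕜) t htb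
  have hclose : ∀ ω j, ω ∈ F j → ∀ (φ : Y →L[𝕜] 𝕜) (m : ℕ),
      ‖φ (P m (t j)) - evC P (K * C) φ m ω‖ ≤ ‖φ‖ * ε := by
    intro ω j hω φ m
    have e1 : t j = x j := by
      simp only [ht]
      rw [if_pos ⟨ω, hω⟩]
    have e2 : evC P (K * C) φ m ω = φ (ω.1 m) := rfl
    rw [e1, e2, ← map_sub]
    refine (φ.le_opNorm _).trans ?_
    have h1 : ‖ω.1 m - P m (x j)‖ ≤ ε := hω m
    rw [norm_sub_rev] at h1
    exact mul_le_mul_of_nonneg_left h1 (norm_nonneg _)
  have hmain : ∀ y, ‖(T.comp J) y - y‖ ≤ 1 / 2 * ‖y‖ := by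
    intro y
    refine h.norm_le _ _ fun m => ?_
    refine NormedSpace.norm_le_dual_bound 𝕜 (P m ((T.comp J) y - y)) (M := 1 / 2 * ‖y‖)
      (by positivity) ?_
    intro φ
    have h1 := hJ2 y (evC P (K * C) φ m) (fun j => φ (P m (t j))) (‖φ‖ * ε)
      (‖φ‖ * (K * (K * C + 1))) (by positivity)
      (by
        intro j
        refine (φ.le_opNorm _).trans (mul_le_mul_of_nonneg_left ?_ (norm_nonneg _))
        exact (h.P_norm m _).trans (mul_le_mul_of_nonneg_left (htb j) hK0.le))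
      (by
        intro ω hω
        have hω' : ω ∈ F 0 := by
          simpa [hH] using hω
        exact hclose ω 0 hω' φ m)
      (by
        intro j ω hω
        have hω' : ω ∈ F (j + 1) := by
          obtain ⟨ha, hb⟩ := hω
          simp only [hH, Set.mem_iUnion] at ha hb
          obtain ⟨i, hi, hiF⟩ := ha
          rw [Finset.mem_range] at hi
          rcases Nat.lt_or_ge i (j + 1) with hlt | hge
          · exact absurd ⟨i, Finset.mem_range.mpr hlt, hiF⟩ hb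
          · have : i = j + 1 := by omega
            rw [← this]
            exact hiF
        exact hclose ω (j + 1) hω' φ m)
    have h2 : HasSum (fun j => ev j (J y) * φ (P m (t j))) (φ (P m (T (J y)))) := by
      have := (hT1 (J y)).mapL (φ.comp (P m))
      simpa [Function.comp_def, map_smul, smul_eq_mul] using this
    rw [h2.tsum_eq, hLe] at h1
    have e : φ (P m ((T.comp J) y - y)) = φ (P m (T (J y))) - φ (P m y) := by
      rw [map_sub, map_sub]
      rfl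
    rw [e]
    refine h1.trans (le_of_eq ?_)
    rw [hεdef]
    field_simp
  obtain ⟨V, hV1, hV2, hV3⟩ := exists_inverse (T.comp J) hmain
  refine ⟨J, V.comp T, fun y => hV1 y, hJ1, fun z => ?_⟩
  have h1 : ‖V (T z)‖ ≤ 2 * ‖T z‖ := hV3 _
  have h2 := hT2 z
  calc ‖(V.comp T) z‖ ≤ 2 * ‖T z‖ := h1
    _ ≤ 2 * ((K * C + 1) * ‖z‖) := by linarith
    _ = 2 * (K * C + 1) * ‖z‖ := by ring

end Pool.Agent.Lib.MP_a0554b_an
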