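import Mathlib

set_option autoImplicit false

/-!
# Projections onto subspaces of finite codimension
-/

noncomputable section

namespace Pool.Agent.Lib.MP_a0554b_an

open Filter Topology

universe u v w

variable {𝕜 : Type v} [RCLike 𝕜]

/-- a closed subspace of codimension at most `m` is the range of a projection of norm at most
`3 ^ m` -/
theorem exists_proj_of_defect {Z : Type u} [NormedAddCommGroup Z] [NormedSpace 𝕜 Z] (m : ℕ) :
    ∀ (W : Submodule 𝕜 Z), IsClosed (W : Set Z) → ∀ s : Fin m → Z,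
      (∀ z, ∃ c : Fin m → 𝕜, z - ∑ j, c j • s j ∈ W) →
      ∃ P : Z →L[𝕜] Z, (∀ z, P z ∈ W) ∧ (∀ w ∈ W, P w = w) ∧ ∀ z, ‖P z‖ ≤ 3 ^ m * ‖z‖ := by
  induction m with
  | zero =>
    intro W _ s h
    refine ⟨ContinuousLinearMap.id 𝕜 Z, fun z => ?_, fun w _ => rfl, fun z => ?_⟩
    · obtain ⟨c, hc⟩ := h z
      simpa using hc
    · simp
  | succ m ih =>
    intro W hW s h
    set t : Z := s (Fin.last m) with ht
    obtain ⟨P₁, h1, h2, h3⟩ := ih (W ⊔ Submodule.span 𝕜 {t})
      (Submodule.isClosed_sup_finiteDimensional W _ hW) (fun j => s j.castSucc) (fun z => by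
        obtain ⟨c, hc⟩ := h z
        refine ⟨fun j => c j.castSucc, ?_⟩
        rw [Fin.sum_univ_castSucc] at hc
        have e : z - ∑ j : Fin m, c j.castSucc • s j.castSucc =
            (z - (∑ j : Fin m, c j.castSucc • s j.castSucc + c (Fin.last m) • t)) +
              c (Fin.last m) • t := by abel
        rw [e]
        exact Submodule.add_mem_sup hc
          (Submodule.smul_mem _ _ (Submodule.mem_span_singleton_self t)))
    by_cases hmem : t ∈ W
    · have e : W ⊔ Submodule.span 𝕜 {t} = W := by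
        rw [sup_eq_left, Submodule.span_singleton_le_iff_mem]
        exact hmem
      rw [e] at h1 h2
      refine ⟨P₁, h1, h2, fun z => (h3 z).trans ?_⟩
      gcongr
      · norm_num
      · exact Nat.le_succ m
    · have : IsClosed (W : Set Z) := hW
      have hq : (Submodule.Quotient.mk t : Z ⧸ W) ≠ 0 := by
        rw [Ne, Submodule.Quotient.mk_eq_zero]
        exact hmem
      have hq0 : 0 < ‖(Submodule.Quotient.mk t : Z ⧸ W)‖ := norm_pos_iff.2 hq
      obtain ⟨g, hg1, hg2⟩ := exists_dual_vector 𝕜 (Submodule.Quotient.mk t : Z ⧸ W) hq0.ne'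
      obtain ⟨x₀, hx₀, hx₀'⟩ := Submodule.Quotient.norm_mk_lt
        (Submodule.Quotient.mk t : Z ⧸ W) hq0
      set d : ℝ := ‖(Submodule.Quotient.mk t : Z ⧸ W)‖ with hd
      let f : Z →ₗ[𝕜] 𝕜 := ((d : 𝕜)⁻¹) • ((g : (Z ⧸ W) →ₗ[𝕜] 𝕜) ∘ₗ W.mkQ)
      have hf : ∀ z, f z = (d : 𝕜)⁻¹ * g (Submodule.Quotient.mk z) := fun z => rfl
      have hdk : (d : 𝕜) ≠ 0 := by
        rw [Ne, RCLike.ofReal_eq_zero]
        exact hq0.ne'
      have hfW : ∀ w ∈ W, f w = 0 := by
        intro w hw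
        rw [hf, (Submodule.Quotient.mk_eq_zero W).2 hw, map_zero, mul_zero]
      have hft : f t = 1 := by
        rw [hf, hg2]
        exact inv_mul_cancel₀ hdk
      have hfn : ∀ z, ‖f z‖ ≤ d⁻¹ * ‖z‖ := by
        intro z
        rw [hf, norm_mul, norm_inv, RCLike.norm_ofReal, abs_of_pos hq0]
        gcongr
        refine (g.le_opNorm _).trans ?_
        rw [hg1, one_mul]
        exact Submodule.Quotient.norm_mk_le W z
      let F : Z →L[𝕜] 𝕜 := f.mkContinuous d⁻¹ hfn
      have hF : ∀ z, F z = f z := fun z => rfl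
      have htx : t - x₀ ∈ W := by
        rw [← Submodule.Quotient.mk_eq_zero, Submodule.Quotient.mk_sub, hx₀, sub_self]
      refine ⟨P₁ - (F.comp P₁).smulRight x₀, fun z => ?_, fun w hw => ?_, fun z => ?_⟩
      · obtain ⟨w, hw, u, hu, hwu⟩ := Submodule.mem_sup.1 (h1 z)
        obtain ⟨c, rfl⟩ := Submodule.mem_span_singleton.1 hu
        have e1 : F (P₁ z) = c := by
          rw [hF, ← hwu, map_add, map_smul, hfW w hw, hft, zero_add, smul_eq_mul, mul_one]
        have e2 : (P₁ - (F.comp P₁).smulRight x₀) z = w + c • (t - x₀) := by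
          simp only [sub_apply, ContinuousLinearMap.smulRight_apply,
            ContinuousLinearMap.comp_apply]
          rw [e1, ← hwu, smul_sub]
          abel
        rw [e2]
        exact W.add_mem hw (W.smul_mem _ htx)
      · have e1 : P₁ w = w := h2 w (Submodule.mem_sup_left hw)
        simp only [sub_apply, ContinuousLinearMap.smulRight_apply,
            ContinuousLinearMap.comp_apply]
        rw [e1, hF, hfW w hw, zero_smul, sub_zero]
      · simp only [sub_apply, ContinuousLinearMap.smulRight_apply,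
            ContinuousLinearMap.comp_apply]
        have e3 : ‖F (P₁ z) • x₀‖ ≤ 2 * ‖P₁ z‖ := by
          rw [norm_smul]
          have e4 : ‖F (P₁ z)‖ ≤ d⁻¹ * ‖P₁ z‖ := hfn _
          have e5 : ‖x₀‖ ≤ 2 * d := by linarith
          calc ‖F (P₁ z)‖ * ‖x₀‖ ≤ (d⁻¹ * ‖P₁ z‖) * (2 * d) := by gcongr
            _ = 2 * ‖P₁ z‖ := by field_simp
        calc ‖P₁ z - F (P₁ z) • x₀‖ ≤ ‖P₁ z‖ + ‖F (P₁ z) • x₀‖ := norm_sub_le _ _
          _ ≤ ‖P₁ z‖ + 2 * ‖P₁ z‖ := by gcongr
          _ = 3 * ‖P₁ z‖ := by ring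
          _ ≤ 3 * (3 ^ m * ‖z‖) := by gcongr; exact h3 z
          _ = 3 ^ (m + 1) * ‖z‖ := by ring

/-- a linear map with range in the span of `m` vectors is zero modulo `m` vectors -/
theorem exists_lift_of_span {Z : Type u} [AddCommGroup Z] [Module 𝕜 Z] {V : Type w}
    [AddCommGroup V] [Module 𝕜 V] (Φ : Z →ₗ[𝕜] V) {m : ℕ} (v : Fin m → V)
    (h : ∀ z, Φ z ∈ Submodule.span 𝕜 (Set.range v)) :
    ∃ s : Fin m → Z, ∀ z, ∃ c : Fin m → 𝕜, Φ (z - ∑ j, c j • s j) = 0 := by
  have hle : LinearMap.range Φ ≤ Submodule.span 𝕜 (Set.range v) := by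
    rintro _ ⟨z, rfl⟩
    exact h z
  have : FiniteDimensional 𝕜 (Submodule.span 𝕜 (Set.range v)) :=
    FiniteDimensional.span_of_finite 𝕜 (Set.finite_range v)
  have : FiniteDimensional 𝕜 (LinearMap.range Φ) := Submodule.finiteDimensional_of_le hle
  have hd : Module.finrank 𝕜 (LinearMap.range Φ) ≤ m := by
    refine (Submodule.finrank_mono hle).trans ?_
    have := finrank_range_le_card (R := 𝕜) v
    rwa [Fintype.card_fin] at this
  set d := Module.finrank 𝕜 (LinearMap.range Φ) with hdd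
  let B := Module.finBasis 𝕜 (LinearMap.range Φ)
  have hl : ∀ i : Fin d, ∃ z, Φ z = (B i : V) := fun i => (B i).2
  choose l hl using hl
  let s : Fin m → Z := fun j => if hj : (j : ℕ) < d then l ⟨j, hj⟩ else 0
  refine ⟨s, fun z => ?_⟩
  have h1 : (∑ i, B.repr ⟨Φ z, z, rfl⟩ i • l i) ∈ Submodule.span 𝕜 (Set.range s) := by
    refine Submodule.sum_mem _ fun i _ => Submodule.smul_mem _ _ (Submodule.subset_span ?_)
    refine ⟨⟨i, lt_of_lt_of_le i.2 hd⟩, ?_⟩
    simp only [s]
    rw [dif_pos i.2]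
  obtain ⟨c, hc⟩ := (Submodule.mem_span_range_iff_exists_fun 𝕜).1 h1
  refine ⟨c, ?_⟩
  rw [hc, map_sub, map_sum]
  have h2 := congrArg (fun x : LinearMap.range Φ => (x : V)) (B.sum_repr ⟨Φ z, z, rfl⟩)
  simp only [Submodule.coe_sum, Submodule.coe_smul] at h2
  rw [sub_eq_zero]
  conv_lhs => rw [← h2]
  refine Finset.sum_congr rfl fun i _ => ?_
  rw [map_smul, hl]

end Pool.Agent.Lib.MP_a0554b_an
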