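import Mathlib
import Pool.Agent.Lib.MP_a0554b_an.L5
import Pool.Agent.Lib.MP_a0554b_an.L7

set_option autoImplicit false

/-!
# The bounded completion of a system, and spaces of finite codimension in it
-/

noncomputable section

namespace Pool.Agent.Lib.MP_a0554b_an

open Filter Topology
open scoped ENNReal

universe u v w

variable {𝕜 : Type v} [RCLike 𝕜] {Y : Type u} [NormedAddCommGroup Y] [NormedSpace 𝕜 Y]

/-- the bounded completion: the bounded coherent sequences with the supremum norm -/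
def Hat (P : ℕ → Y →L[𝕜] Y) : Submodule 𝕜 (lp (fun _ : ℕ => Y) ∞) where
  carrier := {z | ∀ n, P n (z (n + 1)) = z n}
  add_mem' := by
    intro x y hx hy n
    have h1 : (x + y : lp (fun _ : ℕ => Y) ∞) (n + 1) = x (n + 1) + y (n + 1) := rfl
    have h2 : (x + y : lp (fun _ : ℕ => Y) ∞) n = x n + y n := rfl
    rw [h1, h2, map_add, hx n, hy n]
  zero_mem' := by
    intro n
    have h1 : (0 : lp (fun _ : ℕ => Y) ∞) (n + 1) = 0 := rfl
    have h2 : (0 : lp (fun _ : ℕ => Y) ∞) n = 0 := rfl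
    rw [h1, h2, map_zero]
  smul_mem' := by
    intro c x hx n
    have h1 : (c • x : lp (fun _ : ℕ => Y) ∞) (n + 1) = c • x (n + 1) := rfl
    have h2 : (c • x : lp (fun _ : ℕ => Y) ∞) n = c • x n := rfl
    rw [h1, h2, map_smul, hx n]

variable {P : ℕ → Y →L[𝕜] Y}

/-- the `n`-th coordinate -/
def hev (P : ℕ → Y →L[𝕜] Y) (n : ℕ) : Hat P →L[𝕜] Y :=
  LinearMap.mkContinuous
    { toFun := fun z => z.1 n
      map_add' := fun _ _ => rfl
      map_smul' := fun _ _ => rfl } 1
    (fun z => by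
      rw [one_mul]
      exact lp.norm_apply_le_norm ENNReal.top_ne_zero z.1 n)

theorem hev_norm_le (n : ℕ) (z : Hat P) : ‖hev P n z‖ ≤ ‖z‖ :=
  lp.norm_apply_le_norm ENNReal.top_ne_zero z.1 n

theorem hev_coh (n : ℕ) (z : Hat P) : P n (hev P (n + 1) z) = hev P n z := z.2 n

theorem hat_ext {z z' : Hat P} (h : ∀ n, hev P n z = hev P n z') : z = z' :=
  Subtype.ext (lp.ext (funext h))

theorem hat_norm_le {z : Hat P} {M : ℝ} (h : ∀ n, ‖hev P n z‖ ≤ M) : ‖z‖ ≤ M :=
  lp.norm_le_of_forall_le ((norm_nonneg _).trans (h 0)) h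

theorem exists_hat (f : ℕ → Y) (hf : ∀ n, P n (f (n + 1)) = f n) {M : ℝ}
    (hM : ∀ n, ‖f n‖ ≤ M) : ∃ z : Hat P, (∀ n, hev P n z = f n) ∧ ‖z‖ ≤ M := by
  have h1 : Memℓp f ∞ := memℓp_infty ⟨M, by rintro _ ⟨n, rfl⟩; exact hM n⟩
  refine ⟨⟨⟨f, h1⟩, hf⟩, fun n => rfl, ?_⟩
  exact hat_norm_le hM

theorem exists_hat_op {E : Type w} [NormedAddCommGroup E] [NormedSpace 𝕜 E]
    (T : ℕ → E →ₗ[𝕜] Y) (M : ℝ) (h1 : ∀ x n, P n (T (n + 1) x) = T n x)
    (h2 : ∀ x n, ‖T n x‖ ≤ M * ‖x‖) :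
    ∃ A : E →L[𝕜] Hat P, (∀ x n, hev P n (A x) = T n x) ∧ ∀ x, ‖A x‖ ≤ M * ‖x‖ := by
  have h : ∀ x, ∃ z : Hat P, (∀ n, hev P n z = T n x) ∧ ‖z‖ ≤ M * ‖x‖ := fun x =>
    exists_hat (fun n => T n x) (h1 x) (h2 x)
  choose f hf1 hf2 using h
  refine ⟨LinearMap.mkContinuous
    { toFun := f
      map_add' := fun x y => hat_ext fun k => by rw [map_add, hf1, hf1, hf1, map_add]
      map_smul' := fun c x => hat_ext fun k => by
        rw [map_smul, hf1, hf1, map_smul]; rfl } M hf2,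
    fun y k => hf1 y k, fun y => hf2 y⟩

instance hat_complete [CompleteSpace Y] (P : ℕ → Y →L[𝕜] Y) : CompleteSpace (Hat P) := by
  have h : IsClosed ((Hat P : Submodule 𝕜 (lp (fun _ : ℕ => Y) ∞)) :
      Set (lp (fun _ : ℕ => Y) ∞)) := by
    have e : ((Hat P : Submodule 𝕜 (lp (fun _ : ℕ => Y) ∞)) : Set (lp (fun _ : ℕ => Y) ∞)) =
        ⋂ n, {z | P n (z (n + 1)) = z n} := by
      ext z
      simp only [Set.mem_iInter, Set.mem_ofPred_eq]
      rfl
    rw [e]
    have hc : ∀ n, Continuous fun z : lp (fun _ : ℕ => Y) ∞ => z n := fun n => by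
      have h1 : ∀ z : lp (fun _ : ℕ => Y) ∞, ‖z n‖ ≤ 1 * ‖z‖ := fun z => by
        rw [one_mul]; exact lp.norm_apply_le_norm ENNReal.top_ne_zero z n
      exact (LinearMap.mkContinuous
        ({ toFun := fun z => z n
           map_add' := fun _ _ => rfl
           map_smul' := fun _ _ => rfl } : lp (fun _ : ℕ => Y) ∞ →ₗ[𝕜] Y) 1 h1).continuous
    exact isClosed_iInter fun n => isClosed_eq ((P n).continuous.comp (hc (n + 1))) (hc n)
  exact h.completeSpace_coe

variable {K C : ℝ} {L : Type w} [NormedAddCommGroup L] [NormedSpace 𝕜 L]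
    {a : ℕ → Y →L[𝕜] L} {r : ℕ → L →L[𝕜] Y}

theorem hev_P (h : ∀ m n y, P m (P n y) = P (min m n) y) (z : Hat P) (m n : ℕ) (hmn : m ≤ n) :
    P m (hev P n z) = hev P m z := by
  induction n, hmn using Nat.le_induction with
  | base =>
    rw [← hev_coh m z, h, min_self]
  | succ n hmn ih =>
    rw [← ih, ← hev_coh n z, h, min_eq_left hmn]

theorem hev_P' (h : ∀ m n y, P m (P n y) = P (min m n) y) (z : Hat P) (m n : ℕ) :
    P m (hev P n z) = hev P (min m n) z := by
  rcases le_total m n with hmn | hmn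
  · rw [min_eq_left hmn, hev_P h z m n hmn]
  · rw [min_eq_right hmn, ← hev_P h z n n le_rfl, h, min_eq_right hmn]

/-- the system of the bounded completion -/
theorem Sys0.hat (h : Sys0 K C P a r) :
    ∃ (J : Y →L[𝕜] Hat P) (P' : ℕ → Hat P →L[𝕜] Hat P) (a' : ℕ → Hat P →L[𝕜] L)
      (r' : ℕ → L →L[𝕜] Hat P), Sys K (K * C) P' a' r' ∧ (∀ y n, hev P n (J y) = P n y) ∧
      (∀ y, ‖J y‖ ≤ K * ‖y‖) ∧ ∀ y, ‖y‖ ≤ ‖J y‖ := by
  have hK0 : 0 ≤ K := zero_le_one.trans h.one_le
  obtain ⟨J, hJ, hJn⟩ := exists_hat_op (P := P) (fun n => ((P n : Y →L[𝕜] Y) : Y →ₗ[𝕜] Y)) K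
    (fun y n => by
      change P n (P (n + 1) y) = P n y
      rw [h.P_P, min_eq_left (Nat.le_succ n)])
    (fun y n => h.P_norm n y)
  have hJ' : ∀ y n, hev P n (J y) = P n y := hJ
  have hop : ∀ k, ∃ A : Hat P →L[𝕜] Hat P, (∀ z n, hev P n (A z) = P k (hev P n z)) ∧
      ∀ z, ‖A z‖ ≤ K * ‖z‖ := by
    intro k
    obtain ⟨A, hA, hA'⟩ := exists_hat_op (P := P)
      (fun n => (((P k).comp (hev P n) : Hat P →L[𝕜] Y) : Hat P →ₗ[𝕜] Y)) K
      (fun z n => by
        change P n (P k (hev P (n + 1) z)) = P k (hev P n z)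
        rw [h.P_P, min_comm, ← h.P_P, hev_coh])
      (fun z n => (h.P_norm k _).trans (by gcongr; exact hev_norm_le n z))
    exact ⟨A, hA, hA'⟩
  choose P' hP' hP'n using hop
  have key : ∀ z n, P' n z = J (hev P n z) := by
    intro z n
    apply hat_ext
    intro k
    rw [hP', hJ', hev_P' h.P_P, hev_P' h.P_P, min_comm]
  refine ⟨J, P', fun n => (a n).comp (hev P n), fun n => J.comp (r n), ?_, hJ', hJn, fun y => ?_⟩
  · refine
      { one_le := h.one_le
        C_nonneg := mul_nonneg hK0 h.C_nonneg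
        P_norm := hP'n
        P_P := ?_
        fin := ?_
        norm_le := ?_
        complete := ?_
        a_norm := ?_
        r_norm := ?_
        r_a := ?_
        P_r := ?_ }
    · intro m n z
      apply hat_ext
      intro k
      rw [hP', hP', hP', h.P_P]
    · intro n
      have := h.fin n
      refine Submodule.finiteDimensional_of_le
        (S₂ := (LinearMap.range (P n : Y →ₗ[𝕜] Y)).map (J : Y →ₗ[𝕜] Hat P)) ?_
      rintro _ ⟨z, rfl⟩
      refine ⟨hev P n z, ⟨hev P (n + 1) z, hev_coh n z⟩, (key z n).symm⟩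
    · intro z M hM
      refine hat_norm_le fun n => ?_
      refine le_trans ?_ (hM n)
      have h1 : hev P n (P' n z) = hev P n z := by rw [hP', hev_P h.P_P z n n le_rfl]
      rw [← h1]
      exact hev_norm_le n _
    · rintro z hz ⟨M, hM⟩
      have hzz : ∀ m n, m ≤ n → P' m (z n) = z m := by
        intro m n hmn
        have hPP' : ∀ m n w, P' m (P' n w) = P' (min m n) w := by
          intro m n w
          apply hat_ext
          intro k
          rw [hP', hP', hP', h.P_P]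
        induction n, hmn using Nat.le_induction with
        | base =>
          conv_lhs => rw [← hz m]
          rw [hPP', min_self, hz]
        | succ n hmn ih =>
          rw [← ih, ← hz n, hPP', min_eq_left hmn]
      have hzz2 : ∀ m n, m ≤ n → hev P m (z n) = hev P m (z m) := by
        intro m n hmn
        rw [← hzz m n hmn, hP', hev_P h.P_P _ m m le_rfl]
      obtain ⟨y, hy, -⟩ := exists_hat (P := P) (fun n => hev P n (z n)) (fun n => by
        rw [hev_coh, hzz2 n (n + 1) (Nat.le_succ n)]) (M := M) (fun n =>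
          (hev_norm_le n _).trans (hM n))
      refine ⟨y, fun n => ?_⟩
      apply hat_ext
      intro k
      rw [hP', hy]
      rcases le_total k n with hkn | hkn
      · rw [← hzz2 k n hkn, hev_P' h.P_P, min_eq_right hkn]
      · rw [← hzz n k hkn, hP']
    · intro n z
      exact (h.a_norm n _).trans (by gcongr; exact hev_norm_le n z)
    · intro n x
      refine (hJn _).trans ?_
      rw [mul_assoc]
      gcongr
      exact h.r_norm n x
    · intro n z
      rw [key]
      change J (r n (a n (hev P n z))) = _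
      rw [h.r_a, hev_P h.P_P z n n le_rfl]
    · intro n x
      rw [key]
      change J (hev P n (J (r n x))) = J (r n x)
      rw [hJ', h.P_r]
  · refine le_of_tendsto (h.lim y).norm (Eventually.of_forall fun n => ?_)
    rw [← hJ']
    exact hev_norm_le n _

/-- If `Y` has finite codimension in its bounded completion, the identity of `Y` factors through
`ℓ_1`. -/
theorem Sys0.factor [CompleteSpace Y] [TopologicalSpace.SeparableSpace Y]
    {a : ℕ → Y →L[𝕜] S 𝕜 1 𝕜} {r : ℕ → S 𝕜 1 𝕜 →L[𝕜] Y} (h : Sys0 K C P a r)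
    {m : ℕ} (s : Fin m → Hat P)
    (hs : ∀ z : Hat P, ∃ (c : Fin m → 𝕜) (x : Y), ∀ n,
      hev P n (z - ∑ j, c j • s j) = P n x) :
    ∃ (α : Y →L[𝕜] S 𝕜 1 𝕜) (β : S 𝕜 1 𝕜 →L[𝕜] Y), (∀ y, β (α y) = y) ∧
      (∀ y, ‖α y‖ ≤ K * K * ‖y‖) ∧
      ∀ x, ‖β x‖ ≤ 3 ^ m * (2 * (K * (K * C) + 1)) * ‖x‖ := by
  have hK0 : 0 ≤ K := zero_le_one.trans h.one_le
  obtain ⟨J, P', a', r', hsys, hJ, hJn, hJn'⟩ := h.hat
  have hs' : ∀ z : Hat P, ∃ (c : Fin m → 𝕜) (x : Y), z - ∑ j, c j • s j = J x := fun z => by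
    obtain ⟨c, x, hx⟩ := hs z
    exact ⟨c, x, hat_ext fun n => by rw [hx, hJ]⟩
  have hsurj : Function.Surjective fun q : Y × (Fin m → 𝕜) => J q.1 + ∑ j, q.2 j • s j := by
    intro z
    obtain ⟨c, x, hx⟩ := hs' z
    exact ⟨(x, c), by simp only; rw [← hx]; abel⟩
  have : TopologicalSpace.SeparableSpace (Hat P) := by
    refine hsurj.denseRange.separableSpace ?_
    exact (J.continuous.comp continuous_fst).add (continuous_finsetSum _ fun j _ =>
      ((continuous_apply j).comp continuous_snd).smul continuous_const)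
  obtain ⟨α, β, h1, h2, h3⟩ := hsys.factor
  have hanti : AntilipschitzWith 1 J := by
    refine ContinuousLinearMap.antilipschitz_of_bound J fun y => ?_
    rw [NNReal.coe_one, one_mul]
    exact hJn' y
  have hclosed : IsClosed ((LinearMap.range (J : Y →ₗ[𝕜] Hat P)) : Set (Hat P)) := by
    have := hanti.isClosed_range J.uniformContinuous
    exact this
  obtain ⟨π, hπ1, hπ2, hπ3⟩ := exists_proj_of_defect m (LinearMap.range (J : Y →ₗ[𝕜] Hat P))
    hclosed s (fun z => by
      obtain ⟨c, x, hx⟩ := hs' z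
      exact ⟨c, by rw [hx]; exact ⟨x, rfl⟩⟩)
  have hinj : ∀ y y', J y = J y' → y = y' := fun y y' e => hanti.injective e
  choose q hq0 using fun z => (hπ1 z : ∃ y, J y = π z)
  have hq : ∀ z, J (q z) = π z := hq0
  have hqn : ∀ z, ‖q z‖ ≤ 3 ^ m * ‖z‖ := fun z => by
    refine (hJn' _).trans ?_
    rw [hq]
    exact hπ3 z
  let Q : Hat P →L[𝕜] Y := LinearMap.mkContinuous
    { toFun := q
      map_add' := fun x y => hinj _ _ (by rw [map_add, hq, hq, hq, map_add])
      map_smul' := fun c x => hinj _ _ (by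
        rw [map_smul, hq, hq, map_smul]; rfl) } (3 ^ m) hqn
  have hQ : ∀ z, J (Q z) = π z := hq
  have hQn : ∀ z, ‖Q z‖ ≤ 3 ^ m * ‖z‖ := hqn
  refine ⟨α.comp J, Q.comp β, fun y => hinj _ _ ?_, fun y => ?_, fun x => ?_⟩
  · change J (Q (β (α (J y)))) = J y
    rw [hQ, h1]
    exact hπ2 _ ⟨y, rfl⟩
  · change ‖α (J y)‖ ≤ _
    refine (h2 _).trans ?_
    rw [mul_assoc]
    gcongr
    exact hJn y
  · change ‖Q (β x)‖ ≤ _
    refine (hQn _).trans ?_
    rw [mul_assoc]
    gcongr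
    exact h3 x

end Pool.Agent.Lib.MP_a0554b_an
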