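import Mathlib
import Pool.Agent.Lib.MP_a0554b_an.L8

set_option autoImplicit false

/-!
# The defect of bounded completeness passes to block subspaces
-/

noncomputable section

namespace Pool.Agent.Lib.MP_a0554b_an

open Filter Topology
open scoped ENNReal

universe u v w

variable {𝕜 : Type v} [RCLike 𝕜] {X : Type u} [NormedAddCommGroup X] [NormedSpace 𝕜 X]

/-- the coefficient sequences of convergent series -/
def convSub (b : SchauderBasis 𝕜 X) : Submodule 𝕜 (ℕ → 𝕜) where
  carrier := {a | ∃ x, Tendsto (fun n => ∑ i ∈ Finset.range n, a i • b i) atTop (𝓝 x)}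
  add_mem' := by
    rintro a a' ⟨x, hx⟩ ⟨x', hx'⟩
    refine ⟨x + x', (hx.add hx').congr fun n => ?_⟩
    rw [← Finset.sum_add_distrib]
    exact Finset.sum_congr rfl fun i _ => by rw [Pi.add_apply, add_smul]
  zero_mem' := ⟨0, by simp⟩
  smul_mem' := by
    rintro c a ⟨x, hx⟩
    refine ⟨c • x, (hx.const_smul c).congr fun n => ?_⟩
    rw [Finset.smul_sum]
    exact Finset.sum_congr rfl fun i _ => by rw [Pi.smul_apply, smul_eq_mul, mul_smul]

theorem mem_convSub {b : SchauderBasis 𝕜 X} {a : ℕ → 𝕜} : a ∈ convSub b ↔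
    ∃ x, Tendsto (fun n => ∑ i ∈ Finset.range n, a i • b i) atTop (𝓝 x) := Iff.rfl

variable {b : SchauderBasis 𝕜 X} {y : ℕ → X} {e : ℕ → ℕ}
  {P : ℕ → closedSpan 𝕜 y →L[𝕜] closedSpan 𝕜 y}

/-- the coefficient sequence of an element of the bounded completion -/
def hcoef (b : SchauderBasis 𝕜 X) (P : ℕ → closedSpan 𝕜 y →L[𝕜] closedSpan 𝕜 y) :
    Hat P →ₗ[𝕜] (ℕ → 𝕜) where
  toFun z i := b.coord i (hev P (i + 1) z : X)
  map_add' z z' := by
    funext i
    rw [Pi.add_apply, map_add, Submodule.coe_add, map_add]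
  map_smul' c z := by
    funext i
    rw [Pi.smul_apply, map_smul, Submodule.coe_smul, map_smul]
    rfl

theorem hcoef_apply (z : Hat P) (i : ℕ) : hcoef b P z i = b.coord i (hev P (i + 1) z : X) := rfl

theorem hcoef_eq (he : StrictMono e)
    (hPc : ∀ n (x : closedSpan 𝕜 y), (P n x : X) = b.proj (e n) (x : X))
    (hPP : ∀ m n x, P m (P n x) = P (min m n) x) (z : Hat P) (n i : ℕ) (hi : i < e n) :
    b.coord i (hev P n z : X) = hcoef b P z i := by
  rw [hcoef_apply]
  rcases le_total n (i + 1) with h | h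
  · rw [← hev_P hPP z n (i + 1) h, hPc, L0_coord_proj b _ _ hi]
  · have hi' : i < e (i + 1) := lt_of_lt_of_le (Nat.lt_succ_self i) (he.le_apply)
    rw [← hev_P hPP z (i + 1) n h, hPc, L0_coord_proj b _ _ hi']

theorem hcoef_sum (he : StrictMono e)
    (hPc : ∀ n (x : closedSpan 𝕜 y), (P n x : X) = b.proj (e n) (x : X))
    (hPP : ∀ m n x, P m (P n x) = P (min m n) x) (z : Hat P) (k : ℕ) :
    ∑ i ∈ Finset.range k, hcoef b P z i • b i = b.proj k (hev P k z : X) := by
  rw [SchauderBasis.proj_apply]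
  refine Finset.sum_congr rfl fun i hi => ?_
  rw [hcoef_eq he hPc hPP z k i (lt_of_lt_of_le (Finset.mem_range.1 hi) he.le_apply)]

theorem hev_eq_sum (he : StrictMono e)
    (hPc : ∀ n (x : closedSpan 𝕜 y), (P n x : X) = b.proj (e n) (x : X))
    (hPP : ∀ m n x, P m (P n x) = P (min m n) x) (z : Hat P) (n : ℕ) :
    (hev P n z : X) = ∑ i ∈ Finset.range (e n), hcoef b P z i • b i := by
  conv_lhs => rw [← hev_P hPP z n n le_rfl, hPc, SchauderBasis.proj_apply]
  exact Finset.sum_congr rfl fun i hi => by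
    rw [hcoef_eq he hPc hPP z n i (Finset.mem_range.1 hi)]

/-- the defect of bounded completeness of the block subspace is at most the one of `X` -/
theorem exists_defect {K : ℝ} (hK : ∀ n x, ‖b.proj n x‖ ≤ K * ‖x‖) (hK0 : 0 ≤ K)
    (he : StrictMono e)
    (hPc : ∀ n (x : closedSpan 𝕜 y), (P n x : X) = b.proj (e n) (x : X))
    (hPP : ∀ m n x, P m (P n x) = P (min m n) x) {m : ℕ} (hb : BoundedlyCompleteUpTo b m) :
    ∃ s : Fin m → Hat P, ∀ z : Hat P, ∃ (c : Fin m → 𝕜) (x : closedSpan 𝕜 y), ∀ n,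
      hev P n (z - ∑ j, c j • s j) = P n x := by
  obtain ⟨s₀, hs₀⟩ := hb
  obtain ⟨s, hs⟩ := exists_lift_of_span ((convSub b).mkQ ∘ₗ hcoef b P)
    (fun j => (convSub b).mkQ (s₀ j)) (fun z => by
      obtain ⟨c, x, hx⟩ := hs₀ (hcoef b P z) ⟨K * ‖z‖, fun n => by
        rw [hcoef_sum he hPc hPP]
        refine (hK n _).trans ?_
        gcongr
        exact hev_norm_le n z⟩
      have h1 : hcoef b P z - ∑ j, c j • s₀ j ∈ convSub b := by
        refine ⟨x, hx.congr fun n => Finset.sum_congr rfl fun i _ => ?_⟩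
        rw [Pi.sub_apply, Finset.sum_apply]
        rfl
      have h2 : (convSub b).mkQ (hcoef b P z) = ∑ j, c j • (convSub b).mkQ (s₀ j) := by
        rw [← sub_eq_zero]
        have h3 := (Submodule.Quotient.mk_eq_zero (convSub b)).2 h1
        rw [← Submodule.mkQ_apply, map_sub, map_sum] at h3
        simpa only [map_smul] using h3
      change (convSub b).mkQ (hcoef b P z) ∈ _
      rw [h2]
      exact Submodule.sum_mem _ fun j _ => Submodule.smul_mem _ _
        (Submodule.subset_span ⟨j, rfl⟩))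
  refine ⟨s, fun z => ?_⟩
  obtain ⟨c, hc⟩ := hs z
  set z' := z - ∑ j, c j • s j with hz'
  have h4 : hcoef b P z' ∈ convSub b := by
    rw [← Submodule.Quotient.mk_eq_zero]
    exact hc
  obtain ⟨x, hx⟩ := h4
  have hlim : Tendsto (fun n => (hev P n z' : X)) atTop (𝓝 x) := by
    refine (hx.comp he.tendsto_atTop).congr fun n => ?_
    rw [hev_eq_sum he hPc hPP z' n]
    rfl
  have hxY : x ∈ closedSpan 𝕜 y :=
    (Submodule.isClosed_topologicalClosure _).mem_of_tendsto hlim
      (Eventually.of_forall fun n => (hev P n z').2)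
  have hlim' : Tendsto (fun n => hev P n z') atTop (𝓝 ⟨x, hxY⟩) := by
    rw [tendsto_subtype_rng]
    exact hlim
  refine ⟨c, ⟨x, hxY⟩, fun n => ?_⟩
  have h5 : Tendsto (fun k => P n (hev P k z')) atTop (𝓝 (P n ⟨x, hxY⟩)) :=
    ((P n).continuous.tendsto _).comp hlim'
  refine tendsto_nhds_unique (tendsto_const_nhds.congr' ?_) h5
  filter_upwards [eventually_ge_atTop n] with k hk
  rw [hev_P hPP z' n k hk]

end Pool.Agent.Lib.MP_a0554b_an
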