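import Mathlib
import Pool.Agent.Lib.MP_a0554b_an.A1

set_option autoImplicit false

/-!
# `S 𝕜 p 𝕜` is `ℓ_p` for `p < ∞` and `c_0` for `p = ∞`
-/

noncomputable section

namespace Pool.Agent.Lib.MP_a0554b_an

open Filter Topology
open scoped ENNReal ZeroAtInfty

universe u v w

variable {𝕜 : Type v} [RCLike 𝕜]

/-- PROOF: every element of `ℓ_p`, `p < ∞`, tends to zero: `Ssub = ⊤`. -/
theorem iso_lp {p : ℝ≥0∞} [Fact (1 ≤ p)] (hp : p ≠ ∞) :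
    Nonempty (lp (fun _ : ℕ => 𝕜) p ≃L[𝕜] S 𝕜 p 𝕜) := by
  have hp0 : 0 < p.toReal := ENNReal.toReal_pos (p_ne_zero p) hp
  have hs : Function.Surjective (Ssub 𝕜 p 𝕜).subtypeₗᵢ := by
    intro x
    refine ⟨⟨x, ?_⟩, rfl⟩
    change Tendsto (fun k => x k) atTop (𝓝 0)
    rw [tendsto_zero_iff_norm_tendsto_zero]
    have h1 : Tendsto (fun k => ‖x k‖ ^ p.toReal) atTop (𝓝 0) :=
      ((lp.memℓp x).summable hp0).tendsto_atTop_zero
    have h2 := h1.rpow_const (p := 1 / p.toReal) (Or.inr (one_div_pos.2 hp0).le)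
    rw [Real.zero_rpow (one_div_pos.2 hp0).ne'] at h2
    refine h2.congr fun k => ?_
    rw [← Real.rpow_mul (norm_nonneg _), mul_one_div_cancel hp0.ne', Real.rpow_one]
  exact ⟨(LinearIsometryEquiv.ofSurjective _ hs).symm.toContinuousLinearEquiv⟩

/-- PROOF: `C₀(ℕ, 𝕜)` (functions tending to zero along `cocompact ℕ = cofinite = atTop`, sup norm). -/
theorem iso_c0 : Nonempty (C₀(ℕ, 𝕜) ≃L[𝕜] S 𝕜 ∞ 𝕜) := by
  have h0 : ∀ f : C₀(ℕ, 𝕜), Tendsto (fun k => f k) atTop (𝓝 0) := fun f => by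
    have := f.zero_at_infty'
    rw [Filter.cocompact_eq_cofinite, Nat.cofinite_eq_atTop] at this
    exact this
  have hb : ∀ f : C₀(ℕ, 𝕜), ∀ k, ‖f k‖ ≤ ‖f‖ := fun f k => f.toBCF.norm_coe_le_norm k
  have hm : ∀ f : C₀(ℕ, 𝕜), Memℓp (fun k => f k) ∞ := fun f => by
    rw [memℓp_infty_iff]
    exact ⟨‖f‖, by rintro _ ⟨k, rfl⟩; exact hb f k⟩
  let L : C₀(ℕ, 𝕜) →ₗ[𝕜] S 𝕜 ∞ 𝕜 :=
    { toFun := fun f => ofSeq (fun k => f k) (hm f) (h0 f)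
      map_add' := fun f g => rfl
      map_smul' := fun c f => rfl }
  have hL : ∀ f, ‖L f‖ = ‖f‖ := by
    intro f
    apply le_antisymm
    · exact lp.norm_le_of_forall_le (norm_nonneg f) (f := (L f).1) (hb f)
    · rw [← ZeroAtInftyContinuousMap.norm_toBCF_eq_norm]
      exact (f.toBCF.norm_le (norm_nonneg _)).2 fun k => norm_ev_le k (L f)
  have hs : Function.Surjective (⟨L, hL⟩ : C₀(ℕ, 𝕜) →ₗᵢ[𝕜] S 𝕜 ∞ 𝕜) := by
    intro x
    refine ⟨⟨⟨fun k => ev k x, continuous_of_discreteTopology⟩, ?_⟩, S_ext fun k => rfl⟩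
    rw [Filter.cocompact_eq_cofinite, Nat.cofinite_eq_atTop]
    exact tendsto_ev x
  exact ⟨(LinearIsometryEquiv.ofSurjective _ hs).toContinuousLinearEquiv⟩

theorem contains_of_iso {E F : Type*} {X : Type u} [NormedAddCommGroup E] [NormedSpace 𝕜 E]
    [NormedAddCommGroup F] [NormedSpace 𝕜 F] [NormedAddCommGroup X] [NormedSpace 𝕜 X]
    (e : E ≃L[𝕜] F) (h : Contains 𝕜 E X) : Contains 𝕜 F X := by
  obtain ⟨T, c, hc, hT⟩ := h
  have hM : 0 < ‖(e : E →L[𝕜] F)‖ + 1 := by positivity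
  refine ⟨T ∘L (e.symm : F →L[𝕜] E), c / (‖(e : E →L[𝕜] F)‖ + 1), div_pos hc hM, fun y => ?_⟩
  have h1 : ‖y‖ ≤ (‖(e : E →L[𝕜] F)‖ + 1) * ‖e.symm y‖ := by
    have h2 := (e : E →L[𝕜] F).le_opNorm (e.symm y)
    have h3 : (e : E →L[𝕜] F) (e.symm y) = y := e.apply_symm_apply y
    rw [h3] at h2
    nlinarith [norm_nonneg (e.symm y)]
  have h4 := hT (e.symm y)
  change c / (‖(e : E →L[𝕜] F)‖ + 1) * ‖y‖ ≤ ‖T (e.symm y)‖
  rw [div_mul_eq_mul_div, div_le_iff₀ hM]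
  calc c * ‖y‖ ≤ c * ((‖(e : E →L[𝕜] F)‖ + 1) * ‖e.symm y‖) := mul_le_mul_of_nonneg_left h1 hc.le
    _ = c * ‖e.symm y‖ * (‖(e : E →L[𝕜] F)‖ + 1) := by ring
    _ ≤ ‖T (e.symm y)‖ * (‖(e : E →L[𝕜] F)‖ + 1) := mul_le_mul_of_nonneg_right h4 hM.le

end Pool.Agent.Lib.MP_a0554b_an
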