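import Mathlib
import Pool.Agent.Lib.MP_a0554b_an.B2
import Pool.Agent.Lib.MP_a0554b_an.C2
import Pool.Agent.Lib.MP_a0554b_an.F2
import Pool.Agent.Lib.MP_a0554b_an.G2
import Pool.Agent.Lib.MP_a0554b_an.H5
import Pool.Agent.Lib.MP_a0554b_an.H6
import Pool.Agent.Lib.MP_a0554b_an.I1
import Pool.Agent.Lib.MP_a0554b_an.J1
import Pool.Agent.Lib.MP_a0554b_an.K1
import Pool.Agent.Lib.MP_a0554b_an.Z1

set_option autoImplicit false

/-!
# Assembly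
-/

noncomputable section

namespace Pool.Agent.Lib.MP_a0554b_an

open Filter Topology
open scoped ENNReal ZeroAtInfty

universe u v w

variable {𝕜 : Type v} [RCLike 𝕜] {p : ℝ≥0∞} [Fact (1 ≤ p)]

/-- the factorization, uniformly for all block sequences with nice pieces -/
theorem factor (hp : 1 < p) (b : SchauderBasis 𝕜 (S 𝕜 p 𝕜)) {K C : ℝ}
    (hK : ∀ n x, ‖b.proj n x‖ ≤ K * ‖x‖) (hK0 : 0 ≤ K) (hC : 0 ≤ C) :
    ∃ M : ℝ, 0 ≤ M ∧ ∀ y : ℕ → S 𝕜 p 𝕜, IsBlock b y →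
      (∀ k l, Nice C (Submodule.span 𝕜 (y '' Set.Ico k l))) →
      ∃ (α : closedSpan 𝕜 y →L[𝕜] S 𝕜 p (S 𝕜 p 𝕜)) (β : S 𝕜 p (S 𝕜 p 𝕜) →L[𝕜] closedSpan 𝕜 y),
        (∀ x, β (α x) = x) ∧ (∀ x, ‖α x‖ ≤ M * ‖x‖) ∧ ∀ x, ‖β x‖ ≤ M * ‖x‖ := by
  rcases eq_or_ne p ∞ with rfl | hp'
  · refine ⟨2 * max (2 * C) 1 + 16 * max (2 * C) 1 ^ 2, by positivity, fun y _ hN => ?_⟩
    obtain ⟨Q, hQ⟩ := exists_approx hC y (fun k => by
      have h := hN 0 k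
      rwa [show Set.Ico 0 k = Set.Iio k by ext; simp] at h)
    exact core_c0 hQ
  · exact ⟨4 * K + 4 * C + 2, by positivity, fun y hy hN => core_lp hp hp' b hK hK0 hC y hy hN⟩

theorem uniform_S (hp : 1 < p) (b : SchauderBasis 𝕜 (S 𝕜 p 𝕜)) (hb : BlockHomogeneous b) :
    ∃ C : ℝ, ∀ y, IsBlock b y → IsoB 𝕜 C (closedSpan 𝕜 y) (S 𝕜 p 𝕜) := by
  obtain ⟨K₀, hK₀⟩ := SchauderBasis.exists_norm_proj_le b
  have hK : ∀ n x, ‖b.proj n x‖ ≤ max K₀ 0 * ‖x‖ := fun n x =>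
    ((b.proj n).le_opNorm x).trans (by
      gcongr
      exact (hK₀ n).trans (le_max_left _ _))
  have hK0 : 0 ≤ max K₀ 0 := le_max_right _ _
  obtain ⟨N, C, hC, hglue⟩ := gluing_Ico b hb
  obtain ⟨M, hM, hfac⟩ := factor hp b hK hK0 hC
  obtain ⟨C₁, hC₁, hpel⟩ := pelczynski (𝕜 := 𝕜) (p := p) (max M 4) (by positivity)
  obtain ⟨C₂, hC₂⟩ := iso_of_tails (p := p) hK hK0 N C₁
  refine ⟨C₂, fun y hy => hC₂ y hy ?_⟩
  have hy' := hy.shift N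
  have hsupp : ∀ k n, b.coord n (y (k + N)) ≠ 0 → N ≤ n := by
    intro k n hn
    obtain ⟨e, he⟩ := hy.exists_cut
    have h1 := (he.supp (k + N) n hn).1
    have h2 := he.mono.id_le (k + N)
    simp only [id] at h2
    omega
  obtain ⟨α, β, h1, h2, h3⟩ := hfac _ hy' (hglue _ hy' hsupp)
  obtain ⟨γ, δ, h4, h5, h6⟩ := exists_copy _ (closedSpan_isClosed (𝕜 := 𝕜) (fun k => y (k + N)))
    hy'.not_finiteDimensional
  refine hpel _ α β γ δ h1 h4 (fun x => (h2 x).trans ?_) (fun x => (h3 x).trans ?_)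
    (fun x => (h5 x).trans ?_) (fun x => (h6 x).trans ?_)
  · gcongr; exact le_max_left _ _
  · gcongr; exact le_max_left _ _
  · gcongr; exact le_max_right _ _
  · gcongr; exact le_max_right _ _

theorem uniform_of_contains {X : Type u} [NormedAddCommGroup X] [NormedSpace 𝕜 X]
    [CompleteSpace X] (hp : 1 < p) (b : SchauderBasis 𝕜 X) (hb : BlockHomogeneous b)
    (h : Contains 𝕜 (S 𝕜 p 𝕜) X) : ∃ C : ℝ, BlockHomogeneousWith b C := by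
  obtain ⟨τ⟩ := iso_of_contains b hb h
  obtain ⟨b', _, hb'⟩ := exists_map b τ
  obtain ⟨C, hC⟩ := uniform_S hp b' (blockHomogeneous_map b τ b' hb' hb)
  exact blockHomogeneousWith_map b τ b' hb' hC

/-- A block-homogeneous space (for any Schauder basis) which contains a copy of `c_0` or of `ℓ_p`
for some `1 < p < ∞` is `C`-block-homogeneous for some `C`. -/
theorem main {X : Type u} [NormedAddCommGroup X] [NormedSpace 𝕜 X]
    [CompleteSpace X] (b : SchauderBasis 𝕜 X) (hb : BlockHomogeneous b)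
    (h : (∃ (q : ℝ≥0∞) (_ : Fact (1 ≤ q)), 1 < q ∧ q < ∞ ∧ Contains 𝕜 (lp (fun _ : ℕ => 𝕜) q) X) ∨
      Contains 𝕜 C₀(ℕ, 𝕜) X) : ∃ C : ℝ, BlockHomogeneousWith b C := by
  rcases h with ⟨q, hq, h1, h2, h3⟩ | h
  · obtain ⟨e⟩ := iso_lp (𝕜 := 𝕜) h2.ne
    exact uniform_of_contains h1 b hb (contains_of_iso e h3)
  · obtain ⟨e⟩ := iso_c0 (𝕜 := 𝕜)
    exact uniform_of_contains (p := ∞) (by simp) b hb (contains_of_iso e h)

end Pool.Agent.Lib.MP_a0554b_an
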