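import Mathlib
import Pool.Agent.Lib.MP_a0554b_an.L9
import Pool.Agent.Lib.MP_a0554b_an.Z2

set_option autoImplicit false

/-!
# `ℓ_1`, bases of finite defect of bounded completeness: assembly
-/

noncomputable section

namespace Pool.Agent.Lib.MP_a0554b_an

open Filter Topology
open scoped ENNReal

universe u v w

variable {𝕜 : Type v} [RCLike 𝕜]

theorem separable_closedSpan {X : Type u} [NormedAddCommGroup X] [NormedSpace 𝕜 X] (y : ℕ → X) :
    TopologicalSpace.SeparableSpace (closedSpan 𝕜 y) := by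
  have h1 : TopologicalSpace.IsSeparable ((closedSpan 𝕜 y : Submodule 𝕜 X) : Set X) := by
    unfold closedSpan
    rw [Submodule.topologicalClosure_coe]
    exact ((Set.countable_range y).isSeparable.span (R := 𝕜)).closure
  exact h1.separableSpace

/-- the defect is transported along an isomorphism -/
theorem BoundedlyCompleteUpTo.map {X : Type u} [NormedAddCommGroup X] [NormedSpace 𝕜 X]
    {Z : Type w} [NormedAddCommGroup Z] [NormedSpace 𝕜 Z] {b : SchauderBasis 𝕜 X} {m : ℕ}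
    (hb : BoundedlyCompleteUpTo b m) (τ : X ≃L[𝕜] Z) (b' : SchauderBasis 𝕜 Z)
    (hb' : ∀ n, b' n = τ (b n)) : BoundedlyCompleteUpTo b' m := by
  obtain ⟨s, hs⟩ := hb
  refine ⟨s, ?_⟩
  rintro a ⟨M, hM⟩
  have key : ∀ (a : ℕ → 𝕜) n,
      τ.symm (∑ i ∈ Finset.range n, a i • b' i) = ∑ i ∈ Finset.range n, a i • b i := by
    intro a n
    rw [map_sum]
    refine Finset.sum_congr rfl fun i _ => ?_
    rw [map_smul, hb', ContinuousLinearEquiv.symm_apply_apply]
  obtain ⟨c, x, hx⟩ := hs a ⟨‖(τ.symm : Z →L[𝕜] X)‖ * M, fun n => by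
    rw [← key]
    refine ((τ.symm : Z →L[𝕜] X).le_opNorm _).trans ?_
    gcongr
    exact hM n⟩
  refine ⟨c, τ x, ?_⟩
  have h2 := (τ.continuous.tendsto x).comp hx
  refine h2.congr fun n => ?_
  simp only [Function.comp]
  rw [← key (fun i => a i - ∑ j, c j * s j i), ContinuousLinearEquiv.apply_symm_apply]

theorem uniform_S_one (b : SchauderBasis 𝕜 (S 𝕜 1 𝕜)) (hb : BlockHomogeneous b) {m : ℕ}
    (hbc : BoundedlyCompleteUpTo b m) :
    ∃ C : ℝ, ∀ y, IsBlock b y → IsoB 𝕜 C (closedSpan 𝕜 y) (S 𝕜 1 𝕜) := by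
  obtain ⟨K₀, hK₀⟩ := SchauderBasis.exists_norm_proj_le b
  set K := max K₀ 1 with hKdef
  have hK : ∀ n x, ‖b.proj n x‖ ≤ K * ‖x‖ := fun n x =>
    ((b.proj n).le_opNorm x).trans (by
      gcongr
      exact (hK₀ n).trans (le_max_left _ _))
  have hK1 : 1 ≤ K := le_max_right _ _
  have hK0 : 0 ≤ K := zero_le_one.trans hK1
  obtain ⟨N, C, hC, hglue⟩ := gluing_Ico b hb
  set M := max (max (K * K) (3 ^ m * (2 * (K * (K * C) + 1)))) 4 with hM
  obtain ⟨C₁, hC₁, hpel⟩ := pelczynski (𝕜 := 𝕜) (p := 1) M (by positivity)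
  obtain ⟨C₂, hC₂⟩ := iso_of_tails (p := 1) hK hK0 N C₁
  refine ⟨C₂, fun y hy => hC₂ y hy ?_⟩
  have hy' := hy.shift N
  have hsupp : ∀ k n, b.coord n (y (k + N)) ≠ 0 → N ≤ n := by
    intro k n hn
    obtain ⟨e, he⟩ := hy.exists_cut
    have h1 := (he.supp (k + N) n hn).1
    have h2 := he.mono.id_le (k + N)
    simp only [id] at h2
    omega
  obtain ⟨e, P, a, r, he, hPc, hsys⟩ := exists_sys0 b hK hK1 hC _ hy' (fun k => by
    have h := hglue _ hy' hsupp 0 k
    rwa [show Set.Ico 0 k = Set.Iio k by ext; simp] at h)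
  haveI := separable_closedSpan (𝕜 := 𝕜) (fun k => y (k + N))
  haveI : CompleteSpace (closedSpan 𝕜 (fun k => y (k + N))) :=
    (closedSpan_isClosed (𝕜 := 𝕜) (fun k => y (k + N))).completeSpace_coe
  obtain ⟨s, hs⟩ := exists_defect hK hK0 he hPc hsys.P_P hbc
  obtain ⟨α, β, h1, h2, h3⟩ := hsys.factor s hs
  obtain ⟨γ, δ, h4, h5, h6⟩ := exists_copy _ (closedSpan_isClosed (𝕜 := 𝕜) (fun k => y (k + N)))
    hy'.not_finiteDimensional
  refine hpel _ ((sgl 0).comp α) (β.comp (ev 0)) γ δ (fun x => ?_) h4 (fun x => ?_) (fun x => ?_)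
    (fun x => (h5 x).trans ?_) (fun x => (h6 x).trans ?_)
  · simp only [ContinuousLinearMap.comp_apply, ev_sgl, if_true]
    exact h1 x
  · simp only [ContinuousLinearMap.comp_apply, norm_sgl]
    refine (h2 x).trans ?_
    gcongr
    exact (le_max_left _ _).trans (le_max_left _ _)
  · simp only [ContinuousLinearMap.comp_apply]
    refine (h3 _).trans ?_
    have h7 : ‖ev 0 x‖ ≤ ‖x‖ := norm_ev_le 0 x
    have h8 : 3 ^ m * (2 * (K * (K * C) + 1)) ≤ M := (le_max_right _ _).trans (le_max_left _ _)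
    have h9 : 0 ≤ 3 ^ m * (2 * (K * (K * C) + 1)) := by positivity
    calc 3 ^ m * (2 * (K * (K * C) + 1)) * ‖ev 0 x‖
        ≤ 3 ^ m * (2 * (K * (K * C) + 1)) * ‖x‖ := by gcongr
      _ ≤ M * ‖x‖ := by gcongr
  · gcongr; exact le_max_right _ _
  · gcongr; exact le_max_right _ _

theorem uniform_of_contains_one {X : Type u} [NormedAddCommGroup X] [NormedSpace 𝕜 X]
    [CompleteSpace X] (b : SchauderBasis 𝕜 X) (hb : BlockHomogeneous b)
    {m : ℕ} (hbc : BoundedlyCompleteUpTo b m) (h : Contains 𝕜 (S 𝕜 1 𝕜) X) :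
    ∃ C : ℝ, BlockHomogeneousWith b C := by
  obtain ⟨τ⟩ := iso_of_contains b hb h
  obtain ⟨b', hb1, hb'⟩ := exists_map b τ
  obtain ⟨C, hC⟩ := uniform_S_one b' (blockHomogeneous_map b τ b' hb' hb) (hbc.map τ b' hb1)
  exact blockHomogeneousWith_map b τ b' hb' hC

end Pool.Agent.Lib.MP_a0554b_an
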